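import Pool.Agent.D4.Defs
import Pool.Agent.Z5.Basis

/-!
# Change of basis in the mixed determinants, `d` families of `G` rows

Adaptation of `Pool/Agent/Z9/Basis` and `Pool/Agent/Z5/Basis` (`det_gen`, `lin_mul`,
`F_mul`).  The matrix of the row change is block diagonal with one block `cm a φ` and `d` equal
blocks `cm b χ`.  Only absolute values: the column exponents `jR d a b` are a bijection onto
`range (a + d * b)` and contribute a permutation.
-/

open Finset

namespace Pool.Agent.D4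

open Pool.Agent.Z5 (co rho Hs F tot mono cm)
open Pool.Agent.Z5.BasisAux (coL rhoL rhoL_apply eq_sum_fin F_sum)

variable {A L d : ℕ} {e : ℕ → ℕ}

namespace BasisAux

/-- the column exponents are a bijection onto `range (a + d * b)` -/
def jE (d a b : ℕ) : Fin a ⊕ Fin d × Fin b ≃ Fin (a + d * b) :=
  (Equiv.sumCongr (Equiv.refl _) finProdFinEquiv).trans finSumFinEquiv

lemma jE_val (d a b : ℕ) (x : Fin a ⊕ Fin d × Fin b) : ((jE d a b x : Fin (a + d * b)) : ℕ) = jR d a b x := by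
  rcases x with i | ⟨j, i⟩ <;> rfl

lemma jR_lt (d a b : ℕ) (x : Fin a ⊕ Fin d × Fin b) : jR d a b x < a + d * b := by
  rw [← jE_val]
  exact (jE d a b x).2

/-- `rho0` as a linear map -/
noncomputable def rho0L (A L : ℕ) (e : ℕ → ℕ) : Polynomial ℚ →ₗ[ℚ] ℚ :=
  - ∑ u ∈ range (L + 1), ∑ i ∈ Finset.Icc 1 (2 * A), Hs i u • coL L e u i

lemma rho0L_apply (h : Polynomial ℚ) : rho0L A L e h = rho0 A L e h := by
  simp only [rho0L, rho0, coL, LinearMap.sum_apply, LinearMap.neg_apply, LinearMap.smul_apply,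
    LinearMap.coe_mk, AddHom.coe_mk, smul_eq_mul]
  congr 1
  exact Finset.sum_congr rfl fun u _ => Finset.sum_congr rfl fun i _ => mul_comm _ _

/-- `G` as a linear map -/
noncomputable def Glin (A L : ℕ) (e : ℕ → ℕ) (β : ℕ → ℚ) : Polynomial ℚ →ₗ[ℚ] ℚ :=
  ∑ k ∈ Finset.Icc 1 (A - 1), β k • rhoL L e (2 * k + 1)

lemma Glin_apply (β : ℕ → ℚ) (h : Polynomial ℚ) : Glin A L e β h = G A L e β h := by
  simp only [Glin, G, LinearMap.sum_apply, LinearMap.smul_apply, smul_eq_mul, rhoL_apply]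

/-- `Ph` as a linear map -/
noncomputable def PhL (A L : ℕ) (e : ℕ → ℕ) (α : ℕ → ℚ) : Polynomial ℚ →ₗ[ℚ] ℚ :=
  rho0L A L e + Glin A L e α

lemma PhL_apply (α : ℕ → ℚ) (h : Polynomial ℚ) : PhL A L e α h = Ph A L e α h := by
  simp [PhL, Ph, rho0L_apply, Glin_apply]

/-- expansion of a product in the monomials -/
lemma mul_eq_sum (c a b : ℕ) (φ ψ : Polynomial ℚ) (hφ : φ.degree < c)
    (hψ : ψ.degree < (a + d * b : ℕ)) :
    φ * ψ = ∑ k : Fin c, ∑ l : Fin a ⊕ Fin d × Fin b,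
      Polynomial.C (φ.coeff k * ψ.coeff (jR d a b l)) *
        (Polynomial.X ^ (k : ℕ) * monoR d a b l) := by
  conv_lhs => rw [eq_sum_fin c φ hφ, eq_sum_fin (a + d * b) ψ hψ, Finset.sum_mul_sum]
  refine Finset.sum_congr rfl fun k _ => ?_
  rw [← Equiv.sum_comp (jE d a b)]
  refine Finset.sum_congr rfl fun l _ => ?_
  rw [jE_val, Polynomial.C_mul, monoR]
  ring

/-- a linear functional of a product -/
lemma lin_mul (T : Polynomial ℚ →ₗ[ℚ] ℚ) (c a b : ℕ) (φ ψ : Polynomial ℚ) (hφ : φ.degree < c)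
    (hψ : ψ.degree < (a + d * b : ℕ)) :
    T (φ * ψ) = ∑ k : Fin c, ∑ l : Fin a ⊕ Fin d × Fin b,
      φ.coeff k * T (Polynomial.X ^ (k : ℕ) * monoR d a b l) * ψ.coeff (jR d a b l) := by
  rw [mul_eq_sum c a b φ ψ hφ hψ, map_sum]
  refine Finset.sum_congr rfl fun k _ => ?_
  rw [map_sum]
  refine Finset.sum_congr rfl fun l _ => ?_
  rw [← Polynomial.smul_eq_C_mul, map_smul, smul_eq_mul]
  ring

lemma F_mul (a b : ℕ) (hd : 4 * a + 2 * (d * b) ≤ tot L e + 1) (φ ψ : Polynomial ℚ)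
    (hφ : φ.degree < a) (hψ : ψ.degree < (a + d * b : ℕ)) :
    F L e (φ * ψ) = ∑ k : Fin a, ∑ l : Fin a ⊕ Fin d × Fin b,
      (φ.coeff k : ℝ) * F L e (Polynomial.X ^ (k : ℕ) * monoR d a b l) *
        (ψ.coeff (jR d a b l) : ℝ) := by
  rw [mul_eq_sum a a b φ ψ hφ hψ, ← Fintype.sum_prod_type'
    (f := fun (k : Fin a) (l : Fin a ⊕ Fin d × Fin b) =>
        Polynomial.C (φ.coeff k * ψ.coeff (jR d a b l)) *
        (Polynomial.X ^ (k : ℕ) * monoR d a b l)), F_sum, Fintype.sum_prod_type]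
  · refine Finset.sum_congr rfl fun k _ => Finset.sum_congr rfl fun l _ => ?_
    push_cast
    ring
  · rintro ⟨k, l⟩ -
    rw [monoR, ← pow_add, Polynomial.natDegree_X_pow]
    have h1 := k.2
    have h2 := jR_lt d a b l
    simp only
    omega

/-- matrix identity behind the change of basis -/
theorem det_gen {R : Type*} [CommRing R] [LinearOrder R] [IsStrictOrderedRing R] (r : ℚ →+* R)
    {ι κ : Type*} [Fintype ι] [DecidableEq ι]
    [Fintype κ] [DecidableEq κ] (a b : ℕ) (f : ι ≃ Fin a) (g : κ ≃ Fin b)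
    (t : ι ⊕ Fin d × κ ≃ Fin (a + d * b))
    (φ : ι → Polynomial ℚ) (χ : κ → Polynomial ℚ) (ψ : ι ⊕ Fin d × κ → Polynomial ℚ)
    (M : Matrix (ι ⊕ Fin d × κ) (ι ⊕ Fin d × κ) R)
    (M0 : Matrix (Fin a ⊕ Fin d × Fin b) (Fin a ⊕ Fin d × Fin b) R)
    (h1 : ∀ i s, M (Sum.inl i) s = ∑ k : Fin a, ∑ l,
      r ((φ i).coeff k) * M0 (Sum.inl k) l * r ((ψ s).coeff (jR d a b l)))
    (h2 : ∀ j i s, M (Sum.inr (j, i)) s = ∑ k : Fin b, ∑ l,
      r ((χ i).coeff k) * M0 (Sum.inr (j, k)) l * r ((ψ s).coeff (jR d a b l))) :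
    |M.det| = |r ((cm a φ).submatrix id f).det| * |r ((cm b χ).submatrix id g).det| ^ d *
        |r ((cm (a + d * b) ψ).submatrix id t).det| * |M0.det| := by
  classical
  set e1 : ι ⊕ Fin d × κ ≃ Fin a ⊕ Fin d × Fin b :=
    Equiv.sumCongr f (Equiv.prodCongr (Equiv.refl _) g) with he1
  set B : Matrix (Fin b) (Fin b) R := ((cm b χ).map r).submatrix g.symm id with hB
  set P : Matrix (Fin a ⊕ Fin d × Fin b) (Fin a ⊕ Fin d × Fin b) R :=
    Matrix.fromBlocks (((cm a φ).map r).submatrix f.symm id) 0 0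
      (Matrix.kroneckerMap (· * ·) (1 : Matrix (Fin d) (Fin d) R) B) with hP
  set Q : Matrix (Fin a ⊕ Fin d × Fin b) (Fin a ⊕ Fin d × Fin b) R :=
    ((cm (a + d * b) ψ).map r).submatrix e1.symm (jE d a b) with hQ
  have hM : M.submatrix e1.symm e1.symm = P * M0 * Q.transpose := by
    ext x s
    rw [Matrix.mul_apply, Matrix.submatrix_apply]
    have hQa : ∀ l, Q.transpose l s = r ((ψ (e1.symm s)).coeff (jR d a b l)) := by
      intro l
      rw [← jE_val]
      rfl
    rcases x with i | ⟨j, i⟩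
    · have hx : e1.symm (Sum.inl i) = Sum.inl (f.symm i) := rfl
      rw [hx, h1, Finset.sum_comm]
      refine Finset.sum_congr rfl fun l _ => ?_
      rw [Matrix.mul_apply, Fintype.sum_sum_type, hQa, ← Finset.sum_mul]
      congr 1
      have e0 : ∑ x : Fin d × Fin b, P (Sum.inl i) (Sum.inr x) * M0 (Sum.inr x) l = 0 :=
        Finset.sum_eq_zero fun x _ => by
          rw [hP, Matrix.fromBlocks_apply₁₂, Matrix.zero_apply, zero_mul]
      rw [e0, add_zero]
      exact Finset.sum_congr rfl fun k _ => rfl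
    · have hx : e1.symm (Sum.inr (j, i)) = Sum.inr (j, g.symm i) := rfl
      rw [hx, h2, Finset.sum_comm]
      refine Finset.sum_congr rfl fun l _ => ?_
      rw [Matrix.mul_apply, Fintype.sum_sum_type, hQa, ← Finset.sum_mul]
      congr 1
      have e0 : ∑ x : Fin a, P (Sum.inr (j, i)) (Sum.inl x) * M0 (Sum.inl x) l = 0 :=
        Finset.sum_eq_zero fun x _ => by
          rw [hP, Matrix.fromBlocks_apply₂₁, Matrix.zero_apply, zero_mul]
      rw [e0, zero_add, Fintype.sum_prod_type, Finset.sum_eq_single j]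
      · refine Finset.sum_congr rfl fun k _ => ?_
        rw [hP, Matrix.fromBlocks_apply₂₂, Matrix.kroneckerMap_apply, Matrix.one_apply_eq, one_mul]
        rfl
      · intro j' _ hj'
        refine Finset.sum_eq_zero fun k _ => ?_
        rw [hP, Matrix.fromBlocks_apply₂₂, Matrix.kroneckerMap_apply,
          Matrix.one_apply_ne (Ne.symm hj'), zero_mul, zero_mul]
      · intro h
        exact absurd (Finset.mem_univ _) h
  have hdM : |M.det| = |(M.submatrix e1.symm e1.symm).det| :=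
    (Matrix.abs_det_submatrix_equiv_equiv e1.symm e1.symm M).symm
  have hdA : |(((cm a φ).map r).submatrix f.symm id).det| = |r ((cm a φ).submatrix id f).det| := by
    rw [RingHom.map_det, ← Matrix.abs_det_submatrix_equiv_equiv f.symm f.symm]
    congr 2
    ext x y
    simp [Matrix.submatrix_apply]
  have hdB : |B.det| = |r ((cm b χ).submatrix id g).det| := by
    rw [RingHom.map_det, ← Matrix.abs_det_submatrix_equiv_equiv g.symm g.symm]
    congr 2
    ext x y
    simp [hB, Matrix.submatrix_apply]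
  have hdQ : |Q.det| = |r ((cm (a + d * b) ψ).submatrix id t).det| := by
    rw [RingHom.map_det, ← Matrix.abs_det_submatrix_equiv_equiv e1.symm ((jE d a b).trans t.symm)]
    congr 2
    ext x y
    simp [hQ, Matrix.submatrix_apply]
  have hdP : |P.det| = |r ((cm a φ).submatrix id f).det| * |r ((cm b χ).submatrix id g).det| ^ d := by
    rw [hP, Matrix.det_fromBlocks_zero₂₁, Matrix.det_kronecker, Matrix.det_one, one_pow, one_mul,
      Fintype.card_fin, abs_mul, abs_pow, hdA, hdB]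
  rw [hdM, hM, Matrix.det_mul, Matrix.det_mul, Matrix.det_transpose, abs_mul, abs_mul, hdP, hdQ]
  ring

end BasisAux

open BasisAux

theorem abs_det_gmat {ι κ : Type*} [Fintype ι] [DecidableEq ι] [Fintype κ] [DecidableEq κ]
    (a b : ℕ) (f : ι ≃ Fin a) (g : κ ≃ Fin b) (t : ι ⊕ Fin d × κ ≃ Fin (a + d * b))
    (α : ℕ → ℚ) (β : Fin d → ℕ → ℚ) (φ : ι → Polynomial ℚ) (χ : κ → Polynomial ℚ)
    (ψ : ι ⊕ Fin d × κ → Polynomial ℚ) (hφ : ∀ i, (φ i).degree < a) (hχ : ∀ i, (χ i).degree < b)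
    (hψ : ∀ i, (ψ i).degree < (a + d * b : ℕ)) :
    |(gmat A L e α β φ χ ψ).det| =
      |((cm a φ).submatrix id f).det| * |((cm b χ).submatrix id g).det| ^ d *
        |((cm (a + d * b) ψ).submatrix id t).det| * |DQ A L e α β a b| := by
  refine BasisAux.det_gen (RingHom.id ℚ) a b f g t φ χ ψ (gmat A L e α β φ χ ψ)
    (gmat A L e α β (mono a) (mono b) (monoR d a b)) ?_ ?_
  · intro i s
    simp only [gmat, Matrix.of_apply, Sum.elim_inl, RingHom.id_apply, mono]
    rw [← PhL_apply, lin_mul (PhL A L e α) a a b _ _ (hφ i) (hψ s)]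
    simp only [PhL_apply]
  · intro j i s
    simp only [gmat, Matrix.of_apply, Sum.elim_inr, RingHom.id_apply, mono]
    rw [← Glin_apply, lin_mul (Glin A L e (β j)) b a b _ _ (hχ i) (hψ s)]
    simp only [Glin_apply]

theorem abs_det_rmat {ι κ : Type*} [Fintype ι] [DecidableEq ι] [Fintype κ] [DecidableEq κ]
    (a b : ℕ) (f : ι ≃ Fin a) (g : κ ≃ Fin b) (t : ι ⊕ Fin d × κ ≃ Fin (a + d * b))
    (hd : 4 * a + 2 * (d * b) ≤ tot L e + 1)
    (β : Fin d → ℕ → ℚ) (φ : ι → Polynomial ℚ) (χ : κ → Polynomial ℚ)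
    (ψ : ι ⊕ Fin d × κ → Polynomial ℚ) (hφ : ∀ i, (φ i).degree < a) (hχ : ∀ i, (χ i).degree < b)
    (hψ : ∀ i, (ψ i).degree < (a + d * b : ℕ)) :
    |(rmat A L e β φ χ ψ).det| =
      ((|((cm a φ).submatrix id f).det| * |((cm b χ).submatrix id g).det| ^ d *
        |((cm (a + d * b) ψ).submatrix id t).det| : ℚ) : ℝ) * |DR A L e β a b| := by
  have h := BasisAux.det_gen (Rat.castHom ℝ) a b f g t φ χ ψ (rmat A L e β φ χ ψ)
    (rmat A L e β (mono a) (mono b) (monoR d a b)) ?_ ?_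
  · rw [h]
    simp only [Rat.cast_mul, Rat.cast_pow, Rat.cast_abs]
    rfl
  · intro i s
    simp only [rmat, Matrix.of_apply, Sum.elim_inl, eq_ratCast, mono]
    exact BasisAux.F_mul a b hd _ _ (hφ i) (hψ s)
  · intro j i s
    simp only [rmat, Matrix.of_apply, Sum.elim_inr, eq_ratCast, mono]
    rw [← Glin_apply, lin_mul (Glin A L e (β j)) b a b _ _ (hχ i) (hψ s)]
    push_cast
    simp only [Glin_apply]

end Pool.Agent.D4
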