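import Pool.Agent.D4.ArchDefs
import Pool.Agent.D4.Basis
import Pool.Agent.Z5.ArchBasis

/-!
# The determinant inequality in the basis of the nodes
-/

open Finset

namespace Pool.Agent.D4

open Pool.Agent.Z5 (F lagQ tot pairProd)

open Pool.Agent.Z5 (cm abs_det_le_rows) in
open Pool.Agent.Z5.ArchBasisAux in
theorem arch_basis {A L d : ℕ} {e : ℕ → ℕ} {ι κ ω : Type*} [Fintype ι] [DecidableEq ι]
    [Fintype κ] [DecidableEq κ] [Fintype ω] [DecidableEq ω] (a b : ℕ)
    (hd : 4 * a + 2 * (d * b) ≤ tot L e + 1) (f : ι ≃ Fin a) (g : κ ≃ Fin b)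
    (k : ω ≃ Fin (d * b)) (x : ι → ℚ) (z : κ → ℚ) (w : ω → ℚ) (hz : Function.Injective z)
    (hs : Function.Injective (Sum.elim x w)) (β : Fin d → ℕ → ℚ) (A1 : ι → ℝ) (B1 : κ → ℝ)
    (hA : ∀ i c, |F L e (lagQ x i * lagQ (Sum.elim x w) c)| ≤ A1 i)
    (hB : ∀ j i c, |(G A L e (β j) (lagQ z i * lagQ (Sum.elim x w) c) : ℝ)| ≤ B1 i) :
    √(pairProd fun i => (x i : ℝ)) * √(pairProd fun i => (z i : ℝ)) ^ d
        * √(pairProd fun i => ((Sum.elim x w i : ℚ) : ℝ)) * |DR A L e β a b|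
      ≤ (a + d * b).factorial * ((∏ i, A1 i) * (∏ i, B1 i) ^ d) := by
  have hx : Function.Injective x := fun i j h => by
    have := @hs (Sum.inl i) (Sum.inl j) h
    exact Sum.inl_injective this
  set σ : ι ⊕ Fin d × κ ≃ ι ⊕ ω := Equiv.sumCongr (Equiv.refl ι)
    ((Equiv.prodCongr (Equiv.refl (Fin d)) g).trans (finProdFinEquiv.trans k.symm)) with hσ
  set t : ι ⊕ Fin d × κ ≃ Fin (a + d * b) := (Equiv.sumCongr f
    ((Equiv.prodCongr (Equiv.refl (Fin d)) g).trans finProdFinEquiv)).trans finSumFinEquiv with ht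
  have h1 := abs_det_rmat (A := A) (L := L) (e := e) a b f g t hd β (lagQ x) (lagQ z)
    (fun c => lagQ (Sum.elim x w) (σ c))
    (degree_lagQ_lt f x) (degree_lagQ_lt g z)
    (fun c => degree_lagQ_lt ((Equiv.sumCongr f k).trans finSumFinEquiv) (Sum.elim x w) (σ c))
  have h3 : |((((cm (a + d * b) fun c => lagQ (Sum.elim x w) (σ c)).submatrix id t).det : ℚ) : ℝ)|
      = √(pairProd fun i => ((Sum.elim x w i : ℚ) : ℝ)) := by
    have e1 : ((cm (a + d * b) fun c => lagQ (Sum.elim x w) (σ c)).submatrix id t).det =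
        ((((cm (a + d * b) fun c => lagQ (Sum.elim x w) (σ c)).submatrix id t)).submatrix
          σ.symm σ.symm).det := (Matrix.det_submatrix_equiv_self σ.symm _).symm
    rw [e1]
    refine abs_det_cast (σ.symm.trans t) hs _ fun i j => ?_
    simp [cm]
  have h2 : |(rmat A L e β (lagQ x) (lagQ z) (fun c => lagQ (Sum.elim x w) (σ c))).det| =
      √(pairProd fun i => (x i : ℝ)) * √(pairProd fun i => (z i : ℝ)) ^ d
        * √(pairProd fun i => ((Sum.elim x w i : ℚ) : ℝ)) * |DR A L e β a b| := by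
    rw [h1]
    congr 1
    rw [Rat.cast_mul, Rat.cast_mul, Rat.cast_pow, Rat.cast_abs, Rat.cast_abs, Rat.cast_abs,
      abs_det_cast f hx ((cm a (lagQ x)).submatrix id f) (fun i j => rfl),
      abs_det_cast g hz ((cm b (lagQ z)).submatrix id g) (fun i j => rfl), h3]
  rw [← h2]
  refine (abs_det_le_rows _ (Sum.elim A1 fun y : Fin d × κ => B1 y.2) ?_).trans ?_
  · rintro (i | i) c
    · exact hA i (σ c)
    · exact hB i.1 i.2 (σ c)
  · rw [Fintype.prod_sum_type, Fintype.card_sum, Fintype.card_congr f, Fintype.card_prod,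
      Fintype.card_congr g, Fintype.card_fin, Fintype.card_fin, Fintype.card_fin]
    simp only [Sum.elim_inl, Sum.elim_inr, Fintype.prod_prod_type, Finset.prod_const,
      Finset.card_univ, Fintype.card_fin]
    exact le_rfl

end Pool.Agent.D4
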