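import Pool.Agent.D4.ArchDefs
import Pool.Agent.Z5.ArchEn

/-! The reference densities used for `ζ(3), …, ζ(49)` (equal blocks, `M = 4`, `s = s' = 20`, pole
order `50`, two families): data.  The density of `W` is twice the one of `Z`.  Seat: helper6. -/

open Finset

namespace Pool.Agent.D4

open Pool.Agent.Z5 (Ref NRef Repr Trm cellsOk tailOk)

/-- edges of the blocks of `X`, in units of `1/20` -/
def eX : List ℕ := [40, 353, 418, 593]
/-- densities of the blocks of `X`, in units of `1/10` -/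
def cX : List ℕ := [10, 8, 2]
def eZ : List ℕ := [0, 17, 31, 36]
def cZ : List ℕ := [123, 111, 71]
def cW : List ℕ := [246, 222, 142]

def NX : NRef where
  B := 3
  e := fun i => eX.getD i 0
  c := fun i => cX.getD i 0
  s := 20

def NZ : NRef where
  B := 3
  e := fun i => eZ.getD i 0
  c := fun i => cZ.getD i 0
  s := 20

def NW : NRef where
  B := 3
  e := fun i => eZ.getD i 0
  c := fun i => cW.getD i 0
  s := 40

/-- reference density of the `F` rows -/
def XX : Ref where
  B := 3
  ed := fun i => ((eX.getD i 0 : ℕ) : ℚ) / 20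
  d := fun i => ((cX.getD i 0 : ℕ) : ℚ) / 10
  s := 20
  B_pos := by norm_num
  ed_zero := by positivity
  ed_lt := by decide +kernel
  d_pos := by decide +kernel
  total := by decide +kernel

/-- reference density of a family of `G` rows -/
def ZZ : Ref where
  B := 3
  ed := fun i => ((eZ.getD i 0 : ℕ) : ℚ) / 20
  d := fun i => ((cZ.getD i 0 : ℕ) : ℚ) / 10
  s := 20
  B_pos := by norm_num
  ed_zero := by positivity
  ed_lt := by decide +kernel
  d_pos := by decide +kernel
  total := by decide +kernel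

/-- reference density of the additional columns -/
def WW : Ref where
  B := 3
  ed := fun i => ((eZ.getD i 0 : ℕ) : ℚ) / 20
  d := fun i => ((cW.getD i 0 : ℕ) : ℚ) / 10
  s := 40
  B_pos := by norm_num
  ed_zero := by positivity
  ed_lt := by decide +kernel
  d_pos := by decide +kernel
  total := by decide +kernel

theorem reprX : Repr 20 10 NX XX := by
  refine ⟨rfl, ?_, ?_, rfl⟩ <;> intro i _ <;> simp [XX, NX]

theorem reprZ : Repr 20 10 NZ ZZ := by
  refine ⟨rfl, ?_, ?_, rfl⟩ <;> intro i _ <;> simp [ZZ, NZ]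

theorem reprW : Repr 20 10 NW WW := by
  refine ⟨rfl, ?_, ?_, rfl⟩ <;> intro i _ <;> simp [WW, NW]

/-- jumps of `gF` -/
def tsF : List Trm :=
 [⟨true, 24, 17⟩,
  ⟨true, 80, 31⟩,
  ⟨true, 142, 36⟩,
  ⟨false, 520, 40⟩,
  ⟨true, 4, 353⟩,
  ⟨true, 12, 418⟩,
  ⟨true, 4, 593⟩]

/-- jumps of `gRW` -/
def tsR : List Trm :=
 [⟨true, 36, 17⟩,
  ⟨true, 120, 31⟩,
  ⟨true, 213, 36⟩,
  ⟨false, 510, 40⟩,
  ⟨true, 2, 353⟩,
  ⟨true, 6, 418⟩,
  ⟨true, 2, 593⟩]

/-- jumps of `-gF` -/
def tsFm : List Trm :=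
 [⟨false, 24, 17⟩,
  ⟨false, 80, 31⟩,
  ⟨false, 142, 36⟩,
  ⟨true, 520, 40⟩,
  ⟨false, 4, 353⟩,
  ⟨false, 12, 418⟩,
  ⟨false, 4, 593⟩]

def cellsF : List ℕ := [410, 418, 485, 593, 758, 767]
def cellsR : List ℕ := [8, 15, 17, 22, 29, 31, 34, 36, 38, 40]
def cellsS : List ℕ := [216, 320, 351, 353]

set_option maxRecDepth 100000 in
theorem okF : cellsOk 20 tsF 0 29115 353 cellsF = true := by decide +kernel

set_option maxRecDepth 100000 in
theorem okR : cellsOk 20 tsR 19388 0 0 cellsR = true := by decide +kernel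

set_option maxRecDepth 100000 in
theorem okS : cellsOk 20 tsFm 29376 0 40 cellsS = true := by decide +kernel

set_option maxRecDepth 100000 in
theorem okT : tailOk 20 tsF 0 29115 767 = true := by decide +kernel

end Pool.Agent.D4
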