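import Pool.Agent.D4.Defs
import Pool.Agent.Z5.ArchDefs

/-!
# Archimedean part: hypotheses, constant

The reference densities, potentials and energies are those of `Pool.Agent.Z5.ArchDefs`.
`X` is the density of the `F` rows, `Z` the density of the nodes of one family of `G` rows, and the
columns are the union of the nodes of `X` and of `W`; the total mass of `W` is `d` times the one of
`Z`.
-/

open Finset

namespace Pool.Agent.D4

open Pool.Agent.Z5 (Ref gF primF poleU)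

/-- potential seen by the `G` rows -/
noncomputable def gRW (M : ℕ) (E : ℕ → ℕ) (X Z W : Ref) (z : ℝ) : ℝ :=
  Z.U z + X.U z + W.U z - poleU M E z

/-- the archimedean constant, in units of `p ^ 2` -/
noncomputable def archConst (M : ℕ) (E : ℕ → ℕ) (d : ℕ) (X Z W : Ref) (lF lR η : ℝ) : ℝ :=
  -(X.energy X + X.energy W + (W.energy W + d * Z.energy Z) / 2)
    + (primF M E X W (X.ed 1) - primF M E X W (X.ed 0)) + ((X.ed 1 : ℝ) - X.ed 0) * η
    + (X.s - ((X.ed 1 : ℝ) - X.ed 0)) * lF + W.s * lR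
    + (X.s * (2 * X.s + W.s) + W.s * (Z.s + X.s + W.s)
      - ((X.s : ℝ) ^ 2 + d * (Z.s : ℝ) ^ 2 + ((X.s : ℝ) + W.s) ^ 2) / 2) * Real.log 4

/-- the exponent of `p`, in units of `p ^ 2`; `s` is the mass of `X`, `s'` the mass of `Z` -/
def kap (M : ℕ) (E : ℕ → ℕ) (d s s' : ℕ) : ℝ :=
  s * (4 * s + 2 * (d * s') - ∑ m ∈ range M, (E m : ℝ))
    + d * s' * (2 * s' + 2 * s + 2 * (d * s') - ∑ m ∈ range M, (E m : ℝ))
    - (s : ℝ) ^ 2 - d * (s' : ℝ) ^ 2 - ((s : ℝ) + d * s') ^ 2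

/-- the hypotheses on the reference densities: `X` for the `F` rows, `Z` for each family of `G` rows,
`X` and `W` for the columns; `η` is a small error allowed in the saturated zone -/
structure ArchHyp (A d M : ℕ) (E : ℕ → ℕ) (X Z W : Ref) (lF lR η : ℝ) : Prop where
  hM : 2 ≤ M
  prof : IsProf A (M - 1) E
  hX0 : X.ed 0 = M / 2
  hX1 : X.d 0 = 1
  hXB : 2 ≤ X.B
  hZ : Z.ed Z.B < M / 2
  hW : W.ed W.B < M / 2
  hWs : W.s = d * Z.s
  hdeg : 4 * X.s + 2 * W.s < ∑ m ∈ range M, E m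
  hF : ∀ z : ℝ, (X.ed 1 : ℝ) ≤ z → gF M E X W z ≤ lF
  hR : ∀ z : ℝ, 0 ≤ z → z ≤ M / 2 → gRW M E X Z W z ≤ lR
  hη : 0 ≤ η
  hS : ∀ z : ℝ, (X.ed 0 : ℝ) ≤ z → z ≤ X.ed 1 → lF - η ≤ gF M E X W z

end Pool.Agent.D4
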