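import Pool.Agent.D4.ArchDefs
import Pool.Agent.Z5.ArchRowF

/-!
# Archimedean part, the rows of `F`

Adaptation of Z9 ArchRowF: `Z` is replaced by `W` everywhere.
-/

open Finset

namespace Pool.Agent.D4

open Pool.Agent.Z5

private theorem expF_ge {A d M : ℕ} {E : ℕ → ℕ} {X Z W : Ref} {lF lR η : ℝ}
    (H : ArchHyp A d M E X Z W lF lR η) {p : ℕ} (hp : 1 ≤ p) (i : X.Idx p) :
    p * lF + (4 * X.s + 2 * W.s - ∑ m ∈ range M, (E m : ℝ)) * p * Real.log p
      + (2 * X.s + W.s) * p * Real.log 4 ≤ expF M E X W lF η p i := by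
  have hp0 : (0 : ℝ) < p := by exact_mod_cast hp
  have h1 : lF ≤ (if (i.1 : ℕ) = 0 then gF M E X W (X.node p i / p) + η else lF) := by
    split_ifs with h0
    · obtain ⟨⟨a, ha⟩, ⟨k, hk⟩⟩ := i
      simp only at h0
      subst h0
      have hk2 : k < X.cnt p 0 := hk
      rw [X.cnt_zero p H.hXB] at hk2
      have hnode : (X.node p ⟨⟨0, ha⟩, ⟨k, hk⟩⟩ : ℚ) = X.ed 0 * p + (k + 1 / 2) := by
        rw [Ref.node]
        simp only [H.hX1, div_one]
      have hfl : (k : ℚ) + 1 ≤ (X.ed 1 - X.ed 0) * p := by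
        have h2 : 0 ≤ (X.ed 1 - X.ed 0) := by have := X.ed_lt 0 X.B_pos; linarith
        have h3 : ((⌊X.d 0 * (X.ed 1 - X.ed 0) * p⌋₊ : ℕ) : ℚ) ≤ X.d 0 * (X.ed 1 - X.ed 0) * p :=
          Nat.floor_le (by rw [H.hX1]; positivity)
        rw [H.hX1, one_mul] at h3
        have h4 : ((k : ℕ) : ℚ) + 1 ≤ ((⌊X.d 0 * (X.ed 1 - X.ed 0) * p⌋₊ : ℕ) : ℚ) := by
          exact_mod_cast hk2
        rw [H.hX1, one_mul] at h4
        linarith
      have h5 := H.hS (X.node p ⟨⟨0, ha⟩, ⟨k, hk⟩⟩ / p) (by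
        rw [le_div_iff₀ hp0, hnode]
        push_cast
        linarith) (by
        rw [div_le_iff₀ hp0, hnode]
        have : ((k : ℝ)) + 1 ≤ ((X.ed 1 : ℝ) - X.ed 0) * p := by exact_mod_cast hfl
        push_cast
        linarith)
      linarith
    · exact le_rfl
  have h2 := mul_le_mul_of_nonneg_left h1 hp0.le
  rw [expF]
  linarith

/-- all terms with `t < p ^ 2` -/
private theorem near_le {A d M : ℕ} {E : ℕ → ℕ} {X Z W : Ref} {lF lR η : ℝ}
    (H : ArchHyp A d M E X Z W lF lR η) :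
    ∃ C : ℝ, ∃ p0 : ℕ, ∀ p : ℕ, p0 ≤ p → ∀ (i : X.Idx p) (j : X.Idx p ⊕ W.Idx p), ∀ t : ℕ,
    t < p ^ 2 →
    |w (M * p - 1) (fun u => E (u / p)) (t + 1) * evY (M * p - 1)
        (lagQ (X.ynode p) i * lagQ (Sum.elim (X.ynode p) (W.ynode p)) j) (t + 1)| ≤
      Real.exp (expF M E X W lF η p i + C * Real.log p) := by
  obtain ⟨C1, p1, h1⟩ := term_le M E H.hM X W
  obtain ⟨C2, p2, h2⟩ := nearLip_gF M E X W (X.ed 1)
  refine ⟨C1 + |C2|, max (max p1 p2) 1, fun p hp i j t ht => ?_⟩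
  have hp1 : p1 ≤ p := le_of_max_le_left (le_of_max_le_left hp)
  have hp2 : p2 ≤ p := le_of_max_le_right (le_of_max_le_left hp)
  have hp3 : 1 ≤ p := le_of_max_le_right hp
  have hp0 : (0 : ℝ) < p := by exact_mod_cast hp3
  have hlog : 0 ≤ Real.log p := Real.log_nonneg (by exact_mod_cast hp3)
  have hMp : 1 ≤ M * p := by have := H.hM; nlinarith
  have hcast : ((M * p - 1 : ℕ) : ℝ) = (M : ℝ) * p - 1 := by
    rw [Nat.cast_sub hMp]; push_cast; ring
  have key := h1 p hp1 i j t ht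
  set σ : ℝ := ((t : ℝ) + 1) + (M * p - 1) / 2 with hσ
  have hσ' : σ = M * p / 2 + (t + 1 / 2) := by rw [hσ]; ring
  have hed0 : ((X.ed 0 : ℚ) : ℝ) = M / 2 := by rw [H.hX0]; push_cast; ring
  by_cases hc : t < X.cnt p 0
  · by_cases hi : i = ⟨⟨0, X.B_pos⟩, ⟨t, hc⟩⟩
    · refine key.trans (Real.exp_le_exp.2 ?_)
      have hnode : ((X.node p i : ℚ) : ℝ) = σ := by
        rw [hi, Ref.node]
        simp only [H.hX1, div_one]
        push_cast
        rw [hed0, hσ']; ring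
      have h0 : ((i.1 : Fin X.B) : ℕ) = 0 := by rw [hi]
      rw [expF, if_pos h0, hnode]
      have h3 : 0 ≤ (p : ℝ) * η := mul_nonneg hp0.le H.hη
      have h4 : 0 ≤ |C2| * Real.log p := mul_nonneg (abs_nonneg _) hlog
      linarith
    · have hz : evY (M * p - 1) (lagQ (X.ynode p) i *
          lagQ (Sum.elim (X.ynode p) (W.ynode p)) j) (t + 1) = 0 := by
        rw [evY, map_mul, evY_lagQ]
        have hmem : (⟨⟨0, X.B_pos⟩, ⟨t, hc⟩⟩ : X.Idx p) ∈ univ.erase i :=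
          mem_erase.2 ⟨Ne.symm hi, mem_univ _⟩
        rw [prod_eq_zero hmem, zero_mul]
        rw [Ref.ynode, Ref.node]
        simp only [H.hX1, div_one]
        push_cast
        rw [hcast, hed0]; ring
      rw [hz, mul_zero, abs_zero]
      exact (Real.exp_pos _).le
  · refine key.trans (Real.exp_le_exp.2 ?_)
    have hge : (X.ed 1 : ℝ) * p - 1 / 2 ≤ σ := by
      have h3 := Nat.lt_floor_add_one ((X.d 0 * (X.ed 1 - X.ed 0) * p : ℚ))
      rw [← X.cnt_zero p H.hXB, H.hX1, one_mul] at h3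
      have h4 : ((X.cnt p 0 : ℕ) : ℚ) ≤ t := by exact_mod_cast (not_lt.1 hc)
      have h5 : (X.ed 1 - X.ed 0) * (p : ℚ) < t + 1 := by linarith
      have h6 : ((X.ed 1 : ℝ) - X.ed 0) * (p : ℝ) < t + 1 := by exact_mod_cast h5
      rw [hed0] at h6
      rw [hσ']
      linarith
    have hgF : p * gF M E X W (σ / p) ≤ p * lF + |C2| * Real.log p := by
      by_cases h3 : (X.ed 1 : ℝ) * p ≤ σ
      · have h4 := H.hF (σ / p) (by rw [le_div_iff₀ hp0]; exact h3)
        have h5 := mul_le_mul_of_nonneg_left h4 hp0.le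
        have h6 : 0 ≤ |C2| * Real.log p := mul_nonneg (abs_nonneg _) hlog
        linarith
      · have h4 := h2 p hp2 σ (by rw [abs_le]; constructor <;> linarith)
        have h5 := mul_le_mul_of_nonneg_left (H.hF (X.ed 1) le_rfl) hp0.le
        have h6 := (le_abs_self _).trans h4
        have h7 : C2 * Real.log p ≤ |C2| * Real.log p :=
          mul_le_mul_of_nonneg_right (le_abs_self _) hlog
        linarith
    have h8 := expF_ge H hp3 i
    linarith


/-- the terms with `p ^ 2 ≤ t` -/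
private theorem tail_le {A d M : ℕ} {E : ℕ → ℕ} {X Z W : Ref} {lF lR η : ℝ}
    (H : ArchHyp A d M E X Z W lF lR η) :
    ∃ p0 : ℕ, ∀ p : ℕ, p0 ≤ p → ∀ (i : X.Idx p) (j : X.Idx p ⊕ W.Idx p), ∀ t : ℕ,
    p ^ 2 ≤ t →
    |w (M * p - 1) (fun u => E (u / p)) (t + 1) * evY (M * p - 1)
        (lagQ (X.ynode p) i * lagQ (Sum.elim (X.ynode p) (W.ynode p)) j) (t + 1)| ≤
      3 * 9 ^ ((2 * X.s + W.s) * p) /
        (p : ℝ) ^ (2 * ((∑ m ∈ range M, E m - (4 * X.s + 2 * W.s)) * p)) * (1 / ((t : ℝ) + 1) ^ 2) := by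
  obtain ⟨D1, h1⟩ := X.node_le
  obtain ⟨D2, h2⟩ := W.node_le
  have hsum := H.hdeg
  refine ⟨⌈|(X.ed X.B : ℝ)| + |(D1 : ℝ)| + |(W.ed W.B : ℝ)| + |(D2 : ℝ)|⌉₊ + M + 1,
    fun p hp i j t ht => ?_⟩
  have hpA : |(X.ed X.B : ℝ)| + |(D1 : ℝ)| + |(W.ed W.B : ℝ)| + |(D2 : ℝ)| ≤ p := by
    refine (Nat.le_ceil _).trans ?_
    have : ⌈|(X.ed X.B : ℝ)| + |(D1 : ℝ)| + |(W.ed W.B : ℝ)| + |(D2 : ℝ)|⌉₊ ≤ p := by omega
    exact_mod_cast this
  have hpM : M + 1 ≤ p := by omega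
  have hpMR : (M : ℝ) + 1 ≤ p := by exact_mod_cast hpM
  have hMR : (2 : ℝ) ≤ M := by exact_mod_cast H.hM
  have hp1 : (1 : ℝ) ≤ p := by linarith
  have hp0 : (0 : ℝ) < p := by linarith
  have hMp : 1 ≤ M * p := by have := H.hM; nlinarith
  have hcast : ((M * p - 1 : ℕ) : ℝ) = (M : ℝ) * p - 1 := by
    rw [Nat.cast_sub hMp]; push_cast; ring
  set y : ℝ := (t : ℝ) + 1 with hy
  have htR : (p : ℝ) ^ 2 ≤ t := by exact_mod_cast ht
  have hyp : (p : ℝ) ^ 2 ≤ y := by linarith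
  have hy1 : 1 ≤ y := by nlinarith
  have hy0 : 0 < y := by linarith
  have hXn : ∀ k : X.Idx p, (0 : ℝ) < X.node p k ∧ (X.node p k : ℝ) ≤ y := by
    intro k
    refine ⟨by exact_mod_cast X.node_pos p k, ?_⟩
    have h3 : (X.node p k : ℝ) ≤ X.ed X.B * p + D1 := by exact_mod_cast h1 p k
    have h4 : (X.ed X.B : ℝ) * p ≤ |(X.ed X.B : ℝ)| * p :=
      mul_le_mul_of_nonneg_right (le_abs_self _) hp0.le
    have h5 := le_abs_self (D1 : ℝ)
    have h6 := abs_nonneg (D1 : ℝ)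
    have h7 := abs_nonneg (W.ed W.B : ℝ)
    have h8 := abs_nonneg (D2 : ℝ)
    nlinarith
  have hZn : ∀ k : W.Idx p, (0 : ℝ) < W.node p k ∧ (W.node p k : ℝ) ≤ y := by
    intro k
    refine ⟨by exact_mod_cast W.node_pos p k, ?_⟩
    have h3 : (W.node p k : ℝ) ≤ W.ed W.B * p + D2 := by exact_mod_cast h2 p k
    have h4 : (W.ed W.B : ℝ) * p ≤ |(W.ed W.B : ℝ)| * p :=
      mul_le_mul_of_nonneg_right (le_abs_self _) hp0.le
    have h5 := le_abs_self (D2 : ℝ)
    have h6 := abs_nonneg (D2 : ℝ)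
    have h7 := abs_nonneg (X.ed X.B : ℝ)
    have h8 := abs_nonneg (D1 : ℝ)
    nlinarith
  set σ2 : ℝ := 2 * y + ((M * p - 1 : ℕ) : ℝ) with hσ2
  have hσlow : 2 * y ≤ σ2 := by
    rw [hσ2]; have : (0 : ℝ) ≤ ((M * p - 1 : ℕ) : ℝ) := Nat.cast_nonneg _; linarith
  have hσup : σ2 ≤ 3 * y := by
    rw [hσ2, hcast]; nlinarith
  have hfac : ∀ x : ℝ, 0 < x → x ≤ y → |σ2 ^ 2 - 4 * x ^ 2| ≤ 9 * y ^ 2 := by
    intro x hx0 hxy
    rw [abs_le]
    constructor
    · nlinarith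
    · nlinarith
  have hfX : ∀ k : X.Idx p, |σ2 ^ 2 - ((X.ynode p k : ℚ) : ℝ)| ≤ 9 * y ^ 2 := by
    intro k
    rw [Ref.ynode]; push_cast
    exact hfac _ (hXn k).1 (hXn k).2
  have hfZ : ∀ k : W.Idx p, |σ2 ^ 2 - ((W.ynode p k : ℚ) : ℝ)| ≤ 9 * y ^ 2 := by
    intro k
    rw [Ref.ynode]; push_cast
    exact hfac _ (hZn k).1 (hZn k).2
  have hcX : 0 < X.s * p := by
    rw [← X.card_idx]; exact Fintype.card_pos_iff.2 ⟨i⟩
  have e1 : |∏ k ∈ univ.erase i, (σ2 ^ 2 - ((X.ynode p k : ℚ) : ℝ))| ≤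
      (9 * y ^ 2) ^ (X.s * p - 1) := by
    rw [abs_prod]
    refine (prod_le_prod (fun _ _ => abs_nonneg _) fun k _ => hfX k).trans (le_of_eq ?_)
    rw [prod_const, card_erase_of_mem (mem_univ _), card_univ, X.card_idx]
  have e2 : |∏ k ∈ univ.erase j, (σ2 ^ 2 - ((Sum.elim (X.ynode p) (W.ynode p) k : ℚ) : ℝ))| ≤
      (9 * y ^ 2) ^ (X.s * p + W.s * p - 1) := by
    rw [abs_prod]
    refine (prod_le_prod (g := fun _ => 9 * y ^ 2) (fun _ _ => abs_nonneg _) fun k _ => ?_).trans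
      (le_of_eq ?_)
    · rcases k with k | k
      · exact hfX k
      · exact hfZ k
    · rw [prod_const, card_erase_of_mem (mem_univ _), card_univ, Fintype.card_sum, X.card_idx,
        W.card_idx]
  have hrange : range (M * p - 1 + 1) = range (M * p) := by congr 1; omega
  have e3 : |w (M * p - 1) (fun u => E (u / p)) y| ≤
      3 * y / y ^ ((∑ m ∈ range M, E m) * p) := by
    have hprod : y ^ ((∑ m ∈ range M, E m) * p) ≤
        ∏ u ∈ range (M * p), (y + u) ^ E (u / p) := by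
      rw [← sum_div_range, ← prod_pow_eq_pow_sum]
      refine prod_le_prod (fun _ _ => by positivity) fun u _ => ?_
      refine pow_le_pow_left₀ hy0.le ?_ _
      have : (0 : ℝ) ≤ u := Nat.cast_nonneg u
      linarith
    have hpp : 0 < y ^ ((∑ m ∈ range M, E m) * p) := by positivity
    rw [w, hrange, abs_div, abs_of_pos (by linarith : 0 < 2 * y + ((M * p - 1 : ℕ) : ℝ)),
      abs_of_pos (hpp.trans_le hprod)]
    exact div_le_div₀ (by linarith) hσup hpp hprod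
  rw [evY, map_mul, evY_lagQ, evY_lagQ, abs_mul, abs_mul]
  have e4 := mul_le_mul e3 (mul_le_mul e1 e2 (abs_nonneg _) (by positivity))
    (mul_nonneg (abs_nonneg _) (abs_nonneg _)) (by positivity)
  refine e4.trans ?_
  set K := ∑ m ∈ range M, E m with hK
  set n := (2 * X.s + W.s) * p with hn
  set c := K - (4 * X.s + 2 * W.s) with hc
  have hKn : K * p = 2 * n + c * p := by
    have h3 : K = (4 * X.s + 2 * W.s) + c := by omega
    rw [h3, hn]; ring
  obtain ⟨q, hq⟩ : ∃ q, (X.s * p - 1) + (X.s * p + W.s * p - 1) = q := ⟨_, rfl⟩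
  have hqn : q + 2 = n := by
    have : n = X.s * p + X.s * p + W.s * p := by rw [hn]; ring
    omega
  rw [← pow_add, hq, hKn, ← hqn]
  have h9 : (9 * y ^ 2 : ℝ) ^ q = 9 ^ q * y ^ (2 * q) := by rw [mul_pow, ← pow_mul]
  have h10 : y ^ (2 * (q + 2) + c * p) = y ^ (2 * q) * y ^ 4 * y ^ (c * p) := by
    rw [← pow_add, ← pow_add]; congr 1
  have h11 : (9 : ℝ) ^ (q + 2) = 9 ^ q * 81 := by rw [pow_add]; norm_num
  have h12 : (p : ℝ) ^ (2 * (c * p)) ≤ y ^ (c * p) := by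
    rw [pow_mul]; exact pow_le_pow_left₀ (by positivity) hyp _
  rw [h9, h10, h11, mul_one_div, div_mul_eq_mul_div, div_div, div_le_div_iff₀ (by positivity)
    (by positivity)]
  have h13 : 0 < y ^ (2 * q) := by positivity
  have h14 : 0 < (9 : ℝ) ^ q := by positivity
  have h15 : 0 < (p : ℝ) ^ (2 * (c * p)) := by positivity
  calc 3 * y * (9 ^ q * y ^ (2 * q)) * ((p : ℝ) ^ (2 * (c * p)) * y ^ 2)
      = 3 * 9 ^ q * y ^ (2 * q) * (y ^ 3 * (p : ℝ) ^ (2 * (c * p))) := by ring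
    _ ≤ 3 * 9 ^ q * y ^ (2 * q) * (81 * y ^ 4 * y ^ (c * p)) := by
        refine mul_le_mul_of_nonneg_left ?_ (by positivity)
        refine mul_le_mul ?_ h12 h15.le (by positivity)
        have h16 : y ^ 3 ≤ y ^ 4 := pow_le_pow_right₀ hy1 (by norm_num)
        have h17 : 0 < y ^ 4 := by positivity
        linarith
    _ = _ := by ring


/-- **Rows of `F`.** -/
theorem rowF {A d M : ℕ} {E : ℕ → ℕ} {X Z W : Ref} {lF lR η : ℝ}
    (H : ArchHyp A d M E X Z W lF lR η) :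
    ∃ C : ℝ, ∃ p0 : ℕ, ∀ p : ℕ, p0 ≤ p → ∀ (i : X.Idx p) (j : X.Idx p ⊕ W.Idx p),
      |F (M * p - 1) (fun u => E (u / p))
          (lagQ (X.ynode p) i * lagQ (Sum.elim (X.ynode p) (W.ynode p)) j)|
        ≤ Real.exp (p * (if (i.1 : ℕ) = 0 then gF M E X W (X.node p i / p) + η else lF)
          + (4 * X.s + 2 * W.s - ∑ m ∈ range M, (E m : ℝ)) * p * Real.log p
          + (2 * X.s + W.s) * p * Real.log 4 + C * Real.log p) := by
  obtain ⟨C1, p1, h1⟩ := near_le H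
  obtain ⟨p2, h2⟩ := tail_le H
  have hsummable : Summable fun t : ℕ => 1 / ((t : ℝ) + 1) ^ 2 := by
    have h3 := (summable_nat_add_iff 1).2 (Real.summable_one_div_nat_pow.2 (one_lt_two))
    simpa using h3
  set Z2 : ℝ := ∑' t : ℕ, 1 / ((t : ℝ) + 1) ^ 2 with hZ2
  have hZ2pos : 0 ≤ Z2 := tsum_nonneg fun t => by positivity
  set n0 : ℕ := 2 * X.s + W.s with hn0
  set K0 : ℝ := Real.log (3 * (Z2 + 1)) + n0 * Real.log (9 / 4) - lF with hK0
  refine ⟨|C1| + 3, max (max p1 p2) (⌈Real.exp K0⌉₊ + 2), fun p hp i j => ?_⟩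
  have hp1 : p1 ≤ p := le_of_max_le_left (le_of_max_le_left hp)
  have hp2 : p2 ≤ p := le_of_max_le_right (le_of_max_le_left hp)
  have hp3 : ⌈Real.exp K0⌉₊ + 2 ≤ p := le_of_max_le_right hp
  have hpA : Real.exp K0 ≤ p := by
    refine (Nat.le_ceil _).trans ?_
    have : ⌈Real.exp K0⌉₊ ≤ p := by omega
    exact_mod_cast this
  have hp2' : (2 : ℝ) ≤ p := by
    have : 2 ≤ p := by omega
    exact_mod_cast this
  have hp0 : (0 : ℝ) < p := by linarith
  have hlog : 0 ≤ Real.log p := Real.log_nonneg (by linarith)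
  have hlogA : K0 ≤ Real.log p := by
    have := Real.log_le_log (Real.exp_pos K0) hpA
    rwa [Real.log_exp] at this
  set c : ℕ := ∑ m ∈ range M, E m - (4 * X.s + 2 * W.s) with hc
  have hc1 : 1 ≤ c := by have := H.hdeg; omega
  have hcR : ((∑ m ∈ range M, E m : ℕ) : ℝ) = 4 * X.s + 2 * W.s + c := by
    have h3 : ∑ m ∈ range M, E m = (4 * X.s + 2 * W.s) + c := by have := H.hdeg; omega
    rw [h3]; push_cast; ring
  set D : ℝ := 3 * 9 ^ (n0 * p) / (p : ℝ) ^ (2 * (c * p)) with hD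
  have hD0 : 0 ≤ D := by positivity
  set B : ℝ := Real.exp (expF M E X W lF η p i + |C1| * Real.log p) with hB
  -- the dominating series
  have hg : HasSum (fun t : ℕ => (if t ∈ range (p ^ 2) then B else 0) + D * (1 / ((t : ℝ) + 1) ^ 2))
      ((p : ℝ) ^ 2 * B + D * Z2) := by
    refine HasSum.add ?_ (hsummable.hasSum.mul_left D)
    have h3 : HasSum (fun t : ℕ => if t ∈ range (p ^ 2) then B else 0)
        (∑ t ∈ range (p ^ 2), (if t ∈ range (p ^ 2) then B else 0)) :=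
      hasSum_sum_of_ne_finset_zero (fun t ht => if_neg ht)
    have h4 : ∑ t ∈ range (p ^ 2), (if t ∈ range (p ^ 2) then B else 0) = (p : ℝ) ^ 2 * B := by
      rw [sum_congr rfl fun t ht => if_pos ht, sum_const, card_range, nsmul_eq_mul]
      push_cast; ring
    rwa [h4] at h3
  have hbound : ∀ t : ℕ, ‖w (M * p - 1) (fun u => E (u / p)) (t + 1) * evY (M * p - 1)
        (lagQ (X.ynode p) i * lagQ (Sum.elim (X.ynode p) (W.ynode p)) j) (t + 1)‖ ≤
      (if t ∈ range (p ^ 2) then B else 0) + D * (1 / ((t : ℝ) + 1) ^ 2) := by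
    intro t
    rw [Real.norm_eq_abs]
    have h5 : 0 ≤ D * (1 / ((t : ℝ) + 1) ^ 2) := by positivity
    by_cases ht : t < p ^ 2
    · rw [if_pos (mem_range.2 ht)]
      refine (h1 p hp1 i j t ht).trans ?_
      have h6 : Real.exp (expF M E X W lF η p i + C1 * Real.log p) ≤ B := by
        refine Real.exp_le_exp.2 ?_
        have := mul_le_mul_of_nonneg_right (le_abs_self C1) hlog
        linarith
      linarith
    · rw [if_neg (by rw [mem_range]; exact ht), zero_add]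
      exact h2 p hp2 i j t (not_lt.1 ht)
  have h7 := tsum_of_norm_bounded hg hbound
  rw [Real.norm_eq_abs] at h7
  have h8 : |F (M * p - 1) (fun u => E (u / p))
      (lagQ (X.ynode p) i * lagQ (Sum.elim (X.ynode p) (W.ynode p)) j)| ≤
      (p : ℝ) ^ 2 * B + D * Z2 := h7
  -- the tail is small
  have h9 : D * Z2 ≤ B := by
    have h10 := expF_ge H (by omega : 1 ≤ p) i
    have hkey : Real.log (3 * (Z2 + 1)) + (n0 * p : ℕ) * Real.log 9 - (2 * (c * p) : ℕ) * Real.log p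
        ≤ expF M E X W lF η p i := by
      refine le_trans ?_ h10
      have h11 : Real.log (9 / 4) = Real.log 9 - Real.log 4 :=
        Real.log_div (by norm_num) (by norm_num)
      have h12 : (∑ m ∈ range M, (E m : ℝ)) = 4 * X.s + 2 * W.s + c := by
        rw [← hcR]; push_cast; rfl
      have h13 : (n0 : ℝ) = 2 * X.s + W.s := by rw [hn0]; push_cast; ring
      have h14 : 0 ≤ Real.log (3 * (Z2 + 1)) := Real.log_nonneg (by linarith)
      have h15 : Real.log (3 * (Z2 + 1)) ≤ p * Real.log (3 * (Z2 + 1)) := by nlinarith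
      have h16 : (1 : ℝ) ≤ c := by exact_mod_cast hc1
      have h17 : (p : ℝ) * K0 ≤ p * Real.log p := mul_le_mul_of_nonneg_left hlogA hp0.le
      have h18 : (p : ℝ) * Real.log p ≤ c * (p * Real.log p) := by
        have : 0 ≤ (p : ℝ) * Real.log p := mul_nonneg hp0.le hlog
        nlinarith
      rw [h12, ← h13]
      push_cast
      rw [hK0, h11] at h17
      have h19 : (p : ℝ) * (Real.log (3 * (Z2 + 1)) + n0 * (Real.log 9 - Real.log 4) - lF) =
          p * Real.log (3 * (Z2 + 1)) + n0 * p * Real.log 9 - n0 * p * Real.log 4 - p * lF := by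
        ring
      rw [h19] at h17
      have h20 : (4 * (X.s : ℝ) + 2 * W.s - (4 * X.s + 2 * W.s + c)) * p * Real.log p =
          - (c * (p * Real.log p)) := by ring
      rw [h20]
      nlinarith
    have h21 : D * Z2 ≤ Real.exp (Real.log (3 * (Z2 + 1)) + (n0 * p : ℕ) * Real.log 9
        - (2 * (c * p) : ℕ) * Real.log p) := by
      rw [Real.exp_sub, Real.exp_add, Real.exp_log (by linarith), mul_comm ((n0 * p : ℕ) : ℝ),
        mul_comm ((2 * (c * p) : ℕ) : ℝ), Real.exp_mul, Real.exp_mul, Real.exp_log (by norm_num),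
        Real.exp_log hp0, Real.rpow_natCast, Real.rpow_natCast, hD, div_mul_eq_mul_div]
      refine div_le_div_of_nonneg_right ?_ (by positivity)
      have : (0 : ℝ) < 9 ^ (n0 * p) := by positivity
      nlinarith
    refine h21.trans (Real.exp_le_exp.2 ?_)
    have : 0 ≤ |C1| * Real.log p := mul_nonneg (abs_nonneg _) hlog
    linarith
  have h22 : (p : ℝ) ^ 2 * B + B ≤ (p : ℝ) ^ 3 * B := cube_aux hp2' (Real.exp_pos _)
  have h24 : (p : ℝ) ^ 3 * B = Real.exp (expF M E X W lF η p i + (|C1| + 3) * Real.log p) := by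
    have h25 : (p : ℝ) ^ 3 = Real.exp (3 * Real.log p) := by
      rw [mul_comm, Real.exp_mul, Real.exp_log hp0]; norm_cast
    rw [h25, hB, ← Real.exp_add]
    congr 1; ring
  have h26 : |F (M * p - 1) (fun u => E (u / p))
      (lagQ (X.ynode p) i * lagQ (Sum.elim (X.ynode p) (W.ynode p)) j)| ≤
      Real.exp (expF M E X W lF η p i + (|C1| + 3) * Real.log p) := by
    rw [← h24]; linarith
  exact h26

end Pool.Agent.D4
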