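import Pool.Agent.D4.ArchDefs
import Pool.Agent.D4.ArchSer
import Pool.Agent.Z5.ArchRowR
import Pool.Agent.Z5.ArchMain

/-!
# Archimedean bound for the rows of `G`

Adaptation of `Pool/Agent/Z9/ArchRowR.lean` (`rr_co`, `row_rho`, `rowR`), the columns are the nodes of
`X` and `W`, the rows the nodes of `Z`.
-/

open Finset

namespace Pool.Agent.D4

open Pool.Agent.Z5 (Ref lagQ gF primF poleU HH HH_neg co rho pole_ge rr_sum_erase rr_prod4 rr_const
  sum_range_mul_div)

private theorem poleU_neg {M : ℕ} {E : ℕ → ℕ} (hM : 2 ≤ M) (hE : ∀ u ≤ M - 1, E (M - 1 - u) = E u)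
    (z : ℝ) : poleU M E (-z) = poleU M E z := by
  unfold poleU
  rw [← Finset.sum_range_reflect]
  refine Finset.sum_congr rfl fun m hm => ?_
  have hmM := Finset.mem_range.1 hm
  have h1 : E (M - 1 - m) = E m := hE m (by omega)
  have h2 : ((M - 1 - m : ℕ) : ℝ) = (M : ℝ) - 1 - m := by
    rw [Nat.cast_sub (by omega), Nat.cast_sub (by omega)]
    norm_num
  rw [h1, h2]
  have h3 : HH (-z - M / 2 + ((M : ℝ) - 1 - m + 1)) = - HH (z - M / 2 + m) := by
    rw [← HH_neg]
    congr 1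
    ring
  have h4 : HH (-z - M / 2 + ((M : ℝ) - 1 - m)) = - HH (z - M / 2 + (m + 1)) := by
    rw [← HH_neg]
    congr 1
    ring
  rw [h3, h4]
  ring

theorem isProf_scale {A M : ℕ} {E : ℕ → ℕ} (hM : 2 ≤ M) (hE : IsProf A (M - 1) E) {p : ℕ}
    (hp : 0 < p) : IsProf A (M * p - 1) (fun u => E (u / p)) := by
  have hMp : 0 < M * p := Nat.mul_pos (by omega) hp
  have hdiv : ∀ u ≤ M * p - 1, u / p ≤ M - 1 := by
    intro u hu
    have h1 : u / p < M := by
      rw [Nat.div_lt_iff_lt_mul hp]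
      omega
    omega
  refine ⟨fun u hu => hE.pos _ (hdiv u hu), fun u hu => hE.le _ (hdiv u hu), ?_, ?_⟩
  · intro u hu
    have h1 : u / p ≤ M - 1 := hdiv u hu
    have h2 : (M * p - 1 - u) / p = M - 1 - u / p := by
      have h3 : u = p * (u / p) + u % p := (Nat.div_add_mod u p).symm
      have h4 : u % p < p := Nat.mod_lt _ hp
      set q := u / p with hq
      set r := u % p with hr
      have h5 : M * p - 1 - u = p * (M - 1 - q) + (p - 1 - r) := by
        obtain ⟨j, hj⟩ : ∃ j, M - 1 = q + j := ⟨M - 1 - q, by omega⟩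
        have hM' : M = q + j + 1 := by omega
        have h6 : M - 1 - q = j := by omega
        rw [h6, h3, hM']
        have h7 : (q + j + 1) * p = p * q + p * j + p := by ring
        rw [h7]
        omega
      rw [h5, Nat.mul_add_div hp, Nat.div_eq_of_lt (by omega), add_zero]
    show E ((M * p - 1 - u) / p) = E (u / p)
    rw [h2]
    exact hE.symm _ h1
  · have h1 : M * p - 1 + 1 = M * p := by omega
    rw [h1, sum_range_mul_div M hp]
    have h2 := hE.even
    have h3 : M - 1 + 1 = M := by omega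
    rw [h3] at h2
    exact h2.mul_right p

/-- `gR` is even -/
private theorem rr_gR_le {A d M : ℕ} {E : ℕ → ℕ} {X Z W : Ref} {lF lR η : ℝ}
    (H : ArchHyp A d M E X Z W lF lR η) {z : ℝ} (hz : |z| ≤ M / 2) : gRW M E X Z W z ≤ lR := by
  rcases le_total 0 z with h | h
  · exact H.hR z h (by rwa [abs_of_nonneg h] at hz)
  · have h1 : gRW M E X Z W z = gRW M E X Z W (-z) := by
      unfold gRW
      rw [Ref.U_neg, Ref.U_neg, Ref.U_neg, poleU_neg H.hM H.prof.symm]
    rw [h1]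
    exact H.hR (-z) (by linarith) (by rwa [abs_of_nonpos h] at hz)

private theorem rr_co {A d M : ℕ} {E : ℕ → ℕ} {X Z W : Ref} {lF lR η : ℝ}
    (H : ArchHyp A d M E X Z W lF lR η)
    {a : ℕ} (ha : 1 ≤ a) :
    ∃ C : ℝ, ∃ p0 : ℕ, ∀ p : ℕ, p0 ≤ p → ∀ (i : Z.Idx p) (j : X.Idx p ⊕ W.Idx p),
      ∀ u ≤ M * p - 1,
      |(co (M * p - 1) (fun u => E (u / p))
          (lagQ (Z.ynode p) i * lagQ (Sum.elim (X.ynode p) (W.ynode p)) j) u a : ℝ)|
        ≤ Real.exp (p * lR
          + (2 * Z.s + 2 * X.s + 2 * W.s - ∑ m ∈ range M, (E m : ℝ)) * p * Real.log p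
          + (Z.s + X.s + W.s) * p * Real.log 4 + C * Real.log p) := by
  obtain ⟨CX, pX, hX⟩ := X.pot_le
  obtain ⟨CZ, pZ, hZ⟩ := Z.pot_le
  obtain ⟨CW, pW, hW⟩ := W.pot_le
  obtain ⟨CP, pP, hP⟩ := pole_ge M E
  have hM := H.hM
  refine ⟨(Real.log (4 ^ (2 * A)) + Real.log M) / Real.log 2 + 1 + CX + CZ + CW + CP,
    max (max pX (max pZ pW)) (max pP (max 2 M)), ?_⟩
  intro p hp i j u hu
  have hpX : pX ≤ p := le_trans (by simp) hp
  have hpZ : pZ ≤ p := le_trans (by simp) hp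
  have hpW : pW ≤ p := le_trans (by simp) hp
  have hpP : pP ≤ p := le_trans (by simp) hp
  have hp2 : 2 ≤ p := le_trans (by simp) hp
  have hpM : M ≤ p := le_trans (by simp) hp
  have hp0 : 0 < p := by omega
  have hMp : 1 ≤ M * p := Nat.succ_le_of_lt (by positivity)
  have hpR : (0 : ℝ) < p := by exact_mod_cast hp0
  have hpR2 : (2 : ℝ) ≤ p := by exact_mod_cast hp2
  have hMR : (2 : ℝ) ≤ M := by exact_mod_cast hM
  have hpMR : (M : ℝ) ≤ p := by exact_mod_cast hpM
  have hLR : ((M * p - 1 : ℕ) : ℝ) = M * p - 1 := by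
    rw [Nat.cast_sub hMp]; push_cast; ring
  have huR : (u : ℝ) ≤ M * p - 1 := by
    rw [← hLR]; exact_mod_cast hu
  have hu0 : (0 : ℝ) ≤ u := Nat.cast_nonneg u
  set σ : ℝ := ((M * p - 1 : ℕ) : ℝ) / 2 - u with hσ
  have hσM : |σ| ≤ M * p / 2 := by
    rw [hσ, hLR, abs_le]
    constructor <;> linarith
  have hσ3 : |σ| ≤ (p : ℝ) ^ 3 := by
    refine hσM.trans ?_
    have h1 : (M : ℝ) * p ≤ p * p := mul_le_mul_of_nonneg_right hpMR hpR.le
    nlinarith
  have hσz : |σ / p| ≤ M / 2 := by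
    rw [abs_div, abs_of_pos hpR, div_le_iff₀ hpR]
    linarith
  have hgR := rr_gR_le H hσz
  -- the bound of AR9
  have hprof := isProf_scale hM H.prof hp0
  have hZy : Z.ynode p = fun k => 4 * Z.node p k ^ 2 := rfl
  have hSy : Sum.elim (X.ynode p) (W.ynode p)
      = fun k => 4 * (Sum.elim (X.node p) (W.node p) k) ^ 2 := by
    funext k
    rcases k with k | k <;> rfl
  have hco := abs_co_le hprof (Z.node p) (Sum.elim (X.node p) (W.node p)) i j hu ha
  rw [← hZy, ← hSy] at hco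
  refine hco.trans ?_
  -- the poles
  have hpole := hP p hpP σ hσ3 ((range (M * p)).erase u) (Finset.erase_subset _ _)
    (by rw [Finset.card_erase_of_mem (mem_range.2 (by omega)), card_range]; omega) (by
      intro v hv
      rw [mem_erase] at hv
      have h1 : σ - (M * p - 1) / 2 + v = (v : ℝ) - u := by
        rw [hσ, hLR]; ring
      rw [h1]
      have h2 : (1 : ℤ) ≤ |(v : ℤ) - u| := by
        have h3 : (v : ℤ) - u ≠ 0 := by
          intro h; apply hv.1; omega
        exact Int.one_le_abs h3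
      exact_mod_cast h2)
  have hL1 : M * p - 1 + 1 = M * p := by omega
  have hD : ∏ v ∈ (range (M * p - 1 + 1)).erase u, (|(v : ℝ) - u| - 1 / 4) ^ E (v / p)
      = Real.exp (∑ v ∈ (range (M * p)).erase u,
        (E (v / p) : ℝ) * Real.log (|σ - (M * p - 1) / 2 + v| - 1 / 4)) := by
    rw [hL1, Real.exp_sum]
    refine Finset.prod_congr rfl fun v hv => ?_
    rw [mem_erase] at hv
    have h1 : σ - (M * p - 1) / 2 + v = (v : ℝ) - u := by
      rw [hσ, hLR]; ring
    have h2 : (1 : ℤ) ≤ |(v : ℤ) - u| := by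
      have h3 : (v : ℤ) - u ≠ 0 := by
        intro h; apply hv.1; omega
      exact Int.one_le_abs h3
    have h3 : (1 : ℝ) ≤ |(v : ℝ) - u| := by exact_mod_cast h2
    rw [h1, Real.exp_nat_mul, Real.exp_log (by linarith)]
  -- the nodes
  obtain ⟨S, T, hS, hT, hST, hsum⟩ := rr_sum_erase j
  rw [Ref.card_idx] at hS hST
  rw [Ref.card_idx] at hT hST
  have hn1 := hZ p hpZ σ (1 / 4) hσ3 (by norm_num) (by norm_num) (univ.erase i)
    (by rw [Finset.card_erase_of_mem (mem_univ i), card_univ, Ref.card_idx]; omega)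
  have hn2 := hX p hpX σ (1 / 4) hσ3 (by norm_num) (by norm_num) S hS
  have hn3 := hW p hpW σ (1 / 4) hσ3 (by norm_num) (by norm_num) T hT
  have e1 := rr_prod4 (univ.erase i) σ (fun k => ((Z.node p k : ℚ) : ℝ))
  have e2 := rr_prod4 (univ.erase j) σ
    (fun k => ((Sum.elim (X.node p) (W.node p) k : ℚ) : ℝ))
  have e3 : (4 : ℝ) ^ (2 * A) * (((M * p - 1 : ℕ) : ℝ) + 1)
      = Real.exp (Real.log (4 ^ (2 * A)) + Real.log M + Real.log p) := by
    rw [Real.exp_add, Real.exp_add, Real.exp_log (by positivity), Real.exp_log (by linarith),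
      Real.exp_log hpR, hLR]
    ring
  have hci : ((univ.erase i).card : ℝ) ≤ Z.s * p := by
    have h1 : (univ.erase i).card + 1 = Z.s * p := by
      rw [Finset.card_erase_add_one (mem_univ i), card_univ, Ref.card_idx]
    have h2 : (univ.erase i).card ≤ Z.s * p := by omega
    exact_mod_cast h2
  have hcj : ((univ.erase j).card : ℝ) ≤ (X.s + W.s) * p := by
    have h1 : (univ.erase j).card + 1 = X.s * p + W.s * p := by
      rw [Finset.card_erase_add_one (mem_univ j), card_univ, Fintype.card_sum, Ref.card_idx,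
        Ref.card_idx]
    have h2 : (univ.erase j).card ≤ (X.s + W.s) * p := by rw [add_mul]; omega
    exact_mod_cast h2
  rw [hD, e1, e2, e3, ← Real.exp_neg, ← Real.exp_add, ← Real.exp_add, ← Real.exp_add,
    Real.exp_le_exp, hsum]
  simp only [Sum.elim_inl, Sum.elim_inr]
  have hl4 : 0 ≤ Real.log 4 := Real.log_nonneg (by norm_num)
  have hk1 := mul_le_mul_of_nonneg_right hci hl4
  have hk2 := mul_le_mul_of_nonneg_right hcj hl4
  have hg : (p : ℝ) * (Z.U (σ / p) + X.U (σ / p) + W.U (σ / p) - poleU M E (σ / p)) ≤ p * lR :=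
    mul_le_mul_of_nonneg_left hgR hpR.le
  have hc0 : 0 ≤ Real.log (4 ^ (2 * A)) + Real.log M :=
    add_nonneg (Real.log_nonneg (one_le_pow₀ (by norm_num))) (Real.log_nonneg (by linarith))
  have hc := rr_const hc0 hp2
  linarith [hc, hg, hk1, hk2, hpole, hn1, hn2, hn3]

private theorem row_rho {A d M : ℕ} {E : ℕ → ℕ} {X Z W : Ref} {lF lR η : ℝ}
    (H : ArchHyp A d M E X Z W lF lR η)
    {a : ℕ} (ha : 1 ≤ a) :
    ∃ C : ℝ, ∃ p0 : ℕ, ∀ p : ℕ, p0 ≤ p → ∀ (i : Z.Idx p) (j : X.Idx p ⊕ W.Idx p),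
      |(rho (M * p - 1) (fun u => E (u / p)) a
          (lagQ (Z.ynode p) i * lagQ (Sum.elim (X.ynode p) (W.ynode p)) j) : ℝ)|
        ≤ Real.exp (p * lR
          + (2 * Z.s + 2 * X.s + 2 * W.s - ∑ m ∈ range M, (E m : ℝ)) * p * Real.log p
          + (Z.s + X.s + W.s) * p * Real.log 4 + C * Real.log p) := by
  obtain ⟨C, p1, hC⟩ := rr_co H ha
  have hM := H.hM
  have hMR : (2 : ℝ) ≤ M := by exact_mod_cast hM
  refine ⟨C + 1 + Real.log M / Real.log 2, max p1 2, ?_⟩
  intro p hp i j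
  have hp1 : p1 ≤ p := le_trans (by simp) hp
  have hp2 : 2 ≤ p := le_trans (by simp) hp
  have hp0 : 0 < p := by omega
  have hpR : (0 : ℝ) < p := by exact_mod_cast hp0
  have hMp : 1 ≤ M * p := Nat.succ_le_of_lt (by positivity)
  have hL1 : M * p - 1 + 1 = M * p := by omega
  have hsum : |(rho (M * p - 1) (fun u => E (u / p)) a
      (lagQ (Z.ynode p) i * lagQ (Sum.elim (X.ynode p) (W.ynode p)) j) : ℝ)|
      ≤ ∑ u ∈ range (M * p), |(co (M * p - 1) (fun u => E (u / p))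
          (lagQ (Z.ynode p) i * lagQ (Sum.elim (X.ynode p) (W.ynode p)) j) u a : ℝ)| := by
    unfold rho
    rw [hL1, Rat.cast_sum]
    exact Finset.abs_sum_le_sum_abs _ _
  refine hsum.trans ((Finset.sum_le_sum fun u hu => hC p hp1 i j u
    (by rw [mem_range] at hu; omega)).trans ?_)
  rw [Finset.sum_const, card_range, nsmul_eq_mul]
  have e3 : ((M * p : ℕ) : ℝ) = Real.exp (Real.log M + Real.log p) := by
    rw [Real.exp_add, Real.exp_log (by linarith), Real.exp_log hpR]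
    push_cast
    ring
  rw [e3, ← Real.exp_add, Real.exp_le_exp]
  have hc := rr_const (Real.log_nonneg (by linarith : (1 : ℝ) ≤ M)) hp2
  linarith [hc]


/-- **Rows of `G`.** -/
theorem rowR {A d M : ℕ} {E : ℕ → ℕ} {X Z W : Ref} {lF lR η : ℝ}
    (H : ArchHyp A d M E X Z W lF lR η) (β : ℕ → ℚ) :
    ∃ C : ℝ, ∃ p0 : ℕ, ∀ p : ℕ, p0 ≤ p → ∀ (i : Z.Idx p) (j : X.Idx p ⊕ W.Idx p),
      |(G A (M * p - 1) (fun u => E (u / p)) β
          (lagQ (Z.ynode p) i * lagQ (Sum.elim (X.ynode p) (W.ynode p)) j) : ℝ)|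
        ≤ Real.exp (p * lR
          + (2 * Z.s + 2 * X.s + 2 * W.s - ∑ m ∈ range M, (E m : ℝ)) * p * Real.log p
          + (Z.s + X.s + W.s) * p * Real.log 4 + C * Real.log p) := by
  choose Ck pk hk using fun k : ℕ => row_rho H (a := 2 * k + 1) (by omega)
  set T : ℝ := 1 + ∑ k ∈ Finset.Icc 1 (A - 1), |(β k : ℝ)| with hT
  set C : ℝ := ∑ k ∈ Finset.Icc 1 (A - 1), |Ck k| with hC
  have hT1 : 1 ≤ T := by
    have : 0 ≤ ∑ k ∈ Finset.Icc 1 (A - 1), |(β k : ℝ)| := Finset.sum_nonneg fun k _ => abs_nonneg _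
    linarith
  refine ⟨C + Real.log T / Real.log 2, max ((Finset.Icc 1 (A - 1)).sup pk) 2, ?_⟩
  intro p hp i j
  have hp2 : 2 ≤ p := le_trans (by simp) hp
  have hpk : ∀ k ∈ Finset.Icc 1 (A - 1), pk k ≤ p := fun k hk' =>
    (Finset.le_sup (f := pk) hk').trans (le_trans (le_max_left _ _) hp)
  have hpR : (2 : ℝ) ≤ p := by exact_mod_cast hp2
  have hlog : 0 ≤ Real.log p := Real.log_nonneg (by linarith)
  set B : ℝ := p * lR + (2 * Z.s + 2 * X.s + 2 * W.s - ∑ m ∈ range M, (E m : ℝ)) * p * Real.log p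
          + (Z.s + X.s + W.s) * p * Real.log 4 with hB
  have e1 : ∀ k ∈ Finset.Icc 1 (A - 1), |(rho (M * p - 1) (fun u => E (u / p)) (2 * k + 1)
      (lagQ (Z.ynode p) i * lagQ (Sum.elim (X.ynode p) (W.ynode p)) j) : ℝ)|
      ≤ Real.exp (B + C * Real.log p) := by
    intro k hk'
    refine (hk k p (hpk k hk') i j).trans (Real.exp_le_exp.2 ?_)
    have h1 : Ck k ≤ C := (le_abs_self _).trans
      (Finset.single_le_sum (f := fun k => |Ck k|) (fun k _ => abs_nonneg _) hk')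
    have := mul_le_mul_of_nonneg_right h1 hlog
    linarith
  have hexp : T * Real.exp (B + C * Real.log p)
      ≤ Real.exp (B + (C + Real.log T / Real.log 2) * Real.log p) := by
    have h5 := rr_const (Real.log_nonneg hT1) hp2
    have h6 : T * Real.exp (B + C * Real.log p) = Real.exp (Real.log T + (B + C * Real.log p)) := by
      rw [Real.exp_add (Real.log T), Real.exp_log (by linarith)]
    rw [h6]
    refine Real.exp_le_exp.2 ?_
    linarith
  refine le_trans ?_ hexp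
  rw [G, Rat.cast_sum]
  refine (Finset.abs_sum_le_sum_abs _ _).trans ?_
  set V : ℝ := Real.exp (B + C * Real.log p) with hV
  have hV0 : 0 < V := Real.exp_pos _
  have h7 : ∑ k ∈ Finset.Icc 1 (A - 1), |((β k * rho (M * p - 1) (fun u => E (u / p)) (2 * k + 1)
      (lagQ (Z.ynode p) i * lagQ (Sum.elim (X.ynode p) (W.ynode p)) j) : ℚ) : ℝ)|
      ≤ ∑ k ∈ Finset.Icc 1 (A - 1), |(β k : ℝ)| * V := by
    refine Finset.sum_le_sum fun k hk' => ?_
    rw [Rat.cast_mul, abs_mul]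
    exact mul_le_mul_of_nonneg_left (e1 k hk') (abs_nonneg _)
  refine h7.trans ?_
  rw [← Finset.sum_mul]
  refine mul_le_mul_of_nonneg_right ?_ hV0.le
  rw [hT]
  linarith

end Pool.Agent.D4
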