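import Pool.Agent.D4.ArchBasis
import Pool.Agent.D4.ArchRowF
import Pool.Agent.D4.ArchRowR
import Pool.Agent.Z5.ArchMain

/-!
# The archimedean bound of the mixed determinant

Adaptation of `Pool/Agent/Z9/ArchMain.lean`; instead of `log_pairs_ge` use `AR6.self_ge` for `X`, `Z`,
`W` and `AR6.cross_ge` for `(X, W)` with `AR6.log_pairProd_sum`.
-/

open Finset

namespace Pool.Agent.D4

open Pool.Agent.Z5 (Ref gF primF tot pairProd tot_scale sum_gF ynode_sum_injective)
open Pool.Agent.Z5.ArchMainAux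

private theorem pairs_ge (d : ℕ) (X Z W : Ref) (hZ : Z.ed Z.B < X.ed 0) (hW : W.ed W.B < X.ed 0) :
    ∃ C : ℝ, ∃ p0 : ℕ, ∀ p : ℕ, p0 ≤ p →
    0 < pairProd (fun k => (X.ynode p k : ℝ)) ∧ 0 < pairProd (fun k => (Z.ynode p k : ℝ)) ∧
    0 < pairProd (fun k => ((Sum.elim (X.ynode p) (W.ynode p) k : ℚ) : ℝ)) ∧
    (X.energy X + X.energy W + (W.energy W + d * Z.energy Z) / 2) * p ^ 2
        + ((X.s : ℝ) ^ 2 + X.s * W.s + ((W.s : ℝ) ^ 2 + d * (Z.s : ℝ) ^ 2) / 2) * p ^ 2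
          * (2 * Real.log p + Real.log 4)
        - C * p * Real.log p
      ≤ (Real.log (pairProd (fun k => (X.ynode p k : ℝ)))
          + d * Real.log (pairProd (fun k => (Z.ynode p k : ℝ)))
          + Real.log (pairProd (fun k => ((Sum.elim (X.ynode p) (W.ynode p) k : ℚ) : ℝ)))) / 2 ∧
    Function.Injective (Z.ynode p) ∧ Function.Injective (Sum.elim (X.ynode p) (W.ynode p)) := by
  obtain ⟨C1, p1, h1⟩ := Z5.AR6.self_ge X
  obtain ⟨C2, p2, h2⟩ := Z5.AR6.self_ge Z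
  obtain ⟨C3, p3, h3⟩ := Z5.AR6.self_ge W
  obtain ⟨C4, p4, h4⟩ := Z5.AR6.cross_ge X W hW
  obtain ⟨p5, h5⟩ := ynode_sum_injective X W hW
  obtain ⟨p6, h6⟩ := ynode_sum_injective X Z hZ
  refine ⟨C1 + d * C2 / 2 + C3 / 2 + C4, max (max p1 p2) (max (max p3 p4) (max p5 p6)),
    fun p hp => ?_⟩
  have hp1 : p1 ≤ p := le_trans (le_trans (le_max_left _ _) (le_max_left _ _)) hp
  have hp2 : p2 ≤ p := le_trans (le_trans (le_max_right _ _) (le_max_left _ _)) hp
  have hq := le_trans (le_max_right (max p1 p2) (max (max p3 p4) (max p5 p6))) hp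
  have hp3 : p3 ≤ p := le_trans (le_trans (le_max_left _ _) (le_max_left _ _)) hq
  have hp4 : p4 ≤ p := le_trans (le_trans (le_max_right _ _) (le_max_left _ _)) hq
  have hp5 : p5 ≤ p := le_trans (le_trans (le_max_left _ _) (le_max_right _ _)) hq
  have hp6 : p6 ≤ p := le_trans (le_trans (le_max_right _ _) (le_max_right _ _)) hq
  obtain ⟨hx0, hx⟩ := h1 p hp1
  obtain ⟨hz0, hz⟩ := h2 p hp2
  obtain ⟨hw0, hw⟩ := h3 p hp3
  have hc := h4 p hp4
  have hinj := h5 p hp5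
  have hinjZ : Function.Injective (Z.ynode p) := by
    intro a b hab
    have h7 : (Sum.inr a : X.Idx p ⊕ Z.Idx p) = Sum.inr b := h6 p hp6 (by simpa using hab)
    exact Sum.inr_injective h7
  have hfun : (fun k => ((Sum.elim (X.ynode p) (W.ynode p) k : ℚ) : ℝ)) =
      Sum.elim (fun k => (X.ynode p k : ℝ)) (fun k => (W.ynode p k : ℝ)) := by
    funext k
    cases k <;> rfl
  have hinj' : Function.Injective
      (Sum.elim (fun k => (X.ynode p k : ℝ)) (fun k => (W.ynode p k : ℝ))) := by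
    rw [← hfun]
    intro a b hab
    have hab' : ((Sum.elim (X.ynode p) (W.ynode p) a : ℚ) : ℝ) =
      ((Sum.elim (X.ynode p) (W.ynode p) b : ℚ) : ℝ) := hab
    exact hinj (by exact_mod_cast hab')
  rw [hfun]
  refine ⟨hx0, hz0, Z5.AR6.pairProd_pos _ hinj', ?_, hinjZ, hinj⟩
  rw [Z5.AR6.log_pairProd_sum _ _ hinj']
  have hz' := mul_le_mul_of_nonneg_left hz (Nat.cast_nonneg (α := ℝ) d)
  linarith

/-- the final linear estimate -/
private theorem final_lin (s s' d w SE G w1 η lF lR p lp l4 eX eXW eW eZ C1 C2 C3 C4 c0 SG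
    LF Wv K : ℝ) (hw : w = d * s')
    (h4' : p * SG ≤ p ^ 2 * G + C4 * p * lp)
    (hcη : p * (c0 * η) ≤ w1 * η * p ^ 2 + 2 * η * p * lp)
    (hclF : p * ((s * p - c0) * lF) ≤ (s - w1) * lF * p ^ 2 + 2 * |lF| * p * lp)
    (hC1 : s * p * (C1 * lp) ≤ |C1| * s * p * lp)
    (hC2 : d * (s' * p) * (C2 * lp) ≤ |C2| * (d * s') * p * lp)
    (hfact : LF ≤ K * (p * lp))
    (hP : (eX + eXW + (eW + d * eZ) / 2) * p ^ 2
        + (s ^ 2 + s * w + (w ^ 2 + d * s' ^ 2) / 2) * p ^ 2 * (2 * lp + l4)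
        - C3 * p * lp ≤ Wv) :
    LF + (p * (SG + c0 * η + (s * p - c0) * lF) + s * p * ((4 * s + 2 * w - SE) * p * lp
          + (2 * s + w) * p * l4 + C1 * lp)
        + d * (s' * p * (p * lR + (2 * s' + 2 * s + 2 * w - SE) * p * lp
          + (s' + s + w) * p * l4 + C2 * lp))) - Wv
      ≤ (s * (4 * s + 2 * (d * s') - SE) + d * s' * (2 * s' + 2 * s + 2 * (d * s') - SE)
          - s ^ 2 - d * s' ^ 2 - (s + d * s') ^ 2) * p ^ 2 * lp
        + (-(eX + eXW + (eW + d * eZ) / 2) + G + w1 * η + (s - w1) * lF + w * lR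
          + (s * (2 * s + w) + w * (s' + s + w)
            - (s ^ 2 + d * s' ^ 2 + (s + w) ^ 2) / 2) * l4) * p ^ 2
        + (|C1| * s + |C2| * (d * s') + C3 + C4 + 2 * |lF| + 2 * η + K) * p * lp := by
  subst hw
  nlinarith [h4', hcη, hclF, hC1, hC2, hfact, hP]

/-- **The archimedean bound.** -/
theorem arch_main {A d M : ℕ} {E : ℕ → ℕ} {X Z W : Ref} {lF lR η : ℝ}
    (H : ArchHyp A d M E X Z W lF lR η) (β : Fin d → ℕ → ℚ) :
    ∃ C : ℝ, ∃ p0 : ℕ, ∀ p : ℕ, p0 ≤ p →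
      |DR A (M * p - 1) (fun u => E (u / p)) β (X.s * p) (Z.s * p)|
        ≤ Real.exp (kap M E d X.s Z.s * p ^ 2 * Real.log p
          + archConst M E d X Z W lF lR η * p ^ 2 + C * p * Real.log p) := by
  have hZX : Z.ed Z.B < X.ed 0 := by rw [H.hX0]; exact H.hZ
  have hWX : W.ed W.B < X.ed 0 := by rw [H.hX0]; exact H.hW
  obtain ⟨C1, p1, h1⟩ := rowF H
  have h2' : ∃ C : ℝ, ∃ p0 : ℕ, ∀ p : ℕ, p0 ≤ p → ∀ (j : Fin d) (i : Z.Idx p)
      (c : X.Idx p ⊕ W.Idx p),
      |(G A (M * p - 1) (fun u => E (u / p)) (β j)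
          (Z5.lagQ (Z.ynode p) i * Z5.lagQ (Sum.elim (X.ynode p) (W.ynode p)) c) : ℝ)|
        ≤ Real.exp (p * lR
          + (2 * Z.s + 2 * X.s + 2 * W.s - ∑ m ∈ range M, (E m : ℝ)) * p * Real.log p
          + (Z.s + X.s + W.s) * p * Real.log 4 + C * Real.log p) := by
    choose C p0 h using fun j : Fin d => rowR H (β j)
    refine ⟨∑ j, |C j|, max 1 (∑ j, p0 j), fun p hp j i c => ?_⟩
    have e1 : p0 j ≤ p := (Finset.single_le_sum (f := p0) (fun _ _ => Nat.zero_le _)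
      (Finset.mem_univ j)).trans ((le_max_right _ _).trans hp)
    have e2 : (1 : ℝ) ≤ p := by exact_mod_cast (le_max_left _ _).trans hp
    have e3 : C j ≤ ∑ j, |C j| := (le_abs_self _).trans
      (Finset.single_le_sum (f := fun j => |C j|) (fun _ _ => abs_nonneg _) (Finset.mem_univ j))
    refine (h j p e1 i c).trans (Real.exp_le_exp.2 ?_)
    have e4 := mul_le_mul_of_nonneg_right e3 (Real.log_nonneg e2)
    linarith
  obtain ⟨C2, p2, h2⟩ := h2'
  obtain ⟨C3, p3, h3⟩ := pairs_ge d X Z W hZX hWX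
  obtain ⟨C4, p4, h4⟩ := sum_gF M E X W H.hX1 H.hXB
  set SE : ℝ := ∑ m ∈ range M, (E m : ℝ) with hSE
  set G0 : ℝ := primF M E X W (X.ed 1) - primF M E X W (X.ed 0) with hG
  set w1 : ℝ := (X.ed 1 : ℝ) - X.ed 0 with hw1
  have hws : (W.s : ℝ) = d * Z.s := by exact_mod_cast H.hWs
  refine ⟨|C1| * X.s + |C2| * (d * Z.s) + C3 + C4 + 2 * |lF| + 2 * η + ((X.s : ℝ) + W.s)
      * (|Real.log ((X.s : ℝ) + W.s)| * 2 + 1), max (max p1 p2) (max (max p3 p4) 2),
    fun p hp => ?_⟩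
  have hp1 : p1 ≤ p := (le_max_left _ _).trans ((le_max_left _ _).trans hp)
  have hp2 : p2 ≤ p := (le_max_right _ _).trans ((le_max_left _ _).trans hp)
  have hp345 := (le_max_right (max p1 p2) (max (max p3 p4) 2)).trans hp
  have hp3 : p3 ≤ p := (le_max_left _ _).trans ((le_max_left _ _).trans hp345)
  have hp4 : p4 ≤ p := (le_max_right _ _).trans ((le_max_left _ _).trans hp345)
  have hp6 : 2 ≤ p := (le_max_right _ _).trans hp345
  have hp0 : 0 < p := by omega
  have hpR : (2 : ℝ) ≤ p := by exact_mod_cast hp6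
  have hlog : Real.log 2 ≤ Real.log p := Real.log_le_log (by norm_num) hpR
  have hlog2 : (0.69 : ℝ) ≤ Real.log 2 := by have := Real.log_two_gt_d9; linarith
  have hlp : 0.5 ≤ Real.log p := by linarith
  replace h1 := h1 p hp1
  replace h2 := h2 p hp2
  replace h3 := h3 p hp3
  replace h4 := h4 p hp4
  obtain ⟨hP1, hP2, hP3, hP, hinjZ, hinj⟩ := h3
  have hcardX := X.card_idx p
  have hcardZ := Z.card_idx p
  have hcardW : Fintype.card (W.Idx p) = d * (Z.s * p) := by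
    rw [W.card_idx p, H.hWs, mul_assoc]
  have htot := tot_scale E H.hM hp0
  have hd : 4 * (X.s * p) + 2 * (d * (Z.s * p)) ≤ tot (M * p - 1) (fun u => E (u / p)) + 1 := by
    rw [htot, ← mul_assoc d, ← H.hWs]
    have := Nat.mul_le_mul_right p H.hdeg.le
    nlinarith
  -- the row bounds
  set aF : X.Idx p → ℝ := fun i =>
    p * (if (i.1 : ℕ) = 0 then gF M E X W (X.node p i / p) + η else lF)
          + (4 * X.s + 2 * W.s - SE) * p * Real.log p
          + (2 * X.s + W.s) * p * Real.log 4 + C1 * Real.log p with haF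
  set aR : ℝ := p * lR + (2 * Z.s + 2 * X.s + 2 * W.s - SE) * p * Real.log p
          + (Z.s + X.s + W.s) * p * Real.log 4 + C2 * Real.log p with haR
  have hbas := arch_basis (A := A) (X.s * p) (Z.s * p) hd (Fintype.equivFinOfCardEq hcardX)
    (Fintype.equivFinOfCardEq hcardZ) (Fintype.equivFinOfCardEq hcardW) (X.ynode p) (Z.ynode p)
    (W.ynode p) hinjZ hinj β (fun i => Real.exp (aF i)) (fun _ => Real.exp aR) h1 h2
  set P1 := pairProd (fun k => (X.ynode p k : ℝ)) with hP1def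
  set P2 := pairProd (fun k => (Z.ynode p k : ℝ)) with hP2def
  set P3 := pairProd (fun k => ((Sum.elim (X.ynode p) (W.ynode p) k : ℚ) : ℝ)) with hP3def
  have hsq : √P1 * √P2 ^ d * √P3 =
      Real.exp ((Real.log P1 + d * Real.log P2 + Real.log P3) / 2) := by
    have e1 : ∀ P : ℝ, 0 < P → √P = Real.exp (Real.log P / 2) := by
      intro P hP
      rw [Real.exp_half, Real.exp_log hP]
    rw [e1 P1 hP1, e1 P2 hP2, e1 P3 hP3, ← Real.exp_nat_mul, ← Real.exp_add, ← Real.exp_add]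
    congr 1
    ring
  rw [hsq, ← Real.exp_sum, Finset.prod_const, Finset.card_univ, hcardZ, ← Real.exp_nat_mul,
    ← Real.exp_nat_mul, ← Real.exp_add] at hbas
  -- sum of the row exponents
  have hnodeE : ∀ i : X.Idx p, (i.1 : ℕ) = 0 →
      (X.node p i : ℝ) = X.ed 0 * p + ((i.2 : ℕ) + 1 / 2 : ℝ) := by
    intro i hi
    simp only [Ref.node, hi, H.hX1]
    push_cast
    ring
  have hsumA : ∑ i, aF i = p * (∑ k ∈ range (X.cnt p 0),
        (gF M E X W ((X.ed 0 * p + (k + 1 / 2) : ℝ) / p) + η)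
        + ((X.s : ℝ) * p - X.cnt p 0) * lF)
      + X.s * p * ((4 * X.s + 2 * W.s - SE) * p * Real.log p
          + (2 * X.s + W.s) * p * Real.log 4 + C1 * Real.log p) := by
    have e1 : ∀ i : X.Idx p, aF i = p * (if (i.1 : ℕ) = 0 then
        (fun k : ℕ => gF M E X W ((X.ed 0 * p + (k + 1 / 2) : ℝ) / p) + η) i.2 else lF)
        + ((4 * X.s + 2 * W.s - SE) * p * Real.log p
          + (2 * X.s + W.s) * p * Real.log 4 + C1 * Real.log p) := by
      intro i
      simp only [haF]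
      by_cases hi : (i.1 : ℕ) = 0
      · rw [if_pos hi, if_pos hi, hnodeE i hi]
        ring
      · rw [if_neg hi, if_neg hi]
        ring
    rw [Finset.sum_congr rfl (fun i _ => e1 i), Finset.sum_add_distrib, ← Finset.mul_sum,
      sum_first X p X.B_pos (fun k : ℕ => gF M E X W ((X.ed 0 * p + (k + 1 / 2) : ℝ) / p) + η) lF,
      Finset.sum_const, Finset.card_univ, hcardX, nsmul_eq_mul]
    push_cast
    ring
  have hcnt : |(X.cnt p 0 : ℝ) - w1 * p| ≤ 1 := by
    rw [X.cnt_zero p H.hXB, H.hX1, one_mul]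
    have hpos : (0 : ℚ) ≤ (X.ed 1 - X.ed 0) * p := by
      have := X.ed_lt 0 X.B_pos
      have h7 : (0 : ℚ) ≤ X.ed 1 - X.ed 0 := by linarith
      positivity
    have h8 := Nat.floor_le hpos
    have h9 := Nat.lt_floor_add_one ((X.ed 1 - X.ed 0) * (p : ℚ))
    have h8' : ((⌊(X.ed 1 - X.ed 0) * (p : ℚ)⌋₊ : ℚ) : ℝ) ≤ (((X.ed 1 - X.ed 0) * (p : ℚ) : ℚ) : ℝ) := by
      exact_mod_cast h8
    have h9' : (((X.ed 1 - X.ed 0) * (p : ℚ) : ℚ) : ℝ) < ((⌊(X.ed 1 - X.ed 0) * (p : ℚ)⌋₊ + 1 : ℚ) : ℝ) := by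
      exact_mod_cast h9
    push_cast at h8' h9'
    rw [abs_le]
    constructor <;> linarith
  set c0 : ℝ := (X.cnt p 0 : ℝ) with hc0
  set lp : ℝ := Real.log p with hlpdef
  set SG : ℝ := ∑ k ∈ range (X.cnt p 0), gF M E X W ((X.ed 0 * p + (k + 1 / 2) : ℝ) / p) with hSG
  have h4' : p * SG ≤ p ^ 2 * G0 + C4 * p * lp := by
    have := (abs_le.1 h4).2
    rw [← Finset.mul_sum] at this
    linarith
  have hppos : (0 : ℝ) < p := by linarith
  have hplp : (p : ℝ) ≤ 2 * (p * lp) := by nlinarith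
  have hcη : p * (c0 * η) ≤ w1 * η * p ^ 2 + 2 * η * p * lp := by
    have e1 := (abs_le.1 hcnt).2
    have e2 : c0 * η ≤ (w1 * p + 1) * η := mul_le_mul_of_nonneg_right (by linarith) H.hη
    have e3 : p * (c0 * η) ≤ p * ((w1 * p + 1) * η) := mul_le_mul_of_nonneg_left e2 hppos.le
    have e4 : η * p ≤ η * (2 * (p * lp)) := mul_le_mul_of_nonneg_left hplp H.hη
    linarith
  have hclF : p * (((X.s : ℝ) * p - c0) * lF)
      ≤ (X.s - w1) * lF * p ^ 2 + 2 * |lF| * p * lp := by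
    have e1 : (w1 * p - c0) * lF ≤ 1 * |lF| := by
      refine (le_abs_self _).trans ?_
      rw [abs_mul]
      apply mul_le_mul_of_nonneg_right _ (abs_nonneg _)
      rw [abs_sub_comm]
      exact hcnt
    have e3 : p * ((w1 * p - c0) * lF) ≤ p * (1 * |lF|) := mul_le_mul_of_nonneg_left e1 hppos.le
    have e4 : |lF| * p ≤ |lF| * (2 * (p * lp)) :=
      mul_le_mul_of_nonneg_left hplp (abs_nonneg _)
    linarith
  have hC1 : X.s * p * (C1 * lp) ≤ |C1| * X.s * p * lp := by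
    have e1 : C1 * (X.s * p * lp) ≤ |C1| * (X.s * p * lp) :=
      mul_le_mul_of_nonneg_right (le_abs_self _) (by positivity)
    linarith
  have hC2 : d * (Z.s * p) * (C2 * lp) ≤ |C2| * (d * Z.s) * p * lp := by
    have e1 : C2 * (d * Z.s * p * lp) ≤ |C2| * (d * Z.s * p * lp) :=
      mul_le_mul_of_nonneg_right (le_abs_self _) (by positivity)
    linarith
  have hfact : Real.log ((X.s * p + d * (Z.s * p)).factorial : ℝ)
      ≤ ((X.s : ℝ) + W.s) * (|Real.log ((X.s : ℝ) + W.s)| * 2 + 1) * (p * lp) := by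
    refine (log_factorial_le _).trans ?_
    push_cast
    rw [← mul_assoc (d : ℝ), ← hws, ← add_mul]
    set S : ℝ := (X.s : ℝ) + W.s with hS
    have hS0 : 0 ≤ S := by positivity
    rcases hS0.eq_or_lt with e0 | e0
    · rw [← e0]; simp
    · rw [Real.log_mul e0.ne' hppos.ne']
      have e1 : Real.log S * 1 ≤ |Real.log S| * (2 * lp) := by
        refine (mul_le_mul_of_nonneg_right (le_abs_self _) (by norm_num)).trans ?_
        exact mul_le_mul_of_nonneg_left (by linarith) (abs_nonneg _)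
      have e2 : S * p * (Real.log S + lp) ≤ S * p * (|Real.log S| * (2 * lp) + lp) :=
        mul_le_mul_of_nonneg_left (by linarith) (by positivity)
      calc S * p * (Real.log S + lp) ≤ S * p * (|Real.log S| * (2 * lp) + lp) := e2
        _ = S * (|Real.log S| * 2 + 1) * (p * lp) := by ring
  set Wv : ℝ := (Real.log P1 + d * Real.log P2 + Real.log P3) / 2 with hWv
  set D : ℝ := |DR A (M * p - 1) (fun u => E (u / p)) β (X.s * p) (Z.s * p)| with hD
  have hfpos : (0 : ℝ) < ((X.s * p + d * (Z.s * p)).factorial : ℝ) := by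
    exact_mod_cast Nat.factorial_pos _
  have hD1 : D ≤ Real.exp (Real.log ((X.s * p + d * (Z.s * p)).factorial : ℝ)
      + (∑ i, aF i + d * (((Z.s * p : ℕ) : ℝ) * aR)) - Wv) := by
    rw [Real.exp_sub, Real.exp_add, Real.exp_log hfpos, le_div_iff₀ (Real.exp_pos _)]
    linarith
  refine hD1.trans (Real.exp_le_exp.2 ?_)
  rw [hsumA, Finset.sum_add_distrib, ← hSG, Finset.sum_const, card_range, nsmul_eq_mul]
  simp only [kap, archConst, ← hSE, ← hG, ← hw1]
  have hfin := final_lin (X.s : ℝ) Z.s d W.s SE G0 w1 η lF lR p lp (Real.log 4) (X.energy X)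
    (X.energy W) (W.energy W) (Z.energy Z) C1 C2 C3 C4 c0 SG
    (Real.log ((X.s * p + d * (Z.s * p)).factorial : ℝ)) Wv
    (((X.s : ℝ) + W.s) * (|Real.log ((X.s : ℝ) + W.s)| * 2 + 1)) hws h4' hcη hclF hC1 hC2 hfact
    (by linarith [hP])
  simp only [haR]
  push_cast
  linarith [hfin]

end Pool.Agent.D4
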