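import Pool.Agent.D4.ArchData
import Pool.Agent.Z5.ArchNum

/-! The hypotheses `ArchHyp` for the reference densities `XX`, `ZZ`, `WW` (pole order `50`, `M = 4`,
`s = s' = 20`, two families), and the value of the archimedean constant.  Seat: helper6. -/

open Finset

namespace Pool.Agent.D4

open Pool.Agent.Z5 (Ref NRef Repr Trm cellsOk tailOk HH GG Gam gF poleU poleV primF
  gsum cellsOk_sound tailOk_sound csPos csNeg ggT ggT_eq lcomb lcomb_append lcomb_le lcNz lcUp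
  nd' nd'_cast GG_abs enL_eq vL_eq logHi logLo)

/-- the constant profile -/
def E50 : ℕ → ℕ := fun _ => 50

theorem poleU_fifty (z : ℝ) : poleU 4 E50 z = -50 * Gam 2 z := by
  simp only [poleU, E50, Gam, Finset.sum_range_succ, Finset.sum_range_zero]
  push_cast
  ring_nf

theorem poleV_fifty (z : ℝ) : poleV 4 E50 z = 50 * (GG (z + 2) - GG (z - 2)) := by
  simp only [poleV, E50, Finset.sum_range_succ, Finset.sum_range_zero]
  push_cast
  ring_nf

theorem XX_U (z : ℝ) : XX.U z = ∑ i ∈ range 3, (((cX.getD i 0 : ℕ) : ℝ) / 10) *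
    (Gam (((eX.getD i 0 : ℕ) : ℝ) / 20) z - Gam (((eX.getD (i + 1) 0 : ℕ) : ℝ) / 20) z) := by
  rw [Pool.Agent.Z5.Ref.U_eq_Gam]
  refine Finset.sum_congr rfl fun i _ => ?_
  simp [XX]

theorem ZZ_U (z : ℝ) : ZZ.U z = ∑ i ∈ range 3, (((cZ.getD i 0 : ℕ) : ℝ) / 10) *
    (Gam (((eZ.getD i 0 : ℕ) : ℝ) / 20) z - Gam (((eZ.getD (i + 1) 0 : ℕ) : ℝ) / 20) z) := by
  rw [Pool.Agent.Z5.Ref.U_eq_Gam]
  refine Finset.sum_congr rfl fun i _ => ?_
  simp [ZZ]

theorem WW_U (z : ℝ) : WW.U z = ∑ i ∈ range 3, (((cW.getD i 0 : ℕ) : ℝ) / 10) *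
    (Gam (((eZ.getD i 0 : ℕ) : ℝ) / 20) z - Gam (((eZ.getD (i + 1) 0 : ℕ) : ℝ) / 20) z) := by
  rw [Pool.Agent.Z5.Ref.U_eq_Gam]
  refine Finset.sum_congr rfl fun i _ => ?_
  simp [WW]

theorem gF_eq (z : ℝ) : gF 4 E50 XX WW z = gsum 20 10 tsF z := by
  have h3 : Gam 2 z = Gam (40 / 20) z := by norm_num
  rw [gF, XX_U, WW_U, poleU_fifty, h3]
  simp only [Finset.sum_range_succ, Finset.sum_range_zero, gsum, tsF, Pool.Agent.Z5.Trm.co, List.map_cons,
    List.map_nil, List.sum_cons, List.sum_nil, eX, cX, eZ, cW, List.getD_cons_zero,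
    List.getD_cons_succ, Bool.false_eq_true, if_false, if_true]
  push_cast
  simp only [zero_div, Pool.Agent.Z5.Gam_zero]
  ring

theorem gR_eq (z : ℝ) : gRW 4 E50 XX ZZ WW z = gsum 20 10 tsR z := by
  have h3 : Gam 2 z = Gam (40 / 20) z := by norm_num
  rw [gRW, XX_U, ZZ_U, WW_U, poleU_fifty, h3]
  simp only [Finset.sum_range_succ, Finset.sum_range_zero, gsum, tsR, Pool.Agent.Z5.Trm.co, List.map_cons,
    List.map_nil, List.sum_cons, List.sum_nil, eX, cX, eZ, cZ, cW, List.getD_cons_zero,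
    List.getD_cons_succ, Bool.false_eq_true, if_false, if_true]
  push_cast
  simp only [zero_div, Pool.Agent.Z5.Gam_zero]
  ring

theorem gFm_eq (z : ℝ) : -gF 4 E50 XX WW z = gsum 20 10 tsFm z := by
  have h3 : Gam 2 z = Gam (40 / 20) z := by norm_num
  rw [gF, XX_U, WW_U, poleU_fifty, h3]
  simp only [Finset.sum_range_succ, Finset.sum_range_zero, gsum, tsFm, Pool.Agent.Z5.Trm.co, List.map_cons,
    List.map_nil, List.sum_cons, List.sum_nil, eX, cX, eZ, cW, List.getD_cons_zero,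
    List.getD_cons_succ, Bool.false_eq_true, if_false, if_true]
  push_cast
  simp only [zero_div, Pool.Agent.Z5.Gam_zero]
  ring

/-- level of the `F` rows -/
noncomputable def lF50 : ℝ := -29115 / 200
/-- level of the `G` rows -/
noncomputable def lR50 : ℝ := 19388 / 200
/-- allowance in the saturated zone -/
noncomputable def eta50 : ℝ := 261 / 200

theorem isProf_E50 : IsProf 25 3 E50 where
  pos := fun _ _ => by simp [E50]
  le := fun _ _ => by simp [E50]
  symm := fun _ _ => rfl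
  even := by simp [E50]; decide

theorem archHyp_num : ArchHyp 25 2 4 E50 XX ZZ WW lF50 lR50 eta50 where
  hM := by norm_num
  prof := isProf_E50
  hX0 := by
    show (((eX.getD 0 0 : ℕ) : ℚ) / 20) = ((4 : ℕ) : ℚ) / 2
    simp only [eX, List.getD_cons_zero]; norm_num
  hX1 := by
    show (((cX.getD 0 0 : ℕ) : ℚ) / 10) = 1
    simp only [cX, List.getD_cons_zero]; norm_num
  hXB := by show 2 ≤ 3; norm_num
  hZ := by
    show (((eZ.getD 3 0 : ℕ) : ℚ) / 20) < ((4 : ℕ) : ℚ) / 2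
    simp only [eZ, List.getD_cons_zero, List.getD_cons_succ]; norm_num
  hW := by
    show (((eZ.getD 3 0 : ℕ) : ℚ) / 20) < ((4 : ℕ) : ℚ) / 2
    simp only [eZ, List.getD_cons_zero, List.getD_cons_succ]; norm_num
  hWs := rfl
  hdeg := by
    show 4 * 20 + 2 * 40 < ∑ m ∈ range 4, E50 m
    simp [E50]
  hF := by
    intro z hz
    have hz' : ((353 : ℕ) : ℝ) / ((20 : ℕ) : ℝ) ≤ z := by
      refine le_trans (le_of_eq ?_) hz
      show _ = ((((eX.getD 1 0 : ℕ) : ℚ) / 20 : ℚ) : ℝ)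
      simp only [eX, List.getD_cons_zero, List.getD_cons_succ]; push_cast; rfl
    rw [gF_eq]
    by_cases h : z ≤ ((767 : ℕ) : ℝ) / ((20 : ℕ) : ℝ)
    · have := cellsOk_sound 20 10 (by norm_num) (by norm_num) tsF 0 29115 cellsF 353 okF z hz' h
        (by simp [cellsF])
      refine this.trans (le_of_eq ?_)
      rw [lF50]; norm_num
    · have h' := (lt_of_not_ge h).le
      have := tailOk_sound 20 10 (by norm_num) (by norm_num) tsF 0 29115 767 (by norm_num) okT z h'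
      have hlog : 0 ≤ Real.log (z / (((767 : ℕ) : ℝ) / ((20 : ℕ) : ℝ))) := by
        apply Real.log_nonneg
        rw [le_div_iff₀ (by norm_num), one_mul]
        exact h'
      have hK : (0 : ℝ) ≤ 2 * ((csPos tsF : ℝ) - csNeg tsF) / (((20 : ℕ) : ℝ) * ((10 : ℕ) : ℝ)) := by
        have : csNeg tsF ≤ csPos tsF := by decide +kernel
        have : (csNeg tsF : ℝ) ≤ csPos tsF := by exact_mod_cast this
        apply div_nonneg <;> [linarith; positivity]
      have h2 := mul_nonneg hK hlog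
      have h3 : (((0 : ℕ) : ℝ) - ((29115 : ℕ) : ℝ)) / (((20 : ℕ) : ℝ) * ((10 : ℕ) : ℝ)) = lF50 := by
        rw [lF50]; norm_num
      rw [h3] at this
      linarith
  hR := by
    intro z hz0 hz
    rw [gR_eq]
    have := cellsOk_sound 20 10 (by norm_num) (by norm_num) tsR 19388 0 cellsR 0 okR z
      (by simpa using hz0) (by
        refine hz.trans ?_
        show ((4 : ℕ) : ℝ) / 2 ≤ ((40 : ℕ) : ℝ) / ((20 : ℕ) : ℝ)
        norm_num) (by simp [cellsR])
    refine this.trans (le_of_eq ?_)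
    rw [lR50]; norm_num
  hη := by rw [eta50]; norm_num
  hS := by
    intro z hz0 hz
    have h0 : ((40 : ℕ) : ℝ) / ((20 : ℕ) : ℝ) ≤ z := by
      refine le_trans (le_of_eq ?_) hz0
      show _ = ((((eX.getD 0 0 : ℕ) : ℚ) / 20 : ℚ) : ℝ)
      simp only [eX, List.getD_cons_zero]; push_cast; rfl
    have h1 : z ≤ ((353 : ℕ) : ℝ) / ((20 : ℕ) : ℝ) := by
      refine hz.trans (le_of_eq ?_)
      show ((((eX.getD 1 0 : ℕ) : ℚ) / 20 : ℚ) : ℝ) = _
      simp only [eX, List.getD_cons_zero, List.getD_cons_succ]; push_cast; rfl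
    have := cellsOk_sound 20 10 (by norm_num) (by norm_num) tsFm 29376 0 cellsS 40 okS z h0 h1
      (by simp [cellsS])
    rw [← gFm_eq] at this
    have h3 : lF50 - eta50 = -((((29376 : ℕ) : ℝ) - ((0 : ℕ) : ℝ)) / (((20 : ℕ) : ℝ) * ((10 : ℕ) : ℝ))) := by
      rw [lF50, eta50]; norm_num
    rw [h3]
    linarith

/-! ### The constant -/

/-- pole terms: `4 D² k poleV (Z/D)`, `D = 20` -/
def poleL (k : ℤ) (Z : ℕ) : List (ℤ × ℕ) :=
  [ggT (50 * k) (Z + 40), ggT (-(50 * k)) (nd' Z 40)]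

theorem poleL_eq (k : ℤ) (Z : ℕ) :
    4 * ((20 : ℕ) : ℝ) ^ 2 * k * poleV 4 E50 ((Z : ℝ) / ((20 : ℕ) : ℝ)) =
      lcomb (poleL k Z) - (2 * Real.log ((20 : ℕ) : ℝ) + 3) * (50 * k * (4 * 40 * Z)) := by
  rw [poleV_fifty]
  have e1 : GG ((Z : ℝ) / ((20 : ℕ) : ℝ) + 2) = GG (((Z + 40 : ℕ) : ℝ) / ((20 : ℕ) : ℝ)) := by
    congr 1; push_cast; ring
  have e2 : GG ((Z : ℝ) / ((20 : ℕ) : ℝ) - 2) = GG (((nd' Z 40 : ℕ) : ℝ) / ((20 : ℕ) : ℝ)) := by
    rw [nd'_cast, ← GG_abs]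
    congr 1
    rw [show (Z : ℝ) / ((20 : ℕ) : ℝ) - 2 = ((Z : ℝ) - ((40 : ℕ) : ℝ)) / ((20 : ℕ) : ℝ) by
      push_cast; ring, abs_div]
    simp
  rw [e1, e2]
  have h1 := ggT_eq 20 (by norm_num) (50 * k) (Z + 40)
  have h2 := ggT_eq 20 (by norm_num) (-(50 * k)) (nd' Z 40)
  have q2 : ((nd' Z 40 : ℕ) : ℝ) ^ 2 = ((Z : ℝ) - 40) ^ 2 := by rw [nd'_cast, sq_abs]; norm_num
  rw [q2] at h2
  simp only [lcomb, poleL, List.map_cons, List.map_nil, List.sum_cons, List.sum_nil]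
  push_cast at h1 h2 ⊢
  linear_combination h1 + h2

/-- all log terms of `8 D² Dc² archConst` -/
def constL : List (ℤ × ℕ) :=
  NX.enL NX (-2) ++ (NX.enL NW (-2) ++ (NW.enL NW (-1) ++ (NZ.enL NZ (-2) ++
  (NX.vL 40 353 ++ (NX.vL (-40) 40 ++ (NW.vL 20 353 ++ (NW.vL (-20) 40 ++
  (poleL (-200) 353 ++ (poleL 200 40 ++
  [(1536000000, 2), (1736320000, 20)])))))))))

theorem massX : NX.mass NX.B = 4000 := by decide +kernel

theorem massZ : NZ.mass NZ.B = 4000 := by decide +kernel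

theorem massW : NW.mass NW.B = 8000 := by decide +kernel

theorem constL_eq : 320000 * archConst 4 E50 2 XX ZZ WW lF50 lR50 eta50 =
    lcomb constL + (3649207040) := by
  have e1 : (XX.ed 1 : ℝ) = ((353 : ℕ) : ℝ) / ((20 : ℕ) : ℝ) := by
    show ((((eX.getD 1 0 : ℕ) : ℚ) / 20 : ℚ) : ℝ) = _
    simp only [eX, List.getD_cons_zero, List.getD_cons_succ]; push_cast; rfl
  have e0 : (XX.ed 0 : ℝ) = ((40 : ℕ) : ℝ) / ((20 : ℕ) : ℝ) := by
    show ((((eX.getD 0 0 : ℕ) : ℚ) / 20 : ℚ) : ℝ) = _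
    simp only [eX, List.getD_cons_zero]; push_cast; rfl
  have eXX := enL_eq (D := 20) (Dc := 10) (by norm_num) (by norm_num) reprX reprX (-2)
  have eXW := enL_eq (D := 20) (Dc := 10) (by norm_num) (by norm_num) reprX reprW (-2)
  have eWW := enL_eq (D := 20) (Dc := 10) (by norm_num) (by norm_num) reprW reprW (-1)
  have eZZ := enL_eq (D := 20) (Dc := 10) (by norm_num) (by norm_num) reprZ reprZ (-2)
  have vX1 := vL_eq (D := 20) (Dc := 10) (by norm_num) (by norm_num) reprX 40 353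
  have vX0 := vL_eq (D := 20) (Dc := 10) (by norm_num) (by norm_num) reprX (-40) 40
  have vW1 := vL_eq (D := 20) (Dc := 10) (by norm_num) (by norm_num) reprW 20 353
  have vW0 := vL_eq (D := 20) (Dc := 10) (by norm_num) (by norm_num) reprW (-20) 40
  have p1 := poleL_eq (-200) 353
  have p0 := poleL_eq 200 40
  rw [massX] at eXX vX1 vX0
  rw [massW] at eWW vW1 vW0
  rw [massX, massW] at eXW
  rw [massZ] at eZZ
  have hs : (XX.s : ℝ) = 20 := by show ((20 : ℕ) : ℝ) = 20; norm_num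
  have hs' : (ZZ.s : ℝ) = 20 := by show ((20 : ℕ) : ℝ) = 20; norm_num
  have hs'' : (WW.s : ℝ) = 40 := by show ((40 : ℕ) : ℝ) = 40; norm_num
  have h4 : Real.log 4 = 2 * Real.log ((2 : ℕ) : ℝ) := by
    rw [show (4 : ℝ) = 2 ^ 2 by norm_num, Real.log_pow]; push_cast; ring
  have hL : lcomb constL = lcomb (NX.enL NX (-2)) + lcomb (NX.enL NW (-2)) +
      lcomb (NW.enL NW (-1)) + lcomb (NZ.enL NZ (-2)) + lcomb (NX.vL 40 353) +
      lcomb (NX.vL (-40) 40) +
      lcomb (NW.vL 20 353) + lcomb (NW.vL (-20) 40) + lcomb (poleL (-200) 353) +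
      lcomb (poleL 200 40) + 1536000000 * Real.log ((2 : ℕ) : ℝ) +
      (1736320000) * Real.log ((20 : ℕ) : ℝ) := by
    unfold constL
    simp only [lcomb_append]
    simp only [lcomb, List.map_cons, List.map_nil, List.sum_cons, List.sum_nil]
    push_cast
    ring
  rw [hL, archConst, primF, primF, e1, e0, hs, hs', hs'', h4, lF50, lR50, eta50]
  push_cast at *
  linear_combination eXX + eXW + eWW + eZZ + vX1 + vX0 + vW1 + vW0 + p1 + p0

set_option maxRecDepth 1000000 in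
theorem constL_nz : lcNz constL = true := by decide +kernel

set_option maxRecDepth 1000000 in
theorem constL_up : lcUp constL ≤ -984904702632312733611808 := by decide +kernel

/-- the archimedean constant -/
theorem archConst_num : archConst 4 E50 2 XX ZZ WW lF50 lR50 eta50 ≤ 480 := by
  have h1 := lcomb_le constL constL_nz
  have h2 : (lcUp constL : ℝ) ≤ -984904702632312733611808 := by exact_mod_cast constL_up
  have h3 := constL_eq
  have h4 : lcomb constL * 2 ^ 48 ≤ -984904702632312733611808 := h1.trans h2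
  nlinarith

/-- the certificate in the form used by the assembly -/
theorem exists_cert : ∃ (X Z W : Ref) (lF lR η : ℝ),
    ArchHyp 25 2 4 (fun _ => 50) X Z W lF lR η ∧ X.s = 20 ∧ Z.s = 20 ∧
    archConst 4 (fun _ => 50) 2 X Z W lF lR η ≤ 480 :=
  ⟨XX, ZZ, WW, lF50, lR50, eta50, archHyp_num, rfl, rfl, archConst_num⟩

end Pool.Agent.D4
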