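import Pool.Agent.D4.PDefs
import Pool.Agent.Z5.PadicSF
import Pool.Agent.Z9.Chord

/-!
# The valuation of `RR`, chord bound

The hinge sum for `v_q(RR p)` is convex in `4 p / q`, hence below its chord between consecutive
integers.  Adaptation of `Pool/Agent/Z9/Chord.lean`: for `40 p` the hinge sum has `20 k + 19` terms
and is at most `800 k p - 5 k q (20 k + 1) + (19 * 20 / 4) (4 p - k q)` (in the notation there:
`m = 20 k` full terms, then the partial ones `i = 1, …, 19` are each at most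
`(4 p - k q) (20 - i) / 2`); for `20 p` there are `10 k + 9` terms.
-/

open Finset

namespace Pool.Agent.D4

open Pool.Agent.Z5 (SF)

variable {p q : ℕ}

/-- `∑_{i ≤ m} max(0, A - i Q / 2) + (j further terms)`, the further terms estimated one by one -/
private lemma hinge_tail (A Q g c : ℝ) (m : ℕ) (hA : A = m * Q / 2 + c * g / 2) (hg0 : 0 ≤ g)
    (hgQ : g ≤ Q) (n : ℕ) (hn : (n : ℝ) ≤ c) :
    ∑ i ∈ Icc 1 (m + n), max 0 (A - (i : ℝ) * Q / 2) ≤
      m * A - m * (m + 1) * Q / 4 + (n * c - n * (n + 1) / 2) * g / 2 := by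
  have hc0 : 0 ≤ c := le_trans (Nat.cast_nonneg n) hn
  induction n with
  | zero =>
    have e0 := Pool.Agent.Z9.sum_hinge A Q (hg0.trans hgQ) m (by
      rw [hA]
      have : 0 ≤ c * g := mul_nonneg hc0 hg0
      linarith)
    rw [Nat.add_zero, e0]
    push_cast
    linarith
  | succ n ih =>
    have hn' : (n : ℝ) + 1 ≤ c := by
      have h := hn
      push_cast at h
      exact h
    have ih' := ih (by linarith)
    rw [← Nat.add_assoc, Finset.sum_Icc_succ_top (by omega)]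
    have h1 : max 0 (A - ((m + n + 1 : ℕ) : ℝ) * Q / 2) ≤ (c - (n + 1)) * g / 2 := by
      refine max_le ?_ ?_
      · have : 0 ≤ (c - (n + 1)) * g := mul_nonneg (by linarith) hg0
        linarith
      · rw [hA]
        push_cast
        have : ((n : ℝ) + 1) * g ≤ (n + 1) * Q := mul_le_mul_of_nonneg_left hgQ (by positivity)
        nlinarith
    refine (add_le_add ih' h1).trans (le_of_eq ?_)
    push_cast
    ring

private lemma hinge40 (P Q : ℝ) (k : ℕ) (h1 : (k : ℝ) * Q ≤ 4 * P)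
    (h2 : 4 * P ≤ (k + 1) * Q) :
    ∑ i ∈ Icc 1 (20 * k + 19), max 0 (40 * P - (i : ℝ) * Q / 2) ≤
      800 * k * P - 5 * k * Q * (20 * k + 1) + 95 * (4 * P - k * Q) := by
  refine (hinge_tail (40 * P) Q (4 * P - k * Q) 20 (20 * k) (by push_cast; ring) (by linarith)
    (by linarith) 19 (by norm_num)).trans (le_of_eq ?_)
  push_cast
  ring

private lemma hinge20 (P Q : ℝ) (k : ℕ) (h1 : (k : ℝ) * Q ≤ 4 * P)
    (h2 : 4 * P ≤ (k + 1) * Q) :
    ∑ i ∈ Icc 1 (10 * k + 9), max 0 (20 * P - (i : ℝ) * Q / 2) ≤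
      200 * k * P - 5 * k * Q * (10 * k + 1) / 2 + 45 / 2 * (4 * P - k * Q) := by
  refine (hinge_tail (20 * P) Q (4 * P - k * Q) 10 (10 * k) (by push_cast; ring) (by linarith)
    (by linarith) 9 (by norm_num)).trans (le_of_eq ?_)
  push_cast
  ring

/-- common part: `E` bounds `2 a / q ^ 2` -/
private lemma chord_aux (hqp : q.Prime) (E : ℕ) (hE : 80 * p ≤ (E + 1) * q ^ 2)
    (h3 : 80 * p ≤ q ^ 3) :
    ((padicValNat q (RR p) : ℕ) : ℤ) ≤ 1400 * ((4 * p / q : ℕ) : ℤ) * p + 650 * p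
      - 175 * q * (((4 * p / q : ℕ) : ℤ) * (((4 * p / q : ℕ) : ℤ) + 1)) + 100 * E * p := by
  have : Fact q.Prime := ⟨hqp⟩
  obtain ⟨k, hk⟩ : ∃ k : ℕ, k = 4 * p / q := ⟨_, rfl⟩
  have h0 : 0 < q := hqp.pos
  have h1 : k * q ≤ 4 * p := by rw [hk]; exact Nat.div_mul_le_self _ _
  have h2 : 4 * p < (k + 1) * q := (Nat.div_lt_iff_lt_mul h0).mp (by rw [hk]; omega)
  have hv : padicValNat q (RR p) =
      padicValNat q (SF (40 * p)) + 3 * padicValNat q (SF (20 * p)) := by
    unfold RR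
    rw [padicValNat.mul (Z5.SF_pos _).ne' (pow_pos (Z5.SF_pos _) _).ne', padicValNat.pow]
  have h40 := Z5.padicVal_SF_le (q := q) (40 * p) (20 * k + 19) E (by omega) (by omega) (by
    have : (20 * k + 19 + 1) * q = 20 * ((k + 1) * q) := by ring
    omega)
  have h20 := Z5.padicVal_SF_le (q := q) (20 * p) (10 * k + 9) E (by omega) (by omega) (by
    have : (10 * k + 9 + 1) * q = 10 * ((k + 1) * q) := by ring
    omega)
  have h1R : (k : ℝ) * q ≤ 4 * p := by exact_mod_cast h1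
  have h2R : 4 * (p : ℝ) ≤ (k + 1) * q := by exact_mod_cast h2.le
  have a40 := hinge40 (p : ℝ) (q : ℝ) k h1R h2R
  have a20 := hinge20 (p : ℝ) (q : ℝ) k h1R h2R
  push_cast at h40 h20
  rw [← hk]
  have hfin : ((padicValNat q (RR p) : ℕ) : ℝ) ≤ 1400 * (k : ℝ) * p + 650 * p
      - 175 * q * ((k : ℝ) * (k + 1)) + 100 * E * p := by
    rw [hv]
    push_cast
    nlinarith [h40, h20, a40, a20]
  have hc : ((((padicValNat q (RR p) : ℕ) : ℤ)) : ℝ) ≤ ((1400 * (k : ℤ) * p + 650 * p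
      - 175 * q * ((k : ℤ) * ((k : ℤ) + 1)) + 100 * E * p : ℤ) : ℝ) := by
    rw [Int.cast_natCast]
    refine hfin.trans (le_of_eq ?_)
    push_cast
    ring
  exact Int.cast_le.mp hc

theorem chord (hqp : q.Prime) (hp : 100 ≤ p) (hpq : 80 * p < q ^ 2) (h : q ≤ 4 * p) :
    let k : ℤ := (4 * p / q : ℕ)
    (padicValNat q (RR p) : ℤ) ≤ 1400 * k * p + 650 * p - 175 * q * (k * (k + 1)) := by
  intro k
  have h3 : q ^ 2 ≤ q ^ 3 := Nat.pow_le_pow_right hqp.pos (by norm_num)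
  have h1 := chord_aux (p := p) hqp 0 (by omega) (by omega)
  have h2 : (100 * (0 : ℕ) * p : ℤ) = 0 := by norm_num
  rw [h2, add_zero] at h1
  exact h1

theorem chord' (hqp : q.Prime) (hp : 100 ≤ p) (hpq : 4 * p < q ^ 2) (h : q ≤ 4 * p) :
    let k : ℤ := (4 * p / q : ℕ)
    (padicValNat q (RR p) : ℤ) ≤ 1400 * k * p + 650 * p - 175 * q * (k * (k + 1)) + 2000 * p := by
  intro k
  have h4 : 20 ≤ q := by
    by_contra hc
    have h5 : q ≤ 19 := by omega
    have h6 : q ^ 2 ≤ 19 ^ 2 := Nat.pow_le_pow_left h5 2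
    omega
  have h3 : 20 * q ^ 2 ≤ q ^ 3 := by
    have : q ^ 3 = q * q ^ 2 := by ring
    rw [this]
    exact Nat.mul_le_mul_right _ h4
  have h1 := chord_aux (p := p) hqp 19 (by omega) (by omega)
  have h2 : (100 * (19 : ℕ) * p : ℤ) = 1900 * p := by push_cast; ring
  rw [h2] at h1
  refine h1.trans ?_
  have : (0 : ℤ) ≤ p := Int.natCast_nonneg p
  have e : (1900 * (p : ℤ)) ≤ 2000 * p := by linarith
  exact add_le_add le_rfl e

end Pool.Agent.D4
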