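import Pool.Agent.D4.FEq
import Pool.Agent.Z5.DQDR

/-!
# The rational and the real determinant agree if the relations hold

Adaptation of `Pool/Agent/Z9/DQDR`: to the row `i` of `F` belong the rows `i` of the `d`
families of `G` (row operations with the factors `θ j`).
-/

open Finset Matrix

namespace Pool.Agent.D4

open Pool.Agent.Z5 (w evY F dser xser hser lser co rho Hs zt tot mono)

variable {A L d : ℕ} {e : ℕ → ℕ}

theorem dqdr_lt (a b : ℕ) (x : Fin a ⊕ Fin d × Fin b) : jR d a b x < a + d * b := by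
  rcases x with i | ⟨j, i⟩
  · have := i.2
    show (i : ℕ) < a + d * b
    omega
  · have h1 := i.2
    have h2 := j.2
    show a + ((i : ℕ) + b * (j : ℕ)) < a + d * b
    have h3 : b * ((j : ℕ) + 1) ≤ b * d := Nat.mul_le_mul_left b h2
    have h4 : b * ((j : ℕ) + 1) = b * (j : ℕ) + b := by ring
    have h5 : b * d = d * b := Nat.mul_comm _ _
    omega

theorem dqdr_row (he : IsProf A L e) (a b : ℕ) (hd : 4 * a + 2 * (d * b) ≤ tot L e + 1)
    (α : ℕ → ℚ) (β : Fin d → ℕ → ℚ) (θ : Fin d → ℝ)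
    (h : ∀ k ∈ Finset.Icc 1 (A - 1), zt (2 * k + 1) = α k + ∑ j, (β j k : ℝ) * θ j)
    (i : Fin a) (t : Fin a ⊕ Fin d × Fin b) :
    F L e (mono a i * monoR d a b t) = ((Ph A L e α (mono a i * monoR d a b t) : ℚ) : ℝ) +
      ∑ j, θ j * ((G A L e (β j) (mono a i * monoR d a b t) : ℚ) : ℝ) := by
  have hk := dqdr_lt a b t
  have h1 : mono a i * monoR d a b t = Polynomial.X ^ ((i : ℕ) + jR d a b t) := by
    rw [pow_add]
    rfl
  have hdeg : 2 * (Polynomial.X ^ ((i : ℕ) + jR d a b t) : Polynomial ℚ).natDegree + 3 ≤ tot L e := by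
    rw [Polynomial.natDegree_X_pow]
    have hi := i.2
    omega
  rw [h1, F_eq he _ hdeg, Finset.sum_congr rfl (fun k hk => by rw [h k hk])]
  unfold Ph G
  push_cast
  simp only [Finset.mul_sum, mul_add, Finset.sum_add_distrib]
  rw [add_assoc]
  congr 1
  congr 1
  · exact Finset.sum_congr rfl fun k _ => by ring
  · rw [Finset.sum_comm]
    exact Finset.sum_congr rfl fun j _ => Finset.sum_congr rfl fun k _ => by ring

/-- the row operations -/
noncomputable def dqdrP (a b : ℕ) (hab : a ≤ b) (θ : Fin d → ℝ) :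
    Matrix (Fin a ⊕ Fin d × Fin b) (Fin a ⊕ Fin d × Fin b) ℝ :=
  Matrix.fromBlocks 1 (Matrix.of fun (i : Fin a) (x : Fin d × Fin b) =>
    if x.2 = Fin.castLE hab i then θ x.1 else 0) 0 1

theorem dqdrP_det (a b : ℕ) (hab : a ≤ b) (θ : Fin d → ℝ) : (dqdrP a b hab θ).det = 1 := by
  unfold dqdrP
  rw [Matrix.det_fromBlocks_zero₂₁, Matrix.det_one, Matrix.det_one, mul_one]

theorem DQ_eq_DR (he : IsProf A L e) (a b : ℕ) (hab : a ≤ b)
    (hd : 4 * a + 2 * (d * b) ≤ tot L e + 1) (α : ℕ → ℚ) (β : Fin d → ℕ → ℚ) (θ : Fin d → ℝ)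
    (h : ∀ k ∈ Finset.Icc 1 (A - 1), zt (2 * k + 1) = α k + ∑ j, (β j k : ℝ) * θ j) :
    ((DQ A L e α β a b : ℚ) : ℝ) = DR A L e β a b := by
  have h1 : ((DQ A L e α β a b : ℚ) : ℝ) =
      ((Rat.castHom ℝ).mapMatrix (gmat A L e α β (mono a) (mono b) (monoR d a b))).det := by
    rw [← RingHom.map_det]
    rfl
  have h2 : rmat A L e β (mono a) (mono b) (monoR d a b) = dqdrP a b hab θ *
      (Rat.castHom ℝ).mapMatrix (gmat A L e α β (mono a) (mono b) (monoR d a b)) := by
    ext i t
    rw [Matrix.mul_apply, Fintype.sum_sum_type]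
    rcases i with i | i
    · have h3 : ∀ k : Fin a, dqdrP a b hab θ (Sum.inl i) (Sum.inl k) = if i = k then 1 else 0 := by
        intro k
        unfold dqdrP
        rw [Matrix.fromBlocks_apply₁₁, Matrix.one_apply]
      have h4 : ∀ x : Fin d × Fin b, dqdrP a b hab θ (Sum.inl i) (Sum.inr x) =
          if x.2 = Fin.castLE hab i then θ x.1 else 0 := by
        intro x
        unfold dqdrP
        rw [Matrix.fromBlocks_apply₁₂, Matrix.of_apply]
      simp only [h3, h4, ite_mul, one_mul, zero_mul, Finset.sum_ite_eq, Finset.sum_ite_eq',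
        Finset.mem_univ, if_true, Fintype.sum_prod_type]
      exact dqdr_row he a b hd α β θ h i t
    · have h3 : ∀ k : Fin a, dqdrP a b hab θ (Sum.inr i) (Sum.inl k) = 0 := by
        intro k
        unfold dqdrP
        rw [Matrix.fromBlocks_apply₂₁, Matrix.zero_apply]
      have h4 : ∀ k : Fin d × Fin b, dqdrP a b hab θ (Sum.inr i) (Sum.inr k) =
          if i = k then 1 else 0 := by
        intro k
        unfold dqdrP
        rw [Matrix.fromBlocks_apply₂₂, Matrix.one_apply]
      simp only [h3, h4, ite_mul, one_mul, zero_mul, Finset.sum_ite_eq, Finset.sum_const_zero,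
        Finset.mem_univ, if_true, zero_add]
      rfl
  unfold DR
  rw [h1, h2, Matrix.det_mul, dqdrP_det, one_mul]

end Pool.Agent.D4
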