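import Pool.Agent.Z5.Defs

/-!
# Linear independence of odd zeta values: definitions

Pole orders are at most `2 A`; the zeta values are `ζ(2 k + 1)`, `k = 1, …, A - 1`.  A vector of
coefficients is a function `ℕ → ℚ`; only its values at `1, …, A - 1` matter.  There are `d` families
of coefficients `β j`, `j < d`.  The weight, the functional `F`, the coefficients `co` and `rho` are
those of `Pool.Agent.Z5.Defs`, which has no bound on the pole orders.
-/

open Finset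

namespace Pool.Agent.D4

open Pool.Agent.Z5

/-- A profile: pole order `e u ∈ [1, 2 A]` at `t = -u`, `u = 0, …, L`, symmetric, even total order. -/
structure IsProf (A L : ℕ) (e : ℕ → ℕ) : Prop where
  pos : ∀ u ≤ L, 1 ≤ e u
  le : ∀ u ≤ L, e u ≤ 2 * A
  symm : ∀ u ≤ L, e (L - u) = e u
  even : Even (∑ u ∈ range (L + 1), e u)

/-- constant term -/
noncomputable def rho0 (A L : ℕ) (e : ℕ → ℕ) (h : Polynomial ℚ) : ℚ :=
  - ∑ u ∈ range (L + 1), ∑ i ∈ Finset.Icc 1 (2 * A), co L e h u i * Hs i u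

/-- `∑ β_k ρ_{2 k + 1}`, `k = 1, …, A - 1` -/
noncomputable def G (A L : ℕ) (e : ℕ → ℕ) (β : ℕ → ℚ) (h : Polynomial ℚ) : ℚ :=
  ∑ k ∈ Finset.Icc 1 (A - 1), β k * rho L e (2 * k + 1) h

/-- `ρ₀ + ∑ α_k ρ_{2 k + 1}` -/
noncomputable def Ph (A L : ℕ) (e : ℕ → ℕ) (α : ℕ → ℚ) (h : Polynomial ℚ) : ℚ :=
  rho0 A L e h + G A L e α h

variable {d : ℕ} {ι κ τ : Type*}

/-- the mixed matrix for general families of polynomials: rows `Φ(φ_i ψ_t)` and
`G_j(χ_i ψ_t)`, `j < d` -/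
noncomputable def gmat (A L : ℕ) (e : ℕ → ℕ) (α : ℕ → ℚ) (β : Fin d → ℕ → ℚ)
    (φ : ι → Polynomial ℚ) (χ : κ → Polynomial ℚ) (ψ : τ → Polynomial ℚ) :
    Matrix (ι ⊕ Fin d × κ) τ ℚ :=
  Matrix.of fun i t => Sum.elim (fun a => Ph A L e α (φ a * ψ t))
    (fun b : Fin d × κ => G A L e (β b.1) (χ b.2 * ψ t)) i

/-- the same with the real functional `F` instead of `Φ` -/
noncomputable def rmat (A L : ℕ) (e : ℕ → ℕ) (β : Fin d → ℕ → ℚ)
    (φ : ι → Polynomial ℚ) (χ : κ → Polynomial ℚ) (ψ : τ → Polynomial ℚ) :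
    Matrix (ι ⊕ Fin d × κ) τ ℝ :=
  Matrix.of fun i t => Sum.elim (fun a => F L e (φ a * ψ t))
    (fun b : Fin d × κ => (G A L e (β b.1) (χ b.2 * ψ t) : ℝ)) i

/-- exponents of the monomials of degree `< a + d b` -/
def jR (d a b : ℕ) : Fin a ⊕ Fin d × Fin b → ℕ :=
  Sum.elim (fun i => (i : ℕ)) (fun x => a + ((x.2 : ℕ) + b * (x.1 : ℕ)))

/-- the monomials of degree `< a + d b` -/
noncomputable def monoR (d a b : ℕ) : Fin a ⊕ Fin d × Fin b → Polynomial ℚ :=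
  fun x => Polynomial.X ^ jR d a b x

/-- the mixed determinant (rational) -/
noncomputable def DQ (A L : ℕ) (e : ℕ → ℕ) (α : ℕ → ℚ) (β : Fin d → ℕ → ℚ) (a b : ℕ) : ℚ :=
  (gmat A L e α β (mono a) (mono b) (monoR d a b)).det

/-- the mixed determinant (real) -/
noncomputable def DR (A L : ℕ) (e : ℕ → ℕ) (β : Fin d → ℕ → ℚ) (a b : ℕ) : ℝ :=
  (rmat A L e β (mono a) (mono b) (monoR d a b)).det

/-- the unit vector -/
def uv (k0 : ℕ) : ℕ → ℚ := fun k => if k = k0 then 1 else 0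

end Pool.Agent.D4
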