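import Pool.Agent.D4.PF
import Pool.Agent.Z5.FEq

/-!
# The linear form in `1, ζ(3), …, ζ(2 A - 1)`

Adaptation of `Pool/Agent/Z9/FEq`; the last step there (`Icc 1 4` written out) has to be
replaced by the reindexing of the odd part of `Icc 2 (2 * A)`.
-/

open Finset Filter Topology

namespace Pool.Agent.D4

open Pool.Agent.Z5 (w evY F dser xser hser lser co rho Hs zt tot mono feqPhi feq_one feq_shift)

variable {A L : ℕ} {e : ℕ → ℕ}

theorem feq_Apos (he : IsProf A L e) : 1 ≤ A := by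
  have h1 := he.pos 0 (Nat.zero_le _)
  have h2 := he.le 0 (Nat.zero_le _)
  omega

theorem feq_Icc (hA : 1 ≤ A) (f : ℕ → ℝ) :
    ∑ i ∈ Finset.Icc 1 (2 * A), f i = f 1 + ∑ i ∈ Finset.Icc 2 (2 * A), f i := by
  rw [← Finset.add_sum_Ioc_eq_sum_Icc (by omega : 1 ≤ 2 * A)]
  congr 1

theorem feq_term (he : IsProf A L e) (h : Polynomial ℚ) (hd : 2 * h.natDegree + 3 ≤ tot L e)
    (t : ℕ) : w L e (t + 1) * evY L h (t + 1) = ∑ u ∈ range (L + 1),
      ((co L e h u 1 : ℝ) * -(feqPhi 1 t - feqPhi 1 (t + u)) +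
        ∑ i ∈ Finset.Icc 2 (2 * A), (co L e h u i : ℝ) * feqPhi i (t + u)) := by
  rw [pf he h (by omega) ((t : ℝ) + 1) (fun u _ => by positivity)]
  have h0 : ∑ u ∈ range (L + 1), (co L e h u 1 : ℝ) = 0 := by
    have h1 := rho_one he h hd
    unfold rho at h1
    rw [← Rat.cast_sum, h1, Rat.cast_zero]
  have h2 : ∀ u ∈ range (L + 1),
      ∑ i ∈ Finset.Icc 1 (2 * A), (co L e h u i : ℝ) / ((t : ℝ) + 1 + u) ^ i =
      ((co L e h u 1 : ℝ) * -(feqPhi 1 t - feqPhi 1 (t + u)) +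
        ∑ i ∈ Finset.Icc 2 (2 * A), (co L e h u i : ℝ) * feqPhi i (t + u)) +
        (co L e h u 1 : ℝ) * feqPhi 1 t := by
    intro u _
    have h3 : ∀ i : ℕ, (co L e h u i : ℝ) / ((t : ℝ) + 1 + u) ^ i =
        (co L e h u i : ℝ) * feqPhi i (t + u) := by
      intro i
      unfold feqPhi
      rw [mul_one_div]
      congr 2
      push_cast
      ring
    rw [Finset.sum_congr rfl (fun i _ => h3 i), feq_Icc (feq_Apos he)]
    ring
  rw [Finset.sum_congr rfl h2, Finset.sum_add_distrib, ← Finset.sum_mul, h0, zero_mul, add_zero]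

theorem feq_hasSumF (he : IsProf A L e) (h : Polynomial ℚ) (hd : 2 * h.natDegree + 3 ≤ tot L e) :
    HasSum (fun t : ℕ => w L e (t + 1) * evY L h (t + 1)) (∑ u ∈ range (L + 1),
      ((co L e h u 1 : ℝ) * -(Hs 1 u : ℝ) +
        ∑ i ∈ Finset.Icc 2 (2 * A), (co L e h u i : ℝ) * (zt i - (Hs i u : ℝ)))) := by
  have h2 : (fun t : ℕ => w L e (t + 1) * evY L h (t + 1)) = fun t : ℕ => ∑ u ∈ range (L + 1),
      ((co L e h u 1 : ℝ) * -(feqPhi 1 t - feqPhi 1 (t + u)) +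
        ∑ i ∈ Finset.Icc 2 (2 * A), (co L e h u i : ℝ) * feqPhi i (t + u)) := by
    funext t
    exact feq_term he h hd t
  rw [h2]
  refine hasSum_sum fun u _ => HasSum.add ?_ ?_
  · exact ((feq_one u).neg).mul_left _
  · refine hasSum_sum fun i hi => HasSum.mul_left _ ?_
    rw [mem_Icc] at hi
    exact feq_shift hi.1 u

theorem summable_F (he : IsProf A L e) (h : Polynomial ℚ) (hd : 2 * h.natDegree + 3 ≤ tot L e) :
    Summable fun t : ℕ => w L e (t + 1) * evY L h (t + 1) := (feq_hasSumF he h hd).summable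

/-- only the odd indices contribute -/
theorem feq_odd (hA : 1 ≤ A) (f : ℕ → ℝ) (hf : ∀ k, 1 ≤ k → f (2 * k) = 0) :
    ∑ i ∈ Finset.Icc 2 (2 * A), f i = ∑ k ∈ Finset.Icc 1 (A - 1), f (2 * k + 1) := by
  obtain ⟨n, rfl⟩ : ∃ n, A = n + 1 := ⟨A - 1, by omega⟩
  clear hA
  rw [Nat.add_sub_cancel]
  induction n with
  | zero =>
    have : Finset.Icc 2 (2 * (0 + 1)) = {2} := rfl
    rw [this, Finset.sum_singleton]
    have h1 := hf 1 le_rfl
    rw [mul_one] at h1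
    rw [h1]
    rfl
  | succ n ih =>
    have e1 : 2 * (n + 1 + 1) = 2 * (n + 1) + 1 + 1 := by ring
    rw [e1, Finset.sum_Icc_succ_top (by omega), Finset.sum_Icc_succ_top (by omega), ih,
      Finset.sum_Icc_succ_top (by omega), ← e1, hf (n + 1 + 1) (by omega), add_zero]

theorem F_eq (he : IsProf A L e) (h : Polynomial ℚ) (hd : 2 * h.natDegree + 3 ≤ tot L e) :
    F L e h = rho0 A L e h +
      ∑ k ∈ Finset.Icc 1 (A - 1), (rho L e (2 * k + 1) h : ℝ) * zt (2 * k + 1) := by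
  have h1 : F L e h = ∑ u ∈ range (L + 1), ((co L e h u 1 : ℝ) * -(Hs 1 u : ℝ) +
        ∑ i ∈ Finset.Icc 2 (2 * A), (co L e h u i : ℝ) * (zt i - (Hs i u : ℝ))) :=
    (feq_hasSumF he h hd).tsum_eq
  have h2 : ∀ u ∈ range (L + 1), ((co L e h u 1 : ℝ) * -(Hs 1 u : ℝ) +
        ∑ i ∈ Finset.Icc 2 (2 * A), (co L e h u i : ℝ) * (zt i - (Hs i u : ℝ))) =
      -(∑ i ∈ Finset.Icc 1 (2 * A), (co L e h u i : ℝ) * (Hs i u : ℝ)) +
        ∑ i ∈ Finset.Icc 2 (2 * A), (co L e h u i : ℝ) * zt i := by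
    intro u _
    rw [feq_Icc (feq_Apos he)]
    simp only [mul_sub, Finset.sum_sub_distrib]
    ring
  have h3 : (rho0 A L e h : ℝ) =
      ∑ u ∈ range (L + 1), -(∑ i ∈ Finset.Icc 1 (2 * A), (co L e h u i : ℝ) * (Hs i u : ℝ)) := by
    unfold rho0
    rw [Rat.cast_neg, Rat.cast_sum, ← Finset.sum_neg_distrib]
    refine Finset.sum_congr rfl (fun u _ => ?_)
    rw [Rat.cast_sum]
    push_cast
    rfl
  have h5 : ∀ i : ℕ, ((rho L e i h : ℚ) : ℝ) = ∑ u ∈ range (L + 1), (co L e h u i : ℝ) := by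
    intro i
    unfold rho
    rw [Rat.cast_sum]
  rw [h1, Finset.sum_congr rfl h2, Finset.sum_add_distrib, ← h3, Finset.sum_comm]
  have h6 : ∑ i ∈ Finset.Icc 2 (2 * A), ∑ u ∈ range (L + 1), (co L e h u i : ℝ) * zt i =
      ∑ i ∈ Finset.Icc 2 (2 * A), ((rho L e i h : ℚ) : ℝ) * zt i := by
    refine Finset.sum_congr rfl (fun i _ => ?_)
    rw [h5, Finset.sum_mul]
  rw [h6, feq_odd (feq_Apos he)]
  intro k hk
  rw [rho_even he h (by omega : 1 ≤ 2 * k) (even_two_mul k), Rat.cast_zero, zero_mul]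

end Pool.Agent.D4
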