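import Pool.Agent.OddZetaL.Dim

/-!
# A criterion for dimension at least four
-/

namespace Pool.Agent.D4

open Module

/-- If the finite set `S` contains, for all real `x, y`, an element outside `ℚ + ℚ x + ℚ y`, then
`1` and `S` span a `ℚ`-vector space of dimension at least four. -/
theorem finrank_ge_four (S : Set ℝ) (hS : S.Finite)
    (h : ∀ x y : ℝ, ∃ z ∈ S, ∀ a b c : ℚ, z ≠ a + b * x + c * y) :
    4 ≤ Module.finrank ℚ (Submodule.span ℚ (insert (1 : ℝ) S)) := by
  by_contra hcon
  rw [not_le] at hcon
  set V := Submodule.span ℚ (insert (1 : ℝ) S) with hV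
  have hfin : FiniteDimensional ℚ V := FiniteDimensional.span_of_finite ℚ (hS.insert 1)
  have h1 : (1 : ℝ) ∈ V := Submodule.subset_span (Set.mem_insert _ _)
  obtain ⟨x, y, hxy⟩ : ∃ x y : ℝ, V ≤ Submodule.span ℚ {1, x, y} := by
    by_cases hall : V ≤ Submodule.span ℚ {(1 : ℝ)}
    · exact ⟨0, 0, hall.trans (Submodule.span_mono (by simp))⟩
    rw [SetLike.not_le_iff_exists] at hall
    obtain ⟨x, hxV, hx1⟩ := hall
    by_cases hall2 : V ≤ Submodule.span ℚ {(1 : ℝ), x}
    · refine ⟨x, 0, hall2.trans (Submodule.span_mono ?_)⟩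
      rintro z (rfl | hz)
      · exact Set.mem_insert _ _
      · exact Set.mem_insert_of_mem _ (Or.inl hz)
    rw [SetLike.not_le_iff_exists] at hall2
    obtain ⟨y, hyV, hy1⟩ := hall2
    refine ⟨x, y, ?_⟩
    have hli : LinearIndependent ℚ ![(1 : ℝ), x, y] := by
      rw [Fintype.linearIndependent_iff]
      intro g hg
      rw [Fin.sum_univ_three] at hg
      have e0 : ![(1 : ℝ), x, y] 0 = 1 := rfl
      have e1 : ![(1 : ℝ), x, y] 1 = x := rfl
      have e2 : ![(1 : ℝ), x, y] 2 = y := rfl
      rw [e0, e1, e2] at hg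
      simp only [Rat.smul_def, mul_one] at hg
      have h2 : g 2 = 0 := by
        by_contra h2
        apply hy1
        rw [Submodule.mem_span_pair]
        refine ⟨-(g 0 / g 2), -(g 1 / g 2), ?_⟩
        have h2' : ((g 2 : ℚ) : ℝ) ≠ 0 := by exact_mod_cast h2
        rw [Rat.smul_def, Rat.smul_def, mul_one]
        push_cast
        field_simp
        linarith
      rw [h2, Rat.cast_zero, zero_mul, add_zero] at hg
      have h3 : g 1 = 0 := by
        by_contra h3
        apply hx1
        rw [Submodule.mem_span_singleton]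
        refine ⟨-(g 0 / g 1), ?_⟩
        have h3' : ((g 1 : ℚ) : ℝ) ≠ 0 := by exact_mod_cast h3
        rw [Rat.smul_def, mul_one]
        push_cast
        field_simp
        linarith
      rw [h3, Rat.cast_zero, zero_mul, add_zero] at hg
      intro i
      fin_cases i
      · exact_mod_cast hg
      · exact h3
      · exact h2
    have hle : Submodule.span ℚ {1, x, y} ≤ V := by
      rw [Submodule.span_le]
      rintro z (rfl | rfl | hz)
      · exact h1
      · exact hxV
      · rw [Set.mem_singleton_iff] at hz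
        rw [hz]
        exact hyV
    have hr : finrank ℚ (Submodule.span ℚ ({1, x, y} : Set ℝ)) = 3 := by
      have h2 := finrank_span_eq_card hli
      have h3 : Set.range ![(1 : ℝ), x, y] = {1, x, y} := by
        ext z
        rw [Set.mem_range, Set.mem_insert_iff, Set.mem_insert_iff, Set.mem_singleton_iff]
        constructor
        · rintro ⟨i, rfl⟩
          fin_cases i
          · exact Or.inl rfl
          · exact Or.inr (Or.inl rfl)
          · exact Or.inr (Or.inr rfl)
        · rintro (rfl | rfl | rfl)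
          · exact ⟨0, rfl⟩
          · exact ⟨1, rfl⟩
          · exact ⟨2, rfl⟩
      rw [h3, Fintype.card_fin] at h2
      exact h2
    exact (Submodule.eq_of_le_of_finrank_le hle (by omega)).ge
  obtain ⟨z, hz, hne⟩ := h x y
  have hzV : z ∈ Submodule.span ℚ ({1, x, y} : Set ℝ) :=
    hxy (Submodule.subset_span (Set.mem_insert_of_mem _ hz))
  rw [Submodule.mem_span_insert] at hzV
  obtain ⟨a, w, hw, hzw⟩ := hzV
  rw [Submodule.mem_span_pair] at hw
  obtain ⟨b, c, hbc⟩ := hw
  apply hne a b c
  rw [hzw, ← hbc, Rat.smul_def, Rat.smul_def, Rat.smul_def, mul_one]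
  ring

end Pool.Agent.D4
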