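import Pool.Agent.Z5.Laplace

/-!
# Laplace expansion for the rows `Fin h × Fin n`

Adaptation of `Pool/Agent/Z9/Laplace`.
-/

open Finset

namespace Pool.Agent.D4

open Pool.Agent.Z5 (VG VG_laplace)

theorem VG_laplace_n {q : ℕ} [Fact q.Prime] {h n : ℕ} {γ κ : Type*} [DecidableEq γ] [Fintype κ]
    [DecidableEq κ] (B : Matrix (Fin h × Fin n) κ ℚ) (eq : Fin h × Fin n ≃ κ) (cl : Fin h → γ)
    (E : γ → ℤ)
    (hE : ∀ (g : γ) (f : {u : Fin h // cl u = g} × Fin n → κ), Function.Injective f →
      VG q (E g) (B.submatrix (fun x : {u : Fin h // cl u = g} × Fin n => (x.1.1, x.2)) f).det) :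
    VG q (∑ g ∈ (univ : Finset (Fin h)).image cl, E g) (B.submatrix id eq).det := by
  rcases Nat.eq_zero_or_pos n with hn | hn
  · subst hn
    have h0 : ∀ g : γ, E g ≤ 0 := by
      intro g
      have h1 := hE g (fun x => Fin.elim0 x.2) (fun x => Fin.elim0 x.2)
      rw [Matrix.det_isEmpty] at h1
      rcases h1 with h1 | h1
      · exact absurd h1 one_ne_zero
      · simpa using h1
    rw [Matrix.det_isEmpty]
    right
    rw [padicValRat.one]
    exact Finset.sum_nonpos fun g _ => h0 g
  have h1 := VG_laplace (q := q) B eq (fun r : Fin h × Fin n => cl r.1) E (fun _ => 0) ?_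
  · have h2 : univ.image (fun r : Fin h × Fin n => cl r.1) = univ.image cl := by
      ext c
      simp only [mem_image, mem_univ, true_and, Prod.exists]
      constructor
      · rintro ⟨u, _, hu⟩; exact ⟨u, hu⟩
      · rintro ⟨u, hu⟩; exact ⟨u, ⟨0, hn⟩, hu⟩
    rw [h2, Finset.sum_const_zero, add_zero] at h1
    exact h1
  · intro c f hf
    let g : {u : Fin h // cl u = c} × Fin n ≃ {r : Fin h × Fin n // cl r.1 = c} :=
      { toFun := fun x => ⟨(x.1.1, x.2), x.1.2⟩
        invFun := fun r => (⟨r.1.1, r.2⟩, r.1.2)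
        left_inv := fun _ => rfl
        right_inv := fun _ => rfl }
    have h4 := hE c (fun x => f (g x)) (hf.comp g.injective)
    rw [Finset.sum_const_zero, add_zero]
    convert h4 using 1
    rw [← Matrix.det_submatrix_equiv_self g]
    rfl

end Pool.Agent.D4
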