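import Pool.Agent.Z5.PML

/-!
# Determinant of vectors in a lattice with weighted generators
-/

open Finset

namespace Pool.Agent.D4

open Pool.Agent.Z5 (VG ml_det weight_ge)

variable {q : ℕ} [hq : Fact q.Prime]

/-- The columns of `M` are combinations of integral vectors `g x` with coefficients of valuation at
least `w x`, up to a vector divisible by `q ^ τ`.  Proof: `ml_det` with the generators `g x` (weight
`w x`) and the unit vectors (weight `τ`), all weights `J` zero, `E = ∑ min weights`, then
`weight_ge` with the threshold `τ`. -/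
theorem lat_det {ι γ : Type*} [Fintype ι] [DecidableEq ι] [Fintype γ] (M : Matrix ι ι ℚ)
    (g : γ → ι → ℚ) (w : γ → ℤ) (τ : ℤ) (hg : ∀ x i, VG q 0 (g x i))
    (hM : ∀ k, ∃ c : γ → ℚ, (∀ x, VG q (w x) (c x)) ∧
      ∀ i, VG q τ (M i k - ∑ x, c x * g x i)) :
    VG q (τ * Fintype.card ι - ∑ x, max 0 (τ - w x)) M.det := by
  classical
  choose c hc hM' using hM
  let g' : γ ⊕ ι → ι → ℚ := Sum.elim g fun j i => if i = j then 1 else 0
  let w' : γ ⊕ ι → ℤ := Sum.elim w fun _ => τ
  let c' : ι → γ ⊕ ι → ℚ := fun k => Sum.elim (c k) fun j => M j k - ∑ x, c k x * g x j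
  have hMeq : M = Matrix.of fun i k => ∑ x, c' k x * g' x i := by
    ext i k
    rw [Matrix.of_apply, Fintype.sum_sum_type]
    simp [c', g']
  have hml := ml_det (q := q) g' w' (fun _ => 0) c' ?_
    (τ * Fintype.card ι - ∑ x, max 0 (τ - w x)) ?_
  · rw [hMeq]
    simpa using hml
  · intro k x
    rcases x with x | x
    · simpa [c', w'] using hc k x
    · simpa [c', w'] using hM' k x
  · intro f hf
    have h1 := weight_ge w' f hf τ
    have h2 : ∑ x, max 0 (τ - w' x) = ∑ x, max 0 (τ - w x) := by
      rw [Fintype.sum_sum_type]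
      simp [w']
    rw [h2] at h1
    have h0 : VG q 0 (Matrix.det (Matrix.of fun i k => g' (f k) i)) := by
      refine VG.det_zero _ fun i k => ?_
      rw [Matrix.of_apply]
      rcases f k with x | x
      · exact hg x i
      · simp only [g', Sum.elim_inr]
        split_ifs
        · exact VG.one
        · exact VG.zero 0
    exact h0.mono (by linarith)

/-- sum of `max 0 (n - a)` over `a < N` -/
theorem sum_tri (N : ℕ) (n : ℤ) (hn : 0 ≤ n) :
    ∑ a : Fin N, max 0 (n - (a : ℕ)) ≤ n * (n + 1) / 2 := by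
  obtain ⟨n, rfl⟩ := Int.eq_ofNat_of_zero_le hn
  have h1 : ∑ a ∈ range N, max 0 ((n : ℤ) - (a : ℕ)) ≤ ∑ a ∈ range n, ((n : ℤ) - (a : ℕ)) := by
    have h2 : ∑ a ∈ range n, ((n : ℤ) - (a : ℕ)) = ∑ a ∈ range n, max 0 ((n : ℤ) - (a : ℕ)) := by
      refine Finset.sum_congr rfl fun a ha => ?_
      rw [mem_range] at ha
      rw [max_eq_right]
      omega
    rw [h2]
    rcases le_total N n with h | h
    · exact Finset.sum_le_sum_of_subset_of_nonneg (range_subset_range.2 h) fun _ _ _ =>
        le_max_left _ _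
    · rw [← Finset.sum_subset (range_subset_range.2 h)]
      intro a _ ha
      rw [mem_range, not_lt] at ha
      rw [max_eq_left]
      omega
  have h3 : ∀ n : ℕ, 2 * ∑ a ∈ range n, ((n : ℤ) - (a : ℕ)) = n * (n + 1) := by
    intro n
    induction n with
    | zero => simp
    | succ n ih =>
      rw [Finset.sum_range_succ]
      have h4 : ∑ a ∈ range n, (((n + 1 : ℕ) : ℤ) - (a : ℕ)) =
          ∑ a ∈ range n, ((n : ℤ) - (a : ℕ)) + n := by
        rw [← sub_eq_iff_eq_add', ← Finset.sum_sub_distrib]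
        simp
      rw [h4, mul_add, mul_add, ih]
      push_cast
      ring
  rw [Finset.sum_range] at h1
  have h6 := h3 n
  have h7 : ∑ a ∈ range n, ((n : ℤ) - (a : ℕ)) = (n : ℤ) * (n + 1) / 2 := by omega
  linarith

end Pool.Agent.D4
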