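import Pool.Agent.D4.NVMain
import Pool.Agent.D4.NVBase

/-!
# Non-vanishing for the design `A = 25`, `M = 4`, `e = 50`, `s = s' = 20`, two families
-/

open Finset

namespace Pool.Agent.D4

theorem isProf_fifty (L : ℕ) : IsProf 25 L (fun _ => 50) :=
  ⟨fun _ _ => by norm_num, fun _ _ => le_refl _, fun _ _ => rfl, by
    rw [Finset.sum_const, smul_eq_mul]; exact Even.mul_left (by decide) _⟩

theorem nonvanishing_fifty (α : ℕ → ℚ) (β : Fin 2 → ℕ → ℚ) (k1 k2 : ℕ)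
    (h : (k1, k2) ∈ ([(1, 2), (1, 3), (1, 4), (2, 3), (2, 4)] : List (ℕ × ℕ)))
    (h1 : β 0 k1 ≠ 0) (h2 : β 1 k2 ≠ 0)
    (h3 : ∀ k ∈ Finset.Icc 1 24, k < k1 → β 0 k = 0)
    (h4 : ∀ k ∈ Finset.Icc 1 24, k < k2 → β 1 k = 0) :
    ∃ p0 : ℕ, ∀ p : ℕ, p.Prime → p0 ≤ p →
      DQ 25 (4 * p - 1) (fun _ => 50) α β (20 * p) (20 * p) ≠ 0 := by
  have hk : ∀ j : Fin 2, ![k1, k2] j ∈ Finset.Icc 1 (25 - 1) := by
    intro j
    fin_cases j <;> simp at h ⊢ <;> omega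
  refine nonvanishing 4 (fun _ => 50) 20 20 (by norm_num) (isProf_fifty 3) α β (fun j => ![k1, k2] j)
    hk ?_ ?_ (NV.base_ne_zero k1 k2 h)
  · intro j
    fin_cases j
    · exact h1
    · exact h2
  · intro j
    fin_cases j
    · exact h3
    · exact h4

end Pool.Agent.D4
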