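import Pool.Agent.D4.MainArith
import Pool.Agent.D4.ArchMain
import Pool.Agent.D4.ArchNum
import Pool.Agent.D4.DQDR
import Pool.Agent.D4.NVTop
import Pool.Agent.Z9.Main

/-!
# For all real `x, y` one of `ζ(3), ζ(5), …, ζ(49)` lies outside `ℚ + ℚ x + ℚ y`
-/

open Finset Filter

namespace Pool.Agent.D4

open Pool.Agent.Z5 (Ref zt tot eventually_small)

theorem ariConst_gt : (481 : ℝ) < ariConst := by
  have h2 := Real.log_two_lt_d9
  have h2' := Real.log_two_gt_d9
  have h5 : 65 * Real.log 2 < 28 * Real.log 5 := by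
    have h := Real.log_lt_log (by norm_num : (0 : ℝ) < 2 ^ 65)
      (by norm_num : (2 : ℝ) ^ 65 < 5 ^ 28)
    rw [Real.log_pow, Real.log_pow] at h
    exact_mod_cast h
  unfold ariConst
  norm_num at h2 h2' ⊢
  linarith

/-- the possible positions of the pivots -/
abbrev PivL : List (ℕ × ℕ) := [(1, 2), (1, 3), (1, 4), (2, 3), (2, 4)]

theorem not_relation (α : ℕ → ℚ) (β : Fin 2 → ℕ → ℚ) (θ : Fin 2 → ℝ) (k1 k2 : ℕ)
    (hk : (k1, k2) ∈ PivL) (h1 : β 0 k1 ≠ 0) (h2 : β 1 k2 ≠ 0)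
    (h3 : ∀ k ∈ Finset.Icc 1 24, k < k1 → β 0 k = 0)
    (h4 : ∀ k ∈ Finset.Icc 1 24, k < k2 → β 1 k = 0)
    (h : ∀ k ∈ Finset.Icc 1 24, zt (2 * k + 1) = α k + ∑ j, (β j k : ℝ) * θ j) : False := by
  have hb : β 1 1 = 0 := by
    refine h4 1 (by decide) ?_
    simp only [PivL, List.mem_cons, Prod.mk.injEq, List.not_mem_nil, or_false] at hk
    omega
  obtain ⟨X, Z, W, lF, lR, η, hcert, hXs, hZs, hA⟩ := exists_cert
  obtain ⟨C, p1, hup⟩ := arch_main hcert β
  obtain ⟨p2, hnv⟩ := nonvanishing_fifty α β k1 k2 hk h1 h2 h3 h4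
  have hlow := ari α β hb (1 / 100) (by norm_num)
  have hsm := eventually_small C (1 / 100) (by norm_num)
  obtain ⟨p3, hp3'⟩ := eventually_atTop.1 (hlow.and (hsm.and (eventually_ge_atTop 1)))
  obtain ⟨p, hp, hprime⟩ := Nat.exists_infinite_primes (max p1 (max p2 p3))
  have hp1 : p1 ≤ p := (le_max_left _ _).trans hp
  have hp2 : p2 ≤ p := (le_max_left _ _).trans ((le_max_right _ _).trans hp)
  have hp3 : p3 ≤ p := (le_max_right _ _).trans ((le_max_right _ _).trans hp)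
  obtain ⟨h5, h6, hp0⟩ := hp3' p hp3
  have hD := hnv p hprime hp2
  have h7 := h5 hD
  have h8 := hup p hp1
  rw [hXs, hZs] at h8
  have h9 := DQ_eq_DR (isProf_fifty (4 * p - 1)) (20 * p) (20 * p) le_rfl (by
    unfold tot
    rw [sum_const, card_range, smul_eq_mul]
    omega) α β θ h
  have h10 : |((DQ 25 (4 * p - 1) (fun _ => 50) α β (20 * p) (20 * p) : ℚ) : ℝ)| ≤
      Real.exp (kap 4 (fun _ => 50) 2 20 20 * p ^ 2 * Real.log p
        + archConst 4 (fun _ => 50) 2 X Z W lF lR η * p ^ 2 + C * p * Real.log p) := by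
    rw [h9]
    exact h8
  have h11 : Real.log |((DQ 25 (4 * p - 1) (fun _ => 50) α β (20 * p) (20 * p) : ℚ) : ℝ)| ≤
      kap 4 (fun _ => 50) 2 20 20 * p ^ 2 * Real.log p
        + archConst 4 (fun _ => 50) 2 X Z W lF lR η * p ^ 2 + C * p * Real.log p := by
    have h12 := Real.log_le_log (abs_pos.2 (by exact_mod_cast hD)) h10
    rwa [Real.log_exp] at h12
  have hkap : kap 4 (fun _ => 50) 2 20 20 = -7200 := by
    unfold kap
    rw [sum_const, card_range]
    norm_num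
  rw [hkap] at h11
  have hP := ariConst_gt
  have hpos : (0 : ℝ) < (p : ℝ) ^ 2 := by
    have : (0 : ℝ) < p := by exact_mod_cast hp0
    positivity
  have h13 : (ariConst - 1 / 100 - archConst 4 (fun _ => 50) 2 X Z W lF lR η - 1 / 100)
      * (p : ℝ) ^ 2 ≤ 0 := by
    nlinarith
  have h14 : 0 < (ariConst - 1 / 100 - archConst 4 (fun _ => 50) 2 X Z W lF lR η - 1 / 100) := by
    linarith
  have h15 := mul_pos h14 hpos
  linarith

/-- the pivots -/
theorem exists_pivots : ∃ k1 k2 : ℕ, (k1, k2) ∈ PivL ∧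
    (∀ a : ℚ, zt (2 * k1 + 1) ≠ a) ∧ (∀ k ∈ Icc 1 24, k < k1 → ∃ a : ℚ, zt (2 * k + 1) = a) ∧
    (∀ a b : ℚ, zt (2 * k2 + 1) ≠ a + b * zt (2 * k1 + 1)) ∧
    (∀ k ∈ Icc 1 24, k < k2 → ∃ a b : ℚ, zt (2 * k + 1) = a + b * zt (2 * k1 + 1)) := by
  classical
  obtain ⟨k1, hk1, hirr, hrat⟩ : ∃ k1 : ℕ, (k1 = 1 ∨ k1 = 2) ∧ (∀ a : ℚ, zt (2 * k1 + 1) ≠ a) ∧
      (∀ k ∈ Icc 1 24, k < k1 → ∃ a : ℚ, zt (2 * k + 1) = a) := by
    by_cases h3 : ∀ a : ℚ, zt (2 * 1 + 1) ≠ a
    · refine ⟨1, Or.inl rfl, h3, fun k hk hlt => ?_⟩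
      have := (mem_Icc.1 hk).1
      omega
    · push Not at h3
      refine ⟨2, Or.inr rfl, fun a ha => Pool.Agent.Z5.irrational_zt_five ⟨a, ha.symm⟩,
        fun k hk hlt => ?_⟩
      have := (mem_Icc.1 hk).1
      obtain rfl : k = 1 := by omega
      exact h3
  have hex : ∃ k : ℕ, k ∈ Icc 1 4 ∧ ∀ a b : ℚ, zt (2 * k + 1) ≠ a + b * zt (2 * k1 + 1) :=
    Pool.Agent.Z9.exists_not_mem (zt (2 * k1 + 1))
  set k2 := Nat.find hex with hk2
  obtain ⟨hm, hne⟩ := Nat.find_spec hex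
  rw [← hk2] at hm hne
  have hmin : ∀ k ∈ Icc 1 24, k < k2 → ∃ a b : ℚ, zt (2 * k + 1) = a + b * zt (2 * k1 + 1) := by
    intro k hk hlt
    have h5 := Nat.find_min hex (hk2 ▸ hlt)
    rw [not_and] at h5
    have h6 := h5 (by
      rw [mem_Icc] at hk hm ⊢
      omega)
    push Not at h6
    exact h6
  have hne1 : k2 ≠ k1 := by
    intro h5
    apply hne 0 1
    rw [h5]
    push_cast
    ring
  have hgt : k1 ≤ k2 := by
    by_contra hlt
    obtain ⟨a, ha⟩ := hrat k2 (by rw [mem_Icc] at hm ⊢; omega) (by omega)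
    apply hne a 0
    rw [ha]
    push_cast
    ring
  refine ⟨k1, k2, ?_, hirr, hrat, hne, hmin⟩
  have h6 := mem_Icc.1 hm
  simp only [PivL, List.mem_cons, Prod.mk.injEq, List.not_mem_nil, or_false]
  omega

/-- for all real `x, y` one of `ζ(3), ζ(5), …, ζ(49)` is not in `ℚ + ℚ x + ℚ y` -/
theorem exists_not_mem2 (x y : ℝ) :
    ∃ k ∈ Finset.Icc 1 24, ∀ a b c : ℚ, zt (2 * k + 1) ≠ a + b * x + c * y := by
  by_contra hcon
  push Not at hcon
  choose! a b c h using hcon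
  obtain ⟨k1, k2, hk, hirr, hrat, hne, hmin⟩ := exists_pivots
  have hk' : 1 ≤ k1 ∧ k1 < k2 ∧ k2 ≤ 4 := by
    simp only [PivL, List.mem_cons, Prod.mk.injEq, List.not_mem_nil, or_false] at hk
    omega
  have e1 := h k1 (by rw [mem_Icc]; omega)
  have e2 := h k2 (by rw [mem_Icc]; omega)
  set θ1 := zt (2 * k1 + 1) with hθ1
  set θ2 := zt (2 * k2 + 1) with hθ2
  have hΔ : b k1 * c k2 - b k2 * c k1 ≠ 0 := by
    intro h0
    by_cases hb : b k1 = 0
    · have hc : c k1 ≠ 0 := by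
        intro hc
        apply hirr (a k1)
        rw [e1, hb, hc]
        push_cast
        ring
      have hb2 : b k2 = 0 := by
        rw [hb, zero_mul, zero_sub, neg_eq_zero, mul_eq_zero] at h0
        exact h0.resolve_right hc
      apply hne (a k2 - c k2 / c k1 * a k1) (c k2 / c k1)
      have hc' : ((c k1 : ℚ) : ℝ) ≠ 0 := by exact_mod_cast hc
      rw [e2, e1, hb, hb2]
      push_cast
      field_simp
      ring
    · apply hne (a k2 - b k2 / b k1 * a k1) (b k2 / b k1)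
      have hb' : ((b k1 : ℚ) : ℝ) ≠ 0 := by exact_mod_cast hb
      have h0' : ((b k1 : ℚ) : ℝ) * c k2 - b k2 * c k1 = 0 := by exact_mod_cast h0
      rw [e2, e1]
      push_cast
      field_simp
      linear_combination y * h0'
  have key : ∀ k ∈ Icc 1 24, ∃ A B C : ℚ, zt (2 * k + 1) = A + B * θ1 + C * θ2 ∧
      (k < k1 → B = 0) ∧ (k = k1 → B = 1) ∧ (k < k2 → C = 0) ∧ (k = k2 → C = 1) := by
    intro k hk24
    rcases lt_trichotomy k k1 with hlt | heq | hgt
    · obtain ⟨q, hq⟩ := hrat k hk24 hlt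
      refine ⟨q, 0, 0, ?_, fun _ => rfl, fun h5 => by omega, fun _ => rfl, fun h5 => by omega⟩
      rw [hq]
      push_cast
      ring
    · refine ⟨0, 1, 0, ?_, fun h5 => by omega, fun _ => rfl, fun _ => rfl, fun h5 => by omega⟩
      rw [heq]
      push_cast
      ring
    · rcases lt_trichotomy k k2 with hlt2 | heq2 | hgt2
      · obtain ⟨q, r, hqr⟩ := hmin k hk24 hlt2
        refine ⟨q, r, 0, ?_, fun h5 => by omega, fun h5 => by omega, fun _ => rfl,
          fun h5 => by omega⟩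
        rw [hqr]
        push_cast
        ring
      · refine ⟨0, 0, 1, ?_, fun h5 => by omega, fun h5 => by omega, fun h5 => by omega,
          fun _ => rfl⟩
        rw [heq2]
        push_cast
        ring
      · have e3 := h k hk24
        set Δ := b k1 * c k2 - b k2 * c k1 with hΔdef
        have hΔ' : ((Δ : ℚ) : ℝ) ≠ 0 := by exact_mod_cast hΔ
        have hΔ'' : ((Δ : ℚ) : ℝ) = b k1 * c k2 - b k2 * c k1 := by
          rw [hΔdef]
          push_cast
          ring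
        refine ⟨a k - (b k * c k2 - c k * b k2) / Δ * a k1 - (c k * b k1 - b k * c k1) / Δ * a k2,
          (b k * c k2 - c k * b k2) / Δ, (c k * b k1 - b k * c k1) / Δ, ?_, fun h5 => by omega,
          fun h5 => by omega, fun h5 => by omega, fun h5 => by omega⟩
        rw [e3, e1, e2]
        push_cast
        field_simp
        rw [hΔ'']
        ring
  choose! A B C hABC hB0 hB1 hC0 hC1 using key
  refine not_relation A ![B, C] ![θ1, θ2] k1 k2 hk ?_ ?_ ?_ ?_ ?_
  · have h5 := hB1 k1 (by rw [mem_Icc]; omega) rfl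
    change B k1 ≠ 0
    rw [h5]
    exact one_ne_zero
  · have h5 := hC1 k2 (by rw [mem_Icc]; omega) rfl
    change C k2 ≠ 0
    rw [h5]
    exact one_ne_zero
  · intro k hk24 hlt
    exact hB0 k hk24 hlt
  · intro k hk24 hlt
    exact hC0 k hk24 hlt
  · intro k hk24
    rw [Fin.sum_univ_two, hABC k hk24, add_assoc]
    rfl

end Pool.Agent.D4
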