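import Pool.Agent.D4.PDefs
import Pool.Agent.Z5.PadicMain

/-!
# The sum over primes

`N = 4 p`, `R = SF (40 p) * SF (20 p) ^ 3`; the exact constant is `11219.02`:
`2355 + ∫_1^80 VR - ∫_1^{4/3} (1278 - 912 x) - ∫_{4/3}^2 (178 - 99 x) + 40`,
`VR x = ∑_{n ≤ 79} (40 - n x / 2)_+ + 3 ∑_{n ≤ 39} (20 - n x / 2)_+`, `∫_1^80 VR = 8904.018`.
Adaptation of `Pool/Agent/Z9/PadicMain.lean` (breakpoints `0, 1, 4/3, 2, 4, 80`).
-/

open Finset Filter Topology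

namespace Pool.Agent.D4

open Pool.Agent.Z5 (SF)

open Pool.Agent.Z5 (lp_nonneg lp_le_log lp_of_not_prime errq errq_nonneg tendsto_errq SF_pos SF_succ
  padicVal_SF_le log_eq_sum_lp prime_dvd_SF integral_hinge integral_lin tendsto_sum_primes
  tendsto_sum_primes_linear mem_Ioc_floor one_le_err)

namespace PM

theorem RR_pos (p : ℕ) : 0 < RR p := mul_pos (SF_pos _) (pow_pos (SF_pos _) _)

/-! ### upper bound of `v_q(R)` -/

/-- the hinge form of `v_q(R) / p` at `x = q / p`, `x ≥ 1` -/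
noncomputable def VRx (x : ℝ) : ℝ :=
  ∑ k ∈ Icc (1 : ℕ) 79, max 0 (40 - (k : ℝ) / 2 * x)
    + 3 * ∑ k ∈ Icc (1 : ℕ) 39, max 0 (20 - (k : ℝ) / 2 * x)

theorem padicVal_RR_le (p q : ℕ) [hq : Fact q.Prime] (hp : 0 < p) (h : 80 * p ≤ q ^ 2)
    (h3 : p < q) : (padicValNat q (RR p) : ℝ) ≤ p * VRx ((q : ℝ) / p) := by
  have hpR : (0 : ℝ) < p := by exact_mod_cast hp
  have hcube : q ^ 2 ≤ q ^ 3 := Nat.pow_le_pow_right hq.out.pos (by norm_num)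
  have hRR : padicValNat q (RR p) =
      padicValNat q (SF (40 * p)) + 3 * padicValNat q (SF (20 * p)) := by
    unfold RR
    rw [padicValNat.mul (SF_pos _).ne' (pow_pos (SF_pos _) _).ne', padicValNat.pow]
  rw [hRR]
  push_cast
  have h8 := padicVal_SF_le (q := q) (40 * p) 79 0 (by omega) (by omega) (by omega)
  have h5 := padicVal_SF_le (q := q) (20 * p) 39 0 (by omega) (by omega) (by omega)
  rw [Nat.cast_zero, zero_mul, add_zero] at h8 h5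
  have e8 : ∑ k ∈ Icc (1 : ℕ) 79, max 0 (((40 * p : ℕ) : ℝ) - (k : ℝ) * q / 2) =
      p * ∑ k ∈ Icc (1 : ℕ) 79, max 0 (40 - (k : ℝ) / 2 * ((q : ℝ) / p)) := by
    rw [Finset.mul_sum]
    refine Finset.sum_congr rfl fun k _ => ?_
    rw [mul_max_of_nonneg _ _ hpR.le, mul_zero]
    congr 1
    push_cast
    field_simp
  have e5 : ∑ k ∈ Icc (1 : ℕ) 39, max 0 (((20 * p : ℕ) : ℝ) - (k : ℝ) * q / 2) =
      p * ∑ k ∈ Icc (1 : ℕ) 39, max 0 (20 - (k : ℝ) / 2 * ((q : ℝ) / p)) := by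
    rw [Finset.mul_sum]
    refine Finset.sum_congr rfl fun k _ => ?_
    rw [mul_max_of_nonneg _ _ hpR.le, mul_zero]
    congr 1
    push_cast
    field_simp
  rw [e8] at h8
  rw [e5] at h5
  unfold VRx
  rw [mul_add]
  linarith

/-! ### lower bounds of `v` -/

/-- lower bound of `v / p` on `[1, 4 / 3]` -/
noncomputable def LB0 (x : ℝ) : ℝ := -912 * x + 1278

/-- lower bound of `v / p` on `[4 / 3, 2]` -/
noncomputable def LB1 (x : ℝ) : ℝ := -99 * x + 178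

/-- lower bound of `v / p` on `[2, 4]` -/
noncomputable def LB2 (x : ℝ) : ℝ := 0 * x + (-20)

theorem integral_LB0 : ∫ x in (1 : ℝ)..(4 / 3), LB0 x = 214 / 3 := by
  unfold LB0
  rw [integral_lin]
  norm_num

theorem integral_LB1 : ∫ x in (4 / 3 : ℝ)..2, LB1 x = 26 / 3 := by
  unfold LB1
  rw [integral_lin]
  norm_num

theorem integral_LB2 : ∫ x in (2 : ℝ)..4, LB2 x = -40 := by
  unfold LB2
  rw [integral_lin]
  norm_num

theorem integral_VRx : ∫ x in (1 : ℝ)..80, VRx x =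
    ∑ k ∈ Icc (1 : ℕ) 79, ((max 0 (40 - (k : ℝ) / 2 * 1)) ^ 2
      - (max 0 (40 - (k : ℝ) / 2 * 80)) ^ 2) / (2 * ((k : ℝ) / 2))
    + 3 * ∑ k ∈ Icc (1 : ℕ) 39, ((max 0 (20 - (k : ℝ) / 2 * 1)) ^ 2
      - (max 0 (20 - (k : ℝ) / 2 * 80)) ^ 2) / (2 * ((k : ℝ) / 2)) := by
  unfold VRx
  rw [intervalIntegral.integral_add (Continuous.intervalIntegrable (by fun_prop) _ _)
    (Continuous.intervalIntegrable (by fun_prop) _ _),
    intervalIntegral.integral_const_mul,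
    intervalIntegral.integral_finsetSum
      (fun k _ => Continuous.intervalIntegrable (by fun_prop) _ _),
    intervalIntegral.integral_finsetSum
      (fun k _ => Continuous.intervalIntegrable (by fun_prop) _ _)]
  congr 1
  · refine Finset.sum_congr rfl fun k hk => ?_
    have : (0 : ℝ) < k := by
      have := (Finset.mem_Icc.1 hk).1
      positivity
    rw [integral_hinge _ _ _ _ (by positivity : (0 : ℝ) < _).ne']
  · congr 1
    refine Finset.sum_congr rfl fun k hk => ?_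
    have : (0 : ℝ) < k := by
      have := (Finset.mem_Icc.1 hk).1
      positivity
    rw [integral_hinge _ _ _ _ (by positivity : (0 : ℝ) < _).ne']

theorem cV_le : ∫ x in (1 : ℝ)..80, VRx x ≤ 8904.02 := by
  rw [integral_VRx]
  have e : (∑ k ∈ Icc (1 : ℕ) 79, ((max 0 (40 - (k : ℝ) / 2 * 1)) ^ 2
      - (max 0 (40 - (k : ℝ) / 2 * 80)) ^ 2) / (2 * ((k : ℝ) / 2))
    + 3 * ∑ k ∈ Icc (1 : ℕ) 39, ((max 0 (20 - (k : ℝ) / 2 * 1)) ^ 2
      - (max 0 (20 - (k : ℝ) / 2 * 80)) ^ 2) / (2 * ((k : ℝ) / 2))) =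
    ((∑ k ∈ Icc (1 : ℕ) 79, ((max 0 (40 - (k : ℚ) / 2 * 1)) ^ 2
      - (max 0 (40 - (k : ℚ) / 2 * 80)) ^ 2) / (2 * ((k : ℚ) / 2))
    + 3 * ∑ k ∈ Icc (1 : ℕ) 39, ((max 0 (20 - (k : ℚ) / 2 * 1)) ^ 2
      - (max 0 (20 - (k : ℚ) / 2 * 80)) ^ 2) / (2 * ((k : ℚ) / 2)) : ℚ) : ℝ) := by
    push_cast
    rfl
  rw [e]
  have h : (∑ k ∈ Icc (1 : ℕ) 79, ((max 0 (40 - (k : ℚ) / 2 * 1)) ^ 2
      - (max 0 (40 - (k : ℚ) / 2 * 80)) ^ 2) / (2 * ((k : ℚ) / 2))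
    + 3 * ∑ k ∈ Icc (1 : ℕ) 39, ((max 0 (20 - (k : ℚ) / 2 * 1)) ^ 2
      - (max 0 (20 - (k : ℚ) / 2 * 80)) ^ 2) / (2 * ((k : ℚ) / 2)) : ℚ) ≤ 890402 / 100 := by
    decide +kernel
  have h2 : ((∑ k ∈ Icc (1 : ℕ) 79, ((max 0 (40 - (k : ℚ) / 2 * 1)) ^ 2
      - (max 0 (40 - (k : ℚ) / 2 * 80)) ^ 2) / (2 * ((k : ℚ) / 2))
    + 3 * ∑ k ∈ Icc (1 : ℕ) 39, ((max 0 (20 - (k : ℚ) / 2 * 1)) ^ 2
      - (max 0 (20 - (k : ℚ) / 2 * 80)) ^ 2) / (2 * ((k : ℚ) / 2)) : ℚ) : ℝ) ≤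
      ((890402 / 100 : ℚ) : ℝ) := by exact_mod_cast h
  refine h2.trans (le_of_eq ?_)
  norm_num

/-! ### one term of the sum over primes -/

/-- one term of the sum over primes -/
noncomputable def tq (v : ℕ → ℤ) (p q : ℕ) : ℝ :=
  ((padicValNat q (RR p) : ℝ) - (if q < 4 * p then (v q : ℝ) else 0)) * Z5.lp q

variable {C : ℝ} {p : ℕ} {v : ℕ → ℤ}

theorem tq_of_not_prime {q : ℕ} (hq : ¬ q.Prime) : tq v p q = 0 := by
  unfold tq Pool.Agent.Z5.lp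
  rw [if_neg hq, mul_zero]

/-- the error in range 4 -/
theorem err4_le (hp : 6 ≤ p) {q : ℕ} (hq : q.Prime) (h : 4 * p < q ^ 2) :
    (C * (4 * p / q + 1) ^ 2 + (if q ^ 2 ≤ 80 * p then C * p else 0)) * Z5.lp q ≤
      errq (10 * C) p q := by
  have hqR : (0 : ℝ) < q := by exact_mod_cast hq.pos
  have hpR : (6 : ℝ) ≤ p := by exact_mod_cast hp
  have hlp0 := lp_nonneg q
  have hC := le_abs_self C
  have hC0 := abs_nonneg C
  have h10 : |10 * C| = 10 * |C| := by rw [abs_mul]; norm_num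
  have h4R : 4 * (p : ℝ) < (q : ℝ) ^ 2 := by exact_mod_cast h
  have hmul : (4 * (p : ℝ) / q) ^ 2 ≤ 4 * p := by
    rw [div_pow, div_le_iff₀ (by positivity)]
    nlinarith
  have h1 : (C * (4 * p / q + 1) ^ 2 + (if q ^ 2 ≤ 80 * p then C * p else 0)) ≤
      (|C| * (4 * p / q + 1) ^ 2 + (if q ^ 2 ≤ 80 * p then |C| * p else 0)) := by
    refine add_le_add (by gcongr) ?_
    split_ifs
    · gcongr
    · exact le_rfl
  refine (mul_le_mul_of_nonneg_right h1 hlp0).trans ?_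
  unfold errq
  rw [h10]
  by_cases h6 : q ^ 2 ≤ 6 * p
  · rw [if_pos h6, if_pos (show q ^ 2 ≤ 80 * p by omega)]
    have h2 : (4 * (p : ℝ) / q + 1) ^ 2 ≤ 9 * p := by nlinarith [sq_nonneg (4 * (p : ℝ) / q - 1)]
    have h3 : Z5.lp q ≤ Real.log p := by
      refine lp_le_log ?_
      by_contra hc
      push Not at hc
      nlinarith
    calc (|C| * (4 * p / q + 1) ^ 2 + |C| * p) * Z5.lp q ≤ (|C| * (9 * p) + |C| * p) * Z5.lp q := by
          gcongr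
      _ = 10 * |C| * p * Z5.lp q := by ring
      _ ≤ 10 * |C| * p * Real.log p := by gcongr
  · rw [if_neg h6]
    refine mul_le_mul_of_nonneg_right ?_ hlp0
    have h26 : (0 : ℝ) ≤ (if q ^ 2 < 16 * p then 26 * (p : ℝ) else 0) := by
      split_ifs <;> positivity
    have h46 : (4 * (p : ℝ) / q + 1) ^ 2 ≤ (6 * (p : ℝ) / q + 1) ^ 2 := by gcongr; norm_num
    have h2 : (if q ^ 2 ≤ 80 * p then |C| * (p : ℝ) else 0) ≤
        |C| * (3 * (6 * (p : ℝ) / q + 1) ^ 2) := by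
      split_ifs with h80
      · have h80R : (q : ℝ) ^ 2 ≤ 80 * p := by exact_mod_cast h80
        have h5 : (p : ℝ) ≤ 3 * (6 * (p : ℝ) / q) ^ 2 := by
          rw [div_pow, ← mul_div_assoc, le_div_iff₀ (by positivity)]
          nlinarith
        have h6 : (0 : ℝ) ≤ 6 * (p : ℝ) / q := by positivity
        have h7 : (p : ℝ) ≤ 3 * (6 * (p : ℝ) / q + 1) ^ 2 := by nlinarith
        gcongr
      · positivity
    have h3 : |C| * (4 * (p : ℝ) / q + 1) ^ 2 ≤ |C| * (6 * (p : ℝ) / q + 1) ^ 2 := by gcongr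
    have h4 : 0 ≤ |C| * (6 * (p : ℝ) / q + 1) ^ 2 := by positivity
    linarith

theorem tq_small (H : PBounds C p v) (hp : 6 ≤ p) {q : ℕ} (h3 : q ≤ p) :
    tq v p q ≤ (0 * q + 2355 * p) * Z5.lp q + errq (10 * C) p q
      - (if q = 2 then 2800 * (p : ℝ) ^ 2 * Real.log 2 else 0) := by
  have hpR : (6 : ℝ) ≤ p := by exact_mod_cast hp
  have he := errq_nonneg (10 * C) p q
  by_cases hq : q.Prime
  · have hlp : Z5.lp q = Real.log q := if_pos hq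
    have hlp0 := lp_nonneg q
    have hl : 0 ≤ (0 * (q : ℝ) + 2355 * p) * Z5.lp q := by
      rw [zero_mul, zero_add]; positivity
    unfold tq
    rw [if_pos (show q < 4 * p by omega)]
    by_cases h6 : q ^ 2 ≤ 4 * p
    · have hs := H.small q hq h6
      have he2 : errq (10 * C) p q = |10 * C| * p * Real.log p := if_pos (by omega)
      have h10 : |10 * C| = 10 * |C| := by rw [abs_mul]; norm_num
      have hC : C * p * Real.log p ≤ 10 * |C| * p * Real.log p := by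
        have h0 : 0 ≤ Real.log p := Real.log_nonneg (by linarith)
        have h1 := le_abs_self C
        have h2 := abs_nonneg C
        have h3 : C ≤ 10 * |C| := by linarith
        gcongr
      rw [he2, h10, hlp]
      rw [hlp] at hl
      by_cases h2 : q = 2
      · subst h2
        rw [if_pos rfl]
        rw [if_pos rfl] at hs
        push_cast at hs hl ⊢
        nlinarith
      · rw [if_neg h2]
        rw [if_neg h2] at hs
        nlinarith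
    · push Not at h6
      have h2 : q ≠ 2 := by
        rintro rfl
        omega
      rw [if_neg h2, sub_zero]
      have hg := H.r4 q hq h6 h3
      have h4 := err4_le (C := C) hp hq h6
      have h5 : ((padicValNat q (RR p) : ℝ) - v q) * Z5.lp q ≤
          (2355 * p + (C * (4 * p / q + 1) ^ 2 + (if q ^ 2 ≤ 80 * p then C * p else 0)))
            * Z5.lp q :=
        mul_le_mul_of_nonneg_right (by linarith) hlp0
      linarith
  · rw [tq_of_not_prime hq, lp_of_not_prime hq, mul_zero,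
      if_neg (by rintro rfl; exact hq Nat.prime_two)]
    linarith

theorem sq_of_large (hp : 80 ≤ p) {q : ℕ} (h3 : p < q) : 80 * p ≤ q ^ 2 := by
  nlinarith

theorem err_le (hp : 80 ≤ p) {q : ℕ} (hq : 0 < q) (h3 : p < q) :
    |C| * Z5.lp q ≤ errq (10 * C) p q := by
  have hlp0 := lp_nonneg q
  have h16 := sq_of_large hp h3
  have h10 : |10 * C| = 10 * |C| := by rw [abs_mul]; norm_num
  unfold errq
  rw [if_neg (by omega), if_neg (by omega), add_zero, h10]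
  refine mul_le_mul_of_nonneg_right ?_ hlp0
  have h1 := one_le_err (C := C) (show 0 < p by omega) hq
  have h2 := abs_nonneg C
  have h3 : 0 ≤ |C| * (6 * (p : ℝ) / q + 1) ^ 2 := by positivity
  linarith

/-- the common part of the main ranges -/
theorem tq_main (hp : 80 ≤ p) {q : ℕ} (hq : q.Prime) (h3 : p < q) (h8 : q < 4 * p)
    {B : ℝ} (hB : p * B - C ≤ v q) :
    tq v p q ≤ p * (VRx ((q : ℝ) / p) * Z5.lp q) - p * (B * Z5.lp q) + errq (10 * C) p q := by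
  have : Fact q.Prime := ⟨hq⟩
  have h16 := sq_of_large hp h3
  have hR := padicVal_RR_le p q (by omega) h16 h3
  have hlp0 := lp_nonneg q
  have he := err_le (C := C) hp hq.pos h3
  have hC := le_abs_self C
  unfold tq
  rw [if_pos h8]
  have h := mul_le_mul_of_nonneg_right
    (show (padicValNat q (RR p) : ℝ) - v q ≤ p * VRx ((q : ℝ) / p) - p * B + |C| by linarith) hlp0
  have e : (p * VRx ((q : ℝ) / p) - p * B + |C|) * Z5.lp q =
    p * (VRx ((q : ℝ) / p) * Z5.lp q) - p * (B * Z5.lp q) + |C| * Z5.lp q := by ring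
  linarith

theorem tq_O (H : PBounds C p v) (hp : 80 ≤ p) {q : ℕ} (h3 : p < q) (h5 : 3 * q ≤ 4 * p) :
    tq v p q ≤ p * (VRx ((q : ℝ) / p) * Z5.lp q) - p * (LB0 ((q : ℝ) / p) * Z5.lp q)
      + errq (10 * C) p q := by
  by_cases hq : q.Prime
  · have hpR : (0 : ℝ) < p := by
      have : 0 < p := by omega
      exact_mod_cast this
    have hD := H.r3 q hq h3 h5
    refine tq_main hp hq h3 (by omega) ?_
    have e : (p : ℝ) * LB0 ((q : ℝ) / p) = 1278 * p - 912 * q := by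
      unfold LB0
      field_simp
      ring
    rw [e]
    linarith
  · rw [tq_of_not_prime hq, lp_of_not_prime hq]
    have := errq_nonneg (10 * C) p q
    linarith

theorem tq_A (H : PBounds C p v) (hp : 80 ≤ p) {q : ℕ} (h3 : 4 * p < 3 * q) (h5 : q ≤ 2 * p) :
    tq v p q ≤ p * (VRx ((q : ℝ) / p) * Z5.lp q) - p * (LB1 ((q : ℝ) / p) * Z5.lp q)
      + errq (10 * C) p q := by
  by_cases hq : q.Prime
  · have hpR : (0 : ℝ) < p := by
      have : 0 < p := by omega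
      exact_mod_cast this
    have hD := H.r2 q hq h3 h5
    refine tq_main hp hq (by omega) (by omega) ?_
    have e : (p : ℝ) * LB1 ((q : ℝ) / p) = 178 * p - 99 * q := by
      unfold LB1
      field_simp
      ring
    rw [e]
    linarith
  · rw [tq_of_not_prime hq, lp_of_not_prime hq]
    have := errq_nonneg (10 * C) p q
    linarith

theorem tq_B (H : PBounds C p v) (hp : 80 ≤ p) {q : ℕ} (h3 : 2 * p < q) (h5 : q ≤ 4 * p) :
    tq v p q ≤ p * (VRx ((q : ℝ) / p) * Z5.lp q) - p * (LB2 ((q : ℝ) / p) * Z5.lp q)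
      + errq (10 * C) p q := by
  by_cases hq : q.Prime
  · have hpR : (0 : ℝ) < p := by
      have : 0 < p := by omega
      exact_mod_cast this
    have h4 : q < 4 * p := by
      rcases h5.eq_or_lt with h | h
      · exfalso
        rw [h] at hq
        rcases Nat.prime_mul_iff.1 hq with h | h
        · exact absurd h.1 (by norm_num)
        · omega
      · exact h
    have hD1 := H.r1 q hq h3 h4
    refine tq_main hp hq (by omega) h4 ?_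
    have e : (p : ℝ) * LB2 ((q : ℝ) / p) = -20 * p := by
      unfold LB2
      ring
    rw [e]
    linarith
  · rw [tq_of_not_prime hq, lp_of_not_prime hq]
    have := errq_nonneg (10 * C) p q
    linarith

theorem tq_Z (hp : 80 ≤ p) {q : ℕ} (h3 : 4 * p < q) :
    tq v p q ≤ p * (VRx ((q : ℝ) / p) * Z5.lp q) := by
  by_cases hq : q.Prime
  · have : Fact q.Prime := ⟨hq⟩
    have h16 := sq_of_large hp (show p < q by omega)
    have hR := padicVal_RR_le p q (by omega) h16 (by omega)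
    have hlp0 := lp_nonneg q
    unfold tq
    rw [if_neg (show ¬ q < 4 * p by omega), sub_zero]
    have h := mul_le_mul_of_nonneg_right hR hlp0
    have e : (p : ℝ) * VRx ((q : ℝ) / p) * Z5.lp q = p * (VRx ((q : ℝ) / p) * Z5.lp q) := by ring
    linarith
  · rw [tq_of_not_prime hq, lp_of_not_prime hq]
    linarith

/-! ### limits -/

theorem tendsto_main :
    Tendsto (fun n : ℕ =>
      (∑ k ∈ Ioc ⌊(0 : ℝ) * n⌋₊ ⌊(1 : ℝ) * n⌋₊, (0 * (k : ℝ) + 2355 * n) * Z5.lp k) / (n : ℝ) ^ 2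
      + (∑ k ∈ Ioc ⌊(1 : ℝ) * n⌋₊ ⌊(80 : ℝ) * n⌋₊, VRx ((k : ℝ) / n) * Z5.lp k) / n
      - (∑ k ∈ Ioc ⌊(1 : ℝ) * n⌋₊ ⌊(4 / 3 : ℝ) * n⌋₊, LB0 ((k : ℝ) / n) * Z5.lp k) / n
      - (∑ k ∈ Ioc ⌊(4 / 3 : ℝ) * n⌋₊ ⌊(2 : ℝ) * n⌋₊, LB1 ((k : ℝ) / n) * Z5.lp k) / n
      - (∑ k ∈ Ioc ⌊(2 : ℝ) * n⌋₊ ⌊(4 : ℝ) * n⌋₊, LB2 ((k : ℝ) / n) * Z5.lp k) / n) atTop
      (𝓝 (0 * (1 ^ 2 - 0 ^ 2) / 2 + 2355 * (1 - 0) + (∫ x in (1 : ℝ)..80, VRx x)
        - (∫ x in (1 : ℝ)..(4 / 3), LB0 x) - (∫ x in (4 / 3 : ℝ)..2, LB1 x)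
        - (∫ x in (2 : ℝ)..4, LB2 x))) := by
  have c0 : Continuous VRx := by unfold VRx; fun_prop
  have c3 : Continuous LB0 := by unfold LB0; fun_prop
  have c1 : Continuous LB1 := by unfold LB1; fun_prop
  have c2 : Continuous LB2 := by unfold LB2; fun_prop
  exact ((((tendsto_sum_primes_linear 0 1 0 2355 le_rfl (by norm_num)).add
    (tendsto_sum_primes 1 80 (by norm_num) (by norm_num) VRx c0.continuousOn)).sub
    (tendsto_sum_primes 1 (4 / 3) (by norm_num) (by norm_num) LB0 c3.continuousOn)).sub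
    (tendsto_sum_primes (4 / 3) 2 (by norm_num) (by norm_num) LB1 c1.continuousOn)).sub
    (tendsto_sum_primes 2 4 (by norm_num) (by norm_num) LB2 c2.continuousOn)

theorem limit_lt :
    0 * (1 ^ 2 - 0 ^ 2) / 2 + 2355 * (1 - 0) + (∫ x in (1 : ℝ)..80, VRx x)
        - (∫ x in (1 : ℝ)..(4 / 3), LB0 x) - (∫ x in (4 / 3 : ℝ)..2, LB1 x)
        - (∫ x in (2 : ℝ)..4, LB2 x) < 11220 := by
  have h1 := cV_le
  rw [integral_LB0, integral_LB1, integral_LB2]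
  norm_num at h1 ⊢
  linarith

/-! ### the sum -/

theorem sum_tq_le (H : PBounds C p v) (hp : 80 ≤ p) :
    ∑ q ∈ Ioc 0 (80 * p), tq v p q ≤
      ∑ q ∈ Ioc 0 (16 * p), errq (10 * C) p q - 2800 * (p : ℝ) ^ 2 * Real.log 2
      + (∑ k ∈ Ioc ⌊(0 : ℝ) * p⌋₊ ⌊(1 : ℝ) * p⌋₊, (0 * (k : ℝ) + 2355 * p) * Z5.lp k)
      + p * (∑ k ∈ Ioc ⌊(1 : ℝ) * p⌋₊ ⌊(80 : ℝ) * p⌋₊, VRx ((k : ℝ) / p) * Z5.lp k)
      - p * (∑ k ∈ Ioc ⌊(1 : ℝ) * p⌋₊ ⌊(4 / 3 : ℝ) * p⌋₊, LB0 ((k : ℝ) / p) * Z5.lp k)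
      - p * (∑ k ∈ Ioc ⌊(4 / 3 : ℝ) * p⌋₊ ⌊(2 : ℝ) * p⌋₊, LB1 ((k : ℝ) / p) * Z5.lp k)
      - p * (∑ k ∈ Ioc ⌊(2 : ℝ) * p⌋₊ ⌊(4 : ℝ) * p⌋₊, LB2 ((k : ℝ) / p) * Z5.lp k) := by
  have hp0 : (0 : ℝ) ≤ p := by positivity
  have hfl : ∀ a b : ℝ, a ≤ b → ⌊a * (p : ℝ)⌋₊ ≤ ⌊b * (p : ℝ)⌋₊ := fun a b hab =>
    Nat.floor_le_floor (by gcongr)
  have h80 : 80 * p = ⌊(80 : ℝ) * (p : ℝ)⌋₊ := by
    rw [show (80 : ℝ) * (p : ℝ) = ((80 * p : ℕ) : ℝ) by push_cast; ring, Nat.floor_natCast]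
  have h4 : 4 * p = ⌊(4 : ℝ) * (p : ℝ)⌋₊ := by
    rw [show (4 : ℝ) * (p : ℝ) = ((4 * p : ℕ) : ℝ) by push_cast; ring, Nat.floor_natCast]
  have h00 : 0 = ⌊(0 : ℝ) * (p : ℝ)⌋₊ := by simp
  -- splitting into consecutive intervals
  have split4 : ∀ f : ℕ → ℝ, ∑ q ∈ Ioc 0 (4 * p), f q =
      ∑ q ∈ Ioc ⌊(0 : ℝ) * p⌋₊ ⌊(1 : ℝ) * p⌋₊, f q
      + ∑ q ∈ Ioc ⌊(1 : ℝ) * p⌋₊ ⌊(4 / 3 : ℝ) * p⌋₊, f q
      + ∑ q ∈ Ioc ⌊(4 / 3 : ℝ) * p⌋₊ ⌊(2 : ℝ) * p⌋₊, f q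
      + ∑ q ∈ Ioc ⌊(2 : ℝ) * p⌋₊ ⌊(4 : ℝ) * p⌋₊, f q := by
    intro f
    rw [Finset.sum_Ioc_consecutive f (hfl _ _ (by norm_num)) (hfl _ _ (by norm_num)),
      Finset.sum_Ioc_consecutive f (hfl _ _ (by norm_num)) (hfl _ _ (by norm_num)),
      Finset.sum_Ioc_consecutive f (hfl _ _ (by norm_num)) (hfl _ _ (by norm_num)), ← h4, ← h00]
  have split : ∀ f : ℕ → ℝ, ∑ q ∈ Ioc 0 (80 * p), f q =
      ∑ q ∈ Ioc 0 (4 * p), f q + ∑ q ∈ Ioc ⌊(4 : ℝ) * p⌋₊ ⌊(80 : ℝ) * p⌋₊, f q := by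
    intro f
    rw [← h4, ← h80, Finset.sum_Ioc_consecutive f (by omega) (by omega)]
  have splitV : ∀ f : ℕ → ℝ, ∑ q ∈ Ioc ⌊(1 : ℝ) * p⌋₊ ⌊(80 : ℝ) * p⌋₊, f q =
      ∑ q ∈ Ioc ⌊(1 : ℝ) * p⌋₊ ⌊(4 / 3 : ℝ) * p⌋₊, f q
      + ∑ q ∈ Ioc ⌊(4 / 3 : ℝ) * p⌋₊ ⌊(2 : ℝ) * p⌋₊, f q
      + ∑ q ∈ Ioc ⌊(2 : ℝ) * p⌋₊ ⌊(4 : ℝ) * p⌋₊, f q
      + ∑ q ∈ Ioc ⌊(4 : ℝ) * p⌋₊ ⌊(80 : ℝ) * p⌋₊, f q := by
    intro f
    rw [Finset.sum_Ioc_consecutive f (hfl _ _ (by norm_num)) (hfl _ _ (by norm_num)),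
      Finset.sum_Ioc_consecutive f (hfl _ _ (by norm_num)) (hfl _ _ (by norm_num)),
      Finset.sum_Ioc_consecutive f (hfl _ _ (by norm_num)) (hfl _ _ (by norm_num))]
  have nc : ∀ a b : ℕ, (a : ℝ) < b → a < b := fun a b h => by exact_mod_cast h
  have nl : ∀ a b : ℕ, (a : ℝ) ≤ b → a ≤ b := fun a b h => by exact_mod_cast h
  -- the ranges
  have r1 : ∑ q ∈ Ioc ⌊(0 : ℝ) * p⌋₊ ⌊(1 : ℝ) * p⌋₊, tq v p q ≤
      ∑ q ∈ Ioc ⌊(0 : ℝ) * p⌋₊ ⌊(1 : ℝ) * p⌋₊, (0 * (q : ℝ) + 2355 * p) * Z5.lp q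
      + ∑ q ∈ Ioc ⌊(0 : ℝ) * p⌋₊ ⌊(1 : ℝ) * p⌋₊, errq (10 * C) p q
      - 2800 * (p : ℝ) ^ 2 * Real.log 2 := by
    have h2 : ∑ q ∈ Ioc ⌊(0 : ℝ) * p⌋₊ ⌊(1 : ℝ) * p⌋₊,
        (if q = 2 then 2800 * (p : ℝ) ^ 2 * Real.log 2 else 0) =
          2800 * (p : ℝ) ^ 2 * Real.log 2 := by
      rw [Finset.sum_ite_eq' _ 2 (fun _ => 2800 * (p : ℝ) ^ 2 * Real.log 2), if_pos]
      rw [Finset.mem_Ioc, ← h00]
      refine ⟨by norm_num, Nat.le_floor ?_⟩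
      have : (80 : ℝ) ≤ p := by exact_mod_cast hp
      push_cast
      linarith
    conv_rhs => rw [← h2]
    rw [← Finset.sum_add_distrib, ← Finset.sum_sub_distrib]
    refine Finset.sum_le_sum fun q hq => ?_
    have h3 := mem_Ioc_floor le_rfl (by norm_num) hq
    exact tq_small H (by omega) (nl _ _ (by linarith [h3.2]))
  have r2 : ∑ q ∈ Ioc ⌊(1 : ℝ) * p⌋₊ ⌊(4 / 3 : ℝ) * p⌋₊, tq v p q ≤
      p * ∑ q ∈ Ioc ⌊(1 : ℝ) * p⌋₊ ⌊(4 / 3 : ℝ) * p⌋₊, VRx ((q : ℝ) / p) * Z5.lp q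
      - p * ∑ q ∈ Ioc ⌊(1 : ℝ) * p⌋₊ ⌊(4 / 3 : ℝ) * p⌋₊, LB0 ((q : ℝ) / p) * Z5.lp q
      + ∑ q ∈ Ioc ⌊(1 : ℝ) * p⌋₊ ⌊(4 / 3 : ℝ) * p⌋₊, errq (10 * C) p q := by
    rw [Finset.mul_sum, Finset.mul_sum, ← Finset.sum_sub_distrib, ← Finset.sum_add_distrib]
    refine Finset.sum_le_sum fun q hq => ?_
    have h3 := mem_Ioc_floor (by norm_num) (by norm_num) hq
    exact tq_O H hp (nc _ _ (by linarith [h3.1])) (nl _ _ (by push_cast; linarith [h3.2]))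
  have r3 : ∑ q ∈ Ioc ⌊(4 / 3 : ℝ) * p⌋₊ ⌊(2 : ℝ) * p⌋₊, tq v p q ≤
      p * ∑ q ∈ Ioc ⌊(4 / 3 : ℝ) * p⌋₊ ⌊(2 : ℝ) * p⌋₊, VRx ((q : ℝ) / p) * Z5.lp q
      - p * ∑ q ∈ Ioc ⌊(4 / 3 : ℝ) * p⌋₊ ⌊(2 : ℝ) * p⌋₊, LB1 ((q : ℝ) / p) * Z5.lp q
      + ∑ q ∈ Ioc ⌊(4 / 3 : ℝ) * p⌋₊ ⌊(2 : ℝ) * p⌋₊, errq (10 * C) p q := by
    rw [Finset.mul_sum, Finset.mul_sum, ← Finset.sum_sub_distrib, ← Finset.sum_add_distrib]
    refine Finset.sum_le_sum fun q hq => ?_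
    have h3 := mem_Ioc_floor (by norm_num) (by norm_num) hq
    exact tq_A H hp (nc _ _ (by push_cast; linarith [h3.1])) (nl _ _ (by push_cast; linarith [h3.2]))
  have r4 : ∑ q ∈ Ioc ⌊(2 : ℝ) * p⌋₊ ⌊(4 : ℝ) * p⌋₊, tq v p q ≤
      p * ∑ q ∈ Ioc ⌊(2 : ℝ) * p⌋₊ ⌊(4 : ℝ) * p⌋₊, VRx ((q : ℝ) / p) * Z5.lp q
      - p * ∑ q ∈ Ioc ⌊(2 : ℝ) * p⌋₊ ⌊(4 : ℝ) * p⌋₊, LB2 ((q : ℝ) / p) * Z5.lp q
      + ∑ q ∈ Ioc ⌊(2 : ℝ) * p⌋₊ ⌊(4 : ℝ) * p⌋₊, errq (10 * C) p q := by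
    rw [Finset.mul_sum, Finset.mul_sum, ← Finset.sum_sub_distrib, ← Finset.sum_add_distrib]
    refine Finset.sum_le_sum fun q hq => ?_
    have h3 := mem_Ioc_floor (by norm_num) (by norm_num) hq
    exact tq_B H hp (nc _ _ (by push_cast; linarith [h3.1])) (nl _ _ (by push_cast; linarith [h3.2]))
  have r5 : ∑ q ∈ Ioc ⌊(4 : ℝ) * p⌋₊ ⌊(80 : ℝ) * p⌋₊, tq v p q ≤
      p * ∑ q ∈ Ioc ⌊(4 : ℝ) * p⌋₊ ⌊(80 : ℝ) * p⌋₊, VRx ((q : ℝ) / p) * Z5.lp q := by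
    rw [Finset.mul_sum]
    refine Finset.sum_le_sum fun q hq => ?_
    have h3 := mem_Ioc_floor (by norm_num) (by norm_num) hq
    exact tq_Z hp (nc _ _ (by push_cast; linarith [h3.1]))
  have herr : ∑ q ∈ Ioc 0 (4 * p), errq (10 * C) p q ≤ ∑ q ∈ Ioc 0 (16 * p), errq (10 * C) p q :=
    Finset.sum_le_sum_of_subset_of_nonneg (Finset.Ioc_subset_Ioc le_rfl (by omega))
      fun q _ _ => errq_nonneg _ _ _
  rw [split (fun q => tq v p q), split4 (fun q => tq v p q), splitV, mul_add, mul_add, mul_add]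
  rw [split4 (fun q => errq (10 * C) p q)] at herr
  linarith

theorem log_RR (p : ℕ) :
    Real.log (RR p) = ∑ q ∈ Ioc 0 (80 * p), (padicValNat q (RR p) : ℝ) * Z5.lp q := by
  refine log_eq_sum_lp (RR_pos p).ne' fun q hq hd => ?_
  unfold RR at hd
  rcases hq.dvd_mul.1 hd with h | h
  · have := prime_dvd_SF hq h
    omega
  · have := prime_dvd_SF hq (hq.dvd_of_dvd_pow h)
    omega

end PM

open PM

/-- The sum over the primes: the `p`-adic part of the proof, in one inequality. -/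
theorem padic_sum (C : ℝ) {ε : ℝ} (hε : 0 < ε) : ∃ p0 : ℕ, ∀ p ≥ p0, ∀ v : ℕ → ℤ,
    PBounds C p v → Real.log (RR p) + 2800 * (p : ℝ) ^ 2 * Real.log 2
      - (11220 + ε) * (p : ℝ) ^ 2 ≤
      ∑ q ∈ (range (4 * p)).filter Nat.Prime, (v q : ℝ) * Real.log q := by
  have h1 := tendsto_main.eventually (gt_mem_nhds limit_lt)
  have h2 := (tendsto_errq (10 * C)).eventually (gt_mem_nhds hε)
  obtain ⟨p1, hp1⟩ := (h1.and h2).exists_forall_of_atTop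
  refine ⟨max p1 80, fun p hp v H => ?_⟩
  have hp9 : 80 ≤ p := le_trans (le_max_right _ _) hp
  obtain ⟨g1, g2⟩ := hp1 p (le_trans (le_max_left _ _) hp)
  have hs := sum_tq_le H hp9
  have hp0 : (0 : ℝ) < p := by
    have : 0 < p := by omega
    exact_mod_cast this
  have hv : ∑ q ∈ (range (4 * p)).filter Nat.Prime, (v q : ℝ) * Real.log q =
      ∑ q ∈ Ioc 0 (80 * p), (if q < 4 * p then (v q : ℝ) else 0) * Z5.lp q := by
    have hsub : (range (4 * p)).filter Nat.Prime ⊆ Ioc 0 (80 * p) := by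
      intro q hq
      rw [Finset.mem_filter, Finset.mem_range] at hq
      exact Finset.mem_Ioc.2 ⟨hq.2.pos, by omega⟩
    rw [← Finset.sum_subset hsub]
    · refine Finset.sum_congr rfl fun q hq => ?_
      rw [Finset.mem_filter, Finset.mem_range] at hq
      rw [if_pos hq.1, Pool.Agent.Z5.lp, if_pos hq.2]
    · intro q _ hq'
      rw [Finset.mem_filter, Finset.mem_range, not_and_or] at hq'
      rcases hq' with h | h
      · rw [if_neg h, zero_mul]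
      · rw [Pool.Agent.Z5.lp, if_neg h, mul_zero]
  have ht : ∑ q ∈ Ioc 0 (80 * p), tq v p q = Real.log (RR p)
      - ∑ q ∈ Ioc 0 (80 * p), (if q < 4 * p then (v q : ℝ) else 0) * Z5.lp q := by
    rw [log_RR, ← Finset.sum_sub_distrib]
    refine Finset.sum_congr rfl fun q _ => ?_
    unfold tq
    ring
  rw [ht] at hs
  rw [hv]
  have hpp : (0 : ℝ) < (p : ℝ) ^ 2 := by positivity
  -- multiply the limits by `p ^ 2`
  have g1' := mul_lt_mul_of_pos_right g1 hpp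
  have g2' := mul_lt_mul_of_pos_right g2 hpp
  rw [div_mul_cancel₀ _ hpp.ne'] at g2'
  have e1 : ∀ a b c d e : ℝ, (a / (p : ℝ) ^ 2 + b / p - c / p - d / p - e / p)
      * (p : ℝ) ^ 2 = a + p * b - p * c - p * d - p * e := by
    intro a b c d e
    field_simp
  rw [e1] at g1'
  linarith

end Pool.Agent.D4
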