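import Pool.Agent.D4.PBridge
import Pool.Agent.D4.DualDet
import Pool.Agent.D4.PadicMain
import Pool.Agent.Z5.MainArith

/-!
# The arithmetic lower bound

Adaptation of `Pool/Agent/Z9/MainArith.lean` (`h = 2 p`, `A = 25`, `m = 40 p`, `d b = 40 p`).
-/

open Finset Filter

namespace Pool.Agent.D4

open Pool.Agent.Z5 (OD SF SF_pos OD_pos gSF log_SF log_abs_ge log_OD_le eventually_small
  eventually_err zt tot)

theorem log_RR_four (p : ℕ) :
    Real.log (RR p) = Real.log (SF (40 * p)) + 3 * Real.log (SF (20 * p)) := by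
  have h1 : (0 : ℝ) < SF (40 * p) := by exact_mod_cast SF_pos _
  have h2 : (0 : ℝ) < SF (20 * p) := by exact_mod_cast SF_pos _
  unfold RR
  push_cast
  rw [Real.log_mul h1.ne' (by positivity), Real.log_pow]
  push_cast
  ring

theorem exists_equiv (p : ℕ) :
    Nonempty (Fin (2 * p) × Fin (2 * 25) ≃
      (Fin (20 * p) ⊕ Fin 2 × Fin (20 * p)) ⊕ Fin (40 * p)) := by
  refine ⟨Fintype.equivOfCardEq ?_⟩
  simp only [Fintype.card_prod, Fintype.card_sum, Fintype.card_fin]
  ring

/-- the duality for the instance -/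
theorem dual_inst {p : ℕ} (hp : 1 ≤ p) (α : ℕ → ℚ) (β : Fin 2 → ℕ → ℚ)
    (E : Fin (2 * p) × Fin (2 * 25) ≃
      (Fin (20 * p) ⊕ Fin 2 × Fin (20 * p)) ⊕ Fin (40 * p)) :
    |DQ 25 (4 * p - 1) (fun _ => 50) α β (20 * p) (20 * p)| * (4 ^ (100 * p - 1)) ^ (40 * p) *
      ((OD (2 * p) : ℚ) ^ 1225 * (SF (2 * p) : ℚ) ^ 2500) =
    2 ^ (40 * p) * (4 ^ (100 * p - 1)) ^ (50 * p) * |DM p α β E| := by
  have h := dual_det (A := 25) (d := 2) (h := 2 * p) (a := 20 * p) (b := 20 * p) (m := 40 * p)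
    (by norm_num) (by omega) (by omega) α β E
  rw [show 2 * (2 * p) - 1 = 4 * p - 1 by omega] at h
  rw [show 2 * 25 * (2 * p) - 1 = 100 * p - 1 by omega, show 2 * (20 * p) = 40 * p by omega,
    show 25 * (2 * p) = 50 * p by omega] at h
  exact h

/-- the constant of the arithmetic lower bound -/
noncomputable def ariConst : ℝ :=
  -5200 * Real.log 2 + 2800 * Real.log 5 - 420

theorem ari (α : ℕ → ℚ) (β : Fin 2 → ℕ → ℚ) (hb : β 1 1 = 0) (ε : ℝ) (hε : 0 < ε) :
    ∀ᶠ p : ℕ in atTop,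
    DQ 25 (4 * p - 1) (fun _ => 50) α β (20 * p) (20 * p) ≠ 0 →
    -7200 * (p : ℝ) ^ 2 * Real.log p + (ariConst - ε) * (p : ℝ) ^ 2
      ≤ Real.log |((DQ 25 (4 * p - 1) (fun _ => 50) α β (20 * p) (20 * p) : ℚ) : ℝ)| := by
  obtain ⟨C, p0, hC⟩ := pbounds α β hb
  obtain ⟨p1, hp1⟩ := padic_sum C (show 0 < ε / 8 by positivity)
  filter_upwards [eventually_ge_atTop p0, eventually_ge_atTop p1, eventually_ge_atTop 1,
    eventually_err 40 (ε / 8) (by positivity), eventually_err 20 (ε / 24) (by positivity),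
    eventually_err 2 (ε / (8 * 2500)) (by positivity),
    eventually_small 2450 (ε / 8) (by positivity),
    (tendsto_natCast_atTop_atTop (R := ℝ)).eventually (eventually_ge_atTop
      ((2450 * Real.log 4 + 10 * Real.log 4) / (ε / 8)))]
    with p hp0 hpp1 hpge e8 e5 e3 es elin hD
  obtain ⟨E⟩ := exists_equiv p
  have hp : (1 : ℝ) ≤ p := by exact_mod_cast hpge
  have hp' : (0 : ℝ) < p := by linarith
  have hdual := dual_inst hpge α β E
  set D := DQ 25 (4 * p - 1) (fun _ => 50) α β (20 * p) (20 * p) with hDdef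
  have hM : DM p α β E ≠ 0 := by
    intro h0
    rw [h0, abs_zero, mul_zero] at hdual
    have h5 : (0 : ℚ) < OD (2 * p) := by exact_mod_cast OD_pos (2 * p)
    have h6 : (0 : ℚ) < SF (2 * p) := by exact_mod_cast SF_pos (2 * p)
    have h7 : (4 ^ (100 * p - 1) : ℚ) ^ (40 * p) *
        ((OD (2 * p) : ℚ) ^ 1225 * (SF (2 * p) : ℚ) ^ 2500) ≠ 0 := by
      positivity
    rw [mul_assoc] at hdual
    rcases mul_eq_zero.1 hdual with h8 | h8
    · exact hD (abs_eq_zero.1 h8)
    · exact h7 h8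
  have hPB := hC p hp0 E hM
  have hsum := hp1 p hpp1 _ hPB
  -- the product formula
  have hlogM := log_abs_ge hM ((range (4 * p)).filter Nat.Prime) (fun q hq => (mem_filter.1 hq).2)
    (fun q => - padicValRat q (DM p α β E))
    (fun q hq hq2 => by
      refine hPB.r0 q hq ?_
      by_contra h9
      exact hq2 (mem_filter.2 ⟨mem_range.2 (by omega), hq⟩))
    (fun q _ => by rw [neg_neg])
  have hlogM' : ∑ q ∈ (range (4 * p)).filter Nat.Prime, (padicValRat q (DM p α β E) : ℝ) * Real.log q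
      ≤ Real.log |((DM p α β E : ℚ) : ℝ)| := by
    refine le_trans (le_of_eq ?_) hlogM
    rw [← sum_neg_distrib]
    refine sum_congr rfl fun q _ => ?_
    push_cast
    ring
  -- logarithm of the duality
  have hcast : |((D : ℚ) : ℝ)| * (4 ^ (100 * p - 1)) ^ (40 * p) *
      ((OD (2 * p) : ℝ) ^ 1225 * (SF (2 * p) : ℝ) ^ 2500) =
      2 ^ (40 * p) * (4 ^ (100 * p - 1)) ^ (50 * p) * |((DM p α β E : ℚ) : ℝ)| := by
    have := congrArg (fun x : ℚ => (x : ℝ)) hdual
    simpa using this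
  have hOD : (0 : ℝ) < OD (2 * p) := by exact_mod_cast OD_pos (2 * p)
  have hSF : (0 : ℝ) < SF (2 * p) := by exact_mod_cast SF_pos (2 * p)
  have hD' : (0 : ℝ) < |((D : ℚ) : ℝ)| := abs_pos.2 (by exact_mod_cast hD)
  have hM' : (0 : ℝ) < |((DM p α β E : ℚ) : ℝ)| := abs_pos.2 (by exact_mod_cast hM)
  have hlog := congrArg Real.log hcast
  rw [Real.log_mul (by positivity) (by positivity), Real.log_mul (by positivity) (by positivity),
    Real.log_mul (by positivity) (by positivity), Real.log_mul (by positivity) (by positivity),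
    Real.log_mul (by positivity) (by positivity)] at hlog
  simp only [Real.log_pow] at hlog
  have h18 : ((100 * p - 1 : ℕ) : ℝ) = 100 * p - 1 := by
    have : 1 ≤ 100 * p := by omega
    push_cast [this]
    ring
  rw [h18] at hlog
  push_cast at hlog
  have hl4 : Real.log 4 = 2 * Real.log 2 := by
    rw [show (4 : ℝ) = 2 ^ 2 by norm_num, Real.log_pow]; norm_num
  have hl40 : Real.log 40 = 3 * Real.log 2 + Real.log 5 := by
    rw [show (40 : ℝ) = 2 ^ 3 * 5 by norm_num, Real.log_mul (by norm_num) (by norm_num),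
      Real.log_pow]; norm_num
  have hl20 : Real.log 20 = 2 * Real.log 2 + Real.log 5 := by
    rw [show (20 : ℝ) = 2 ^ 2 * 5 by norm_num, Real.log_mul (by norm_num) (by norm_num),
      Real.log_pow]; norm_num
  -- superfactorials
  have s8 := (abs_le.1 (log_SF (40 * p))).1
  have s5 := (abs_le.1 (log_SF (20 * p))).1
  have s3 := (abs_le.1 (log_SF (2 * p))).2
  have g8 : gSF ((40 * p : ℕ) : ℝ) = 1600 * (p : ℝ) ^ 2 * ((3 * Real.log 2 + Real.log 5) +
      Real.log p) + (Real.log 2 - 3 / 2) * (1600 * (p : ℝ) ^ 2) := by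
    unfold gSF
    push_cast
    rw [Real.log_mul (by norm_num) hp'.ne', hl40]; ring
  have g5 : gSF ((20 * p : ℕ) : ℝ) = 400 * (p : ℝ) ^ 2 * ((2 * Real.log 2 + Real.log 5) +
      Real.log p) + (Real.log 2 - 3 / 2) * (400 * (p : ℝ) ^ 2) := by
    unfold gSF
    push_cast
    rw [Real.log_mul (by norm_num) hp'.ne', hl20]; ring
  have g3 : gSF ((2 * p : ℕ) : ℝ) = 4 * (p : ℝ) ^ 2 * (Real.log 2 + Real.log p) +
      (Real.log 2 - 3 / 2) * (4 * (p : ℝ) ^ 2) := by
    unfold gSF
    push_cast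
    rw [Real.log_mul (by norm_num) hp'.ne']; ring
  have hODl := log_OD_le (2 * p)
  have hOD2 : Real.log (OD (2 * p)) ≤ 2 * p * Real.log p + 2 * p * Real.log 4 := by
    refine hODl.trans (le_of_eq ?_)
    push_cast
    rw [show (2 * (2 * (p : ℝ))) = 4 * p by ring, Real.log_mul (by norm_num) hp'.ne']; ring
  rw [log_RR_four] at hsum
  have elin' : (2450 * Real.log 4 + 10 * Real.log 4) * p ≤ ε / 8 * (p : ℝ) ^ 2 := by
    have h9 : (2450 * Real.log 4 + 10 * Real.log 4) ≤ ε / 8 * p := by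
      have h10 : 0 < ε / 8 := by positivity
      rw [div_le_iff₀ h10] at elin
      linarith
    nlinarith
  have hl2 : 0 ≤ Real.log 2 := Real.log_nonneg (by norm_num)
  have h2p : 0 ≤ 40 * p * Real.log 2 := by positivity
  unfold ariConst
  rw [g8] at s8
  rw [g5] at s5
  rw [g3] at s3
  rw [hl4] at elin' hlog hOD2
  linarith [hlog, hsum, hlogM', s8, s5, s3, e8, e5, e3, es, elin', hOD2, h2p]

end Pool.Agent.D4
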