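import Pool.Agent.D4.Defs
import Pool.Agent.Z5.NVLoc
import Pool.Agent.Z5.NVPoly
import Pool.Agent.Z5.NVCong

/-!
# Non-vanishing of the mixed determinant: definitions

`L + 1 = M p`, `e u = E (u / p)`.  `k0` is the least index with `β k0 ≠ 0`.  Everything about
`p`-integral numbers, the power series `W`, the local coefficients `lc` and the basis polynomials is
that of `Pool.Agent.Z5.NV`.
-/

open Finset Polynomial

namespace Pool.Agent.D4.NV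

open Pool.Agent.Z5 (co rho Hs mono w evY F dser xser hser lser zt tot)
open Pool.Agent.Z5.NV (Zp Cg Un tt W ql lc yy ex Pi sg tu qlZ cc AA)

/-- the local form of `ρ₀` -/
noncomputable def lr0 (A M : ℕ) (E : ℕ → ℕ) (q : ℚ[X]) : ℚ :=
  - ∑ m ∈ range M, ∑ i ∈ Finset.Icc 1 (2 * A), lc M E (fun _ => 1) q m i * Hs i m

/-- the local form of `β_k ρ_{2 k + 1}` -/
noncomputable def lrG (M : ℕ) (E : ℕ → ℕ) (β : ℕ → ℚ) (k : ℕ) (q : ℚ[X]) : ℚ :=
  β k * ∑ m ∈ range M, lc M E (fun _ => 1) q m (2 * k + 1)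

/-- contribution of the class `a` to `p ^ T Φ(h)`, `q = ql p a h` -/
noncomputable def La (A p M : ℕ) (E : ℕ → ℕ) (α : ℕ → ℚ) (a : ℕ) (q : ℚ[X]) : ℚ :=
  (- ∑ m ∈ range M, ∑ i ∈ Finset.Icc 1 (2 * A),
      lc M E (fun m => (W p M E a m)⁻¹) q m i * ((p : ℚ) ^ i * Hs i (a + p * m)))
    + ∑ k ∈ Finset.Icc 1 (A - 1), α k * ((p : ℚ) ^ (2 * k + 1) *
        ∑ m ∈ range M, lc M E (fun m => (W p M E a m)⁻¹) q m (2 * k + 1))

/-- contribution of the class `a` to `p ^ (T - 2 k0 - 1) G(h)`, `q = ql p a h` -/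
noncomputable def LaG (A p M : ℕ) (E : ℕ → ℕ) (β : ℕ → ℚ) (k0 a : ℕ) (q : ℚ[X]) : ℚ :=
  ∑ k ∈ Finset.Icc 1 (A - 1), β k * ((p : ℚ) ^ (2 * (k - k0)) *
        ∑ m ∈ range M, lc M E (fun m => (W p M E a m)⁻¹) q m (2 * k + 1))

end Pool.Agent.D4.NV
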