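import Pool.Agent.D4.Basis
import Pool.Agent.D4.NVLoc
import Pool.Agent.D4.NVCong
import Pool.Agent.Z5.NVMain

/-!
# Non-vanishing of the mixed determinant, `d` families

Adaptation of `Pool/Agent/Z9/NVMain`.  Rows `(i, a)` (`i < s`, `a < p`) and `(j, (i, a))`
(`j < d`, `i < s'`), columns `(n, a)` with `n : Fin s ⊕ Fin d × Fin s'` and polynomial
`zq (Pi p (s + d s') (p - 1 - a) (jR d s s' n))`.  The row `(j, (i, a))` is multiplied by
`p ^ T / p ^ (2 k0 j + 1) / p ^ sg p a i`.  Modulo `p` the matrix is block diagonal with `p` blocks,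
each the base matrix up to unit row and column factors (times `β j (k0 j)`).
-/

open Finset Polynomial

namespace Pool.Agent.D4

open Pool.Agent.Z5 (co rho Hs mono w evY F dser xser hser lser zt tot)
open Pool.Agent.Z5.NV (Zp Cg Un tt W ql lc yy ex Pi sg tu qlZ cc AA zq entry_aux det_scale det_cg
  Pi_degree AA_unit cc_unit Un_int Un_large Zp_int)
open Pool.Agent.D4.NV

theorem G_uv {A L : ℕ} {e : ℕ → ℕ} {k0 : ℕ} (hk0 : k0 ∈ Finset.Icc 1 (A - 1)) (h : ℚ[X]) :
    G A L e (uv k0) h = rho L e (2 * k0 + 1) h := by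
  unfold G uv
  rw [Finset.sum_eq_single k0]
  · rw [if_pos rfl, one_mul]
  · intro k _ hk
    rw [if_neg hk, zero_mul]
  · intro h; exact absurd hk0 h

/-- the index of a row or column as a pair (base index, residue class) -/
def nvEq (d p s s' : ℕ) :
    (Fin s × Fin p) ⊕ Fin d × (Fin s' × Fin p) ≃ (Fin s ⊕ Fin d × Fin s') × Fin p :=
  (Equiv.sumCongr (Equiv.refl _) (Equiv.prodAssoc _ _ _).symm).trans
    (Equiv.sumProdDistrib _ _ _).symm

/-- `L + 1 = M p`, `e u = E (u / p)`, `a = s p`, `b = s' p`: the mixed determinant does not vanish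
for large primes `p`, if the same determinant for `p = 1`, `α = 0` and the unit vectors at the first
indices with `β j k0 ≠ 0` does not vanish. -/
theorem nonvanishing {A d : ℕ} (M : ℕ) (E : ℕ → ℕ) (s s' : ℕ) (hM : 2 ≤ M)
    (hE : IsProf A (M - 1) E) (α : ℕ → ℚ) (β : Fin d → ℕ → ℚ) (k0 : Fin d → ℕ)
    (hk0 : ∀ j, k0 j ∈ Finset.Icc 1 (A - 1)) (hβ : ∀ j, β j (k0 j) ≠ 0)
    (hβ0 : ∀ j, ∀ k ∈ Finset.Icc 1 (A - 1), k < k0 j → β j k = 0)
    (h0 : DQ A (M - 1) E 0 (fun j => uv (k0 j)) s s' ≠ 0) :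
    ∃ p0 : ℕ, ∀ p : ℕ, p.Prime → p0 ≤ p →
      DQ A (M * p - 1) (fun u => E (u / p)) α β (s * p) (s' * p) ≠ 0 := by
  classical
  have hT : Even (∑ n ∈ range M, E n) := by
    have := hE.even
    rwa [show M - 1 + 1 = M by omega] at this
  obtain ⟨p1, h1⟩ := La_cg0 (A := A) M E hT α
  choose p3 h3 using fun j => LaG_cg (A := A) M E hT (β j) (k0 j) (hk0 j) (hβ0 j)
  obtain ⟨p2, h2⟩ := Un_large _ h0
  choose p4 h4 using fun j => Un_large _ (hβ j)
  refine ⟨max (max p1 p2) (max 3 (max (Finset.univ.sup p3) (Finset.univ.sup p4))),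
    fun p hp hle => ?_⟩
  have hp1 : p1 ≤ p := by omega
  have hp2 : p2 ≤ p := by omega
  have hp3 : ∀ j, p3 j ≤ p := fun j => by
    have := Finset.le_sup (f := p3) (Finset.mem_univ j)
    omega
  have hp4 : ∀ j, p4 j ≤ p := fun j => by
    have := Finset.le_sup (f := p4) (Finset.mem_univ j)
    omega
  have hpn : p ≠ 2 := by omega
  have hp0 : (p : ℚ) ≠ 0 := by exact_mod_cast hp.ne_zero
  replace h1 := h1 p hp hp1
  replace h2 := h2 p hp hp2
  replace h3 := fun j => h3 j p hp (hp3 j)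
  replace h4 := fun j => h4 j p hp (hp4 j)
  intro hDQ
  -- the families
  set L := M * p - 1 with hL
  set e : ℕ → ℕ := fun u => E (u / p) with he
  set T := ∑ n ∈ range M, E n with hTdef
  set eq := nvEq d p s s' with heq
  let φ : Fin s × Fin p → ℚ[X] := fun x => zq (Pi p s x.2 x.1)
  let χ : Fin s' × Fin p → ℚ[X] := fun x => zq (Pi p s' x.2 x.1)
  let jj : Fin s ⊕ Fin d × Fin s' → ℕ := jR d s s'
  let ψ : (Fin s × Fin p) ⊕ Fin d × (Fin s' × Fin p) → ℚ[X] := fun y =>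
    zq (Pi p (s + d * s') (p - 1 - (eq y).2) (jj (eq y).1))
  have hjj : ∀ j : Fin s ⊕ Fin d × Fin s', jj j < s + d * s' := fun j => BasisAux.jR_lt d s s' j
  let GG := gmat A L e α β φ χ ψ
  have hG : GG.det = 0 := by
    have := abs_det_gmat (A := A) (L := L) (e := e) (s * p) (s' * p) finProdFinEquiv
      finProdFinEquiv ((Equiv.sumCongr finProdFinEquiv
        (Equiv.prodCongr (Equiv.refl _) finProdFinEquiv)).trans (BasisAux.jE d (s * p) (s' * p)))
      α β φ χ ψ ?_ ?_ ?_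
    · rw [hDQ, abs_zero, mul_zero, abs_eq_zero] at this
      exact this
    · rintro ⟨i, a⟩
      exact lt_of_le_of_lt (degree_map_le) (Pi_degree hp hpn a.2 i.2)
    · rintro ⟨i, a⟩
      exact lt_of_le_of_lt (degree_map_le) (Pi_degree hp hpn a.2 i.2)
    · intro y
      have := Pi_degree hp hpn (n := s + d * s') (a := p - 1 - (eq y).2) (i := jj (eq y).1)
        (by have := (eq y).2.2; omega) (hjj _)
      rw [add_mul, mul_assoc] at this
      exact lt_of_le_of_lt (degree_map_le) this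
  -- scaling
  let rs : (Fin s × Fin p) ⊕ Fin d × (Fin s' × Fin p) → ℚ :=
    Sum.elim (fun x => (p : ℚ) ^ T * ((p : ℚ) ^ sg p x.2 x.1)⁻¹)
      (fun x => (p : ℚ) ^ T * ((p : ℚ) ^ (2 * k0 x.1 + 1))⁻¹ * ((p : ℚ) ^ sg p x.2.2 x.2.1)⁻¹)
  let cs : (Fin s × Fin p) ⊕ Fin d × (Fin s' × Fin p) → ℚ :=
    fun y => ((p : ℚ) ^ tu p (eq y).2 (jj (eq y).1))⁻¹
  let MA : Matrix ((Fin s × Fin p) ⊕ Fin d × (Fin s' × Fin p))
      ((Fin s × Fin p) ⊕ Fin d × (Fin s' × Fin p)) ℚ :=
    Matrix.of fun x y => rs x * GG x y * cs y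
  have hA : MA.det = 0 := by
    rw [show MA = Matrix.of fun x y => rs x * GG x y * cs y from rfl, det_scale, hG]; ring
  -- the limit matrix
  let m0 := gmat A (M - 1) E 0 (fun j => uv (k0 j)) (mono s) (mono s') (monoR d s s')
  let r0 : Fin p → Fin s ⊕ Fin d × Fin s' → ℚ := fun a =>
    Sum.elim (fun i => ((AA p a ^ (s + (s + d * s')) * cc p a ^ (2 * (i : ℕ) + 1) : ℤ) : ℚ))
      (fun x => β x.1 (k0 x.1) *
        ((AA p a ^ (s' + (s + d * s')) * cc p a ^ (2 * (x.2 : ℕ) + 1) : ℤ) : ℚ))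
  let c0 : Fin p → Fin s ⊕ Fin d × Fin s' → ℚ := fun a j => ((cc p a ^ (2 * jj j + 1) : ℤ) : ℚ)
  let D : Fin p → Matrix (Fin s ⊕ Fin d × Fin s') (Fin s ⊕ Fin d × Fin s') ℚ := fun a =>
    Matrix.of fun i j => r0 a i * m0 i j * c0 a j
  let B := (Matrix.blockDiagonal D).submatrix eq eq
  have hB : Un p hp B.det := by
    rw [Matrix.det_submatrix_equiv_self, Matrix.det_blockDiagonal]
    refine Un.prod _ _ fun a _ => ?_
    rw [show D a = Matrix.of fun i j => r0 a i * m0 i j * c0 a j from rfl, det_scale]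
    refine ((Un.prod _ _ fun i _ => ?_).mul h2).mul (Un.prod _ _ fun j _ => ?_)
    · rcases i with i | i
      · simp only [r0, Sum.elim_inl]
        push_cast
        exact ((Un_int (AA_unit hp hpn a.2)).pow _).mul ((Un_int (cc_unit hp hpn a.2)).pow _)
      · simp only [r0, Sum.elim_inr]
        push_cast
        exact (h4 i.1).mul (((Un_int (AA_unit hp hpn a.2)).pow _).mul
          ((Un_int (cc_unit hp hpn a.2)).pow _))
    · simp only [c0]
      push_cast
      exact (Un_int (cc_unit hp hpn a.2)).pow _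
  -- the congruence of entries
  have hm0a : ∀ (i : Fin s) (j : Fin s ⊕ Fin d × Fin s'), m0 (Sum.inl i) j =
      lr0 A M E (X ^ (2 * (i : ℕ) + 2 * jj j + 1)) := by
    intro i j
    have e1 : monoR d s s' j = X ^ jj j := rfl
    have e2 : ∀ h : ℚ[X], Ph A (M - 1) E 0 h = rho0 A (M - 1) E h := by
      intro h
      simp only [Ph, G, Pi.zero_apply, zero_mul, Finset.sum_const_zero, add_zero]
    rw [show m0 (Sum.inl i) j = Ph A (M - 1) E 0 (mono s i * monoR d s s' j) from rfl, e1, e2,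
      show mono s i = X ^ (i : ℕ) from rfl, ← pow_add, ← lr0_odd hM]
    congr 2; ring
  have hm0b : ∀ (l : Fin d) (i : Fin s') (j : Fin s ⊕ Fin d × Fin s'),
      β l (k0 l) * m0 (Sum.inr (l, i)) j =
      lrG M E (β l) (k0 l) (X ^ (2 * (i : ℕ) + 2 * jj j + 1)) := by
    intro l i j
    have e1 : monoR d s s' j = X ^ jj j := rfl
    have e3 : 2 * (i : ℕ) + 2 * jj j + 1 = 2 * ((i : ℕ) + jj j) + 1 := by ring
    rw [show m0 (Sum.inr (l, i)) j = G A (M - 1) E (uv (k0 l)) (mono s' i * monoR d s s' j) from rfl,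
      e1, show mono s' i = X ^ (i : ℕ) from rfl, ← pow_add, G_uv (hk0 l), e3, lrG_odd hM]
  have key0 : ∀ (i : Fin s) (a a' : Fin p) (j : ℕ), j < s + d * s' →
      Cg p hp ((p : ℚ) ^ T * ((p : ℚ) ^ sg p a i)⁻¹ *
          Ph A L e α (zq (Pi p s a i) * zq (Pi p (s + d * s') (p - 1 - a') j)) *
            ((p : ℚ) ^ tu p a' j)⁻¹)
        (if a = a' then
          ((AA p a ^ (s + (s + d * s')) * cc p a ^ (2 * (i : ℕ) + 2 * j + 2) : ℤ) : ℚ) *
          lr0 A M E (X ^ (2 * (i : ℕ) + 2 * j + 1)) else 0) := by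
    intro i a a' j hj
    have h := entry_aux hp hpn (n := s) (N := s + d * s') a.2 a'.2 i.2 hj (La A p M E α)
      (lr0 A M E)
      (fun b hb q => (h1 b hb q).1) (fun b c q => La_C_mul M E α b c q) (lr0_add M E)
      (lr0_C_mul M E) (fun q => (h1 0 hp.pos q).2) _ (Ph_eq hp hM E α _)
    have e1 : (p : ℚ) ^ T * ((p : ℚ) ^ sg p a i)⁻¹ *
          Ph A L e α (zq (Pi p s a i) * zq (Pi p (s + d * s') (p - 1 - a') j)) *
            ((p : ℚ) ^ tu p a' j)⁻¹ =
        ((p : ℚ) ^ sg p a i)⁻¹ * ((p : ℚ) ^ T * Ph A L e α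
          (zq (Pi p s a i * Pi p (s + d * s') (p - 1 - a') j))) * ((p : ℚ) ^ tu p a' j)⁻¹ := by
      rw [show zq (Pi p s a i * Pi p (s + d * s') (p - 1 - a') j) =
        zq (Pi p s a i) * zq (Pi p (s + d * s') (p - 1 - a') j) from Polynomial.map_mul _]
      ring
    rw [e1]
    convert h using 1
    simp only [Fin.ext_iff]
  have key3 : ∀ (l : Fin d) (i : Fin s') (a a' : Fin p) (j : ℕ), j < s + d * s' →
      Cg p hp ((p : ℚ) ^ T * ((p : ℚ) ^ (2 * k0 l + 1))⁻¹ * ((p : ℚ) ^ sg p a i)⁻¹ *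
          G A L e (β l) (zq (Pi p s' a i) * zq (Pi p (s + d * s') (p - 1 - a') j)) *
            ((p : ℚ) ^ tu p a' j)⁻¹)
        (if a = a' then
          ((AA p a ^ (s' + (s + d * s')) * cc p a ^ (2 * (i : ℕ) + 2 * j + 2) : ℤ) : ℚ) *
          lrG M E (β l) (k0 l) (X ^ (2 * (i : ℕ) + 2 * j + 1)) else 0) := by
    intro l i a a' j hj
    have h := entry_aux hp hpn (n := s') (N := s + d * s') a.2 a'.2 i.2 hj
      (LaG A p M E (β l) (k0 l))
      (lrG M E (β l) (k0 l)) (fun b hb q => (h3 l b hb q).1)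
      (fun b c q => LaG_C_mul M E (β l) (k0 l) b c q)
      (lrG_add M E (β l) (k0 l)) (lrG_C_mul M E (β l) (k0 l)) (fun q => (h3 l 0 hp.pos q).2) _ rfl
    have e0 := G_eq hp hM E (β l) (hβ0 l) (zq (Pi p s' a i * Pi p (s + d * s') (p - 1 - a') j))
    have e1 : (p : ℚ) ^ T * ((p : ℚ) ^ (2 * k0 l + 1))⁻¹ * ((p : ℚ) ^ sg p a i)⁻¹ *
          G A L e (β l) (zq (Pi p s' a i) * zq (Pi p (s + d * s') (p - 1 - a') j)) *
            ((p : ℚ) ^ tu p a' j)⁻¹ =
        ((p : ℚ) ^ sg p a i)⁻¹ * (∑ b ∈ range p, LaG A p M E (β l) (k0 l) b (ql p b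
          (zq (Pi p s' a i * Pi p (s + d * s') (p - 1 - a') j)))) * ((p : ℚ) ^ tu p a' j)⁻¹ := by
      have e2 : ∑ b ∈ range p, LaG A p M E (β l) (k0 l) b (ql p b
          (zq (Pi p s' a i * Pi p (s + d * s') (p - 1 - a') j))) =
          ((p : ℚ) ^ (2 * k0 l + 1))⁻¹ * ((p : ℚ) ^ T *
          G A L e (β l) (zq (Pi p s' a i * Pi p (s + d * s') (p - 1 - a') j))) := by
        rw [hL, he, hTdef, e0]; field_simp
      rw [e2, show zq (Pi p s' a i * Pi p (s + d * s') (p - 1 - a') j) =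
        zq (Pi p s' a i) * zq (Pi p (s + d * s') (p - 1 - a') j) from Polynomial.map_mul _]
      ring
    rw [e1]
    convert h using 1
    simp only [Fin.ext_iff]
  have hcg : ∀ x y, Cg p hp (MA x y) (B x y) := by
    have hBe : ∀ x y, B x y = if (eq x).2 = (eq y).2 then
        r0 (eq x).2 (eq x).1 * m0 (eq x).1 (eq y).1 * c0 (eq x).2 (eq y).1 else 0 := by
      intro x y
      simp only [B, Matrix.submatrix_apply, Matrix.blockDiagonal_apply, D, Matrix.of_apply]
    intro x y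
    rw [hBe]
    obtain ⟨⟨j, a'⟩, hy1⟩ : ∃ z, eq y = z := ⟨_, rfl⟩
    have hy2 : ψ y = zq (Pi p (s + d * s') (p - 1 - a') (jj j)) := by
      show zq (Pi p (s + d * s') (p - 1 - (eq y).2) (jj (eq y).1)) = _
      rw [hy1]
    have hy3 : cs y = ((p : ℚ) ^ tu p a' (jj j))⁻¹ := by
      show ((p : ℚ) ^ tu p (eq y).2 (jj (eq y).1))⁻¹ = _
      rw [hy1]
    rcases x with ⟨i, a⟩ | ⟨l, i, a⟩
    · have hx1 : eq (Sum.inl (i, a)) = (Sum.inl i, a) := rfl
      have h := key0 i a a' (jj j) (hjj j)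
      rw [hx1, hy1]
      have eA : MA (Sum.inl (i, a)) y = (p : ℚ) ^ T * ((p : ℚ) ^ sg p a i)⁻¹ *
          Ph A L e α (zq (Pi p s a i) * zq (Pi p (s + d * s') (p - 1 - a') (jj j))) *
            ((p : ℚ) ^ tu p a' (jj j))⁻¹ := by
        rw [show MA (Sum.inl (i, a)) y = rs (Sum.inl (i, a)) * GG (Sum.inl (i, a)) y * cs y from rfl,
          hy3, show GG (Sum.inl (i, a)) y = Ph A L e α (φ (i, a) * ψ y) from rfl, hy2]
        rfl
      rw [eA]
      convert h using 1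
      refine if_congr Iff.rfl ?_ rfl
      rw [hm0a]
      simp only [r0, c0, Sum.elim_inl]
      push_cast; ring
    · have hx1 : eq (Sum.inr (l, (i, a))) = (Sum.inr (l, i), a) := rfl
      have h := key3 l i a a' (jj j) (hjj j)
      rw [hx1, hy1]
      have eA : MA (Sum.inr (l, (i, a))) y = (p : ℚ) ^ T * ((p : ℚ) ^ (2 * k0 l + 1))⁻¹ *
          ((p : ℚ) ^ sg p a i)⁻¹ *
          G A L e (β l) (zq (Pi p s' a i) * zq (Pi p (s + d * s') (p - 1 - a') (jj j))) *
            ((p : ℚ) ^ tu p a' (jj j))⁻¹ := by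
        rw [show MA (Sum.inr (l, (i, a))) y =
            rs (Sum.inr (l, (i, a))) * GG (Sum.inr (l, (i, a))) y * cs y from rfl,
          hy3, show GG (Sum.inr (l, (i, a))) y = G A L e (β l) (χ (i, a) * ψ y) from rfl, hy2]
        rfl
      rw [eA]
      convert h using 1
      refine if_congr Iff.rfl ?_ rfl
      rw [← hm0b]
      simp only [r0, c0, Sum.elim_inr]
      push_cast; ring
  have hBi : ∀ x y, B x y ∈ Zp p hp := by
    have hX : ∀ n : ℕ, (X ^ n : ℚ[X]) = zq (X ^ n) := fun n => by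
      simp only [zq, Polynomial.map_pow, map_X]
    intro x y
    simp only [B, Matrix.submatrix_apply, Matrix.blockDiagonal_apply, D, Matrix.of_apply]
    split_ifs with hxy
    · refine mul_mem ?_ (Zp_int _)
      rcases (eq x).1 with i | ⟨l, i⟩
      · refine mul_mem ?_ ?_
        · exact Zp_int _
        · rw [hm0a, hX]; exact (h1 0 hp.pos _).2
      · have e4 : r0 (eq x).2 (Sum.inr (l, i)) * m0 (Sum.inr (l, i)) (eq y).1 =
            ((AA p (eq x).2 ^ (s' + (s + d * s')) * cc p (eq x).2 ^ (2 * (i : ℕ) + 1) : ℤ) : ℚ) *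
              (β l (k0 l) * m0 (Sum.inr (l, i)) (eq y).1) := by
          simp only [r0, Sum.elim_inr]; ring
        rw [e4]
        refine mul_mem (Zp_int _) ?_
        rw [hm0b, hX]; exact (h3 l 0 hp.pos _).2
    · exact zero_mem _
  exact (det_cg MA B hBi hcg).ne_zero hB hA

end Pool.Agent.D4
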