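import Pool.Agent.D4.PPG
import Pool.Agent.Z5.PSelf

/-!
# The self-paired class

Adaptation of `Pool/Agent/Z9/PSelf.lean`: the coefficient `n` of every column has valuation at least
`-(n + 1)`, so each pole contributes at least `-(1 + 2 + … + 2 A) = -A (2 A + 1)`.
-/

open Finset Polynomial

namespace Pool.Agent.D4

open Pool.Agent.Z5 (hser Hs VG PG Cls yv gS zz sg2 cl SF OD uz)

variable {A d q L r : ℕ} {α : ℕ → ℚ} {β : Fin d → ℕ → ℚ} [hq : Fact q.Prime]

private theorem pself_kerQ {γ : ℕ → ℚ} (hβ : VI A q γ) : SG A q 0 (kerQ A γ) := by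
  unfold kerQ
  exact SG.sum _ _ fun k hk => (SG.C (hβ k hk)).mul_int (SG.X.pow_zero _)

private theorem pself_kerP (hLq : L < q ^ 2) (hα : VI A q α) {u : ℕ} (hu : u ≤ L) {n : ℕ}
    (hn : n < 2 * A) :
    VG q (-((n : ℤ) + 1)) (PowerSeries.coeff n (kerP A L α u)) := by
  have h2 : SG A q 0 (2 * kerQ A α) := SG.two.mul_int (pself_kerQ hα)
  rw [kerP, map_add, PowerSeries.coeff_mk, if_pos hn]
  refine Z5.VG.add (Z5.VG.neg (Z5.VG.add ?_ ?_)) ((h2 n hn).mono (by omega))
  · exact (Z5.PSelf.Hs_VG (q := q) (s := n + 1) (M := u) (by omega)).mono (by push_cast; omega)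
  · exact (Z5.VG.int_mul (Z5.PSelf.neg_one_pow_VG n)
      (Z5.PSelf.Hs_VG (q := q) (s := n + 1) (M := L - u) (by omega))).mono (by push_cast; omega)

private theorem pself_xser (u : ℕ) : SG A q 0 (Z5.xser L u) := by
  rw [Z5.xser]
  refine SG.add (SG.C ?_) (SG.two.mul_int SG.X)
  have h := Z5.VG.int (q := q) ((L : ℤ) - 2 * u)
  simpa using h

private theorem pself_hser {k : ℤ} (u : ℕ) (f : ℚ[X]) (hf : PG q k f) :
    SG A q k (hser L u f) :=
  SG.aeval ((pself_xser u).pow_zero 2) f hf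

private theorem pself_tvec (hLq : L < q ^ 2) (hα : VI A q α) (hβ : ∀ j, VI A q (β j)) {u : ℕ}
    (hu : u ≤ L) (c : Col d) (h1 : PG q 0 c.1) (h2 : PG q 0 c.2.1)
    (h3 : ∀ j, PG q 0 (c.2.2 j)) {n : ℕ} (hn : n < 2 * A) :
    VG q (-((n : ℤ) + 1)) (PowerSeries.coeff n (tvec A L α β u c)) := by
  rw [tvec, map_add, map_add]
  refine Z5.VG.add (Z5.VG.add ?_ ?_) ?_
  · exact (pself_hser (A := A) u _ h1 n hn).mono (by omega)
  · rw [PowerSeries.coeff_mul]
    refine Z5.VG.sum _ _ fun x hx => ?_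
    have h4 : x.1 + x.2 = n := Finset.HasAntidiagonal.mem_antidiagonal.1 hx
    exact (Z5.VG.mul_int (pself_kerP hLq hα hu (by omega))
      (pself_hser (A := A) u _ h2 _ (by omega))).mono (by omega)
  · exact ((SG.sum _ _ fun j _ => (pself_kerQ (hβ j)).mul_int
      (pself_hser (A := A) u _ (h3 j))) n hn).mono (by omega)

private theorem pself_sum (A : ℕ) :
    ∑ x : Fin (2 * A), -(((x : ℕ) : ℤ) + 1) = -((A * (2 * A + 1) : ℕ) : ℤ) := by
  rw [Fin.sum_univ_eq_sum_range (fun x : ℕ => -((x : ℤ) + 1)) (2 * A), Finset.sum_neg_distrib]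
  congr 1
  induction A with
  | zero => simp
  | succ A ih =>
    rw [show 2 * (A + 1) = 2 * A + 1 + 1 by ring, Finset.sum_range_succ, Finset.sum_range_succ, ih]
    push_cast
    ring

theorem self_bound (h : ℕ) (hL : L + 1 = 2 * h) (hLq : L < q ^ 2) (hα : VI A q α)
    (hβ : ∀ j, VI A q (β j)) {κ : Type*} (c : κ → Col d)
    (hc : ∀ y, PG q 0 (c y).1 ∧ PG q 0 (c y).2.1 ∧ ∀ j, PG q 0 ((c y).2.2 j))
    (f : {u : Fin h // cl q L u = r} × Fin (2 * A) → κ) :
    VG q (-(((A * (2 * A + 1) : ℕ) : ℤ) * (Fintype.card {u : Fin h // cl q L u = r} : ℤ)))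
      ((dmat A L α β h c).submatrix
          (fun x : {u : Fin h // cl q L u = r} × Fin (2 * A) => (x.1.1, x.2)) f).det := by
  have h1 := Z5.VG.det ((dmat A L α β h c).submatrix
      (fun x : {u : Fin h // cl q L u = r} × Fin (2 * A) => (x.1.1, x.2)) f)
    (fun x => -(((x.2 : ℕ) : ℤ) + 1)) (fun _ => 0) (by
      intro x y
      rw [add_zero, Matrix.submatrix_apply, dmat, Matrix.of_apply]
      exact pself_tvec hLq hα hβ (by have := x.1.1.2; omega) _ (hc _).1 (hc _).2.1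
        (hc _).2.2 x.2.2)
  refine h1.mono ?_
  rw [Finset.sum_const_zero, add_zero, Fintype.sum_prod_type]
  simp only [pself_sum, Finset.sum_const, Finset.card_univ, nsmul_eq_mul]
  apply le_of_eq
  ring

end Pool.Agent.D4
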