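import Pool.Agent.D4.Laplace
import Pool.Agent.D4.PSym
import Pool.Agent.D4.PSelf
import Pool.Agent.Z5.PAssem

/-!
# Assembly of the class bounds

Adaptation of `Pool/Agent/Z9/PAssem.lean`.
-/

open Finset Polynomial

namespace Pool.Agent.D4

open Pool.Agent.Z5 (hser Hs VG PG Cls yv gS zz sg2 cl SF OD uz image_cl_eq sum_cls card_self
  cls_exists self_card_le_one)

variable {A d q L : ℕ} {α : ℕ → ℚ} {β : Fin d → ℕ → ℚ} [hq : Fact q.Prime]

/-- assembly: bounds for all classes give a bound for the determinant -/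
theorem assemble (h2 : q ≠ 2) (h : ℕ) (hL : L + 1 = 2 * h) (hLq : L < q ^ 2) (hα : VI A q α)
    (hβ : ∀ j, VI A q (β j)) {κ : Type} [Fintype κ] [DecidableEq κ]
    (eq : Fin h × Fin (2 * A) ≃ κ) (c : κ → Col d)
    (hc : ∀ y, PG q 0 (c y).1 ∧ PG q 0 (c y).2.1 ∧ ∀ j, PG q 0 ((c y).2.2 j)) (e : ℕ → ℤ)
    (he : e 0 = 0)
    (hcls : ∀ r K, Cls q L r K → r < (L - r) % q →
      ∀ f : Fin K × Fin (2 * A) → κ, Function.Injective f →
      VG q (e K) (cmat A q L α β r K (fun y => c (f y))).det)
    (B : ℤ) (hB : 2 * B + e (if 2 ∣ (L / q + 1) then L / q + 1 else L / q) ≤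
      ((L + 1) % q : ℕ) * e ((L + 1) / q + 1) + (q - (L + 1) % q : ℕ) * e ((L + 1) / q)) :
    VG q (B - ((A * (2 * A + 1) * (L / q + 1) : ℕ) : ℤ))
      ((dmat A L α β h c).submatrix id eq).det := by
  classical
  set I : Finset ℕ := (univ : Finset (Fin h)).image fun u : Fin h => cl q L u with hI
  set W : ℤ := ((A * (2 * A + 1) : ℕ) : ℤ) with hW
  have hW0 : 0 ≤ W := Int.natCast_nonneg _
  let E : ℕ → ℤ := fun g => if g ∈ I then (if g ≠ (L - g) % q then e ((L - g) / q + 1) else
    -(W * (Fintype.card {u : Fin h // cl q L u = g} : ℤ))) else 0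
  have h1 := VG_laplace_n (q := q) (dmat A L α β h c) eq (fun u : Fin h => cl q L u) E ?_
  · refine h1.mono ?_
    have hS : ∑ g ∈ I, E g =
        ∑ g ∈ I.filter (fun g => g ≠ (L - g) % q), e ((L - g) / q + 1) +
        ∑ g ∈ I.filter (fun g => ¬ g ≠ (L - g) % q),
          -(W * (Fintype.card {u : Fin h // cl q L u = g} : ℤ)) := by
      rw [← Finset.sum_filter_add_sum_filter_not I (fun g => g ≠ (L - g) % q)]
      congr 1
      · apply Finset.sum_congr rfl
        intro g hg
        rw [mem_filter] at hg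
        simp only [E]
        rw [if_pos hg.1, if_pos hg.2]
      · apply Finset.sum_congr rfl
        intro g hg
        rw [mem_filter] at hg
        simp only [E]
        rw [if_pos hg.1, if_neg hg.2]
    have hA : B ≤ ∑ g ∈ I.filter (fun g => g ≠ (L - g) % q), e ((L - g) / q + 1) := by
      have := sum_cls h hL h2 e he
      rw [← hI] at this
      linarith
    have hB' : -(W * ((L / q + 1 : ℕ) : ℤ)) ≤ ∑ g ∈ I.filter (fun g => ¬ g ≠ (L - g) % q),
          -(W * (Fintype.card {u : Fin h // cl q L u = g} : ℤ)) := by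
      have hc1 := self_card_le_one (q := q) h hL h2
      rw [← hI] at hc1
      rcases Finset.eq_empty_or_nonempty (I.filter (fun g => ¬ g ≠ (L - g) % q)) with h3 | h3
      · rw [h3, Finset.sum_empty]
        have h4 : (0 : ℤ) ≤ ((L / q + 1 : ℕ) : ℤ) := Int.natCast_nonneg _
        have h5 := mul_nonneg hW0 h4
        linarith
      · have h4 : (I.filter (fun g => ¬ g ≠ (L - g) % q)).card = 1 :=
          le_antisymm hc1 (Finset.card_pos.mpr h3)
        obtain ⟨g, hg⟩ := Finset.card_eq_one.mp h4
        rw [hg, Finset.sum_singleton]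
        have hgm : g ∈ I.filter (fun g => ¬ g ≠ (L - g) % q) := by
          rw [hg]; exact mem_singleton_self g
        rw [hI, image_cl_eq h hL] at hgm
        simp only [mem_filter, mem_range, not_not] at hgm
        have h5 := card_self h hL h2 hgm.1.1 hgm.2
        have h6 : (Fintype.card {u : Fin h // cl q L u = g} : ℤ) ≤ ((L / q + 1 : ℕ) : ℤ) := by
          exact_mod_cast h5
        have h7 := mul_le_mul_of_nonneg_left h6 hW0
        linarith
    have hcast : ((A * (2 * A + 1) * (L / q + 1) : ℕ) : ℤ) = W * ((L / q + 1 : ℕ) : ℤ) := by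
      rw [hW]; push_cast; ring
    rw [hS, hcast]
    linarith
  · intro g f hf
    by_cases hg : g ∈ I
    · have hg' := hg
      rw [hI, image_cl_eq h hL] at hg'
      simp only [mem_filter, mem_range] at hg'
      by_cases hs : g ≠ (L - g) % q
      · have hE : E g = e ((L - g) / q + 1) := by
          simp only [E]
          rw [if_pos hg, if_pos hs]
        rw [hE]
        have hlt : g < (L - g) % q := lt_of_le_of_ne hg'.2.1 hs
        have hC := cls_exists hg'.1 hg'.2.2
        obtain ⟨e', he'⟩ := minor_eq (A := A) (α := α) (β := β) h hL hC hlt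
        apply he' κ c f
        exact hcls g _ hC hlt (fun y => f (e' y)) (hf.comp e'.injective)
      · have hE : E g = -(W * (Fintype.card {u : Fin h // cl q L u = g} : ℤ)) := by
          simp only [E]
          rw [if_pos hg, if_neg hs]
        rw [hE]
        exact self_bound h hL hLq hα hβ c hc f
    · have hE : E g = 0 := by
        simp only [E]
        rw [if_neg hg]
      have : IsEmpty {u : Fin h // cl q L u = g} := by
        constructor
        rintro ⟨u, hu⟩
        apply hg
        rw [hI, mem_image]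
        exact ⟨u, mem_univ _, hu⟩
      rw [hE, Matrix.det_isEmpty]
      exact Z5.VG.one

/-- the number of poles of a class -/
theorem cls_range {r K k : ℕ} (hc : Cls q L r K) (hk : (L + 1) / q = k) : K = k ∨ K = k + 1 := by
  have h0 : 0 < q := hq.out.pos
  have a1 := hc.hL
  have a2 := hc.hU
  have a3 := hc.hr
  have a4 := hc.hK
  have b1 : k * q ≤ L + 1 := by rw [← hk]; exact Nat.div_mul_le_self _ _
  have b2 : L + 1 < (k + 1) * q := (Nat.div_lt_iff_lt_mul h0).mp (by rw [hk]; omega)
  by_contra hcon
  rcases Nat.lt_or_ge K k with h1 | h1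
  · have : (K + 1) * q ≤ k * q := Nat.mul_le_mul_right _ h1
    have h2 : (K + 1) * q = q * K + q := by ring
    omega
  · have h3 : k + 2 ≤ K := by omega
    have : q * (k + 1) ≤ q * (K - 1) := Nat.mul_le_mul_left _ (by omega)
    have h2 : q * (k + 1) = (k + 1) * q := by ring
    omega

end Pool.Agent.D4
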