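import Pool.Agent.D4.PPG
import Pool.Agent.Z5.POm

/-!
# Classes with one pole

Adaptation of `Pool/Agent/Z9/PK1.lean` and of `k1_det` in `Pool/Agent/Z9/Ranges.lean`.
-/

open Finset Polynomial

namespace Pool.Agent.D4

open Pool.Agent.Z5 (hser Hs VG PG Cls yv gS zz sg2 cl SF OD uz)

variable {A d q L r : ℕ} {α : ℕ → ℚ} {β : Fin d → ℕ → ℚ} [hq : Fact q.Prime]

namespace K1

/-- the subring of series whose first `2 A` coefficients are integral -/
def SR (A q : ℕ) [Fact q.Prime] : Subring (PowerSeries ℚ) where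
  carrier := {f | SG A q 0 f}
  mul_mem' := by
    intro f g hf hg n hn
    rw [PowerSeries.coeff_mul]
    refine Pool.Agent.Z5.VG.sum _ _ fun x hx => ?_
    have h := Finset.HasAntidiagonal.mem_antidiagonal.mp hx
    exact Pool.Agent.Z5.VG.int_mul (hf x.1 (by omega)) (hg x.2 (by omega))
  one_mem' := by
    intro n _
    rw [PowerSeries.coeff_one]
    split_ifs
    · exact Pool.Agent.Z5.VG.one
    · exact Pool.Agent.Z5.VG.zero 0
  add_mem' := by
    intro f g hf hg n hn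
    rw [map_add]
    exact (hf n hn).add (hg n hn)
  zero_mem' := by
    intro n _
    rw [map_zero]
    exact Pool.Agent.Z5.VG.zero 0
  neg_mem' := by
    intro f hf n hn
    rw [map_neg]
    exact (hf n hn).neg

theorem C_mem {a : ℚ} (ha : VG q 0 a) : PowerSeries.C a ∈ SR A q := by
  intro n _
  rw [PowerSeries.coeff_C]
  split_ifs
  · exact ha
  · exact Pool.Agent.Z5.VG.zero 0

theorem X_mem : (PowerSeries.X : PowerSeries ℚ) ∈ SR A q := by
  intro n _
  rw [PowerSeries.coeff_X]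
  split_ifs
  · exact Pool.Agent.Z5.VG.one
  · exact Pool.Agent.Z5.VG.zero 0

theorem aeval_mem {f : PowerSeries ℚ} (hf : f ∈ SR A q) (P : ℚ[X]) (hP : PG q 0 P) :
    aeval f P ∈ SR A q := by
  rw [Polynomial.aeval_eq_sum_range]
  refine Subring.sum_mem _ fun i _ => ?_
  rw [PowerSeries.smul_eq_C_mul]
  exact Subring.mul_mem _ (C_mem (hP i)) (Subring.pow_mem _ hf i)

theorem hser_mem {h : ℚ[X]} (hh : PG q 0 h) (L u : ℕ) : hser L u h ∈ SR A q := by
  refine aeval_mem (Subring.pow_mem _ (Subring.add_mem _ (C_mem ?_) ?_) 2) h hh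
  · have := Pool.Agent.Z5.VG.int (q := q) ((L : ℤ) - 2 * u)
    simpa using this
  · have h := Subring.mul_mem _ (C_mem (A := A) (Pool.Agent.Z5.VG.nat (q := q) 2))
      (X_mem (A := A) (q := q))
    rwa [map_natCast] at h

theorem Hs_VG {s M : ℕ} (h : M < q) : VG q 0 (Hs s M) := by
  refine Pool.Agent.Z5.VG.sum _ _ fun m hm => ?_
  rw [Finset.mem_Icc] at hm
  rw [one_div, ← inv_pow]
  exact (Pool.Agent.Z5.POm.VG_inv_nat hm.1 (by omega)).pow_zero s

theorem kerQ_mem {γ : ℕ → ℚ} (hγ : VI A q γ) : kerQ A γ ∈ SR A q := by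
  refine Subring.sum_mem _ fun k hk => ?_
  exact Subring.mul_mem _ (C_mem (hγ k hk)) (Subring.pow_mem _ X_mem _)

theorem kerP_mem (h1 : r < q) (h2 : L - r < q) (hα : VI A q α) : kerP A L α r ∈ SR A q := by
  refine Subring.add_mem _ ?_ (Subring.mul_mem _ ?_ (kerQ_mem hα))
  · intro n hn
    rw [PowerSeries.coeff_mk, if_pos hn]
    exact Pool.Agent.Z5.VG.neg (Pool.Agent.Z5.VG.add (Hs_VG h1)
      (Pool.Agent.Z5.VG.int_mul (Pool.Agent.Z5.VG.one.neg.pow_zero n) (Hs_VG h2)))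
  · have h := C_mem (A := A) (Pool.Agent.Z5.VG.nat (q := q) 2)
    rwa [map_natCast] at h

end K1

open K1

theorem k1_reg (hc : Cls q L r 1) (hα : VI A q α) (hβ : ∀ j, VI A q (β j)) (c : Col d)
    (h1 : PG q 0 c.1) (h2 : PG q 0 c.2.1) (h3 : ∀ j, PG q 0 (c.2.2 j)) :
    SG A q 0 (tvec A L α β r c) := by
  have hU := hc.hU
  have hL := hc.hL
  have hr := hc.hr
  exact Subring.add_mem (SR A q) (Subring.add_mem _ (hser_mem h1 L r)
    (Subring.mul_mem _ (kerP_mem hr (by omega) hα) (hser_mem h2 L r)))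
    (Subring.sum_mem _ fun j _ => Subring.mul_mem _ (kerQ_mem (hβ j)) (hser_mem (h3 j) L r))

/-- classes with one pole: the matrix is integral -/
theorem k1_det (hc : Cls q L r 1) (hα : VI A q α) (hβ : ∀ j, VI A q (β j))
    (c : Fin 1 × Fin (2 * A) → Col d)
    (h : ∀ y, PG q 0 (c y).1 ∧ PG q 0 (c y).2.1 ∧ ∀ j, PG q 0 ((c y).2.2 j)) :
    VG q 0 (cmat A q L α β r 1 c).det := by
  have h1 := Pool.Agent.Z5.VG.det (q := q) (cmat A q L α β r 1 c) (fun _ => 0) (fun _ => 0)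
    (fun i j => ?_)
  · simpa using h1
  · have h2 : r + q * (i.1 : ℕ) = r := by
      have : (i.1 : ℕ) = 0 := by have := i.1.2; omega
      rw [this, mul_zero, add_zero]
    show VG q (0 + 0) (PowerSeries.coeff (i.2 : ℕ) (tvec A L α β (r + q * (i.1 : ℕ)) (c j)))
    rw [h2, add_zero]
    exact k1_reg hc hα hβ (c j) (h j).1 (h j).2.1 (h j).2.2 _ i.2.2

end Pool.Agent.D4
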