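import Pool.Agent.D4.PPG
import Pool.Agent.Z5.PExp

/-!
# `p`-adic part: expansions in the scaled variable

Adaptation of `Pool/Agent/Z9/PExp.lean`.
-/

open Finset Polynomial

namespace Pool.Agent.D4

open Pool.Agent.Z5 (hser Hs VG PG Cls yv gS zz sg2 cl SF OD uz)
open Pool.Agent.Z5

variable {A q L r K : ℕ} {α β : ℕ → ℚ} [hq : Fact q.Prime]

omit hq in
private lemma coeff_inv_sub {m : ℚ} (hm : m ≠ 0) (n : ℕ) :
    PowerSeries.coeff n (PowerSeries.C m - PowerSeries.X)⁻¹ = 1 / m ^ (n + 1) := by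
  have h1 : (PowerSeries.C m - PowerSeries.X)⁻¹ = PowerSeries.mk fun n => 1 / m ^ (n + 1) := by
    symm
    rw [PowerSeries.eq_inv_iff_mul_eq_one (by simpa using hm)]
    ext n
    rw [mul_sub, map_sub]
    rcases n with _ | n
    · simp [hm]
    · rw [PowerSeries.coeff_succ_mul_X, mul_comm, PowerSeries.coeff_C_mul, PowerSeries.coeff_mk,
        PowerSeries.coeff_mk, PowerSeries.coeff_one, if_neg (by omega)]
      field_simp
      ring
  rw [h1, PowerSeries.coeff_mk]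

omit hq in
private lemma coeff_inv_add {m : ℚ} (hm : m ≠ 0) (n : ℕ) :
    PowerSeries.coeff n (PowerSeries.C m + PowerSeries.X)⁻¹ = (-1) ^ n * (1 / m ^ (n + 1)) := by
  have h1 : (PowerSeries.C m + PowerSeries.X)⁻¹
      = PowerSeries.mk fun n => (-1) ^ n * (1 / m ^ (n + 1)) := by
    symm
    rw [PowerSeries.eq_inv_iff_mul_eq_one (by simpa using hm)]
    ext n
    rw [mul_add, map_add]
    rcases n with _ | n
    · simp [hm]
    · rw [PowerSeries.coeff_succ_mul_X, mul_comm, PowerSeries.coeff_C_mul, PowerSeries.coeff_mk,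
        PowerSeries.coeff_mk, PowerSeries.coeff_one, if_neg (by omega)]
      field_simp
      ring
  rw [h1, PowerSeries.coeff_mk]

omit hq in
private lemma coeff_gS (i n : ℕ) : PowerSeries.coeff n (gS K i)
    = Hs (n + 1) i + (-1) ^ n * Hs (n + 1) (K - 1 - i) := by
  unfold gS Hs
  rw [map_add, map_sum, map_sum, Finset.mul_sum]
  congr 1
  · refine Finset.sum_congr rfl fun m hm => ?_
    rw [coeff_inv_sub]
    have := (Finset.mem_Icc.1 hm).1
    positivity
  · refine Finset.sum_congr rfl fun m hm => ?_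
    rw [coeff_inv_add]
    have := (Finset.mem_Icc.1 hm).1
    positivity

private lemma VG_one_div_pow {m : ℕ} (hm : ¬ q ∣ m) (n : ℕ) : VG q 0 (1 / (m : ℚ) ^ n) := by
  refine Or.inr ?_
  have h1 : padicValRat q (m : ℚ) = 0 := by
    rw [padicValRat.of_nat]
    exact_mod_cast padicValNat.eq_zero_of_not_dvd hm
  have hm0 : (m : ℚ) ≠ 0 := by
    intro h
    have : m = 0 := by exact_mod_cast h
    exact hm (this ▸ dvd_zero q)
  rw [one_div, padicValRat.inv, padicValRat.pow, h1]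
  simp

private lemma Hs_VG {M : ℕ} (hM : M < q) (n : ℕ) : VG q 0 (Hs n M) := by
  unfold Hs
  refine VG.sum _ _ fun m hm => VG_one_div_pow (fun hd => ?_) n
  have h1 := Finset.mem_Icc.1 hm
  have := Nat.le_of_dvd (by omega) hd
  omega

/-- the part of a harmonic sum over the multiples of `q` -/
private lemma Hs_split (n M : ℕ) :
    VG q 0 (Hs n M - 1 / (q : ℚ) ^ n * Hs n (M / q)) := by
  have hq0 : 0 < q := hq.out.pos
  have h1 : Hs n M = ∑ m ∈ (Finset.Icc 1 M).filter (fun m => q ∣ m), 1 / (m : ℚ) ^ n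
      + ∑ m ∈ (Finset.Icc 1 M).filter (fun m => ¬ q ∣ m), 1 / (m : ℚ) ^ n := by
    unfold Hs
    rw [Finset.sum_filter_add_sum_filter_not]
  have h2 : (Finset.Icc 1 M).filter (fun m => q ∣ m)
      = (Finset.Icc 1 (M / q)).image (fun m => q * m) := by
    ext m
    simp only [Finset.mem_filter, Finset.mem_Icc, Finset.mem_image]
    constructor
    · rintro ⟨⟨h3, h4⟩, ⟨a, rfl⟩⟩
      refine ⟨a, ⟨?_, ?_⟩, rfl⟩
      · rcases Nat.eq_zero_or_pos a with h | h
        · subst h; omega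
        · exact h
      · rw [Nat.le_div_iff_mul_le hq0, mul_comm]; exact h4
    · rintro ⟨a, ⟨h3, h4⟩, rfl⟩
      refine ⟨⟨Nat.mul_pos hq0 h3, ?_⟩, dvd_mul_right _ _⟩
      rw [Nat.le_div_iff_mul_le hq0, mul_comm] at h4
      exact h4
  have h3 : ∑ m ∈ (Finset.Icc 1 M).filter (fun m => q ∣ m), 1 / (m : ℚ) ^ n
      = 1 / (q : ℚ) ^ n * Hs n (M / q) := by
    rw [h2, Finset.sum_image (fun a _ b _ hab => Nat.eq_of_mul_eq_mul_left hq0 hab)]
    unfold Hs
    rw [Finset.mul_sum]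
    refine Finset.sum_congr rfl fun m _ => ?_
    push_cast
    rw [mul_pow, one_div_mul_one_div]
  rw [h1, h3, add_sub_cancel_left]
  exact VG.sum _ _ fun m hm => VG_one_div_pow (Finset.mem_filter.1 hm).2 n

omit hq in
private lemma coeff_kerQ (β : ℕ → ℚ) (n : ℕ) : PowerSeries.coeff n (kerQ A β)
    = ∑ k ∈ Finset.Icc 1 (A - 1), if n = 2 * k then β k else 0 := by
  unfold kerQ
  rw [map_sum]
  refine Finset.sum_congr rfl fun k _ => ?_
  rw [PowerSeries.coeff_C_mul, PowerSeries.coeff_X_pow]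
  split_ifs <;> simp

private lemma VG_kerQ (hβ : VI A q β) (n : ℕ) : VG q 0 (PowerSeries.coeff n (kerQ A β)) := by
  rw [coeff_kerQ]
  refine VG.sum _ _ fun k hk => ?_
  split_ifs
  · exact hβ k hk
  · exact VG.zero _

/-- `kerP = -q⁻¹ gS + integral` -/
theorem kerP_sing (hc : Cls q L r K) (hL : L < q ^ 2) (hα : VI A q α) {i : ℕ} (hi : i < K) :
    SG A q 0 (PowerSeries.rescale (q : ℚ) (kerP A L α (r + q * i))
      + PowerSeries.C ((q : ℚ)⁻¹) * gS K i) := by
  intro n hn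
  have hq0 : (q : ℚ) ≠ 0 := by exact_mod_cast hq.out.ne_zero
  have hqpos : 0 < q := hq.out.pos
  have hu : (r + q * i) / q = i := by
    rw [Nat.add_mul_div_left _ _ hqpos, Nat.div_eq_of_lt hc.hr, zero_add]
  have hv : (L - (r + q * i)) / q = K - 1 - i := by
    have h1 := hc.hL
    have h2 := hc.hU
    obtain ⟨k, rfl⟩ : ∃ k, K = i + 1 + k := ⟨K - (i + 1), by omega⟩
    have h3 : i + 1 + k - 1 - i = k := by omega
    have h4 : i + 1 + k - 1 = i + k := by omega
    rw [h3]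
    rw [h4] at h1
    have h5 : q * (i + k) = q * i + q * k := by ring
    have h6 : q * (i + 1 + k) = q * i + q + q * k := by ring
    rw [h5] at h1
    rw [h6] at h2
    refine Nat.div_eq_of_lt_le ?_ ?_
    · rw [mul_comm]; omega
    · have : (k + 1) * q = q * k + q := by ring
      rw [this]
      omega
  have h2C : (2 : PowerSeries ℚ) = PowerSeries.C (2 : ℚ) := (map_ofNat _ 2).symm
  rw [map_add, PowerSeries.coeff_rescale, PowerSeries.coeff_C_mul, coeff_gS]
  unfold kerP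
  rw [map_add, PowerSeries.coeff_mk, if_pos hn, h2C, PowerSeries.coeff_C_mul]
  have h1 := Hs_split (q := q) (n + 1) (r + q * i)
  have h2 := Hs_split (q := q) (n + 1) (L - (r + q * i))
  rw [hu] at h1
  rw [hv] at h2
  have h3 : (q : ℚ) ^ n * (-(Hs (n + 1) (r + q * i) + (-1) ^ n * Hs (n + 1) (L - (r + q * i)))
        + 2 * PowerSeries.coeff n (kerQ A α))
      + (q : ℚ)⁻¹ * (Hs (n + 1) i + (-1) ^ n * Hs (n + 1) (K - 1 - i))
      = -((q : ℚ) ^ n * (Hs (n + 1) (r + q * i) - 1 / (q : ℚ) ^ (n + 1) * Hs (n + 1) i))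
        + -((-1) ^ n * ((q : ℚ) ^ n * (Hs (n + 1) (L - (r + q * i))
            - 1 / (q : ℚ) ^ (n + 1) * Hs (n + 1) (K - 1 - i))))
        + (q : ℚ) ^ n * (2 * PowerSeries.coeff n (kerQ A α)) := by
    have h4 : (q : ℚ) ^ n * (1 / (q : ℚ) ^ (n + 1)) = (q : ℚ)⁻¹ := by
      rw [pow_succ]
      field_simp
    linear_combination (Hs (n + 1) i + (-1) ^ n * Hs (n + 1) (K - 1 - i)) * (-h4)
  rw [h3]
  have hqn : VG q 0 ((q : ℚ) ^ n) := by
    exact_mod_cast VG.nat (q := q) (q ^ n)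
  have hneg : VG q 0 ((-1 : ℚ) ^ n) := by
    exact_mod_cast VG.int (q := q) ((-1) ^ n)
  refine VG.add (VG.add (VG.neg (hqn.mul_int h1)) (VG.neg (hneg.mul_int (hqn.mul_int h2)))) ?_
  refine hqn.mul_int ?_
  have h2' : VG q 0 (2 : ℚ) := by exact_mod_cast VG.nat (q := q) 2
  exact h2'.mul_int (VG_kerQ hα n)

/-- `kerQ(q ζ) = q ^ n * integral` if there are no terms below `ε ^ n` -/
theorem kerQ_sing (hβ : VI A q β) {n : ℕ} (hn : ∀ k ∈ Finset.Icc 1 (A - 1), 2 * k < n → β k = 0) :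
    ∃ v : PowerSeries ℚ, SG A q 0 v ∧
      PowerSeries.rescale (q : ℚ) (kerQ A β) = PowerSeries.C ((q : ℚ) ^ n) * v := by
  refine ⟨PowerSeries.mk fun m => (q : ℚ) ^ (m - n) * PowerSeries.coeff m (kerQ A β), ?_, ?_⟩
  · intro m _
    rw [PowerSeries.coeff_mk]
    have hqn : VG q 0 ((q : ℚ) ^ (m - n)) := by
      exact_mod_cast VG.nat (q := q) (q ^ (m - n))
    exact hqn.mul_int (VG_kerQ hβ m)
  · ext m
    rw [PowerSeries.coeff_rescale, PowerSeries.coeff_C_mul, PowerSeries.coeff_mk, ← mul_assoc]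
    rcases Nat.lt_or_ge m n with h | h
    · have h0 : PowerSeries.coeff m (kerQ A β) = 0 := by
        rw [coeff_kerQ]
        refine Finset.sum_eq_zero fun k hk => ?_
        split_ifs with hm
        · exact hn k hk (by omega)
        · rfl
      rw [h0, mul_zero, mul_zero]
    · rw [← pow_add, Nat.add_sub_cancel' h]

theorem gS_int (hK : K ≤ q) {i : ℕ} (hi : i < K) : SG A q 0 (gS K i) := by
  intro n _
  rw [coeff_gS]
  have hneg : VG q 0 ((-1 : ℚ) ^ n) := by
    exact_mod_cast VG.int (q := q) ((-1) ^ n)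
  exact (Hs_VG (by omega) _).add (hneg.mul_int (Hs_VG (by omega) _))

theorem yv_int (i : ℕ) : SG A q 0 (yv K i) := by
  intro n _
  unfold yv
  have h2 : (2 : PowerSeries ℚ) = PowerSeries.C (2 : ℚ) := (map_ofNat _ 2).symm
  rw [map_add, h2, PowerSeries.coeff_C_mul, PowerSeries.coeff_C, PowerSeries.coeff_X]
  refine VG.add ?_ ?_
  · split_ifs
    · exact_mod_cast VG.int (q := q) ((K : ℤ) - 1 - 2 * i)
    · exact VG.zero _
  · split_ifs
    · exact_mod_cast VG.nat (q := q) 2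
    · rw [mul_zero]; exact VG.zero _

omit hq in
/-- `kerQ(q ζ) = ∑ β_k ((q ζ) ^ 2) ^ k` -/
theorem rescale_kerQ (β : ℕ → ℚ) : PowerSeries.rescale (q : ℚ) (kerQ A β) =
    ∑ k ∈ Finset.Icc 1 (A - 1), PowerSeries.C (β k) *
      ((PowerSeries.C (q : ℚ) * PowerSeries.X) ^ 2) ^ k := by
  unfold kerQ
  rw [map_sum]
  refine Finset.sum_congr rfl fun k _ => ?_
  rw [map_mul, map_pow, PowerSeries.rescale_X, ← pow_mul]
  congr 1
  ext n
  rw [PowerSeries.coeff_rescale, PowerSeries.coeff_C]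
  split_ifs with h
  · rw [h, pow_zero, one_mul]
  · rw [mul_zero]

omit hq in
/-- the first coefficients of the scaled kernel -/
theorem coeff_ker (u : ℕ) (n : ℕ) (hn : n < 2 * A) :
    PowerSeries.coeff n (PowerSeries.rescale (q : ℚ) (kerP A L α u)) =
    PowerSeries.coeff n (-(∑ m ∈ Icc 1 u,
        (PowerSeries.C (m : ℚ) + PowerSeries.C (-(q : ℚ)) * PowerSeries.X)⁻¹ +
      ∑ m ∈ Icc 1 (L - u), (PowerSeries.C (m : ℚ) + PowerSeries.C (q : ℚ) * PowerSeries.X)⁻¹) +
      2 * PowerSeries.rescale (q : ℚ) (kerQ A α)) := by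
  have e1 : ∑ m ∈ Icc 1 u, PowerSeries.coeff n
      (PowerSeries.C (m : ℚ) + PowerSeries.C (-(q : ℚ)) * PowerSeries.X)⁻¹ =
      (q : ℚ) ^ n * Hs (n + 1) u := by
    rw [Hs, Finset.mul_sum]
    refine Finset.sum_congr rfl fun m hm => ?_
    have : (m : ℚ) ≠ 0 := by
      have := (Finset.mem_Icc.mp hm).1
      exact_mod_cast (by omega : m ≠ 0)
    rw [Z5.coeff_lin_inv this, neg_neg, inv_pow, one_div]
  have e2 : ∑ m ∈ Icc 1 (L - u), PowerSeries.coeff n
      (PowerSeries.C (m : ℚ) + PowerSeries.C (q : ℚ) * PowerSeries.X)⁻¹ =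
      (q : ℚ) ^ n * ((-1) ^ n * Hs (n + 1) (L - u)) := by
    rw [Hs, Finset.mul_sum, Finset.mul_sum]
    refine Finset.sum_congr rfl fun m hm => ?_
    have : (m : ℚ) ≠ 0 := by
      have := (Finset.mem_Icc.mp hm).1
      exact_mod_cast (by omega : m ≠ 0)
    rw [Z5.coeff_lin_inv this, inv_pow, one_div, neg_eq_neg_one_mul, mul_pow]
    ring
  have e3 : PowerSeries.rescale (q : ℚ) (2 * kerQ A α) =
      2 * PowerSeries.rescale (q : ℚ) (kerQ A α) := by
    rw [map_mul, map_ofNat]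
  unfold kerP
  rw [map_add, e3, map_add, map_add, PowerSeries.coeff_rescale, PowerSeries.coeff_mk, if_pos hn,
    map_neg, map_add, map_sum, map_sum, e1, e2]
  ring

end Pool.Agent.D4
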