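import Pool.Agent.D4.PPG

/-!
# `p`-adic part: polynomials in `u = q z` at the `K` poles of a class, modulo `q ^ (2 A)`

`u = uz q i = q z`, `z = zz i = ζ - i` at the pole `i`.  The set `RP A q K` is a ring; it contains
the inverses of `m + s u`, `m` a `q`-adic unit, `s` integral.
-/

open Finset Polynomial

namespace Pool.Agent.D4

open Pool.Agent.Z5 (hser Hs VG PG Cls yv gS zz sg2 cl SF OD uz)

variable {A q K : ℕ} [hq : Fact q.Prime]

omit hq in
private theorem pr_of_eq {k : ℤ} {f g : PowerSeries ℚ} (hf : SG A q k f) (h : f = g) :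
    SG A q k g := h ▸ hf

theorem zz_SG (i : ℕ) : SG A q 0 (zz i) := by
  unfold zz
  exact SG.X.sub (SG.C (VG.nat i))

theorem uz_SG (i : ℕ) : SG A q 1 (uz q i) := by
  have := SG.mul (SG.C (A := A) (q := q) (k := 1) VG.self_prime) (zz_SG (A := A) (q := q) i)
  exact this.mono (by norm_num)

theorem aeval_uz_SG {k : ℤ} {P : ℚ[X]} (hP : PG q k P) (i : ℕ) : SG A q k (aeval (uz q i) P) :=
  SG.aeval ((uz_SG i).mono (by norm_num)) P hP

/-- truncation of a polynomial in `u = q z` -/
theorem aeval_uz_trunc {k : ℤ} {P : ℚ[X]} (hP : PG q k P) (i m : ℕ) :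
    SG A q (m + k) (aeval (uz q i) P
      - ∑ a ∈ range m, PowerSeries.C (P.coeff a * (q : ℚ) ^ a) * zz i ^ a) := by
  have h1 : aeval (uz q i) P = ∑ a ∈ range (m + (P.natDegree + 1)),
      PowerSeries.C (P.coeff a) * uz q i ^ a := by
    rw [Polynomial.aeval_eq_sum_range' (n := m + (P.natDegree + 1)) (by omega)]
    refine Finset.sum_congr rfl fun a _ => ?_
    rw [PowerSeries.smul_eq_C_mul]
  have h2 : ∀ a, PowerSeries.C (P.coeff a) * uz q i ^ a =
      PowerSeries.C (P.coeff a * (q : ℚ) ^ a) * zz i ^ a := by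
    intro a
    unfold uz
    rw [mul_pow, map_mul, map_pow]
    ring
  rw [h1, Finset.sum_range_add]
  have h3 : ∑ a ∈ range m, PowerSeries.C (P.coeff a) * uz q i ^ a =
      ∑ a ∈ range m, PowerSeries.C (P.coeff a * (q : ℚ) ^ a) * zz i ^ a :=
    Finset.sum_congr rfl fun a _ => h2 a
  rw [h3, add_sub_cancel_left]
  refine SG.sum _ _ fun a _ => ?_
  have h4 := SG.mul (SG.C (A := A) (hP (m + a))) (SG.pow (uz_SG (A := A) (q := q) i) (m + a))
  exact h4.mono (by push_cast; omega)

omit hq in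
theorem RP.of_poly {P : ℚ[X]} (h : PG q 0 P) : RP A q K (fun i => aeval (uz q i) P) :=
  ⟨P, h, fun i => by simpa using SG.zero _⟩

omit hq in
theorem RP.const {x : ℚ} (h : VG q 0 x) : RP A q K (fun _ => PowerSeries.C x) :=
  ⟨C x, PG.C h, fun i => by
    have : (PowerSeries.C x : PowerSeries ℚ) - aeval (uz q i) (C x) = 0 := by
      rw [aeval_C]
      exact sub_self _
    rw [this]; exact SG.zero _⟩

theorem RP.add {F G : Fin K → PowerSeries ℚ} (hF : RP A q K F) (hG : RP A q K G) :
    RP A q K (fun i => F i + G i) := by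
  obtain ⟨P, hP, hE⟩ := hF
  obtain ⟨P', hP', hE'⟩ := hG
  refine ⟨P + P', PG.add hP hP', fun i => ?_⟩
  have := SG.add (hE i) (hE' i)
  rw [map_add]
  exact pr_of_eq this (by ring)

theorem RP.sum {ι : Type*} (s : Finset ι) (F : ι → Fin K → PowerSeries ℚ)
    (h : ∀ j ∈ s, RP A q K (F j)) : RP A q K (fun i => ∑ j ∈ s, F j i) := by
  classical
  induction s using Finset.induction_on with
  | empty => exact ⟨0, PG.zero _, fun i => by simpa using SG.zero _⟩
  | insert a s ha ih =>
    simp only [Finset.sum_insert ha]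
    exact RP.add (h a (Finset.mem_insert_self _ _))
      (ih fun j hj => h j (Finset.mem_insert_of_mem hj))

theorem RP.int {F : Fin K → PowerSeries ℚ} (hF : RP A q K F) (i : Fin K) : SG A q 0 (F i) := by
  obtain ⟨P, hP, hE⟩ := hF
  have := SG.add ((hE i).mono (l := 0) (by omega)) (aeval_uz_SG (A := A) hP (i : ℕ))
  exact pr_of_eq this (by ring)

theorem RP.mul {F G : Fin K → PowerSeries ℚ} (hF : RP A q K F) (hG : RP A q K G) :
    RP A q K (fun i => F i * G i) := by
  have hGi := fun i => RP.int hG i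
  obtain ⟨P, hP, hE⟩ := hF
  obtain ⟨P', hP', hE'⟩ := hG
  refine ⟨P * P', (PG.mul hP hP').mono (by norm_num), fun i => ?_⟩
  have h1 := SG.mul (hE i) (hGi i)
  have h2 := SG.mul (aeval_uz_SG (A := A) hP (i : ℕ)) (hE' i)
  have := SG.add (h1.mono (l := 2 * A) (by omega)) (h2.mono (l := 2 * A) (by omega))
  rw [map_mul]
  exact pr_of_eq this (by ring)

/-- inverses of linear functions of `u` -/
theorem RP.inv {m : ℚ} (hm : m ≠ 0) (h0 : VG q 0 m) (h1 : VG q 0 m⁻¹) {s : ℚ} (hs : VG q 0 s) :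
    RP A q K (fun i => (PowerSeries.C m + PowerSeries.C s * uz q i)⁻¹) := by
  have hcc : ∀ i : Fin K, PowerSeries.constantCoeff (PowerSeries.C m + PowerSeries.C s * uz q i) =
      m - s * q * (i : ℕ) := by
    intro i
    simp only [uz, zz, map_add, map_mul, map_sub, PowerSeries.constantCoeff_C,
      PowerSeries.constantCoeff_X]
    ring
  -- a unit
  have hval : padicValRat q m = 0 := by
    have a := h0.val hm
    have b := h1.val (inv_ne_zero hm)
    rw [padicValRat.inv] at b
    omega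
  have hne : ∀ i : Fin K, m - s * q * (i : ℕ) ≠ 0 ∧ VG q 0 (m - s * q * (i : ℕ))⁻¹ := by
    intro i
    have hx : VG q 1 (s * q * (i : ℕ)) := by
      have := (hs.mul (VG.self_prime (q := q))).mul (VG.nat (q := q) (i : ℕ))
      simpa using this
    by_cases hx0 : s * q * (i : ℕ) = 0
    · rw [hx0, sub_zero]; exact ⟨hm, h1⟩
    · have hxv := hx.val hx0
      have hne' : m - s * q * (i : ℕ) ≠ 0 := by
        intro h
        have : m = s * q * (i : ℕ) := by linarith
        rw [← this, hval] at hxv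
        omega
      refine ⟨hne', Or.inr ?_⟩
      have hadd : padicValRat q (m + -(s * q * (i : ℕ))) = padicValRat q m :=
        padicValRat.add_eq_of_lt (by rwa [← sub_eq_add_neg]) hm (neg_ne_zero.mpr hx0)
          (by rw [padicValRat.neg]; omega)
      rw [← sub_eq_add_neg] at hadd
      rw [padicValRat.inv, hadd, hval]
      rfl
  have hinv : ∀ i : Fin K, SG A q 0 (PowerSeries.C m + PowerSeries.C s * uz q i)⁻¹ := by
    intro i
    apply SG.inv
    · apply SG.add (SG.C h0)
      have := SG.mul (SG.C (A := A) hs) ((uz_SG (A := A) (q := q) i).mono (l := 0) (by norm_num))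
      simpa using this
    · rw [hcc]; exact (hne i).1
    · rw [hcc]; exact (hne i).2
  have ht : VG q 0 (-(s * m⁻¹)) := by
    have := (hs.mul h1).neg
    simpa using this
  refine ⟨C m⁻¹ * ∑ k ∈ range (2 * A), (C (-(s * m⁻¹)) * X) ^ k, ?_, fun i => ?_⟩
  · refine (PG.C h1).mul_int (PG.sum _ _ fun k _ => PG.pow_zero ?_ k)
    exact (PG.C ht).mul_int PG.X
  · set x : PowerSeries ℚ := PowerSeries.C (-(s * m⁻¹)) * uz q i with hx
    have haev : aeval (uz q i) (C m⁻¹ * ∑ k ∈ range (2 * A), (C (-(s * m⁻¹)) * X) ^ k) =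
        PowerSeries.C m⁻¹ * ∑ k ∈ range (2 * A), x ^ k := by
      rw [map_mul, map_sum, aeval_C]
      congr 1
      refine Finset.sum_congr rfl fun k _ => ?_
      rw [map_pow, map_mul, aeval_X, aeval_C]
      rfl
    have hm1 : (PowerSeries.C m : PowerSeries ℚ) * PowerSeries.C m⁻¹ = 1 := by
      rw [← map_mul, mul_inv_cancel₀ hm, map_one]
    have hlin : PowerSeries.C m + PowerSeries.C s * uz q i = PowerSeries.C m * (1 - x) := by
      rw [hx, map_neg, map_mul]
      linear_combination (-PowerSeries.C s * uz q i) * hm1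
    have hgeo : (1 - x) * ∑ k ∈ range (2 * A), x ^ k = 1 - x ^ (2 * A) :=
      mul_neg_geom_sum x (2 * A)
    have hcc0 : PowerSeries.constantCoeff (PowerSeries.C m + PowerSeries.C s * uz q i) ≠ 0 := by
      rw [hcc]; exact (hne i).1
    have hmi : (PowerSeries.C m + PowerSeries.C s * uz q i)⁻¹ *
        (PowerSeries.C m + PowerSeries.C s * uz q i) = 1 := PowerSeries.inv_mul_cancel _ hcc0
    rw [haev]
    have e : (PowerSeries.C m + PowerSeries.C s * uz q i)⁻¹ -
        PowerSeries.C m⁻¹ * ∑ k ∈ range (2 * A), x ^ k =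
        (PowerSeries.C m + PowerSeries.C s * uz q i)⁻¹ * x ^ (2 * A) := by
      set I := (PowerSeries.C m + PowerSeries.C s * uz q i)⁻¹ with hI
      rw [hlin] at hmi
      linear_combination (PowerSeries.C m⁻¹ * ∑ k ∈ range (2 * A), x ^ k) * hmi
        - I * hgeo - (I * (1 - x) * ∑ k ∈ range (2 * A), x ^ k) * hm1
    rw [e]
    have hxS : SG A q 1 x := by
      have := SG.mul (SG.C (A := A) ht) (uz_SG (A := A) (q := q) i)
      exact this.mono (by norm_num)
    exact (SG.mul (hinv i) (SG.pow hxS (2 * A))).mono (by push_cast; omega)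

theorem RP.lin_inv {m : ℕ} (h : ¬ q ∣ m) :
    RP A q K (fun i => (PowerSeries.C (m : ℚ) + PowerSeries.C (1 : ℚ) * uz q i)⁻¹) :=
  RP.inv (by
    intro h0
    have : m = 0 := by exact_mod_cast h0
    exact h (this ▸ dvd_zero q)) (VG.nat m) (Pool.Agent.Z5.VG_nat_inv h) VG.one

theorem RP.lin_inv' {m : ℕ} (h : ¬ q ∣ m) :
    RP A q K (fun i => (PowerSeries.C (m : ℚ) + PowerSeries.C (-1 : ℚ) * uz q i)⁻¹) :=
  RP.inv (by
    intro h0
    have : m = 0 := by exact_mod_cast h0
    exact h (this ▸ dvd_zero q)) (VG.nat m) (Pool.Agent.Z5.VG_nat_inv h) VG.one.neg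

end Pool.Agent.D4
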