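import Pool.Agent.D4.LatDet
import Pool.Agent.D4.PRing
import Pool.Agent.D4.PExp

/-!
# Classes with two poles: determinant of vectors in the lattice

`lat_det` with the generators `z ^ a`, `z ^ a σ`, both of weight `a`, `a < 2 A - 1`, threshold
`τ = 2 A - 1`: `(2 A - 1) * 4 A - 2 A (2 A - 1) = 2 A (2 A - 1)`, the exponent of `cmat_scale`.
-/

open Finset Polynomial

namespace Pool.Agent.D4

open Pool.Agent.Z5 (hser Hs VG PG Cls yv gS zz sg2 cl SF OD uz)

variable {A d q L r : ℕ} {α : ℕ → ℚ} {β : Fin d → ℕ → ℚ} [hq : Fact q.Prime]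

private theorem k2_of_eq {k : ℤ} {f g : PowerSeries ℚ} (hf : SG A q k f) (h : f = g) :
    SG A q k g := h ▸ hf

theorem sg2_SG (i : Fin 2) : SG A q 0 (sg2 (i : ℕ)) := by
  unfold sg2
  apply SG.neg
  have h0 : PowerSeries.constantCoeff
      (1 + PowerSeries.C (1 - 2 * ((i : ℕ) : ℚ)) * PowerSeries.X) = 1 := by
    simp
  apply SG.inv
  · apply SG.add SG.one
    have h : VG q 0 (1 - 2 * ((i : ℕ) : ℚ)) := by
      have := Pool.Agent.Z5.VG.int (q := q) (1 - 2 * ((i : ℕ) : ℤ))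
      push_cast at this
      exact this
    have := SG.mul (SG.C (A := A) h) (SG.X (q := q))
    simpa using this
  · rw [h0]; exact one_ne_zero
  · rw [h0, inv_one]; exact Pool.Agent.Z5.VG.one

/-- the generators -/
private noncomputable def k2g (A : ℕ) :
    Fin (2 * A - 1) ⊕ Fin (2 * A - 1) → Fin 2 × Fin (2 * A) → ℚ := fun g x =>
  PowerSeries.coeff (x.2 : ℕ) (Sum.elim (fun a : Fin (2 * A - 1) => zz x.1 ^ (a : ℕ))
    (fun a : Fin (2 * A - 1) => zz x.1 ^ (a : ℕ) * sg2 x.1) g)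

/-- the weights -/
private def k2w (A : ℕ) : Fin (2 * A - 1) ⊕ Fin (2 * A - 1) → ℤ :=
  Sum.elim (fun a : Fin (2 * A - 1) => ((a : ℕ) : ℤ)) (fun a : Fin (2 * A - 1) => ((a : ℕ) : ℤ))

theorem k2_zero (hA : 1 ≤ A) (c : Fin 2 × Fin (2 * A) → Col d)
    (h : ∀ y, Adm2 A q 0 (fun i => sc A q L α β r i (c y))) :
    VG q 0 (cmat A q L α β r 2 c).det := by
  have hsg : ∀ i : Fin 2, SG A q 0 (sg2 (i : ℕ)) := fun i => sg2_SG i
  have hA1 : ((2 * A - 1 : ℕ) : ℤ) = 2 * A - 1 := by omega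
  have key := lat_det (q := q) (Matrix.of fun (x y : Fin 2 × Fin (2 * A)) =>
      PowerSeries.coeff (x.2 : ℕ) (sc A q L α β r x.1 (c y))) (k2g A) (k2w A)
      (2 * (A : ℤ) - 1) ?_ ?_
  · rw [cmat_scale] at key
    have hq0 : (q : ℚ) ≠ 0 := by exact_mod_cast hq.out.ne_zero
    have h6 := (Pool.Agent.Z5.VG.zpow_self (q := q) (-((A * (2 * A - 1) * 2 : ℕ) : ℤ))).mul key
    have e5 : (q : ℚ) ^ (-((A * (2 * A - 1) * 2 : ℕ) : ℤ)) *
        ((q : ℚ) ^ (A * (2 * A - 1) * 2) * (cmat A q L α β r 2 c).det) =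
        (cmat A q L α β r 2 c).det := by
      rw [← mul_assoc, ← zpow_natCast, ← zpow_add₀ hq0, neg_add_cancel, zpow_zero, one_mul]
    rw [e5] at h6
    refine h6.mono ?_
    have s1 := sum_tri (2 * A - 1) (2 * (A : ℤ) - 1) (by omega)
    have e1 : ∑ g, max 0 (2 * (A : ℤ) - 1 - k2w A g) =
        (∑ a : Fin (2 * A - 1), max 0 (2 * (A : ℤ) - 1 - (a : ℕ))) +
        (∑ a : Fin (2 * A - 1), max 0 (2 * (A : ℤ) - 1 - (a : ℕ))) := by
      rw [Fintype.sum_sum_type]
      simp only [k2w, Sum.elim_inl, Sum.elim_inr]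
    have e2 : (Fintype.card (Fin 2 × Fin (2 * A)) : ℤ) = 4 * A := by
      rw [Fintype.card_prod, Fintype.card_fin, Fintype.card_fin]
      push_cast
      ring
    have e3 : ((A * (2 * A - 1) * 2 : ℕ) : ℤ) = A * (2 * A - 1) * 2 := by
      rw [Nat.cast_mul, Nat.cast_mul, hA1]
      rfl
    have e4 : (2 * (A : ℤ) - 1) * (2 * (A : ℤ) - 1 + 1) / 2 = A * (2 * A - 1) := by
      rw [show (2 * (A : ℤ) - 1) * (2 * (A : ℤ) - 1 + 1) = A * (2 * A - 1) * 2 by ring]
      exact Int.mul_ediv_cancel _ (by norm_num)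
    rw [e4] at s1
    rw [e1, e2, e3]
    nlinarith
  · rintro (a | a) y
    · have := SG.pow_zero (zz_SG (A := A) (q := q) (y.1 : ℕ)) (a : ℕ)
      exact this _ y.2.2
    · have := (SG.pow_zero (zz_SG (A := A) (q := q) (y.1 : ℕ)) (a : ℕ)).mul_int (hsg y.1)
      exact this _ y.2.2
  · intro y
    obtain ⟨P, Q, hP, hQ, hE⟩ := h y
    refine ⟨Sum.elim (fun a : Fin (2 * A - 1) => P.coeff a * (q : ℚ) ^ (a : ℕ))
      (fun a : Fin (2 * A - 1) => Q.coeff a * (q : ℚ) ^ (a : ℕ)), ?_, ?_⟩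
    · rintro (a | a)
      · exact ((hP a).mul (Pool.Agent.Z5.VG.pow_self (a : ℕ))).mono
          (by simp only [k2w, Sum.elim_inl]; omega)
      · exact ((hQ a).mul (Pool.Agent.Z5.VG.pow_self (a : ℕ))).mono
          (by simp only [k2w, Sum.elim_inr]; omega)
    · intro z
      have t1 := aeval_uz_trunc (A := A) hP (z.1 : ℕ) (2 * A - 1)
      have t2 := (aeval_uz_trunc (A := A) hQ (z.1 : ℕ) (2 * A - 1)).mul_int (hsg z.1)
      have t := (hE z.1).add
        ((t1.mono (l := 2 * (A : ℤ) - 1) (by omega)).add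
          (t2.mono (l := 2 * (A : ℤ) - 1) (by omega)))
      have t' := k2_of_eq t (g := sc A q L α β r z.1 (c y) -
        ((∑ a ∈ range (2 * A - 1), PowerSeries.C (P.coeff a * (q : ℚ) ^ a) * zz z.1 ^ a) +
          (∑ a ∈ range (2 * A - 1), PowerSeries.C (Q.coeff a * (q : ℚ) ^ a) * zz z.1 ^ a) *
            sg2 z.1))
        (by ring)
      have t2' := t' _ z.2.2
      rw [map_sub, map_add] at t2'
      have e1 : ∑ g, (Sum.elim (fun a : Fin (2 * A - 1) => P.coeff a * (q : ℚ) ^ (a : ℕ))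
          (fun a : Fin (2 * A - 1) => Q.coeff a * (q : ℚ) ^ (a : ℕ)) g) * k2g A g z =
          PowerSeries.coeff (z.2 : ℕ)
            (∑ a ∈ range (2 * A - 1), PowerSeries.C (P.coeff a * (q : ℚ) ^ a) * zz z.1 ^ a) +
          PowerSeries.coeff (z.2 : ℕ)
            ((∑ a ∈ range (2 * A - 1), PowerSeries.C (Q.coeff a * (q : ℚ) ^ a) * zz z.1 ^ a) *
              sg2 z.1) := by
        rw [Fintype.sum_sum_type]
        simp only [k2g, Sum.elim_inl, Sum.elim_inr]
        congr 1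
        · rw [map_sum, Finset.sum_range]
          exact Finset.sum_congr rfl fun a _ => by rw [PowerSeries.coeff_C_mul]
        · rw [Finset.sum_mul, map_sum, Finset.sum_range]
          exact Finset.sum_congr rfl fun a _ => by
            rw [mul_assoc (PowerSeries.C _), PowerSeries.coeff_C_mul]
      rw [e1]
      exact t2'

end Pool.Agent.D4
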