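import Pool.Agent.D4.PRing
import Pool.Agent.D4.PExp
import Pool.Agent.D4.PK2
import Pool.Agent.Z9.PK2R

/-!
# Classes with two poles: the columns lie in the lattice

Adaptation of `Pool/Agent/Z9/PK2R.lean` (the ring `R` is `RP A q 2` of `Pool/Agent/D4/PRing.lean`,
`rescale_kerQ` and `coeff_ker` are in `Pool/Agent/D4/PExp.lean`).
-/

open Finset Polynomial

namespace Pool.Agent.D4

open Pool.Agent.Z5 (hser Hs VG PG Cls yv gS zz sg2 cl SF OD uz)

variable {A d q L r : ℕ} {α : ℕ → ℚ} {β : Fin d → ℕ → ℚ} [hq : Fact q.Prime]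

namespace K2

open Pool.Agent.Z5 (Up aeval_Up eps_sq U_sg_sq Up_PG chi_lin E_eq Eh GG2 VG_nat_inv)
open Pool.Agent.Z9.K2 (sums_eq)

theorem RP.Eh (hq5 : 5 ≤ q) : RP A q 2 (Z5.Eh q) := by
  have h2 : VG q 0 (1 / 2 : ℚ) := by
    have : ¬ q ∣ 2 := fun h => by have := Nat.le_of_dvd (by norm_num) h; omega
    have := VG_nat_inv (q := q) this
    simpa using this
  unfold Z5.Eh
  refine RP.mul (RP.const h2) (RP.sum _ _ fun m hm => ?_)
  rw [Finset.mem_Icc] at hm
  refine RP.mul (RP.lin_inv ?_) (RP.lin_inv ?_)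
  · exact fun h => by have := Nat.le_of_dvd (by omega) h; omega
  · exact fun h => by have := Nat.le_of_dvd (by omega) h; omega

/-! ### the module -/

omit hq in
theorem Adm.mono {k l : ℤ} {F : Fin 2 → PowerSeries ℚ} (h : Adm2 A q k F) (hl : l ≤ k) :
    Adm2 A q l F := by
  obtain ⟨P, Q, hA, hB, hE⟩ := h
  exact ⟨P, Q, hA, hB.mono hl, hE⟩

theorem Adm.add {k : ℤ} {F G : Fin 2 → PowerSeries ℚ} (hF : Adm2 A q k F) (hG : Adm2 A q k G) :
    Adm2 A q k (fun i => F i + G i) := by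
  obtain ⟨P, Q, hA, hB, hE⟩ := hF
  obtain ⟨P', Q', hA', hB', hE'⟩ := hG
  refine ⟨P + P', Q + Q', PG.add hA hA', PG.add hB hB', fun i => ?_⟩
  have := SG.add (hE i) (hE' i)
  rw [map_add, map_add]
  convert this using 1
  ring

theorem Adm.neg {k : ℤ} {F : Fin 2 → PowerSeries ℚ} (hF : Adm2 A q k F) :
    Adm2 A q k (fun i => -F i) := by
  obtain ⟨P, Q, hA, hB, hE⟩ := hF
  refine ⟨-P, -Q, PG.neg hA, PG.neg hB, fun i => ?_⟩
  have := SG.neg (hE i)
  rw [map_neg, map_neg]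
  convert this using 1
  ring

theorem Adm.sub {k : ℤ} {F G : Fin 2 → PowerSeries ℚ} (hF : Adm2 A q k F) (hG : Adm2 A q k G) :
    Adm2 A q k (fun i => F i - G i) := by
  have := Adm.add hF (Adm.neg hG)
  simpa only [sub_eq_add_neg] using this

omit hq in
theorem Adm.of_SG {k : ℤ} {F : Fin 2 → PowerSeries ℚ} (h : ∀ i, SG A q (2 * A - 1) (F i)) :
    Adm2 A q k F :=
  ⟨0, 0, PG.zero _, PG.zero _, fun i => by simpa using h i⟩

omit hq in
theorem Adm.of_R {k : ℤ} {F : Fin 2 → PowerSeries ℚ} (h : RP A q 2 F) : Adm2 A q k F := by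
  obtain ⟨P, hA, hE⟩ := h
  refine ⟨P, 0, hA, PG.zero _, fun i => ?_⟩
  have := (hE i).mono (l := 2 * A - 1) (by norm_num)
  have e : F i - (aeval (uz q i) P +
      aeval (uz q i) (0 : ℚ[X]) * sg2 i) = F i - aeval (uz q i) P := by
    rw [map_zero, zero_mul, add_zero]
  rw [e]; exact this

omit hq in
theorem Adm.of_sg {k : ℤ} {Q : ℚ[X]} (h : PG q k Q) :
    Adm2 A q k (fun i => aeval (uz q i) Q * sg2 i) :=
  ⟨0, Q, PG.zero _, h, fun i => by
    have : (aeval (uz q i) Q * sg2 i) - (aeval (uz q i) (0 : ℚ[X]) +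
        aeval (uz q i) Q * sg2 i) = 0 := by
      rw [map_zero, zero_add, sub_self]
    show SG A q (2 * A - 1) ((aeval (uz q i) Q * sg2 i) - (aeval (uz q i) (0 : ℚ[X]) +
        aeval (uz q i) Q * sg2 i))
    rw [this]; exact SG.zero _⟩

theorem Adm.SG {k : ℤ} (hk : -1 ≤ k) {F : Fin 2 → PowerSeries ℚ} (h : Adm2 A q k F) (i : Fin 2) :
    SG A q (-1) (F i) := by
  obtain ⟨P, Q, hA, hB, hE⟩ := h
  have h1 := aeval_uz_SG (A := A) hA (i : ℕ)
  have h2 := SG.mul (aeval_uz_SG (A := A) hB (i : ℕ)) (sg2_SG (A := A) (q := q) i)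
  have h3 := SG.add (SG.add ((hE i).mono (l := -1) (by omega)) (h1.mono (l := -1) (by omega)))
    (h2.mono (l := -1) (by omega))
  convert h3 using 1
  simp only [uz]
  ring

/-- `Adm2` is stable under `R` -/
theorem Adm.mul {k : ℤ} (hk : -1 ≤ k) {F G : Fin 2 → PowerSeries ℚ} (hF : RP A q 2 F)
    (hG : Adm2 A q k G) : Adm2 A q k (fun i => F i * G i) := by
  have hGi := fun i => Adm.SG hk hG i
  obtain ⟨P, hA, hE⟩ := hF
  obtain ⟨P', Q', hA', hB', hE'⟩ := hG
  refine ⟨P * P', P * Q', hA.mul_int hA', hA.int_mul hB', fun i => ?_⟩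
  have h1 := SG.mul (hE i) (hGi i)
  have h2 := SG.mul (aeval_uz_SG (A := A) hA (i : ℕ)) (hE' i)
  have := SG.add (h1.mono (l := 2 * A - 1) (by omega)) (h2.mono (l := 2 * A - 1) (by omega))
  rw [map_mul, map_mul]
  convert this using 1
  simp only [uz]
  ring

/-- multiplication by a polynomial in `u` of valuation `a ≥ 0` -/
theorem Adm.poly_mul {a k : ℤ} (ha : 0 ≤ a) {P : ℚ[X]} (hA : PG q a P)
    {G : Fin 2 → PowerSeries ℚ} (hG : Adm2 A q k G) :
    Adm2 A q (a + k) (fun i => aeval (uz q i) P * G i) := by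
  obtain ⟨P', Q', hA', hB', hE'⟩ := hG
  refine ⟨P * P', P * Q', (hA.mul_int hA').mono ha, hA.mul hB', fun i => ?_⟩
  have h2 := SG.mul (aeval_uz_SG (A := A) hA (i : ℕ)) (hE' i)
  have := h2.mono (l := 2 * A - 1) (by omega)
  rw [map_mul, map_mul]
  convert this using 1
  simp only [uz]
  ring

/-! ### the ring generated by `ε ^ 2` -/

/-- `P(u) + Q(u) U σ`, `U = u (u + q)` -/
def S (q : ℕ) (F : Fin 2 → PowerSeries ℚ) : Prop :=
  ∃ P Q : ℚ[X], PG q 0 P ∧ PG q 0 Q ∧ ∀ i : Fin 2, F i =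
    aeval (uz q i) P + aeval (uz q i) Q * aeval (uz q i) (Up q) * sg2 (i : ℕ)

omit hq in
theorem S.const {x : ℚ} (h : VG q 0 x) : S q (fun _ => PowerSeries.C x) :=
  ⟨C x, 0, PG.C h, PG.zero _, fun i => by
    rw [aeval_C, map_zero, zero_mul, zero_mul, add_zero]; rfl⟩

theorem S.add {F G : Fin 2 → PowerSeries ℚ} (hF : S q F) (hG : S q G) :
    S q (fun i => F i + G i) := by
  obtain ⟨P, Q, hA, hB, hE⟩ := hF
  obtain ⟨P', Q', hA', hB', hE'⟩ := hG
  refine ⟨P + P', Q + Q', PG.add hA hA', PG.add hB hB', fun i => ?_⟩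
  show F i + G i = _
  rw [hE i, hE' i, map_add, map_add]
  ring

theorem S.mul {F G : Fin 2 → PowerSeries ℚ} (hF : S q F) (hG : S q G) :
    S q (fun i => F i * G i) := by
  obtain ⟨P, Q, hA, hB, hE⟩ := hF
  obtain ⟨P', Q', hA', hB', hE'⟩ := hG
  have hq2 : VG q 0 ((q : ℚ) ^ 2) := (VG.nat (q := q) q).pow_zero 2
  have hBB : PG q 0 (C ((q : ℚ) ^ 2) * (Q * Q')) := (PG.C hq2).mul_int (hB.mul_int hB')
  refine ⟨P * P' + C ((q : ℚ) ^ 2) * (Q * Q') * Up q,
    P * Q' + P' * Q + C ((q : ℚ) ^ 2) * (Q * Q'), PG.add (hA.mul_int hA') (hBB.mul_int Up_PG),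
    PG.add (PG.add (hA.mul_int hB') (hA'.mul_int hB)) hBB, fun i => ?_⟩
  have h := U_sg_sq (q := q) i
  have e : aeval (uz q (i : ℕ)) (C ((q : ℚ) ^ 2) : ℚ[X]) = PowerSeries.C (q : ℚ) ^ 2 := by
    rw [aeval_C, ← map_pow]; rfl
  show F i * G i = _
  rw [hE i, hE' i]
  simp only [map_add, map_mul, e]
  linear_combination (aeval (uz q (i : ℕ)) Q * aeval (uz q (i : ℕ)) Q' *
    aeval (uz q (i : ℕ)) (Up q)) * h

theorem S.one : S q (fun _ => 1) := by
  have := S.const (q := q) VG.one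
  simpa using this

theorem S.pow {F : Fin 2 → PowerSeries ℚ} (hF : S q F) (n : ℕ) : S q (fun i => F i ^ n) := by
  induction n with
  | zero => simpa using S.one
  | succ n ih => simp only [pow_succ]; exact S.mul ih hF

theorem S.sum {ι : Type*} (s : Finset ι) (F : ι → Fin 2 → PowerSeries ℚ)
    (h : ∀ j ∈ s, S q (F j)) : S q (fun i => ∑ j ∈ s, F j i) := by
  classical
  induction s using Finset.induction_on with
  | empty => exact ⟨0, 0, PG.zero _, PG.zero _, fun i => by simp⟩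
  | insert a s ha ih =>
    simp only [Finset.sum_insert ha]
    exact S.add (h a (Finset.mem_insert_self _ _))
      (ih fun j hj => h j (Finset.mem_insert_of_mem hj))

theorem S.eps : S q (fun _ => (PowerSeries.C (q : ℚ) * PowerSeries.X) ^ 2) :=
  ⟨Up q, 1, Up_PG, PG.one, fun i => by rw [eps_sq i, map_one, one_mul]⟩

theorem S.adm {F : Fin 2 → PowerSeries ℚ} (h : S q F) : Adm2 A q 0 F := by
  obtain ⟨P, Q, hA, hB, hE⟩ := h
  refine ⟨P, Q * Up q, hA, hB.mul_int Up_PG, fun i => ?_⟩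
  have : F i - (aeval (uz q i) P +
      aeval (uz q i) (Q * Up q) * sg2 i) = 0 := by
    rw [hE i, map_mul]
    exact sub_self _
  rw [this]; exact SG.zero _

theorem S.kerQ {β : ℕ → ℚ} (hβ : VI A q β) : S q (fun _ => PowerSeries.rescale (q : ℚ) (kerQ A β)) := by
  simp only [rescale_kerQ]
  exact S.sum _ _ fun k hk => S.mul (S.const (hβ k hk)) (S.pow S.eps k)

/-! ### the kernel -/

/-- the scaled kernel lies in the lattice -/
theorem adm_ker (hq5 : 5 ≤ q) (hc : Cls q L r 2) (hα : VI A q α) :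
    Adm2 A q (-1) (fun i => PowerSeries.rescale (q : ℚ) (kerP A L α (r + q * (i : ℕ)))) := by
  have hLL := hc.hL
  have hUU := hc.hU
  have hrr := hc.hr
  obtain ⟨r', hr'⟩ : ∃ r', L = r + q + r' := ⟨L - (r + q), by omega⟩
  have hr'q : r' < q := by omega
  have h1 : Adm2 A q (-1) (fun i => ∑ m ∈ Icc 1 r,
      (PowerSeries.C (m : ℚ) + PowerSeries.C (-1 : ℚ) * uz q (i : ℕ))⁻¹) := by
    refine Adm.of_R (RP.sum _ _ fun m hm => RP.lin_inv' ?_)
    rw [Finset.mem_Icc] at hm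
    exact fun h => by have := Nat.le_of_dvd (by omega) h; omega
  have h2 : Adm2 A q (-1) (fun i => ∑ m ∈ Icc 1 r',
      (PowerSeries.C ((q + m : ℕ) : ℚ) + PowerSeries.C (1 : ℚ) * uz q (i : ℕ))⁻¹) := by
    refine Adm.of_R (RP.sum _ _ fun m hm => RP.lin_inv ?_)
    rw [Finset.mem_Icc] at hm
    exact fun h => by
      have h' := (Nat.dvd_add_right (dvd_refl q)).mp h
      have := Nat.le_of_dvd (by omega) h'; omega
  have hqi : VG q (-1) ((q : ℚ)⁻¹) := by
    have := VG.zpow_self (q := q) (-1)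
    simpa using this
  have h3 : Adm2 A q (-1) (fun i => PowerSeries.C (q : ℚ)⁻¹ * sg2 (i : ℕ)) := by
    have := Adm.of_sg (A := A) (q := q) (k := -1) (PG.C hqi)
    convert this using 2 with i
    congr 1
    rw [aeval_C]; rfl
  have h4 : Adm2 A q (-1) (fun i => PowerSeries.C (1 - 2 * ((i : ℕ) : ℚ)) *
      ∑ m ∈ Icc 1 (q - 1), (PowerSeries.C (m : ℚ) + PowerSeries.C (1 : ℚ) * uz q (i : ℕ))⁻¹) := by
    have hB : PG q (-1) (C (-2 * (q : ℚ)⁻¹) * Up q) := by
      have h5 : VG q (-1) (-2 * (q : ℚ)⁻¹) := by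
        have := (VG.int (q := q) (-2)).mul hqi
        simpa using this
      exact (PG.C h5).mul_int Up_PG
    have h6 := Adm.add (A := A) (Adm.of_R (RP.const (VG.nat (q := q) q))) (Adm.of_sg hB)
    have h7 := Adm.mul (by norm_num) (RP.Eh hq5) h6
    convert h7 using 2 with i
    rw [E_eq, ← mul_assoc, chi_lin]
    ring
  have hG : Adm2 A q (-1) (GG2 q r r') := by
    have := Adm.add (Adm.sub (Adm.add h1 h2) h3) h4
    exact this
  have hQ : Adm2 A q (-1) (fun _ => 2 * PowerSeries.rescale (q : ℚ) (kerQ A α)) := by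
    have h2' : S q (fun _ => (2 : PowerSeries ℚ)) := by
      have := S.const (q := q) (x := 2) (by simpa using VG.nat (q := q) 2)
      simpa only [map_ofNat] using this
    exact Adm.mono (S.adm (S.mul h2' (S.kerQ hα))) (by norm_num)
  have h8 := Adm.add (Adm.neg hG) hQ
  have h9 := Adm.add h8 (Adm.of_SG (A := A) (q := q) (k := -1) (F := fun i =>
    PowerSeries.rescale (q : ℚ) (kerP A L α (r + q * (i : ℕ))) -
      (-GG2 q r r' i + 2 * PowerSeries.rescale (q : ℚ) (kerQ A α)))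
    (fun i n hn => by
      rw [map_sub, coeff_ker _ n hn, sums_eq hr' i, sub_self]
      exact VG.zero _))
  convert h9 using 2 with i
  ring

theorem Adm.sum {ι : Type*} (s : Finset ι) {k : ℤ} (F : ι → Fin 2 → PowerSeries ℚ)
    (h : ∀ j ∈ s, Adm2 A q k (F j)) : Adm2 A q k (fun i => ∑ j ∈ s, F j i) := by
  classical
  induction s using Finset.induction_on with
  | empty => exact ⟨0, 0, PG.zero _, PG.zero _, fun i => by simpa using SG.zero _⟩
  | insert a s ha ih =>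
    simp only [Finset.sum_insert ha]
    exact Adm.add (h a (Finset.mem_insert_self _ _))
      (ih fun j hj => h j (Finset.mem_insert_of_mem hj))

/-- the column, `P`-part of valuation `a ≥ 0` -/
theorem adm_col {a : ℤ} (ha : 0 ≤ a) (hq5 : 5 ≤ q) (hc : Cls q L r 2) (hα : VI A q α)
    (hβ : ∀ j, VI A q (β j)) (c : Col d) (h1 : PG q 0 c.1) (h2 : PG q a c.2.1)
    (h3 : ∀ j, PG q 0 (c.2.2 j))
    (ha' : a + -1 ≤ 0) : Adm2 A q (a + -1) (fun i => sc A q L α β r (i : ℕ) c) := by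
  obtain ⟨P, hP, eP⟩ := Z5.hser_zz (q := q) (L := L) (r := r) c.1 h1
  obtain ⟨Q, hQ, eQ⟩ := Z5.hser_zz (q := q) (L := L) (r := r) c.2.1 h2
  choose T hT eT using fun j => Z5.hser_zz (q := q) (L := L) (r := r) (c.2.2 j) (h3 j)
  have a1 : Adm2 A q (a + -1) (fun i => aeval (uz q (i : ℕ)) P) := Adm.of_R (RP.of_poly hP)
  have a2 := Adm.poly_mul ha hQ (adm_ker hq5 hc hα)
  have a3 : Adm2 A q (a + -1) (fun i => ∑ j, aeval (uz q (i : ℕ)) (T j) *
      PowerSeries.rescale (q : ℚ) (kerQ A (β j))) :=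
    Adm.sum _ _ fun j _ =>
      Adm.mono (Adm.poly_mul le_rfl (hT j) (S.adm (S.kerQ (hβ j)))) (l := a + -1) (by omega)
  have := Adm.add (Adm.add a1 a2) a3
  convert this using 2 with i
  simp only [sc, tvec, map_add, map_mul, map_sum, eP, eQ, eT, uz]
  rw [mul_comm (PowerSeries.rescale (q : ℚ) (kerP A L α (r + q * (i : ℕ))))]
  congr 1
  exact Finset.sum_congr rfl fun j _ => mul_comm _ _

end K2

theorem k2_reg1 (h5 : 5 ≤ q) (hc : Cls q L r 2) (hα : VI A q α) (hβ : ∀ j, VI A q (β j))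
    (c : Col d) (h1 : PG q 0 c.1) (h2 : PG q 1 c.2.1) (h3 : ∀ j, PG q 0 (c.2.2 j)) :
    Adm2 A q 0 (fun i => sc A q L α β r i c) := by
  have := K2.adm_col (a := 1) (by norm_num) h5 hc hα hβ c h1 h2 h3 (by norm_num)
  simpa using this

end Pool.Agent.D4
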