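import Pool.Agent.D4.LatDet
import Pool.Agent.D4.PRing
import Pool.Agent.D4.PExp

/-!
# Classes with three poles: determinant of vectors in the lattice

`lat_det` with the generators `z ^ a` (weight `a`), `z ^ a gS` (weight `x + a`), `z ^ a h3` (weight
`x + 2 + a`), `a < τ`, threshold `τ`; then `cmat_scale`.
-/

open Finset Polynomial

namespace Pool.Agent.D4

open Pool.Agent.Z5 (hser Hs VG PG Cls yv gS zz sg2 cl SF OD uz)

variable {A d q L r : ℕ} {α : ℕ → ℚ} {β : Fin d → ℕ → ℚ} [hq : Fact q.Prime]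

private theorem k3_of_eq {k : ℤ} {f g : PowerSeries ℚ} (hf : SG A q k f) (h : f = g) :
    SG A q k g := h ▸ hf

private theorem k3_h3 (i : ℕ) : SG A q 0 (h3 i) := by
  unfold h3
  exact (SG.pow_zero SG.X 2).sub (SG.pow_zero ((zz_SG i).add SG.one) 2)

/-- the generators -/
private noncomputable def k3g (A τ : ℕ) :
    Fin τ ⊕ Fin τ ⊕ Fin τ → Fin 3 × Fin (2 * A) → ℚ := fun g x =>
  PowerSeries.coeff (x.2 : ℕ) (Sum.elim (fun a : Fin τ => zz x.1 ^ (a : ℕ))
    (Sum.elim (fun a : Fin τ => zz x.1 ^ (a : ℕ) * gS 3 x.1)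
      (fun a : Fin τ => zz x.1 ^ (a : ℕ) * h3 x.1)) g)

/-- the weights -/
private def k3w (x τ : ℕ) : Fin τ ⊕ Fin τ ⊕ Fin τ → ℤ :=
  Sum.elim (fun a : Fin τ => ((a : ℕ) : ℤ))
    (Sum.elim (fun a : Fin τ => (x : ℤ) + (a : ℕ)) (fun a : Fin τ => (x : ℤ) + 2 + (a : ℕ)))

theorem k3_det (h5 : 5 ≤ q) (x τ : ℕ) (hx : x + 2 ≤ τ) (hτ : τ ≤ 2 * A + x)
    (c : Fin 3 × Fin (2 * A) → Col d) (h : ∀ y, Adm3 A q x (fun i => sc A q L α β r i (c y))) :
    VG q (6 * A * (τ : ℤ) - τ * (τ + 1) / 2 - (τ - x) * (τ - x + 1) / 2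
      - (τ - x - 2) * (τ - x - 1) / 2 - ((3 * (A * (2 * A - 1)) : ℕ) : ℤ))
      (cmat A q L α β r 3 c).det := by
  have hgS : ∀ i : Fin 3, SG A q 0 (gS 3 (i : ℕ)) := fun i => gS_int (by omega) i.2
  have hh3 : ∀ i : Fin 3, SG A q 0 (h3 (i : ℕ)) := fun i => k3_h3 _
  have key := lat_det (q := q) (Matrix.of fun (x y : Fin 3 × Fin (2 * A)) =>
      PowerSeries.coeff (x.2 : ℕ) (sc A q L α β r x.1 (c y))) (k3g A τ) (k3w x τ) τ ?_ ?_
  · rw [cmat_scale] at key
    have hq0 : (q : ℚ) ≠ 0 := by exact_mod_cast hq.out.ne_zero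
    have h6 := (Pool.Agent.Z5.VG.zpow_self (q := q) (-((A * (2 * A - 1) * 3 : ℕ) : ℤ))).mul key
    have e5 : (q : ℚ) ^ (-((A * (2 * A - 1) * 3 : ℕ) : ℤ)) *
        ((q : ℚ) ^ (A * (2 * A - 1) * 3) * (cmat A q L α β r 3 c).det) =
        (cmat A q L α β r 3 c).det := by
      rw [← mul_assoc, ← zpow_natCast, ← zpow_add₀ hq0, neg_add_cancel, zpow_zero, one_mul]
    rw [e5] at h6
    refine h6.mono ?_
    have s1 := sum_tri τ (τ : ℤ) (by omega)
    have s2 := sum_tri τ ((τ : ℤ) - x) (by omega)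
    have s3 := sum_tri τ ((τ : ℤ) - x - 2) (by omega)
    have e1 : ∑ g, max 0 ((τ : ℤ) - k3w x τ g) = (∑ a : Fin τ, max 0 ((τ : ℤ) - (a : ℕ))) +
        ((∑ a : Fin τ, max 0 ((τ : ℤ) - x - (a : ℕ))) +
          ∑ a : Fin τ, max 0 ((τ : ℤ) - x - 2 - (a : ℕ))) := by
      rw [Fintype.sum_sum_type, Fintype.sum_sum_type]
      simp only [k3w, Sum.elim_inl, Sum.elim_inr]
      congr 2
      · exact Finset.sum_congr rfl fun a _ => by rw [sub_sub]
      · exact Finset.sum_congr rfl fun a _ => by rw [sub_sub, sub_sub, add_assoc]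
    have e2 : (Fintype.card (Fin 3 × Fin (2 * A)) : ℤ) = 6 * A := by
      rw [Fintype.card_prod, Fintype.card_fin, Fintype.card_fin]
      push_cast
      ring
    have e3 : ((A * (2 * A - 1) * 3 : ℕ) : ℤ) = ((3 * (A * (2 * A - 1)) : ℕ) : ℤ) := by
      rw [mul_comm]
    have e4 : ((τ : ℤ) - x - 2 + 1) = (τ : ℤ) - x - 1 := by ring
    have e6 : (6 * A * (τ : ℤ)) = (τ : ℤ) * (6 * A) := by ring
    rw [e4] at s3
    rw [e1, e2, e3, e6]
    linarith
  · rintro (a | a | a) y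
    · have := SG.pow_zero (zz_SG (A := A) (q := q) (y.1 : ℕ)) (a : ℕ)
      exact this _ y.2.2
    · have := (SG.pow_zero (zz_SG (A := A) (q := q) (y.1 : ℕ)) (a : ℕ)).mul_int (hgS y.1)
      exact this _ y.2.2
    · have := (SG.pow_zero (zz_SG (A := A) (q := q) (y.1 : ℕ)) (a : ℕ)).mul_int (hh3 y.1)
      exact this _ y.2.2
  · intro y
    obtain ⟨P, Q, T, hP, hQ, hT, hE⟩ := h y
    refine ⟨Sum.elim (fun a : Fin τ => P.coeff a * (q : ℚ) ^ (a : ℕ))
      (Sum.elim (fun a : Fin τ => Q.coeff a * (q : ℚ) ^ (a : ℕ))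
        (fun a : Fin τ => T.coeff a * (q : ℚ) ^ (a : ℕ))), ?_, ?_⟩
    · rintro (a | a | a)
      · exact ((hP a).mul (Pool.Agent.Z5.VG.pow_self (a : ℕ))).mono
          (by simp only [k3w, Sum.elim_inl]; omega)
      · exact ((hQ a).mul (Pool.Agent.Z5.VG.pow_self (a : ℕ))).mono
          (by simp only [k3w, Sum.elim_inl, Sum.elim_inr]; omega)
      · exact ((hT a).mul (Pool.Agent.Z5.VG.pow_self (a : ℕ))).mono
          (by simp only [k3w, Sum.elim_inr]; omega)
    · intro z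
      have t1 := aeval_uz_trunc (A := A) hP (z.1 : ℕ) τ
      have t2 := (aeval_uz_trunc (A := A) hQ (z.1 : ℕ) τ).mul_int (hgS z.1)
      have t3 := (aeval_uz_trunc (A := A) hT (z.1 : ℕ) τ).mul_int (hh3 z.1)
      have t := (((hE z.1).mono (l := (τ : ℤ)) (by omega)).add
        ((t1.mono (l := (τ : ℤ)) (by omega)).add ((t2.mono (l := (τ : ℤ)) (by omega)).add
          (t3.mono (l := (τ : ℤ)) (by omega)))))
      have t' := k3_of_eq t (g := sc A q L α β r z.1 (c y) -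
        ((∑ a ∈ range τ, PowerSeries.C (P.coeff a * (q : ℚ) ^ a) * zz z.1 ^ a) +
          ((∑ a ∈ range τ, PowerSeries.C (Q.coeff a * (q : ℚ) ^ a) * zz z.1 ^ a) * gS 3 z.1 +
            (∑ a ∈ range τ, PowerSeries.C (T.coeff a * (q : ℚ) ^ a) * zz z.1 ^ a) * h3 z.1)))
        (by ring)
      have t2' := t' _ z.2.2
      rw [map_sub, map_add, map_add] at t2'
      have e1 : ∑ g, (Sum.elim (fun a : Fin τ => P.coeff a * (q : ℚ) ^ (a : ℕ))
          (Sum.elim (fun a : Fin τ => Q.coeff a * (q : ℚ) ^ (a : ℕ))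
            (fun a : Fin τ => T.coeff a * (q : ℚ) ^ (a : ℕ))) g) * k3g A τ g z =
          PowerSeries.coeff (z.2 : ℕ)
            (∑ a ∈ range τ, PowerSeries.C (P.coeff a * (q : ℚ) ^ a) * zz z.1 ^ a) +
          (PowerSeries.coeff (z.2 : ℕ)
            ((∑ a ∈ range τ, PowerSeries.C (Q.coeff a * (q : ℚ) ^ a) * zz z.1 ^ a) * gS 3 z.1) +
           PowerSeries.coeff (z.2 : ℕ)
            ((∑ a ∈ range τ, PowerSeries.C (T.coeff a * (q : ℚ) ^ a) * zz z.1 ^ a) * h3 z.1)) := by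
        rw [Fintype.sum_sum_type, Fintype.sum_sum_type]
        simp only [k3g, Sum.elim_inl, Sum.elim_inr]
        congr 1
        · rw [map_sum, Finset.sum_range]
          exact Finset.sum_congr rfl fun a _ => by rw [PowerSeries.coeff_C_mul]
        · congr 1
          · rw [Finset.sum_mul, map_sum, Finset.sum_range]
            exact Finset.sum_congr rfl fun a _ => by
              rw [mul_assoc (PowerSeries.C _), PowerSeries.coeff_C_mul]
          · rw [Finset.sum_mul, map_sum, Finset.sum_range]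
            exact Finset.sum_congr rfl fun a _ => by
              rw [mul_assoc (PowerSeries.C _), PowerSeries.coeff_C_mul]
      rw [e1]
      exact t2'

end Pool.Agent.D4
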