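import Pool.Agent.D4.PK3S
import Pool.Agent.D4.PExp

/-!
# Classes with three poles: the columns lie in the lattice

`S3` = the set of `P(u) + Q(u) D gS + T(u) ε ^ 2` (exact, `P, Q, T` integral); by `eps3_four` and
`DG3_eps` it is closed under multiplication by `ε ^ 2`, hence contains `kerQ(q ζ)` for integral
coefficients; an element of `S3` times `q ^ x` lies in `Adm3 A q x` by `eps3_sq`.

The kernel: `g = R + q⁻¹ gS + q (E0 + E1) (1 - h3) + q w ^ 2 ê h3 + q⁻¹ D ê gS` with `R` in `RP`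
(`sums3_eq`, `T0_eq`, `T1_eq`, `E1_sub_E0`, `comb3`), and `-g + 2 kerQ α` is the scaled kernel up to
`ζ ^ (2 A)` (`coeff_ker`).  Times a polynomial divisible by `q ^ (x + 1)` it lies in `Adm3 A q x`: the
errors are divisible by `q ^ (2 A)` before the multiplication because `D` is divisible by `q ^ 4`
(`D3_eq`).  `hser_zz` (`Pool/Agent/Z5/PExp.lean`) turns `h(Y)` into a polynomial in `u`.
-/

open Finset Polynomial

namespace Pool.Agent.D4

open Pool.Agent.Z5 (hser Hs VG PG Cls yv gS zz sg2 cl SF OD uz)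

variable {A d q L r x : ℕ} {α : ℕ → ℚ} {β : Fin d → ℕ → ℚ} [hq : Fact q.Prime]

theorem Adm3.add {F G : Fin 3 → PowerSeries ℚ} (hF : Adm3 A q x F) (hG : Adm3 A q x G) :
    Adm3 A q x (fun i => F i + G i) := by
  obtain ⟨P, Q, T, hP, hQ, hT, hE⟩ := hF
  obtain ⟨P', Q', T', hP', hQ', hT', hE'⟩ := hG
  refine ⟨P + P', Q + Q', T + T', PG.add hP hP', PG.add hQ hQ', PG.add hT hT', fun i => ?_⟩
  have := SG.add (hE i) (hE' i)
  rw [map_add, map_add, map_add]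
  convert this using 1
  ring

omit hq in
theorem k3r_zero : Adm3 A q x (fun _ => 0) :=
  ⟨0, 0, 0, PG.zero _, PG.zero _, PG.zero _, fun i => by simpa using SG.zero _⟩

theorem Adm3.sum {ι : Type*} (s : Finset ι) (F : ι → Fin 3 → PowerSeries ℚ)
    (h : ∀ j ∈ s, Adm3 A q x (F j)) : Adm3 A q x (fun i => ∑ j ∈ s, F j i) := by
  classical
  induction s using Finset.induction_on with
  | empty => simpa using k3r_zero (A := A) (q := q) (x := x)
  | insert a s ha ih =>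
    simp only [Finset.sum_insert ha]
    exact Adm3.add (h a (Finset.mem_insert_self _ _))
      (ih fun j hj => h j (Finset.mem_insert_of_mem hj))

theorem k3r_neg {F : Fin 3 → PowerSeries ℚ} (hF : Adm3 A q x F) :
    Adm3 A q x (fun i => - F i) := by
  obtain ⟨P, Q, T, hP, hQ, hT, hE⟩ := hF
  refine ⟨-P, -Q, -T, PG.neg hP, PG.neg hQ, PG.neg hT, fun i => ?_⟩
  have := SG.neg (hE i)
  rw [map_neg, map_neg, map_neg]
  convert this using 1
  ring

omit hq in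
theorem k3r_SG {F : Fin 3 → PowerSeries ℚ} (h : ∀ i, SG A q (2 * A + x) (F i)) : Adm3 A q x F :=
  ⟨0, 0, 0, PG.zero _, PG.zero _, PG.zero _, fun i => by simpa using h i⟩

omit hq in
/-- the `T`-part -/
theorem k3r_poly {P : ℚ[X]} (h : PG q 0 P) : Adm3 A q x (fun i => aeval (uz q i) P) :=
  ⟨P, 0, 0, h, PG.zero _, PG.zero _, fun i => by simpa using SG.zero _⟩

omit hq in
theorem k3r_gS {Q : ℚ[X]} (h : PG q x Q) : Adm3 A q x (fun i => aeval (uz q i) Q * gS 3 i) :=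
  ⟨0, Q, 0, PG.zero _, h, PG.zero _, fun i => by simpa using SG.zero _⟩

omit hq in
theorem k3r_h3 {T : ℚ[X]} (h : PG q (x + 2) T) :
    Adm3 A q x (fun i => aeval (uz q i) T * h3 i) :=
  ⟨0, 0, T, PG.zero _, PG.zero _, h, fun i => by simpa using SG.zero _⟩

theorem k3r_h3_int (i : ℕ) : SG A q 0 (h3 i) := by
  unfold h3
  exact (SG.X.pow_zero 2).sub (((zz_SG i).add SG.one).pow_zero 2)

/-! ### the ring generated by `ε ^ 2` -/

/-- `P(u) + Q(u) D gS + T(u) ε ^ 2` -/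
def S3 (q : ℕ) (F : Fin 3 → PowerSeries ℚ) : Prop :=
  ∃ P Q T : ℚ[X], PG q 0 P ∧ PG q 0 Q ∧ PG q 0 T ∧ ∀ i : Fin 3, F i =
    aeval (uz q i) P + aeval (uz q i) Q * (aeval (uz q i) (D3 q) * gS 3 i) +
      aeval (uz q i) T * (PowerSeries.C (q : ℚ) * PowerSeries.X) ^ 2

omit hq in
theorem k3r_aeval_C (a : ℚ) (i : ℕ) : aeval (uz q i) (C a : ℚ[X]) = PowerSeries.C a := by
  rw [aeval_C]; rfl

omit hq in
theorem S3.const {a : ℚ} (h : VG q 0 a) : S3 q (fun _ => PowerSeries.C a) :=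
  ⟨C a, 0, 0, PG.C h, PG.zero _, PG.zero _, fun i => by
    rw [k3r_aeval_C, map_zero, zero_mul, zero_mul, add_zero, add_zero]⟩

theorem S3.add {F G : Fin 3 → PowerSeries ℚ} (hF : S3 q F) (hG : S3 q G) :
    S3 q (fun i => F i + G i) := by
  obtain ⟨P, Q, T, hP, hQ, hT, hE⟩ := hF
  obtain ⟨P', Q', T', hP', hQ', hT', hE'⟩ := hG
  refine ⟨P + P', Q + Q', T + T', PG.add hP hP', PG.add hQ hQ', PG.add hT hT', fun i => ?_⟩
  show F i + G i = _
  rw [hE i, hE' i, map_add, map_add, map_add]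
  ring

theorem S3.C_mul {a : ℚ} (ha : VG q 0 a) {F : Fin 3 → PowerSeries ℚ} (hF : S3 q F) :
    S3 q (fun i => PowerSeries.C a * F i) := by
  obtain ⟨P, Q, T, hP, hQ, hT, hE⟩ := hF
  refine ⟨C a * P, C a * Q, C a * T, (PG.C ha).mul_int hP, (PG.C ha).mul_int hQ,
    (PG.C ha).mul_int hT, fun i => ?_⟩
  show PowerSeries.C a * F i = _
  rw [hE i, map_mul, map_mul, map_mul, k3r_aeval_C]
  ring

theorem S3.sum {ι : Type*} (s : Finset ι) (F : ι → Fin 3 → PowerSeries ℚ)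
    (h : ∀ j ∈ s, S3 q (F j)) : S3 q (fun i => ∑ j ∈ s, F j i) := by
  classical
  induction s using Finset.induction_on with
  | empty => exact ⟨0, 0, 0, PG.zero _, PG.zero _, PG.zero _, fun i => by simp⟩
  | insert a s ha ih =>
    simp only [Finset.sum_insert ha]
    exact S3.add (h a (Finset.mem_insert_self _ _))
      (ih fun j hj => h j (Finset.mem_insert_of_mem hj))

theorem S3.mul_eps {F : Fin 3 → PowerSeries ℚ} (hF : S3 q F) :
    S3 q (fun i => F i * (PowerSeries.C (q : ℚ) * PowerSeries.X) ^ 2) := by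
  obtain ⟨P, Q, T, hP, hQ, hT, hE⟩ := hF
  have hq2 : PG q 0 (C ((q : ℚ) ^ 2)) := PG.C ((VG.nat (q := q) q).pow_zero 2)
  have hn : ∀ n : ℤ, PG q 0 (C (n : ℚ)) := fun n => PG.C (VG.int n)
  have hW := W3_PG (q := q)
  have hD := D3_PG (q := q)
  have hWq : PG q 0 (W3 q - C ((q : ℚ) ^ 2)) := hW.sub hq2
  refine ⟨Q * (C ((2 : ℤ) : ℚ) * ((W3 q - C ((q : ℚ) ^ 2)) * D3 q)) +
      T * (C ((-3 : ℤ) : ℚ) * D3 q),
    -(Q * (W3 q - C ((q : ℚ) ^ 2))) + T * C ((2 : ℤ) : ℚ),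
    P + Q * (C ((-2 : ℤ) : ℚ) * W3 q ^ 2) + T * (C ((4 : ℤ) : ℚ) * W3 q + C ((q : ℚ) ^ 2)),
    ?_, ?_, ?_, fun i => ?_⟩
  · exact (hQ.mul_int ((hn 2).mul_int (hWq.mul_int hD))).add (hT.mul_int ((hn (-3)).mul_int hD))
  · exact (hQ.mul_int hWq).neg.add (hT.mul_int (hn 2))
  · exact (hP.add (hQ.mul_int ((hn (-2)).mul_int (hW.pow_zero 2)))).add
      (hT.mul_int (((hn 4).mul_int hW).add hq2))
  · have h4 := eps3_four (q := q) i
    have h5 := DG3_eps (q := q) i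
    show F i * _ = _
    rw [hE i]
    simp only [map_add, map_mul, map_neg, map_sub, map_pow, k3r_aeval_C]
    have e2 : (PowerSeries.C ((2 : ℤ) : ℚ) : PowerSeries ℚ) = 2 := by
      rw [map_intCast]; norm_num
    have e3 : (PowerSeries.C ((-3 : ℤ) : ℚ) : PowerSeries ℚ) = -3 := by
      rw [map_intCast]; norm_num
    have e4 : (PowerSeries.C ((4 : ℤ) : ℚ) : PowerSeries ℚ) = 4 := by
      rw [map_intCast]; norm_num
    have e5 : (PowerSeries.C ((-2 : ℤ) : ℚ) : PowerSeries ℚ) = -2 := by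
      rw [map_intCast]; norm_num
    rw [e2, e3, e4, e5]
    linear_combination aeval (uz q (i : ℕ)) Q * h5 + aeval (uz q (i : ℕ)) T * h4

theorem S3.eps_pow (n : ℕ) :
    S3 q (fun _ => ((PowerSeries.C (q : ℚ) * PowerSeries.X) ^ 2) ^ n) := by
  induction n with
  | zero => simpa using S3.const (q := q) VG.one
  | succ n ih => simpa only [pow_succ _ n] using S3.mul_eps ih

theorem S3.kerQ {β : ℕ → ℚ} (hβ : VI A q β) :
    S3 q (fun _ => PowerSeries.rescale (q : ℚ) (D4.kerQ A β)) := by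
  simp only [rescale_kerQ]
  exact S3.sum _ _ fun k hk => S3.C_mul (hβ k hk) (S3.eps_pow k)

theorem S3.adm {F : Fin 3 → PowerSeries ℚ} (h : S3 q F) {Q : ℚ[X]} (hQ : PG q x Q) :
    Adm3 A q x (fun i => F i * aeval (uz q i) Q) := by
  obtain ⟨P, R, T, hP, hR, hT, hE⟩ := h
  have hq2 : PG q 2 (C ((q : ℚ) ^ 2)) := PG.C (VG.pow_self 2)
  refine ⟨(P + T * W3 q) * Q, (R * D3 q) * Q, (T * C ((q : ℚ) ^ 2)) * Q, ?_, ?_, ?_,
    fun i => ?_⟩
  · exact ((hP.add (hT.mul_int W3_PG)).int_mul hQ).mono (by positivity)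
  · exact (hR.mul_int D3_PG).int_mul hQ
  · exact ((hT.int_mul hq2).mul hQ).mono (by linarith)
  · have h2 := eps3_sq (q := q) (i : ℕ)
    have e : F i * aeval (uz q (i : ℕ)) Q - (aeval (uz q (i : ℕ)) ((P + T * W3 q) * Q) +
        aeval (uz q (i : ℕ)) ((R * D3 q) * Q) * gS 3 i +
        aeval (uz q (i : ℕ)) ((T * C ((q : ℚ) ^ 2)) * Q) * h3 i) = 0 := by
      rw [hE i]
      simp only [map_add, map_mul, map_pow, k3r_aeval_C]
      linear_combination (aeval (uz q (i : ℕ)) T * aeval (uz q (i : ℕ)) Q) * h2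
    rw [e]
    exact SG.zero _

/-- the `Q`-part of a column -/
theorem adm3_kerQ {β : ℕ → ℚ} (hβ : VI A q β) {Q : ℚ[X]} (hQ : PG q x Q) :
    Adm3 A q x (fun i => PowerSeries.rescale (q : ℚ) (kerQ A β) * aeval (uz q i) Q) :=
  S3.adm (S3.kerQ hβ) hQ

/-! ### products with elements of `RP` -/

/-- `R(u) Q(u)`, `Q` divisible by `q ^ x`, up to the allowed error -/
theorem k3r_RP {R : Fin 3 → PowerSeries ℚ} (hR : RP A q 3 R) {Q : ℚ[X]} (hQ : PG q x Q) :
    Adm3 A q x (fun i => R i * aeval (uz q i) Q) := by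
  obtain ⟨P, hP, hE⟩ := hR
  refine ⟨P * Q, 0, 0, (hP.int_mul hQ).mono (by positivity), PG.zero _, PG.zero _, fun i => ?_⟩
  have h1 := SG.mul (hE i) (aeval_uz_SG hQ (i : ℕ) (A := A))
  rw [map_mul, map_zero, zero_mul, zero_mul, add_zero, add_zero]
  convert h1 using 1
  ring

/-- `R(u) Q(u) gS`, `Q` divisible by `q ^ x` -/
theorem k3r_RP_gS (h5 : 5 ≤ q) {R : Fin 3 → PowerSeries ℚ} (hR : RP A q 3 R) {Q : ℚ[X]}
    (hQ : PG q x Q) : Adm3 A q x (fun i => R i * aeval (uz q i) Q * gS 3 i) := by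
  obtain ⟨P, hP, hE⟩ := hR
  refine ⟨0, P * Q, 0, PG.zero _, hP.int_mul hQ, PG.zero _, fun i => ?_⟩
  have h1 := SG.mul (hE i) (aeval_uz_SG hQ (i : ℕ) (A := A))
  have h2 := SG.mul_int h1 (gS_int (A := A) (q := q) (K := 3) (by omega) i.2)
  rw [map_mul, map_zero, zero_mul, add_zero, zero_add]
  convert h2 using 1
  ring

/-- `R(u) Q(u) h3`, `Q` divisible by `q ^ (x + 2)` -/
theorem k3r_RP_h3 {R : Fin 3 → PowerSeries ℚ} (hR : RP A q 3 R) {Q : ℚ[X]}
    (hQ : PG q (x + 2) Q) : Adm3 A q x (fun i => R i * aeval (uz q i) Q * h3 i) := by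
  obtain ⟨P, hP, hE⟩ := hR
  refine ⟨0, 0, P * Q, PG.zero _, PG.zero _, hP.int_mul hQ, fun i => ?_⟩
  have h1 := SG.mul (hE i) (aeval_uz_SG hQ (i : ℕ) (A := A))
  have h2 := (SG.mul_int h1 (k3r_h3_int (A := A) (q := q) (i : ℕ))).mono
    (l := 2 * A + x) (by linarith)
  rw [map_mul, map_zero, zero_mul, zero_add, zero_add]
  convert h2 using 1
  ring

/-- the `P`-part of a column -/
theorem adm3_kerP (h5 : 5 ≤ q) (hc : Cls q L r 3) (hα : VI A q α) {Q : ℚ[X]}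
    (hQ : PG q (x + 1) Q) :
    Adm3 A q x (fun i => PowerSeries.rescale (q : ℚ) (kerP A L α (r + q * (i : ℕ))) *
      aeval (uz q i) Q) := by
  have hqpos : 0 < q := hq.out.pos
  have hLL := hc.hL
  have hUU := hc.hU
  have hrr := hc.hr
  obtain ⟨r', hr'⟩ : ∃ r', L = r + 2 * q + r' := ⟨L - (r + 2 * q), by omega⟩
  have hr'q : r' < q := by omega
  have hqi : VG q (-1) ((q : ℚ)⁻¹) := by
    have := VG.zpow_self (q := q) (-1)
    simpa using this
  have hQ0 : PG q x Q := hQ.mono (by linarith)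
  -- `q⁻¹ Q`
  have hQm : PG q x (C ((q : ℚ)⁻¹) * Q) := ((PG.C hqi).mul hQ).mono (by linarith)
  -- `q Q`
  have hQp : PG q (x + 2) (C (q : ℚ) * Q) :=
    ((PG.C (VG.self_prime (q := q))).mul hQ).mono (by linarith)
  have hQp0 : PG q x (C (q : ℚ) * Q) := hQp.mono (by linarith)
  -- regular sums
  have hR1 : RP A q 3 (fun i : Fin 3 => ∑ m ∈ Icc 1 r,
      (PowerSeries.C (m : ℚ) + PowerSeries.C (-1 : ℚ) * uz q (i : ℕ))⁻¹) := by
    refine RP.sum _ _ fun m hm => RP.lin_inv' ?_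
    rw [Finset.mem_Icc] at hm
    exact fun h => by have := Nat.le_of_dvd (by omega) h; omega
  have hR2 : RP A q 3 (fun i : Fin 3 => ∑ m ∈ Icc 1 r', iu q (i : ℕ) (2 * q + m)) := by
    refine RP.sum _ _ fun m hm => ?_
    rw [Finset.mem_Icc] at hm
    have : ¬ q ∣ 2 * q + m := fun h => by
      have h' := (Nat.dvd_add_right (Dvd.intro_left 2 rfl)).mp h
      have := Nat.le_of_dvd (by omega) h'; omega
    exact RP.lin_inv this
  have hE0 := E0_RP (A := A) h5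
  have hE1 := E1_RP (A := A) h5
  have hEh := Eh3_RP (A := A) h5
  have hE : RP A q 3 (fun i : Fin 3 => E0 q (i : ℕ) + E1 q (i : ℕ)) := RP.add hE0 hE1
  have t1 := k3r_RP (x := x) hR1 hQ0
  have t2 := k3r_RP (x := x) hR2 hQ0
  have t3 := k3r_gS (A := A) (x := x) hQm
  have t4 := k3r_RP (x := x) hE hQp0
  have t5 := k3r_neg (k3r_RP_h3 (x := x) hE hQp)
  have hWQ : PG q (x + 2) (W3 q * (C (q : ℚ) * Q)) := W3_PG.int_mul hQp
  have t6 := k3r_RP_h3 (x := x) hEh hWQ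
  have hDQ : PG q x (D3 q * (C ((q : ℚ)⁻¹) * Q)) := D3_PG.int_mul hQm
  have t7 := k3r_RP_gS (x := x) h5 hEh hDQ
  have tG := Adm3.add (Adm3.add (Adm3.add t1 t2) t3) (Adm3.add (Adm3.add t4 t5) (Adm3.add t6 t7))
  -- the part `2 kerQ`
  have tQ : Adm3 A q x (fun i : Fin 3 =>
      (PowerSeries.C (2 : ℚ) * PowerSeries.rescale (q : ℚ) (D4.kerQ A α)) *
        aeval (uz q (i : ℕ)) Q) := by
    have h2 : VG q 0 (2 : ℚ) := by simpa using VG.nat (q := q) 2
    exact S3.adm (S3.C_mul h2 (S3.kerQ hα)) hQ0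
  -- the error
  have tE : Adm3 A q x (fun i : Fin 3 =>
      (PowerSeries.rescale (q : ℚ) (kerP A L α (r + q * (i : ℕ))) -
        (-(∑ m ∈ Icc 1 (r + q * (i : ℕ)),
          (PowerSeries.C (m : ℚ) + PowerSeries.C (-(q : ℚ)) * PowerSeries.X)⁻¹ +
          ∑ m ∈ Icc 1 (L - (r + q * (i : ℕ))),
            (PowerSeries.C (m : ℚ) + PowerSeries.C (q : ℚ) * PowerSeries.X)⁻¹) +
          2 * PowerSeries.rescale (q : ℚ) (D4.kerQ A α))) * aeval (uz q (i : ℕ)) Q) := by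
    refine k3r_SG fun i => ?_
    have h1 : SG A q (2 * A) (PowerSeries.rescale (q : ℚ) (kerP A L α (r + q * (i : ℕ))) -
        (-(∑ m ∈ Icc 1 (r + q * (i : ℕ)),
          (PowerSeries.C (m : ℚ) + PowerSeries.C (-(q : ℚ)) * PowerSeries.X)⁻¹ +
          ∑ m ∈ Icc 1 (L - (r + q * (i : ℕ))),
            (PowerSeries.C (m : ℚ) + PowerSeries.C (q : ℚ) * PowerSeries.X)⁻¹) +
          2 * PowerSeries.rescale (q : ℚ) (D4.kerQ A α))) := by
      intro n hn
      rw [map_sub, coeff_ker _ n hn, sub_self]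
      exact VG.zero _
    exact SG.mul h1 (aeval_uz_SG hQ0 (i : ℕ))
  have tot := Adm3.add (Adm3.add (k3r_neg tG) tQ) tE
  convert tot using 2 with i
  have hs := sums3_eq (r := r) hr' i
  have hT0 := T0_eq (q := q) (i : ℕ)
  have hT1 := T1_eq (q := q) (i : ℕ)
  have hsub := E1_sub_E0 (q := q) (i : ℕ)
  have hcomb := comb3 hqpos i (E0 q (i : ℕ)) (E1 q (i : ℕ)) (Eh3 q (i : ℕ)) hsub
  rw [hs, hT0, hT1]
  have e2 : (PowerSeries.C (2 : ℚ) : PowerSeries ℚ) = 2 := by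
    rw [map_ofNat]
  rw [e2]
  simp only [map_mul, k3r_aeval_C]
  linear_combination (-aeval (uz q (i : ℕ)) Q) * hcomb

theorem k3_reg (h5 : 5 ≤ q) (hc : Cls q L r 3) (hα : VI A q α) (hβ : ∀ j, VI A q (β j))
    (c : Col d) (h1 : PG q 0 c.1) (h2 : PG q (x + 1) c.2.1) (h3 : ∀ j, PG q x (c.2.2 j)) :
    Adm3 A q x (fun i => sc A q L α β r i c) := by
  obtain ⟨T, hT, eT⟩ := Z5.hser_zz (q := q) (L := L) (r := r) c.1 h1
  obtain ⟨P, hP, eP⟩ := Z5.hser_zz (q := q) (L := L) (r := r) c.2.1 h2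
  choose Q hQ eQ using fun j => Z5.hser_zz (q := q) (L := L) (r := r) (c.2.2 j) (h3 j)
  have a1 : Adm3 A q x (fun i : Fin 3 => aeval (uz q (i : ℕ)) T) := k3r_poly hT
  have a2 := adm3_kerP h5 hc hα hP
  have a3 := Adm3.sum (A := A) (q := q) (x := x) Finset.univ
    (fun (j : Fin d) (i : Fin 3) => PowerSeries.rescale (q : ℚ) (kerQ A (β j)) *
      aeval (uz q (i : ℕ)) (Q j)) (fun j _ => adm3_kerQ (hβ j) (hQ j))
  have := Adm3.add (Adm3.add a1 a2) a3
  convert this using 2 with i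
  simp only [sc, tvec, map_add, map_mul, map_sum, eT, eP, eQ, uz]

end Pool.Agent.D4
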