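import Pool.Agent.D4.PDefs
import Pool.Agent.Z5.PPG

/-!
# Scaling of the `P`- and `Q`-columns

Adaptation of `Pool/Agent/Z9/PRep.lean` and of `scz_PG`, `VG_of_scaled` in
`Pool/Agent/Z9/Ranges.lean`.
-/

open Finset Polynomial

namespace Pool.Agent.D4

open Pool.Agent.Z5 (hser Hs VG PG Cls yv gS zz sg2 cl SF OD uz)

variable {A d L : ℕ} {α : ℕ → ℚ} {β : Fin d → ℕ → ℚ}

private theorem prep_hser_C_mul (L u : ℕ) (r : ℚ) (f : ℚ[X]) :
    hser L u (C r * f) = PowerSeries.C r * hser L u f := by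
  rw [hser, hser, map_mul, aeval_C]
  rfl

private theorem prep_tvec_smul (L : ℕ) (α : ℕ → ℚ) (β : Fin d → ℕ → ℚ) (u n : ℕ) (r : ℚ)
    (c : Col d) :
    PowerSeries.coeff n (tvec A L α β u (C r * c.1, C r * c.2.1, fun j => C r * c.2.2 j)) =
      r * PowerSeries.coeff n (tvec A L α β u c) := by
  have h1 : tvec A L α β u (C r * c.1, C r * c.2.1, fun j => C r * c.2.2 j)
      = PowerSeries.C r * tvec A L α β u c := by
    simp only [tvec, prep_hser_C_mul]
    rw [mul_add, mul_add, Finset.mul_sum]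
    congr 1
    · ring
    · exact Finset.sum_congr rfl (fun j _ => by ring)
  rw [h1, PowerSeries.coeff_C_mul]

/-- scaling of the `P`- and `Q`-columns -/
theorem scale_det {h a b m : ℕ} (eq : Fin h × Fin (2 * A) ≃ (Fin a ⊕ Fin d × Fin b) ⊕ Fin m)
    (x : ℚ) (y : Fin d → ℚ) :
    ((dmat A L α β h (scz d a b m x y)).submatrix id eq).det =
      x ^ a * (∏ j, y j) ^ b * ((dmat A L α β h (stdc d a b m)).submatrix id eq).det := by
  classical
  set s : (Fin a ⊕ Fin d × Fin b) ⊕ Fin m → ℚ :=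
    Sum.elim (Sum.elim (fun _ => x) (fun z => y z.1)) (fun _ => 1) with hs
  have h0 : ∀ j, scz d a b m x y j =
      (C (s j) * (stdc d a b m j).1, C (s j) * (stdc d a b m j).2.1,
        fun k => C (s j) * (stdc d a b m j).2.2 k) := by
    intro j
    rcases j with (j | j) | j
    · simp [hs, scz, stdc]
      rfl
    · simp only [hs, scz, stdc, Sum.elim_inl, Sum.elim_inr, mul_zero]
      refine Prod.ext rfl (Prod.ext rfl ?_)
      funext k
      by_cases hk : k = j.1
      · subst hk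
        simp
      · simp [Pi.single_eq_of_ne hk]
    · simp [hs, scz, stdc]
      rfl
  have h1 : (dmat A L α β h (scz d a b m x y)).submatrix id eq = Matrix.of fun i j =>
      s (eq j) * ((dmat A L α β h (stdc d a b m)).submatrix id eq) i j := by
    ext i j
    simp only [Matrix.submatrix_apply, Matrix.of_apply, dmat, id]
    rw [h0, prep_tvec_smul]
  rw [h1, Matrix.det_mul_row, Equiv.prod_comp eq s]
  congr 1
  rw [Fintype.prod_sum_type, Fintype.prod_sum_type]
  simp only [hs, Sum.elim_inl, Sum.elim_inr, Finset.prod_const, Finset.card_univ, Fintype.card_fin,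
    one_pow, mul_one]
  rw [Fintype.prod_prod_type]
  simp [Finset.prod_pow]

variable {q : ℕ} [hq : Fact q.Prime]

theorem scz_PG {a b m : ℕ} {x : ℚ} {y : Fin d → ℚ} {i : ℤ} {j : Fin d → ℤ} (hx : VG q i x)
    (hy : ∀ k, VG q (j k) (y k)) (t : (Fin a ⊕ Fin d × Fin b) ⊕ Fin m) :
    PG q 0 (scz d a b m x y t).1 ∧ PG q i (scz d a b m x y t).2.1 ∧
      ∀ k, PG q (j k) ((scz d a b m x y t).2.2 k) := by
  rcases t with (t | t) | t
  · refine ⟨Z5.PG.zero 0, ?_, fun k => Z5.PG.zero (j k)⟩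
    have h := Z5.PG.C_mul hx (Z5.PG.pow_zero (Z5.PG.X (q := q)) (t : ℕ))
    rwa [add_zero] at h
  · refine ⟨Z5.PG.zero 0, Z5.PG.zero i, fun k => ?_⟩
    by_cases hk : k = t.1
    · subst hk
      have h := Z5.PG.C_mul (hy t.1) (Z5.PG.pow_zero (Z5.PG.X (q := q)) (t.2 : ℕ))
      rw [add_zero] at h
      have e : (scz d a b m x y (Sum.inl (Sum.inr t))).2.2 t.1 = C (y t.1) * X ^ (t.2 : ℕ) := by
        simp [scz]
      rw [e]
      exact h
    · have e : (scz d a b m x y (Sum.inl (Sum.inr t))).2.2 k = 0 := by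
        simp [scz, Pi.single_eq_of_ne hk]
      rw [e]
      exact Z5.PG.zero (j k)
  · exact ⟨Z5.PG.pow_zero Z5.PG.X _, Z5.PG.zero i, fun k => Z5.PG.zero (j k)⟩

theorem VG_of_scaled {N : ℕ} {x y : ℚ} {v : ℤ} (h : y = (q : ℚ) ^ N * x) (hy : VG q v y) :
    VG q (v - N) x := by
  have h0 : (q : ℚ) ≠ 0 := by exact_mod_cast hq.out.ne_zero
  have h1 : x = (q : ℚ) ^ (-(N : ℤ)) * y := by
    rw [h, zpow_neg, zpow_natCast, inv_mul_cancel_left₀ (pow_ne_zero _ h0)]
  rw [h1]
  refine ((Z5.VG.zpow_self (-(N : ℤ))).mul hy).mono ?_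
  linarith

end Pool.Agent.D4
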