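import Pool.Agent.D4.PAssem
import Pool.Agent.D4.PRep
import Pool.Agent.D4.PK1
import Pool.Agent.D4.PK2
import Pool.Agent.D4.PK2R
import Pool.Agent.D4.PK3
import Pool.Agent.D4.PK3R

/-!
# The ranges `q ≥ 4 p`, `2 p < q < 4 p`, `4 p / 3 < q < 2 p`

`N = L + 1 = 4 p`, `A = 25`, `a = b = 20 p`, `d = 2`, `m = 40 p`.  In the ranges 1 and 2 the
`P`-columns are multiplied by `q` (`scz` with `x = q`, `y = 1`): classes with two poles give `0`,
classes with three poles `99` (`k3_det`, `x = 0`, `τ = 50`).  Adaptation of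
`Pool/Agent/Z9/Ranges.lean`.
-/

open Finset Polynomial

namespace Pool.Agent.D4

open Pool.Agent.Z5 (hser Hs VG PG Cls yv gS zz sg2 cl SF OD uz)

variable {q : ℕ} {α : ℕ → ℚ} {β : Fin 2 → ℕ → ℚ} [hq : Fact q.Prime]

variable {p : ℕ}
  (eq : Fin (2 * p) × Fin (2 * 25) ≃ (Fin (20 * p) ⊕ Fin 2 × Fin (20 * p)) ⊕ Fin (40 * p))

/-- from the scaled columns to `DM` -/
theorem DM_of_scz {x : ℕ} {y : Fin 2 → ℕ} {v : ℤ}
    (h : VG q v ((dmat 25 (4 * p - 1) α β (2 * p)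
      (scz 2 (20 * p) (20 * p) (40 * p) ((q : ℚ) ^ x) (fun j => (q : ℚ) ^ y j))).submatrix
        id eq).det) :
    VG q (v - (x + y 0 + y 1) * (20 * p)) (DM p α β eq) := by
  have h1 := scale_det (A := 25) (α := α) (β := β) (L := 4 * p - 1) eq ((q : ℚ) ^ x)
    (fun j => (q : ℚ) ^ y j)
  have h2 : ((dmat 25 (4 * p - 1) α β (2 * p)
      (scz 2 (20 * p) (20 * p) (40 * p) ((q : ℚ) ^ x) (fun j => (q : ℚ) ^ y j))).submatrix
        id eq).det = (q : ℚ) ^ ((x + y 0 + y 1) * (20 * p)) * DM p α β eq := by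
    rw [h1]
    unfold DM
    rw [Fin.prod_univ_two, ← pow_add, ← pow_mul, ← pow_mul, ← pow_add]
    congr 2
    ring
  refine (VG_of_scaled h2 h).mono ?_
  push_cast
  exact le_refl _

theorem range0 (hα : VI 25 q α) (hβ : ∀ j, VI 25 q (β j)) (h : 4 * p ≤ q) :
    VG q 0 (DM p α β eq) := by
  unfold DM
  have h1 := Z5.VG.det (q := q) ((dmat 25 (4 * p - 1) α β (2 * p)
    (stdc 2 (20 * p) (20 * p) (40 * p))).submatrix id eq) (fun _ => 0) (fun _ => 0)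
    (fun i j => ?_)
  · simpa using h1
  · have hi := i.1.2
    have hc : Cls q (4 * p - 1) (i.1 : ℕ) 1 := by
      constructor
      · omega
      · exact le_refl _
      · omega
      · omega
    show VG q (0 + 0) (PowerSeries.coeff (i.2 : ℕ) (tvec 25 (4 * p - 1) α β (i.1 : ℕ)
      (stdc 2 (20 * p) (20 * p) (40 * p) (eq j))))
    rw [add_zero]
    have hst : ∀ t : (Fin (20 * p) ⊕ Fin 2 × Fin (20 * p)) ⊕ Fin (40 * p),
        PG q 0 (stdc 2 (20 * p) (20 * p) (40 * p) t).1 ∧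
        PG q 0 (stdc 2 (20 * p) (20 * p) (40 * p) t).2.1 ∧
        ∀ k, PG q 0 ((stdc 2 (20 * p) (20 * p) (40 * p) t).2.2 k) := by
      rintro ((t | t) | t)
      · exact ⟨Z5.PG.zero 0, Z5.PG.pow_zero Z5.PG.X _, fun k => Z5.PG.zero 0⟩
      · refine ⟨Z5.PG.zero 0, Z5.PG.zero 0, fun k => ?_⟩
        show PG q 0 ((Pi.single t.1 (X ^ (t.2 : ℕ)) : Fin 2 → ℚ[X]) k)
        by_cases hk : k = t.1
        · subst hk
          rw [Pi.single_eq_same]
          exact Z5.PG.pow_zero Z5.PG.X _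
        · rw [Pi.single_eq_of_ne hk]
          exact Z5.PG.zero 0
      · exact ⟨Z5.PG.pow_zero Z5.PG.X _, Z5.PG.zero 0, fun k => Z5.PG.zero 0⟩
    exact k1_reg hc hα hβ _ (hst (eq j)).1 (hst (eq j)).2.1 (hst (eq j)).2.2 _ i.2.2

theorem range1 (h5 : 5 ≤ q) (hα : VI 25 q α) (hβ : ∀ j, VI 25 q (β j)) (h : 2 * p < q)
    (h' : q < 4 * p) : VG q (-20 * p - 3000 : ℤ) (DM p α β eq) := by
  have h0 : 0 < q := by omega
  have h2 : q ≠ 2 := by omega
  have hL : (4 * p - 1) + 1 = 2 * (2 * p) := by omega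
  have hLq : 4 * p - 1 < q ^ 2 := by nlinarith
  have h3 : (4 * p - 1 + 1) / q = 1 := by rw [Nat.div_eq_iff h0]; omega
  have h4 : (4 * p - 1) / q = 1 := by rw [Nat.div_eq_iff h0]; omega
  have hPG := scz_PG (q := q) (a := 20 * p) (b := 20 * p) (m := 40 * p) (x := (q : ℚ) ^ 1)
    (y := fun _ : Fin 2 => (q : ℚ) ^ 0) (i := 1) (j := fun _ => 0)
    (by exact_mod_cast Z5.VG.zpow_self (q := q) 1)
    (fun _ => by rw [pow_zero]; exact Z5.VG.one)
  have hPG0 : ∀ t, PG q 0 (scz 2 (20 * p) (20 * p) (40 * p) ((q : ℚ) ^ 1)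
        (fun _ => (q : ℚ) ^ 0) t).1 ∧
      PG q 0 (scz 2 (20 * p) (20 * p) (40 * p) ((q : ℚ) ^ 1) (fun _ => (q : ℚ) ^ 0) t).2.1 ∧
      ∀ k, PG q 0 ((scz 2 (20 * p) (20 * p) (40 * p) ((q : ℚ) ^ 1)
        (fun _ => (q : ℚ) ^ 0) t).2.2 k) := fun t =>
    ⟨(hPG t).1, (hPG t).2.1.mono (by norm_num), (hPG t).2.2⟩
  have hres := assemble h2 (2 * p) hL hLq hα hβ eq
    (scz 2 (20 * p) (20 * p) (40 * p) ((q : ℚ) ^ 1) (fun _ => (q : ℚ) ^ 0)) hPG0
    (fun _ => 0) rfl (fun r K hc hr f _ => by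
      rcases cls_range hc h3 with rfl | rfl
      · exact k1_det hc hα hβ _ (fun y => hPG0 (f y))
      · exact k2_zero (by norm_num) _ (fun y => k2_reg1 h5 hc hα hβ _ (hPG (f y)).1
          (hPG (f y)).2.1 (hPG (f y)).2.2))
    0 (by norm_num)
  refine (DM_of_scz eq (y := fun _ => 0) hres).mono ?_
  rw [h4]
  push_cast
  linarith

theorem range2 (h5 : 5 ≤ q) (hα : VI 25 q α) (hβ : ∀ j, VI 25 q (β j)) (h : 4 * p < 3 * q)
    (h' : q < 2 * p) : VG q (178 * p - 99 * q - 4000 : ℤ) (DM p α β eq) := by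
  have h0 : 0 < q := by omega
  have h2 : q ≠ 2 := by omega
  have hL : (4 * p - 1) + 1 = 2 * (2 * p) := by omega
  have hLq : 4 * p - 1 < q ^ 2 := by nlinarith
  have h3 : (4 * p - 1 + 1) / q = 2 := by rw [Nat.div_eq_iff h0]; omega
  have h4 : (4 * p - 1) / q = 2 := by rw [Nat.div_eq_iff h0]; omega
  have h7 := Nat.div_add_mod (4 * p - 1 + 1) q
  rw [h3] at h7
  have h8 : (4 * p - 1 + 1) % q = 4 * p - 2 * q := by omega
  have hPG := scz_PG (q := q) (a := 20 * p) (b := 20 * p) (m := 40 * p) (x := (q : ℚ) ^ 1)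
    (y := fun _ : Fin 2 => (q : ℚ) ^ 0) (i := 1) (j := fun _ => 0)
    (by exact_mod_cast Z5.VG.zpow_self (q := q) 1)
    (fun _ => by rw [pow_zero]; exact Z5.VG.one)
  have hPG0 : ∀ t, PG q 0 (scz 2 (20 * p) (20 * p) (40 * p) ((q : ℚ) ^ 1)
        (fun _ => (q : ℚ) ^ 0) t).1 ∧
      PG q 0 (scz 2 (20 * p) (20 * p) (40 * p) ((q : ℚ) ^ 1) (fun _ => (q : ℚ) ^ 0) t).2.1 ∧
      ∀ k, PG q 0 ((scz 2 (20 * p) (20 * p) (40 * p) ((q : ℚ) ^ 1)
        (fun _ => (q : ℚ) ^ 0) t).2.2 k) := fun t =>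
    ⟨(hPG t).1, (hPG t).2.1.mono (by norm_num), (hPG t).2.2⟩
  have hres := assemble h2 (2 * p) hL hLq hα hβ eq
    (scz 2 (20 * p) (20 * p) (40 * p) ((q : ℚ) ^ 1) (fun _ => (q : ℚ) ^ 0)) hPG0
    (fun K => if K = 3 then 99 else 0) (by norm_num) (fun r K hc hr f _ => by
      rcases cls_range hc h3 with rfl | rfl
      · show VG q 0 _
        exact k2_zero (by norm_num) _ (fun y => k2_reg1 h5 hc hα hβ _ (hPG (f y)).1
          (hPG (f y)).2.1 (hPG (f y)).2.2)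
      · show VG q 99 _
        have hg := k3_det (A := 25) (d := 2) (L := 4 * p - 1) (r := r) (α := α) (β := β) h5 0 50
          (by norm_num) (by norm_num)
          (fun y => scz 2 (20 * p) (20 * p) (40 * p) ((q : ℚ) ^ 1) (fun _ => (q : ℚ) ^ 0) (f y))
          (fun y => k3_reg h5 hc hα hβ _ (hPG (f y)).1 (by simpa using (hPG (f y)).2.1)
            (by simpa using (hPG (f y)).2.2))
        exact hg.mono (by norm_num))
    (99 * (2 * p - q)) (by
      rw [h3, h4, h8]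
      norm_num
      omega)
  refine (DM_of_scz eq (y := fun _ => 0) hres).mono ?_
  rw [h4]
  push_cast
  linarith

end Pool.Agent.D4
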