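import Pool.Agent.D4.PGen
import Pool.Agent.D4.RangeA

/-!
# The range `p < q ≤ 4 p / 3`

`scz` with `x = q ^ 26`, `y = q ^ 25, q ^ 25`: classes with three poles give `2374` (`k3_det`,
`x = 25`, `τ = 67`), classes with four poles `3773` (`gen`, `n = (2, 4)`, `x = 25`, `y = (27, 29)`,
`τ = 70`).
-/

open Finset Polynomial

namespace Pool.Agent.D4

open Pool.Agent.Z5 (hser Hs VG PG Cls yv gS zz sg2 cl SF OD uz)

variable {q : ℕ} {α : ℕ → ℚ} {β : Fin 2 → ℕ → ℚ} [hq : Fact q.Prime]

variable {p : ℕ}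
  (eq : Fin (2 * p) × Fin (2 * 25) ≃ (Fin (20 * p) ⊕ Fin 2 × Fin (20 * p)) ⊕ Fin (40 * p))

theorem range3 (h5 : 5 ≤ q) (hα : VI 25 q α) (hβ : ∀ j, VI 25 q (β j)) (hb : β 1 1 = 0)
    (h : p < q) (h' : 3 * q ≤ 4 * p) :
    VG q (1278 * p - 912 * q - 7000 : ℤ) (DM p α β eq) := by
  have h0 : 0 < q := by omega
  have h2 : q ≠ 2 := by omega
  have hne : 3 * q ≠ 4 * p := by
    intro h3
    have h4 : 4 ∣ q := by omega
    have h6 : (2 : ℕ) ∣ q := dvd_trans (by norm_num) h4
    have := (Nat.prime_dvd_prime_iff_eq Nat.prime_two hq.out).mp h6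
    omega
  have hL : (4 * p - 1) + 1 = 2 * (2 * p) := by omega
  have hLq : 4 * p - 1 < q ^ 2 := by nlinarith
  have h3 : (4 * p - 1 + 1) / q = 3 := by rw [Nat.div_eq_iff h0]; omega
  have h4 : (4 * p - 1) / q = 3 := by rw [Nat.div_eq_iff h0]; omega
  have h7 := Nat.div_add_mod (4 * p - 1 + 1) q
  rw [h3] at h7
  have h8 : (4 * p - 1 + 1) % q = 4 * p - 3 * q := by omega
  have hPG := scz_PG (q := q) (d := 2) (a := 20 * p) (b := 20 * p) (m := 40 * p)
    (x := (q : ℚ) ^ 26) (y := fun j => (q : ℚ) ^ (fun _ : Fin 2 => 25) j) (i := 26)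
    (j := fun _ => 25) (by exact_mod_cast Z5.VG.zpow_self (q := q) 26)
    (fun _ => by exact_mod_cast Z5.VG.zpow_self (q := q) 25)
  have hPG0 : ∀ t, PG q 0 (scz 2 (20 * p) (20 * p) (40 * p) ((q : ℚ) ^ 26)
        (fun j => (q : ℚ) ^ (fun _ : Fin 2 => 25) j) t).1 ∧
      PG q 0 (scz 2 (20 * p) (20 * p) (40 * p) ((q : ℚ) ^ 26)
        (fun j => (q : ℚ) ^ (fun _ : Fin 2 => 25) j) t).2.1 ∧
      ∀ k, PG q 0 ((scz 2 (20 * p) (20 * p) (40 * p) ((q : ℚ) ^ 26)
        (fun j => (q : ℚ) ^ (fun _ : Fin 2 => 25) j) t).2.2 k) := fun t =>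
    ⟨(hPG t).1, (hPG t).2.1.mono (by norm_num), fun k => ((hPG t).2.2 k).mono (by norm_num)⟩
  have hres := assemble h2 (2 * p) hL hLq hα hβ eq
    (scz 2 (20 * p) (20 * p) (40 * p) ((q : ℚ) ^ 26)
        (fun j => (q : ℚ) ^ (fun _ : Fin 2 => 25) j)) hPG0
    (fun K => if K = 4 then 3773 else if K = 3 then 2374 else 0) (by norm_num)
    (fun r K hc hr f _ => by
      rcases cls_range hc h3 with rfl | rfl
      · show VG q 2374 _
        have hg := k3_det (A := 25) (L := 4 * p - 1) (r := r) (α := α) (β := β) h5 25 67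
          (by norm_num) (by norm_num)
          (fun y => scz 2 (20 * p) (20 * p) (40 * p) ((q : ℚ) ^ 26)
            (fun j => (q : ℚ) ^ (fun _ : Fin 2 => 25) j) (f y))
          (fun y => k3_reg h5 hc hα hβ _ (hPG (f y)).1 ((hPG (f y)).2.1.mono (by norm_num))
            (fun k => ((hPG (f y)).2.2 k).mono (by norm_num)))
        exact hg.mono (by norm_num)
      · show VG q 3773 _
        have hg := gen hc hLq hα hβ (fun j => 2 * (j : ℕ) + 2)
          (fun j k hk hlt => by
            have h1 : 1 ≤ k := (Finset.mem_Icc.mp hk).1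
            have h6 : (j : ℕ) < 2 := j.2
            have hj : j = 1 := by
              apply Fin.ext
              show (j : ℕ) = 1
              have h7 : 2 * k < 2 * (j : ℕ) + 2 := hlt
              omega
            subst hj
            have hk1 : k = 1 := by
              have : 2 * k < 2 * 1 + 2 := hlt
              omega
            subst hk1
            exact hb)
          25 70 (fun j => 27 + 2 * (j : ℕ)) (by norm_num)
          (fun j => by
            have := j.2
            show 27 + 2 * (j : ℕ) ≤ 70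
            omega)
          (fun y => scz 2 (20 * p) (20 * p) (40 * p) ((q : ℚ) ^ 26)
            (fun j => (q : ℚ) ^ (fun _ : Fin 2 => 25) j) (f y))
          (fun y => (hPG (f y)).1) (fun y => (hPG (f y)).2.1.mono (by norm_num))
          (fun y k => ((hPG (f y)).2.2 k).mono (by push_cast; linarith))
        refine hg.mono ?_
        rw [Fin.sum_univ_two]
        norm_num)
    (2798 * p - 912 * q - 1887) (by
      rw [h3, h4, h8]
      norm_num
      omega)
  refine (DM_of_scz eq (y := fun _ => 25) hres).mono ?_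
  rw [h4]
  push_cast
  linarith

end Pool.Agent.D4
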