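import Pool.Agent.D4.PGen
import Pool.Agent.D4.RangeA

/-!
# The range `q ≤ p`

`k = ⌊4 p / q⌋ ≥ 4`, `w = 10 k + 5`, `scz` with `x = q ^ (w + 1)`, `y = q ^ (w - 2), q ^ (w - 4)`:
classes with `k` poles give `650 k ^ 2 - 1100 k - 9` (`gen`, `n = (2, 4)`, `x = y = w`,
`τ = 20 k + 3`), classes with `k + 1` poles `650 k ^ 2 - 100 k - 759` (`τ = 20 k + 16`).
-/

open Finset Polynomial

namespace Pool.Agent.D4

open Pool.Agent.Z5 (hser Hs VG PG Cls yv gS zz sg2 cl SF OD uz)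

variable {q : ℕ} {α : ℕ → ℚ} {β : Fin 2 → ℕ → ℚ} [hq : Fact q.Prime]

variable {p : ℕ}
  (eq : Fin (2 * p) × Fin (2 * 25) ≃ (Fin (20 * p) ⊕ Fin 2 × Fin (20 * p)) ⊕ Fin (40 * p))

/-- the bounds for the classes with `k` and `k + 1` poles -/
private def rangcE (k K : ℕ) : ℤ := if K = k then 650 * (k : ℤ) ^ 2 - 1100 * k - 9 else
    if K = k + 1 then 650 * (k : ℤ) ^ 2 - 100 * k - 759 else 0

private theorem rangcE_zero {k : ℕ} (h : 0 < k) : rangcE k 0 = 0 := by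
  unfold rangcE
  rw [if_neg (by omega), if_neg (by omega)]

private theorem rangcE_self (k : ℕ) : rangcE k k = 650 * (k : ℤ) ^ 2 - 1100 * k - 9 := if_pos rfl

private theorem rangcE_succ (k : ℕ) : rangcE k (k + 1) = 650 * (k : ℤ) ^ 2 - 100 * k - 759 := by
  unfold rangcE
  rw [if_neg (by omega), if_pos rfl]

private theorem rangcE_le (k K : ℕ) : rangcE k K ≤ 650 * (k : ℤ) ^ 2 := by
  have h7 : (0 : ℤ) ≤ (k : ℤ) := Int.natCast_nonneg _
  unfold rangcE
  split_ifs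
  · linarith
  · linarith
  · positivity

private theorem rangc_two_tri (n : ℤ) : 2 * (n * (n + 1) / 2) = n * (n + 1) :=
  Int.mul_ediv_cancel' (even_iff_two_dvd.mp (Int.even_mul_succ_self n))

theorem range4 (h5 : 5 ≤ q) (hα : VI 25 q α) (hβ : ∀ j, VI 25 q (β j)) (hb : β 1 1 = 0)
    (hpq : 4 * p < q ^ 2) (h : q ≤ p) :
    let k : ℤ := (4 * p / q : ℕ)
    VG q (1400 * k * p - 1700 * p - 175 * q * (k * (k + 1)) - 5 * q - 2000 * (k + 1) ^ 2)
      (DM p α β eq) := by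
  intro k
  have h0 : 0 < q := by omega
  have h2 : q ≠ 2 := by omega
  have hL1 : (4 * p - 1) + 1 = 4 * p := by omega
  have hL : (4 * p - 1) + 1 = 2 * (2 * p) := by omega
  have hLq : 4 * p - 1 < q ^ 2 := by omega
  obtain ⟨kn, hkn⟩ : ∃ kn : ℕ, kn = 4 * p / q := ⟨_, rfl⟩
  have hk3 : 4 ≤ kn := by rw [hkn]; exact (Nat.le_div_iff_mul_le h0).mpr (by omega)
  have h3 : (4 * p - 1 + 1) / q = kn := by rw [hL1, hkn]
  have hdm := Nat.div_add_mod (4 * p - 1 + 1) q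
  have hml := Nat.mod_lt (4 * p - 1 + 1) h0
  rw [h3, hL1] at hdm
  rw [hL1] at hml
  have hkk : k = (kn : ℤ) := by rw [hkn]
  have hn : ∀ j, ∀ k ∈ Finset.Icc 1 (25 - 1), 2 * k < (![2, 4] : Fin 2 → ℕ) j → β j k = 0 := by
    intro j k hk hlt
    rw [Finset.mem_Icc] at hk
    fin_cases j
    · simp only [Fin.zero_eta, Matrix.cons_val_zero] at hlt
      omega
    · simp only [Fin.mk_one, Matrix.cons_val_one, Matrix.cons_val_zero] at hlt ⊢
      have : k = 1 := by omega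
      rw [this]; exact hb
  -- the scaled columns
  have hy : ∀ k : Fin 2, VG q ((10 * (kn : ℤ) + 5) - ((![2, 4] : Fin 2 → ℕ) k : ℤ))
      ((q : ℚ) ^ ((![10 * kn + 3, 10 * kn + 1] : Fin 2 → ℕ) k)) := by
    intro k
    have h6 := Z5.VG.pow_self (q := q) ((![10 * kn + 3, 10 * kn + 1] : Fin 2 → ℕ) k)
    have h7 : (((![10 * kn + 3, 10 * kn + 1] : Fin 2 → ℕ) k : ℕ) : ℤ)
        = (10 * (kn : ℤ) + 5) - ((![2, 4] : Fin 2 → ℕ) k : ℤ) := by
      fin_cases k
      · simp only [Fin.zero_eta, Matrix.cons_val_zero]; push_cast; ring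
      · simp only [Fin.mk_one, Matrix.cons_val_one, Matrix.cons_val_zero]; push_cast; ring
    rwa [h7] at h6
  have hx : VG q ((10 * (kn : ℤ) + 5) + 1) ((q : ℚ) ^ (10 * kn + 6)) := by
    have h6 := Z5.VG.pow_self (q := q) (10 * kn + 6)
    refine h6.mono ?_
    push_cast; linarith
  have hPG := fun t => scz_PG (q := q) (d := 2) (a := 20 * p) (b := 20 * p) (m := 40 * p) hx hy t
  have hn24 : ∀ j : Fin 2, ((![2, 4] : Fin 2 → ℕ) j : ℤ) ≤ 4 := by
    intro j; fin_cases j <;> simp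
  have hPG0 : ∀ t, PG q 0 (scz 2 (20 * p) (20 * p) (40 * p) ((q : ℚ) ^ (10 * kn + 6))
        (fun j => (q : ℚ) ^ ((![10 * kn + 3, 10 * kn + 1] : Fin 2 → ℕ) j)) t).1 ∧
      PG q 0 (scz 2 (20 * p) (20 * p) (40 * p) ((q : ℚ) ^ (10 * kn + 6))
        (fun j => (q : ℚ) ^ ((![10 * kn + 3, 10 * kn + 1] : Fin 2 → ℕ) j)) t).2.1 ∧
      ∀ j, PG q 0 ((scz 2 (20 * p) (20 * p) (40 * p) ((q : ℚ) ^ (10 * kn + 6))
        (fun j => (q : ℚ) ^ ((![10 * kn + 3, 10 * kn + 1] : Fin 2 → ℕ) j)) t).2.2 j) :=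
    fun t => ⟨(hPG t).1, (hPG t).2.1.mono (by omega), fun j => ((hPG t).2.2 j).mono (by
      have := hn24 j; omega)⟩
  have hcls : ∀ r K, Cls q (4 * p - 1) r K → r < (4 * p - 1 - r) % q →
      ∀ f : Fin K × Fin (2 * 25) → (Fin (20 * p) ⊕ Fin 2 × Fin (20 * p)) ⊕ Fin (40 * p),
      Function.Injective f →
      VG q (rangcE kn K) (cmat 25 q (4 * p - 1) α β r K (fun y =>
        scz 2 (20 * p) (20 * p) (40 * p) ((q : ℚ) ^ (10 * kn + 6))
          (fun j => (q : ℚ) ^ ((![10 * kn + 3, 10 * kn + 1] : Fin 2 → ℕ) j)) (f y))).det := by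
    intro r K hc hr f _
    rcases cls_range hc h3 with h5 | h5
    · subst h5
      have hg := gen hc hLq hα hβ ![2, 4] hn (10 * K + 5) (20 * K + 3) (fun _ => 10 * K + 5)
        (by omega) (fun _ => by omega)
        (fun y => scz 2 (20 * p) (20 * p) (40 * p) ((q : ℚ) ^ (10 * K + 6))
          (fun j => (q : ℚ) ^ ((![10 * K + 3, 10 * K + 1] : Fin 2 → ℕ) j)) (f y))
        (fun y => (hPG (f y)).1)
        (fun y => (hPG (f y)).2.1.mono (by push_cast; linarith))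
        (fun y j => ((hPG (f y)).2.2 j).mono (by push_cast; linarith))
      refine hg.mono ?_
      rw [rangcE_self, Fin.sum_univ_two]
      have t1 := rangc_two_tri ((20 * K + 3 : ℕ) : ℤ)
      have t2 := rangc_two_tri (((20 * K + 3 : ℕ) : ℤ) - ((10 * K + 5 : ℕ) : ℤ))
      push_cast at t1 t2 ⊢
      linarith
    · subst h5
      have hg := gen hc hLq hα hβ ![2, 4] hn (10 * kn + 5) (20 * kn + 16) (fun _ => 10 * kn + 5)
        (by omega) (fun _ => by omega)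
        (fun y => scz 2 (20 * p) (20 * p) (40 * p) ((q : ℚ) ^ (10 * kn + 6))
          (fun j => (q : ℚ) ^ ((![10 * kn + 3, 10 * kn + 1] : Fin 2 → ℕ) j)) (f y))
        (fun y => (hPG (f y)).1)
        (fun y => (hPG (f y)).2.1.mono (by push_cast; linarith))
        (fun y j => ((hPG (f y)).2.2 j).mono (by push_cast; linarith))
      refine hg.mono ?_
      rw [rangcE_succ, Fin.sum_univ_two]
      have t1 := rangc_two_tri ((20 * kn + 16 : ℕ) : ℤ)
      have t2 := rangc_two_tri (((20 * kn + 16 : ℕ) : ℤ) - ((10 * kn + 5 : ℕ) : ℤ))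
      push_cast at t1 t2 ⊢
      linarith
  have hres := assemble h2 (2 * p) hL hLq hα hβ eq
    (scz 2 (20 * p) (20 * p) (40 * p) ((q : ℚ) ^ (10 * kn + 6))
      (fun j => (q : ℚ) ^ ((![10 * kn + 3, 10 * kn + 1] : Fin 2 → ℕ) j))) hPG0
    (rangcE kn) (rangcE_zero (by omega)) hcls
    (2000 * kn * p - 1500 * p - 175 * q * (kn * (kn + 1)) - 5 * q - 325 * kn ^ 2) (by
      have h9 := rangcE_le kn
        (if 2 ∣ ((4 * p - 1) / q + 1) then (4 * p - 1) / q + 1 else (4 * p - 1) / q)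
      have h10 : ((4 * p % q : ℕ) : ℤ) = 4 * p - q * kn := by
        have : ((q * kn + 4 * p % q : ℕ) : ℤ) = ((4 * p : ℕ) : ℤ) := by rw [hdm]
        push_cast at this ⊢
        linarith
      have h11 : ((q - 4 * p % q : ℕ) : ℤ) = q - (4 * p - q * kn) := by
        rw [Nat.cast_sub hml.le, h10]
      have h12 : (0 : ℤ) ≤ q := Int.natCast_nonneg _
      rw [h3, hL1, rangcE_self, rangcE_succ, h10, h11]
      have h13 : ((4 * (p : ℤ) - q * kn) * (650 * (kn : ℤ) ^ 2 - 100 * kn - 759)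
          + (q - (4 * p - q * kn)) * (650 * (kn : ℤ) ^ 2 - 1100 * kn - 9))
          = 4000 * kn * p - 3000 * p - 350 * q * (kn * (kn + 1)) - 9 * q := by ring
      rw [h13]
      linarith)
  refine (DM_of_scz eq hres).mono ?_
  have h13 : (((4 * p - 1) / q + 1 : ℕ) : ℤ) ≤ kn + 1 := by
    have : (4 * p - 1) / q ≤ kn := by
      rw [hkn]
      exact Nat.div_le_div_right (by omega)
    push_cast
    have h14 : (((4 * p - 1) / q : ℕ) : ℤ) ≤ kn := by exact_mod_cast this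
    linarith
  have h7 : (0 : ℤ) ≤ (kn : ℤ) := Int.natCast_nonneg _
  rw [hkk]
  simp only [Matrix.cons_val_zero, Matrix.cons_val_one]
  push_cast at h13 ⊢
  nlinarith

end Pool.Agent.D4
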