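import Pool.Agent.D4.PDefs
import Pool.Agent.Z5.SmallPrimes
import Pool.Agent.Z9.SmallPrimes

/-!
# Small primes

Adaptation of `Pool/Agent/Z9/SmallPrimes.lean`: the columns are replaced by the polynomials `Cb i`
(all `T`-, `P`-, `Q_0`- and `Q_1`-columns).
-/

open Finset

namespace Pool.Agent.D4.SmallP

open Pool.Agent.Z5 (hser hser_mul hser_add xser Hs VG SF SF_pos SF_succ)
open Pool.Agent.Z5.SmallP (WS bs WS_bs Cb Cb_natDegree bprod_succ VG_Hs VG_mul_nat tm det_tm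
  Cb_eq_sum val_col val_four padicValNat_SF)
open Pool.Agent.Z9.SmallP (hser_Cb)
open Pool.Agent.D4

variable {q : ℕ} [hq : Fact q.Prime] {l : ℕ} {d : ℕ}

/-! ### the kernels -/

theorem VG_kerQ {A : ℕ} {β : ℕ → ℚ} {V : ℕ}
    (hβ : ∀ k ∈ Finset.Icc 1 (A - 1), VG q (-(V : ℤ)) (β k)) (n : ℕ) :
    VG q (-(V : ℤ)) (PowerSeries.coeff n (kerQ A β)) := by
  rw [kerQ, map_sum]
  refine VG.sum _ _ fun k hk => ?_
  rw [PowerSeries.coeff_C_mul, PowerSeries.coeff_X_pow]
  split_ifs with h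
  · rw [mul_one]; exact hβ k hk
  · rw [mul_zero]; exact VG.zero _

theorem VG_ker {A L u : ℕ} {α : ℕ → ℚ} {V : ℕ}
    (hα : ∀ k ∈ Finset.Icc 1 (A - 1), VG q (-(V : ℤ)) (α k))
    (hu : u ≤ L) (hL : L < q ^ (l + 1)) (k : ℕ) :
    VG q (-(((k : ℤ) + 1) * l) - V) (PowerSeries.coeff k (kerP A L α u)) := by
  rw [kerP, map_add, PowerSeries.coeff_mk]
  have hk0 : 0 ≤ ((k : ℤ) + 1) * l := by positivity
  refine VG.add ?_ ?_
  · split_ifs with h1
    · refine VG.neg ?_
      have e1 := (VG_Hs (q := q) (l := l) (M := u) (by omega) (k + 1))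
      have e2 := (VG_Hs (q := q) (l := l) (M := L - u) (by omega) (k + 1))
      have e3 : VG q 0 ((-1 : ℚ) ^ k) := by
        have := (VG.one (q := q)).neg.pow_zero k
        simpa using this
      refine (e1.mono ?_).add ((e3.mul e2).mono ?_) <;> push_cast <;> linarith
    · exact VG.zero _
  · have h2 : (2 : PowerSeries ℚ) = PowerSeries.C 2 := (map_ofNat (PowerSeries.C (R := ℚ)) 2).symm
    rw [h2, PowerSeries.coeff_C_mul]
    have e1 := VG_mul_nat (VG_kerQ hα k) 2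
    push_cast at e1
    exact e1.mono (by linarith)

/-! ### column operations -/

omit hq in
theorem tvec_add' (A L u : ℕ) (α : ℕ → ℚ) (β : Fin d → ℕ → ℚ) (c c' : Col d) :
    tvec A L α β u (c + c') = tvec A L α β u c + tvec A L α β u c' := by
  simp only [tvec, Prod.fst_add, Prod.snd_add, Pi.add_apply, hser_add, mul_add, sum_add_distrib]
  ring

omit hq in
theorem tvec_smul' (A L u : ℕ) (α : ℕ → ℚ) (β : Fin d → ℕ → ℚ) (r : ℚ) (c : Col d) :
    tvec A L α β u (r • c) = r • tvec A L α β u c := by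
  simp only [tvec, Prod.smul_fst, Prod.smul_snd, Pi.smul_apply, Pool.Agent.Z5.hser_smul, smul_add,
    mul_smul_comm, smul_sum]

/-- `tvec` as a linear map -/
noncomputable def tvecL' (A L : ℕ) (α : ℕ → ℚ) (β : Fin d → ℕ → ℚ) (u : ℕ) :
    Col d →ₗ[ℚ] PowerSeries ℚ where
  toFun := tvec A L α β u
  map_add' := tvec_add' A L u α β
  map_smul' := tvec_smul' A L u α β

omit hq in
theorem dmat_mul' {κ κ' : Type*} [Fintype κ] (A L : ℕ) (α : ℕ → ℚ) (β : Fin d → ℕ → ℚ) (h : ℕ)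
    (c : κ → Col d) (U : Matrix κ κ' ℚ) :
    dmat A L α β h (fun j => ∑ k, U k j • c k) = dmat A L α β h c * U := by
  ext r j
  simp only [dmat, Matrix.of_apply, Matrix.mul_apply]
  have h1 : tvec A L α β r.1 (∑ k, U k j • c k) = ∑ k, tvec A L α β r.1 (U k j • c k) :=
    map_sum (tvecL' A L α β r.1) _ _
  rw [h1, map_sum]
  refine Finset.sum_congr rfl fun k _ => ?_
  rw [tvec_smul', PowerSeries.coeff_smul, smul_eq_mul, mul_comm]

/-! ### the new columns -/

/-- the columns with the factorial basis -/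
noncomputable def cbd (d a b m : ℕ) : (Fin a ⊕ Fin d × Fin b) ⊕ Fin m → Col d :=
  Sum.elim (Sum.elim (fun i => (0, Cb i, 0)) (fun z => (0, 0, Pi.single z.1 (Cb z.2))))
    (fun i => (Cb i, 0, 0))

/-- the index of a column in its family -/
def ixd (d a b m : ℕ) : (Fin a ⊕ Fin d × Fin b) ⊕ Fin m → ℕ :=
  Sum.elim (Sum.elim (fun i => (i : ℕ)) (fun z => (z.2 : ℕ))) (fun i => (i : ℕ))

/-- the block diagonal matrix with `d` blocks `tm b` -/
noncomputable def tmd (d b : ℕ) : Matrix (Fin d × Fin b) (Fin d × Fin b) ℚ :=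
  Matrix.kroneckerMap (· * ·) (1 : Matrix (Fin d) (Fin d) ℚ) (tm b)

omit hq in
theorem det_tmd (d b : ℕ) : (tmd d b).det = 1 := by
  rw [tmd, Matrix.det_kronecker, det_tm, Matrix.det_one, one_pow, one_pow, mul_one]

/-- change of basis matrix -/
noncomputable def umd (d a b m : ℕ) :
    Matrix ((Fin a ⊕ Fin d × Fin b) ⊕ Fin m) ((Fin a ⊕ Fin d × Fin b) ⊕ Fin m) ℚ :=
  Matrix.fromBlocks (Matrix.fromBlocks (tm a) 0 0 (tmd d b)) 0 0 (tm m)

omit hq in
theorem det_umd (d a b m : ℕ) : (umd d a b m).det = 1 := by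
  rw [umd, Matrix.det_fromBlocks_zero₂₁, Matrix.det_fromBlocks_zero₂₁, det_tm, det_tmd, det_tm]
  norm_num

omit hq in
theorem cbd_eq (d a b m : ℕ) (j : (Fin a ⊕ Fin d × Fin b) ⊕ Fin m) :
    cbd d a b m j = ∑ k, umd d a b m k j • stdc d a b m k := by
  have hsum : ∀ {n : ℕ} (f : Fin n → Polynomial ℚ),
      ((∑ k, f k, (0 : Polynomial ℚ), (0 : Fin d → Polynomial ℚ)) : Col d)
      = ∑ k, (f k, (0 : Polynomial ℚ), (0 : Fin d → Polynomial ℚ)) := by
    intro n f
    ext <;> simp [Prod.fst_sum, Prod.snd_sum]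
  have hsum2 : ∀ {n : ℕ} (f : Fin n → Polynomial ℚ),
      (((0 : Polynomial ℚ), ∑ k, f k, (0 : Fin d → Polynomial ℚ)) : Col d)
      = ∑ k, ((0 : Polynomial ℚ), f k, (0 : Fin d → Polynomial ℚ)) := by
    intro n f
    ext <;> simp [Prod.fst_sum, Prod.snd_sum]
  have hsum3 : ∀ {n : ℕ} (x : Fin d) (f : Fin n → Polynomial ℚ),
      (((0 : Polynomial ℚ), (0 : Polynomial ℚ), Pi.single x (∑ k, f k)) : Col d)
      = ∑ k, ((0 : Polynomial ℚ), (0 : Polynomial ℚ), Pi.single x (f k)) := by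
    intro n x f
    refine Prod.ext ?_ (Prod.ext ?_ ?_)
    · simp [Prod.fst_sum]
    · simp [Prod.fst_sum, Prod.snd_sum]
    · simp only [Prod.snd_sum]
      exact map_sum (AddMonoidHom.single (fun _ : Fin d => Polynomial ℚ) x) f univ
  rw [Fintype.sum_sum_type, Fintype.sum_sum_type]
  rcases j with (j | j) | j
  · simp only [umd, stdc, cbd, Sum.elim_inl, Sum.elim_inr, Matrix.fromBlocks_apply₁₁,
      Matrix.fromBlocks_apply₂₁, Matrix.zero_apply, zero_smul, Finset.sum_const_zero, add_zero]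
    rw [Cb_eq_sum j, hsum2]
    refine Finset.sum_congr rfl fun k _ => ?_
    simp [Prod.smul_mk]
  · simp only [umd, stdc, cbd, Sum.elim_inl, Sum.elim_inr, Matrix.fromBlocks_apply₁₁,
      Matrix.fromBlocks_apply₂₁, Matrix.fromBlocks_apply₁₂, Matrix.fromBlocks_apply₂₂,
      Matrix.zero_apply, zero_smul, Finset.sum_const_zero, add_zero, zero_add]
    rw [Fintype.sum_prod_type, Finset.sum_eq_single j.1]
    · rw [Cb_eq_sum j.2, hsum3]
      refine Finset.sum_congr rfl fun k _ => ?_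
      simp only [tmd, Matrix.kroneckerMap_apply, Matrix.one_apply_eq, one_mul, Prod.smul_mk,
        smul_zero]
      rw [← Pi.single_smul]
    · intro x _ hx
      refine Finset.sum_eq_zero fun k _ => ?_
      simp only [tmd, Matrix.kroneckerMap_apply, Matrix.one_apply_ne hx, zero_mul, zero_smul]
    · intro h; exact absurd (Finset.mem_univ _) h
  · simp only [umd, stdc, cbd, Sum.elim_inl, Sum.elim_inr, Matrix.fromBlocks_apply₁₂,
      Matrix.fromBlocks_apply₂₂, Matrix.zero_apply, zero_smul, Finset.sum_const_zero, zero_add]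
    rw [Cb_eq_sum j, hsum]
    refine Finset.sum_congr rfl fun k _ => ?_
    simp [Prod.smul_mk]

omit hq in
theorem det_cbd (p : ℕ) (α : ℕ → ℚ) (β : Fin 2 → ℕ → ℚ)
    (eq : Fin (2 * p) × Fin (2 * 25) ≃ (Fin (20 * p) ⊕ Fin 2 × Fin (20 * p)) ⊕ Fin (40 * p)) :
    ((dmat 25 (4 * p - 1) α β (2 * p)
      (cbd 2 (20 * p) (20 * p) (40 * p))).submatrix id eq).det = DM p α β eq := by
  have h1 : dmat 25 (4 * p - 1) α β (2 * p) (cbd 2 (20 * p) (20 * p) (40 * p)) =
      dmat 25 (4 * p - 1) α β (2 * p) (stdc 2 (20 * p) (20 * p) (40 * p)) *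
        umd 2 (20 * p) (20 * p) (40 * p) := by
    rw [← dmat_mul']
    congr 1
    funext j
    exact cbd_eq _ _ _ _ j
  rw [h1, Matrix.submatrix_mul _ _ id eq eq eq.bijective, Matrix.det_mul,
    Matrix.det_submatrix_equiv_self, det_umd, mul_one, DM]

/-- the entries of the column `j` -/
theorem VG_entry {p u : ℕ} (hu : u < 2 * p) {α : ℕ → ℚ} {β : Fin 2 → ℕ → ℚ} {V : ℕ}
    (hα : ∀ k ∈ Finset.Icc 1 (25 - 1), VG q (-(V : ℤ)) (α k))
    (hβ : ∀ x, ∀ k ∈ Finset.Icc 1 (25 - 1), VG q (-(V : ℤ)) (β x k))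
    (hl : 80 * p < q ^ (l + 1)) (j : (Fin (20 * p) ⊕ Fin 2 × Fin (20 * p)) ⊕ Fin (40 * p)) {k : ℕ}
    (hk : k < 2 * 25) :
    VG q (padicValRat q ((4 : ℚ) ^ ixd _ _ _ _ j * (2 * ixd _ _ _ _ j).factorial) - (50 * l + V))
      (PowerSeries.coeff k
        (tvec 25 (4 * p - 1) α β u (cbd 2 (20 * p) (20 * p) (40 * p) j))) := by
  have hix : ixd 2 (20 * p) (20 * p) (40 * p) j < 40 * p := by
    rcases j with (j | j) | j
    · have := j.2; simp only [ixd, Sum.elim_inl]; omega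
    · have := j.2.2; simp only [ixd, Sum.elim_inl, Sum.elim_inr]; omega
    · have := j.2; simp only [ixd, Sum.elim_inr]; omega
  set i := ixd 2 (20 * p) (20 * p) (40 * p) j with hi
  set e : ℤ := padicValRat q ((4 : ℚ) ^ i * (2 * i).factorial) with he
  have hW : WS q l (bs (2 * i) ((2 * p : ℤ) - u + i - 1)) := WS_bs (by omega) _
  have hH : ∀ n : ℕ, VG q (e - n * l) (PowerSeries.coeff n (hser (4 * p - 1) u (Cb i))) := by
    intro n
    rw [hser_Cb hu, PowerSeries.coeff_C_mul]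
    have := (VG.self (q := q) ((4 : ℚ) ^ i * (2 * i).factorial)).mul (hW n)
    exact this.mono (by rw [← he]; linarith)
  have hkl : (k : ℤ) * l ≤ 49 * l := by
    have h1 : (k : ℤ) ≤ 49 := by omega
    exact mul_le_mul_of_nonneg_right h1 (by positivity)
  have hl0 : (0 : ℤ) ≤ l := by positivity
  have hV0 : (0 : ℤ) ≤ V := by positivity
  have h0 : ∀ u, hser (4 * p - 1) u 0 = 0 := fun u => Pool.Agent.Z5.hser_zero _ _
  rcases j with (j | j) | j
  · have h1 : tvec 25 (4 * p - 1) α β u (cbd 2 (20 * p) (20 * p) (40 * p)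
        (Sum.inl (Sum.inl j))) = kerP 25 (4 * p - 1) α u * hser (4 * p - 1) u (Cb i) := by
      show tvec 25 (4 * p - 1) α β u (0, Cb i, 0) = _
      simp [tvec, h0]
    rw [h1, PowerSeries.coeff_mul]
    refine VG.sum _ _ fun x hx => ?_
    rw [HasAntidiagonal.mem_antidiagonal] at hx
    have h2 := (VG_ker hα (L := 4 * p - 1) (u := u) (l := l) (by omega) (by omega) x.1).mul (hH x.2)
    refine h2.mono ?_
    have h3 : ((x.1 : ℤ) + x.2) * l = k * l := by rw [← hx]; push_cast; ring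
    linarith [add_mul (x.1 : ℤ) x.2 l, add_mul (x.1 : ℤ) 1 l]
  · have h1 : tvec 25 (4 * p - 1) α β u (cbd 2 (20 * p) (20 * p) (40 * p)
        (Sum.inl (Sum.inr j))) = kerQ 25 (β j.1) * hser (4 * p - 1) u (Cb i) := by
      show tvec 25 (4 * p - 1) α β u (0, 0, Pi.single j.1 (Cb i)) = _
      rw [tvec]
      simp only [h0, mul_zero, zero_add]
      rw [Finset.sum_eq_single j.1]
      · rw [Pi.single_eq_same]
      · intro x _ hx
        rw [Pi.single_eq_of_ne hx, h0, mul_zero]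
      · intro h; exact absurd (Finset.mem_univ _) h
    rw [h1, PowerSeries.coeff_mul]
    refine VG.sum _ _ fun x hx => ?_
    rw [HasAntidiagonal.mem_antidiagonal] at hx
    have h2 := (VG_kerQ (hβ j.1) x.1).mul (hH x.2)
    refine h2.mono ?_
    have h3 : (x.2 : ℤ) * l ≤ k * l := by
      refine mul_le_mul_of_nonneg_right ?_ hl0
      rw [← hx]; push_cast; linarith [Int.natCast_nonneg x.1]
    linarith
  · have h1 : tvec 25 (4 * p - 1) α β u (cbd 2 (20 * p) (20 * p) (40 * p)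
        (Sum.inr j)) = hser (4 * p - 1) u (Cb i) := by
      show tvec 25 (4 * p - 1) α β u (Cb i, 0, 0) = _
      simp [tvec, h0]
    rw [h1]
    exact (hH k).mono (by linarith)

/-- valuation of the determinant -/
theorem VG_DM {p : ℕ} {α : ℕ → ℚ} {β : Fin 2 → ℕ → ℚ} {V : ℕ}
    (hα : ∀ k ∈ Finset.Icc 1 (25 - 1), VG q (-(V : ℤ)) (α k))
    (hβ : ∀ x, ∀ k ∈ Finset.Icc 1 (25 - 1), VG q (-(V : ℤ)) (β x k)) (hl : 80 * p < q ^ (l + 1))
    (eq : Fin (2 * p) × Fin (2 * 25) ≃ (Fin (20 * p) ⊕ Fin 2 × Fin (20 * p)) ⊕ Fin (40 * p)) :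
    VG q (∑ j, (padicValRat q ((4 : ℚ) ^ ixd 2 (20 * p) (20 * p) (40 * p) j *
      (2 * ixd 2 (20 * p) (20 * p) (40 * p) j).factorial) - (50 * l + V))) (DM p α β eq) := by
  rw [← det_cbd]
  have h1 := VG.det (q := q)
    ((dmat 25 (4 * p - 1) α β (2 * p)
      (cbd 2 (20 * p) (20 * p) (40 * p))).submatrix id eq) (fun _ => 0)
    (fun r => padicValRat q ((4 : ℚ) ^ ixd 2 (20 * p) (20 * p) (40 * p) (eq r) *
      (2 * ixd 2 (20 * p) (20 * p) (40 * p) (eq r)).factorial) - (50 * l + V)) ?_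
  · rw [Equiv.sum_comp eq (fun j => padicValRat q ((4 : ℚ) ^ ixd 2 (20 * p) (20 * p) (40 * p) j *
      (2 * ixd 2 (20 * p) (20 * p) (40 * p) j).factorial) - (50 * (l : ℤ) + V))] at h1
    simpa using h1
  · intro x y
    rw [zero_add]
    exact VG_entry x.1.2 hα hβ hl (eq y) x.2.2

theorem sum_cols (p : ℕ) (w : ℤ) :
    ∑ j, (padicValRat q ((4 : ℚ) ^ ixd 2 (20 * p) (20 * p) (40 * p) j *
      (2 * ixd 2 (20 * p) (20 * p) (40 * p) j).factorial) - w) =
    padicValNat q (RR p) + (if q = 2 then 2800 * (p : ℤ) ^ 2 - 100 * p else 0) - 100 * p * w := by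
  have hone : ∀ n : ℕ, ∑ i : Fin n, (padicValRat q ((4 : ℚ) ^ (i : ℕ) * (2 * (i : ℕ)).factorial) - w)
      = padicValNat q (SF n) + padicValRat q 4 * (∑ i ∈ range n, i : ℕ) - n * w := by
    intro n
    rw [Fin.sum_univ_eq_sum_range (fun i : ℕ =>
      padicValRat q ((4 : ℚ) ^ i * (2 * i).factorial) - w) n]
    rw [Finset.sum_sub_distrib, padicValNat_SF, Finset.sum_const, card_range, nsmul_eq_mul]
    rw [Finset.sum_congr rfl fun i _ => val_col (q := q) i, Finset.sum_add_distrib]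
    push_cast
    rw [Finset.mul_sum]
    rw [Finset.sum_congr rfl fun (i : ℕ) _ => mul_comm (i : ℤ) (padicValRat q 4)]
    ring
  rw [Fintype.sum_sum_type, Fintype.sum_sum_type, Fintype.sum_prod_type]
  simp only [ixd, Sum.elim_inl, Sum.elim_inr]
  rw [Fin.sum_univ_two, hone, hone]
  have hRR : (padicValNat q (RR p) : ℤ) =
      padicValNat q (SF (40 * p)) + 3 * padicValNat q (SF (20 * p)) := by
    rw [RR, padicValNat.mul (SF_pos _).ne' (pow_ne_zero _ (SF_pos _).ne'), padicValNat.pow]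
    push_cast
    ring
  have hg : ∀ n : ℕ, ((∑ i ∈ range n, i : ℕ) : ℤ) * 2 = n * (n - 1) := by
    intro n
    have := Finset.sum_range_id_mul_two n
    rcases n with _ | n
    · simp
    · have h2 : ((∑ i ∈ range (n + 1), i : ℕ) : ℤ) * 2 = ((n + 1) * (n + 1 - 1) : ℕ) := by
        exact_mod_cast this
      rw [h2]
      push_cast
      ring
  have hg5 := hg (20 * p)
  have hg8 := hg (40 * p)
  rw [hRR, val_four]
  split_ifs with h
  · push_cast at hg5 hg8 ⊢
    linarith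
  · push_cast
    ring

end Pool.Agent.D4.SmallP

namespace Pool.Agent.D4

open Pool.Agent.Z5 (VG)
open SmallP

private theorem log_aux {p q l : ℕ} (hp : 2 ≤ p) (h2 : q ^ l ≤ 80 * p) (hq : 0 < q) :
    (l : ℝ) * Real.log q ≤ 8 * Real.log p := by
  have hp' : (2 : ℝ) ≤ p := by exact_mod_cast hp
  have h3 : ((q : ℝ)) ^ l ≤ (p : ℝ) ^ 8 := by
    have h4 : ((q : ℝ)) ^ l ≤ 80 * p := by exact_mod_cast h2
    refine h4.trans ?_
    have h5 : (80 : ℝ) ≤ (p : ℝ) ^ 7 := by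
      have := pow_le_pow_left₀ (by norm_num : (0 : ℝ) ≤ 2) hp' 7
      norm_num at this
      linarith
    nlinarith
  have h6 := Real.log_le_log (by positivity) h3
  rw [Real.log_pow, Real.log_pow] at h6
  exact_mod_cast h6

private theorem fin_aux1 {R P lq lp W Y : ℝ} (h4 : 100 * P * lq ≤ 100 * P * lp)
    (h3 : 100 * P * (W * lq) ≤ 100 * P * (50 * (8 * lp) + Y * lp)) :
    (R + 2800 * P ^ 2) * lq - (100 * 50 * 8 + 100 * Y + 100) * P * lp ≤
      (R + (2800 * P ^ 2 - 100 * P) - 100 * P * W) * lq := by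
  nlinarith

private theorem fin_aux2 {R P lq lp W Y : ℝ} (h4 : 0 ≤ 100 * P * lp)
    (h3 : 100 * P * (W * lq) ≤ 100 * P * (50 * (8 * lp) + Y * lp)) :
    (R + 0) * lq - (100 * 50 * 8 + 100 * Y + 100) * P * lp ≤
      (R + 0 - 100 * P * W) * lq := by
  nlinarith

private theorem combine {p q l V N R : ℕ} {W : ℤ} (hp : 2 ≤ p) (hqp : q.Prime) (hN0 : N ≠ 0)
    (hl : q ^ l ≤ 80 * p) (hV : q ^ V ≤ N)
    (h1 : (R : ℤ) + (if q = 2 then 2800 * (p : ℤ) ^ 2 - 100 * p else 0)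
      - 100 * p * (50 * l + V) ≤ W) :
    ((R : ℝ) + if q = 2 then 2800 * (p : ℝ) ^ 2 else 0) * Real.log q
      - (100 * 50 * 8 + 100 * (Real.log N / Real.log 2) + 100) * p * Real.log p ≤
      (W : ℝ) * Real.log q := by
  set D : ℝ := Real.log N with hD
  have hq1 : 1 < q := hqp.one_lt
  have hp' : (2 : ℝ) ≤ p := by exact_mod_cast hp
  have hp0 : (0 : ℝ) < p := by linarith
  have hlog2 : 0 < Real.log 2 := Real.log_pos (by norm_num)
  have hlp : Real.log 2 ≤ Real.log p := Real.log_le_log (by norm_num) hp'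
  have hlq : 0 ≤ Real.log q := Real.log_nonneg (by exact_mod_cast hq1.le)
  -- `l log q`
  have hll : (l : ℝ) * Real.log q ≤ 8 * Real.log p := log_aux hp hl hqp.pos
  have hVl : (V : ℝ) * Real.log q ≤ D := by
    have h3 : ((q : ℝ)) ^ V ≤ N := by exact_mod_cast hV
    have h6 := Real.log_le_log (by positivity) h3
    rwa [Real.log_pow] at h6
  have hD0 : 0 ≤ D := Real.log_nonneg (by exact_mod_cast Nat.one_le_iff_ne_zero.2 hN0)
  have hDp : D ≤ D / Real.log 2 * Real.log p := by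
    rw [div_mul_eq_mul_div, le_div_iff₀ hlog2]
    exact mul_le_mul_of_nonneg_left hlp hD0
  have h1' : ((R : ℝ) + (if q = 2 then 2800 * (p : ℝ) ^ 2 - 100 * p else 0)
      - 100 * p * (50 * l + V)) ≤ (W : ℝ) := by
    have h2 : (((R : ℤ) + (if q = 2 then 2800 * (p : ℤ) ^ 2 - 100 * p else 0)
      - 100 * p * (50 * l + V) : ℤ) : ℝ) ≤ ((W : ℤ) : ℝ) := by
      exact Int.cast_le.2 h1
    rw [Int.cast_sub, Int.cast_add] at h2
    by_cases h : q = 2
    · rw [if_pos h] at h2 ⊢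
      push_cast at h2 ⊢
      simpa using h2
    · rw [if_neg h] at h2 ⊢
      push_cast at h2 ⊢
      simpa using h2
  have h2 := mul_le_mul_of_nonneg_right h1' hlq
  refine le_trans ?_ h2
  have h3 : (100 * (p : ℝ)) * ((50 * l + V) * Real.log q) ≤
      (100 * (p : ℝ)) * (50 * (8 * Real.log p) + D / Real.log 2 * Real.log p) := by
    refine mul_le_mul_of_nonneg_left ?_ (by positivity)
    rw [add_mul, mul_assoc]
    linarith
  by_cases h : q = 2
  · rw [if_pos h, if_pos h]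
    have h4 : 100 * (p : ℝ) * Real.log q ≤ 100 * p * Real.log p := by
      rw [h]
      exact mul_le_mul_of_nonneg_left hlp (by positivity)
    exact fin_aux1 h4 h3
  · rw [if_neg h, if_neg h]
    have h4 : 0 ≤ 100 * (p : ℝ) * Real.log p := mul_nonneg (by positivity) (hlog2.le.trans hlp)
    exact fin_aux2 h4 h3

private theorem gen_aux {q N : ℕ} [Fact q.Prime] (hN0 : N ≠ 0) (x : ℚ) (hx : x.den ∣ N) :
    VG q (-(padicValNat q N : ℤ)) x := by
  refine Or.inr ?_
  have h1 : padicValNat q x.den ≤ padicValNat q N :=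
    (padicValNat_dvd_iff_le hN0).1 ((pow_padicValNat_dvd (p := q) (n := x.den)).trans hx)
  rw [padicValRat]
  have : (0 : ℤ) ≤ padicValInt q x.num := Int.natCast_nonneg _
  omega

/-- **Small primes.** -/
theorem small_primes (α : ℕ → ℚ) (β : Fin 2 → ℕ → ℚ) : ∃ C : ℝ, ∀ p : ℕ, 2 ≤ p →
    ∀ (eq : Fin (2 * p) × Fin (2 * 25) ≃ (Fin (20 * p) ⊕ Fin 2 × Fin (20 * p)) ⊕ Fin (40 * p))
      (q : ℕ), q.Prime → q ≤ 4 * p → DM p α β eq ≠ 0 →
    ((padicValNat q (RR p) : ℝ) + if q = 2 then 2800 * (p : ℝ) ^ 2 else 0) * Real.log q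
      - C * p * Real.log p ≤ (padicValRat q (DM p α β eq) : ℝ) * Real.log q := by
  obtain ⟨N, hN0, hmem⟩ : ∃ N : ℕ, N ≠ 0 ∧ ∀ k ∈ Finset.Icc 1 (25 - 1),
      (α k).den * ((β 0 k).den * (β 1 k).den) ∣ N :=
    ⟨∏ k ∈ Finset.Icc 1 (25 - 1), ((α k).den * ((β 0 k).den * (β 1 k).den)),
      Finset.prod_ne_zero_iff.2 fun k _ => Nat.mul_ne_zero (α k).den_ne_zero
        (Nat.mul_ne_zero (β 0 k).den_ne_zero (β 1 k).den_ne_zero),
      fun k hk => Finset.dvd_prod_of_mem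
        (fun k => (α k).den * ((β 0 k).den * (β 1 k).den)) hk⟩
  refine ⟨100 * 50 * 8 + 100 * (Real.log N / Real.log 2) + 100, fun p hp eq q hqp _ hne => ?_⟩
  have : Fact q.Prime := ⟨hqp⟩
  have hα : ∀ k ∈ Finset.Icc 1 (25 - 1), VG q (-(padicValNat q N : ℤ)) (α k) := fun k hk =>
    gen_aux hN0 _ ((Nat.dvd_mul_right _ _).trans (hmem k hk))
  have hβ : ∀ x, ∀ k ∈ Finset.Icc 1 (25 - 1), VG q (-(padicValNat q N : ℤ)) (β x k) := by
    intro x k hk
    refine gen_aux hN0 _ (Nat.dvd_trans ?_ (hmem k hk))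
    have hx : x = 0 ∨ x = 1 := by omega
    rcases hx with rfl | rfl
    · exact (Nat.dvd_mul_right _ _).trans (Nat.dvd_mul_left _ _)
    · exact (Nat.dvd_mul_left _ _).trans (Nat.dvd_mul_left _ _)
  have h1 := (VG_DM hα hβ (Nat.lt_pow_succ_log_self hqp.one_lt (80 * p)) eq).val hne
  rw [sum_cols] at h1
  exact combine hp hqp hN0 (Nat.pow_log_le_self q (by omega))
    (Nat.le_of_dvd (Nat.pos_of_ne_zero hN0) pow_padicValNat_dvd) h1

end Pool.Agent.D4
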