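import Pool.Agent.D4.RangeA
import Pool.Agent.D4.RangeB
import Pool.Agent.D4.RangeC
import Pool.Agent.D4.Chord
import Pool.Agent.D4.SmallPrimes
import Pool.Agent.Z5.PBridge

/-!
# The ranges give `PBounds`

Adaptation of `Pool/Agent/Z9/PBridge.lean`.  Range 4: `range4` and `chord`, `chord'`; the difference is
`-2350 p - 5 q`, `q ≤ p`.
-/

open Finset

namespace Pool.Agent.D4

open Pool.Agent.Z5 (VG VG_of_den_lt)

private theorem pbr_range4 {p q : ℕ} {k : ℤ} {W : ℕ} {Y : ℤ} {C : ℝ} (hq : 0 < q) (h' : q ≤ p)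
    (hk : k = ((4 * p / q : ℕ) : ℤ))
    (h7 : 1400 * k * p - 1700 * p - 175 * q * (k * (k + 1)) - 5 * q - 2000 * (k + 1) ^ 2 ≤ Y)
    (h5 : 80 * p < q ^ 2 → (W : ℤ) ≤ 1400 * k * p + 650 * p - 175 * q * (k * (k + 1)))
    (h6 : (W : ℤ) ≤ 1400 * k * p + 650 * p - 175 * q * (k * (k + 1)) + 2000 * p) :
    (W : ℝ) - 2355 * p - max C 7000 * (4 * p / q + 1) ^ 2
      - (if q ^ 2 ≤ 80 * p then max C 7000 * p else 0) ≤ (Y : ℝ) := by
  have hC3 : (7000 : ℝ) ≤ max C 7000 := le_max_right _ _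
  have hkR : (((4 * p / q : ℕ) : ℕ) : ℝ) = (k : ℝ) := by rw [hk, Int.cast_natCast]
  have hk0 : (0 : ℝ) ≤ (k : ℝ) := by rw [← hkR]; exact Nat.cast_nonneg _
  have hq0 : (0 : ℝ) < q := by exact_mod_cast hq
  have hkle : (k : ℝ) ≤ 4 * p / q := by
    rw [← hkR]
    have := @Nat.cast_div_le ℝ _ _ _ (4 * p) q
    push_cast at this
    exact this
  have hp0 : (0 : ℝ) ≤ p := Nat.cast_nonneg p
  have hsq : ((k : ℝ) + 1) ^ 2 ≤ (4 * p / q + 1) ^ 2 :=
    pow_le_pow_left₀ (by linarith) (by linarith) 2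
  have hs0 : 0 ≤ ((k : ℝ) + 1) ^ 2 := sq_nonneg _
  have h300' : 2000 * ((k : ℝ) + 1) ^ 2 ≤ max C 7000 * (4 * p / q + 1) ^ 2 := by
    have h8 : 7000 * (4 * (p : ℝ) / q + 1) ^ 2 ≤ max C 7000 * (4 * p / q + 1) ^ 2 :=
      mul_le_mul_of_nonneg_right hC3 (sq_nonneg _)
    linarith
  have hqp : (q : ℤ) ≤ p := by exact_mod_cast h'
  by_cases hs : q ^ 2 ≤ 80 * p
  · have h9 : (W : ℤ) - 2355 * p - 2000 * p - 2000 * (k + 1) ^ 2 ≤ Y := by linarith
    have h8 : (((W : ℤ) - 2355 * p - 2000 * p - 2000 * (k + 1) ^ 2 : ℤ) : ℝ) ≤ (Y : ℝ) := by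
      exact_mod_cast h9
    rw [if_pos hs]
    push_cast at h8 ⊢
    have h10 : 2000 * (p : ℝ) ≤ max C 7000 * p := by nlinarith
    linarith
  · have h9 : (W : ℤ) - 2355 * p - 2000 * (k + 1) ^ 2 ≤ Y := by
      have := h5 (not_le.1 hs)
      linarith
    have h8 : (((W : ℤ) - 2355 * p - 2000 * (k + 1) ^ 2 : ℤ) : ℝ) ≤ (Y : ℝ) := by
      exact_mod_cast h9
    rw [if_neg hs]
    push_cast at h8 ⊢
    linarith

private theorem pbr_small {p : ℕ} {C x y : ℝ} (hp : 2 ≤ p) (h : x - C * p * Real.log p ≤ y) :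
    x - max C 7000 * p * Real.log p ≤ y := by
  have h5 : 0 ≤ Real.log (p : ℝ) := Real.log_nonneg (by exact_mod_cast (by omega : 1 ≤ p))
  have hp0 : (0 : ℝ) ≤ p := Nat.cast_nonneg p
  have h4 : C * p * Real.log p ≤ max C 7000 * p * Real.log p :=
    mul_le_mul_of_nonneg_right (mul_le_mul_of_nonneg_right (le_max_left _ _) hp0) h5
  linarith

theorem pbounds (α : ℕ → ℚ) (β : Fin 2 → ℕ → ℚ) (hb : β 1 1 = 0) :
    ∃ C : ℝ, ∃ p0 : ℕ, ∀ p ≥ p0,
    ∀ eq : Fin (2 * p) × Fin (2 * 25) ≃ (Fin (20 * p) ⊕ Fin 2 × Fin (20 * p)) ⊕ Fin (40 * p),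
    DM p α β eq ≠ 0 → PBounds C p (fun q => padicValRat q (DM p α β eq)) := by
  obtain ⟨C, hC⟩ := small_primes α β
  set d : ℕ := ∑ k ∈ Finset.Icc 1 24, ((α k).den + ((β 0 k).den + (β 1 k).den)) with hd
  refine ⟨max C 7000, 529 + d ^ 2, fun p hp eq hD => ?_⟩
  have hp2 : 529 ≤ p := by omega
  have hden : d ^ 2 ≤ p := by omega
  have hC3 : (7000 : ℝ) ≤ max C 7000 := le_max_right _ _
  have key : ∀ q : ℕ, q.Prime → 4 * p < q ^ 2 → 5 ≤ q ∧ VI 25 q α ∧ ∀ j, VI 25 q (β j) := by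
    intro q hq hpq
    have h0 : d < q := by
      by_contra h
      have h1 : q ≤ d := by omega
      have h2 : q ^ 2 ≤ d ^ 2 := Nat.pow_le_pow_left h1 2
      omega
    have h1 : ∀ k ∈ Finset.Icc 1 24, (α k).den + ((β 0 k).den + (β 1 k).den) ≤ d := fun k hk =>
      Finset.single_le_sum (f := fun k => (α k).den + ((β 0 k).den + (β 1 k).den))
        (fun _ _ => Nat.zero_le _) hk
    refine ⟨?_, fun k hk => VG_of_den_lt hq ?_, fun j k hk => VG_of_den_lt hq ?_⟩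
    · by_contra h
      have h1 : q ≤ 22 := by omega
      have h2 : q ^ 2 ≤ 22 ^ 2 := Nat.pow_le_pow_left h1 2
      omega
    · have := h1 k hk
      omega
    · have := h1 k hk
      fin_cases j
      · show (β 0 k).den < q
        omega
      · show (β 1 k).den < q
        omega
  have key2 : ∀ q : ℕ, p < q → 4 * p < q ^ 2 := by
    intro q hq
    nlinarith
  refine ⟨?_, ?_, ?_, ?_, ?_, ?_⟩
  · intro q hq h
    have : Fact q.Prime := ⟨hq⟩
    obtain ⟨-, h2, h3⟩ := key q hq (key2 q (by omega))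
    exact (range0 eq h2 h3 h).val hD
  · intro q hq h h'
    have : Fact q.Prime := ⟨hq⟩
    obtain ⟨h1, h2, h3⟩ := key q hq (key2 q (by omega))
    have h4 := (range1 eq h1 h2 h3 h h').val hD
    have h5 : ((-20 * p - 3000 : ℤ) : ℝ) ≤ ((padicValRat q (DM p α β eq) : ℤ) : ℝ) := by
      exact_mod_cast h4
    push_cast at h5
    linarith
  · intro q hq h h'
    have : Fact q.Prime := ⟨hq⟩
    obtain ⟨h1, h2, h3⟩ := key q hq (key2 q (by omega))
    have h6 : q ≠ 2 * p := by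
      rintro rfl
      exact absurd hq (Nat.not_prime_mul (by norm_num) (by omega))
    have h4 := (range2 eq h1 h2 h3 h (by omega)).val hD
    have h5 : ((178 * p - 99 * q - 4000 : ℤ) : ℝ) ≤ ((padicValRat q (DM p α β eq) : ℤ) : ℝ) := by
      exact_mod_cast h4
    push_cast at h5
    linarith
  · intro q hq h h'
    have : Fact q.Prime := ⟨hq⟩
    obtain ⟨h1, h2, h3⟩ := key q hq (key2 q (by omega))
    have h4 := (range3 eq h1 h2 h3 hb h h').val hD
    have h5 : ((1278 * p - 912 * q - 7000 : ℤ) : ℝ) ≤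
        ((padicValRat q (DM p α β eq) : ℤ) : ℝ) := by
      exact_mod_cast h4
    push_cast at h5
    linarith
  · intro q hq h h'
    have : Fact q.Prime := ⟨hq⟩
    obtain ⟨h1, h2, h3⟩ := key q hq h
    have hq4 : q ≤ 4 * p := by omega
    have hp100 : 100 ≤ p := by omega
    have h4 := range4 eq h1 h2 h3 hb h h'
    have h5 := chord hq hp100 (q := q) (p := p)
    have h6 := chord' hq hp100 h hq4
    simp only at h4 h5 h6
    have h7 := h4.val hD
    exact pbr_range4 hq.pos h' (k := ((4 * p / q : ℕ) : ℤ)) rfl h7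
      (fun h80 => h5 h80 hq4) h6
  · intro q hq h
    have hq4 : q ≤ 4 * p := by
      have h1 : 1 ≤ q := hq.pos
      nlinarith
    have hp1 : 2 ≤ p := by omega
    exact pbr_small hp1 (hC p hp1 eq q hq hq4 hD)

end Pool.Agent.D4
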