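import Pool.Agent.D4.Defs
import Pool.Agent.Z5.PDefs
import Pool.Agent.Z5.PBounds
import Pool.Agent.Z5.PK2R

/-!
# The dual determinant and the `p`-adic part: definitions

`L + 1 = 2 h`, poles of order `2 A`.  At the pole `t = -u + ε` a column `(T, P, (Q_j)_{j < d})` is the
series `T(Y) + P(Y) * kerP + ∑ Q_j(Y) * kerQ (β j)` with `kerQ β = ∑ β_k ε ^ (2 k)`,
`kerP = -g + 2 ∑ α_k ε ^ (2 k)`, `g = ∑_{m ≤ u} 1 / (m - ε) + ∑_{m ≤ L - u} 1 / (m + ε)`, everything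
modulo `ε ^ (2 A)`.  The definitions `VG`, `PG`, `Cls`, `yv`, `gS`, `zz`, `sg2`, `cl`, `OD`, `SF`, `Hs`
are those of `Pool.Agent.Z5`; `uz q i` is `u = q z` at the pole `i` of a class, `z = ζ - i`.
-/

open Finset Polynomial

namespace Pool.Agent.D4

open Pool.Agent.Z5 (hser Hs VG PG Cls yv gS zz sg2 cl SF OD uz)

/-- a column: the polynomials multiplying `1`, `kerP` and the `kerQ (β j)` -/
abbrev Col (d : ℕ) : Type := ℚ[X] × ℚ[X] × (Fin d → ℚ[X])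

/-- `∑ β_k ε ^ (2 k)`, `k = 1, …, A - 1` -/
noncomputable def kerQ (A : ℕ) (β : ℕ → ℚ) : PowerSeries ℚ :=
  ∑ k ∈ Finset.Icc 1 (A - 1), PowerSeries.C (β k) * PowerSeries.X ^ (2 * k)

/-- `-g + 2 ∑ α_k ε ^ (2 k)` at the pole `-u` (modulo `ε ^ (2 A)`) -/
noncomputable def kerP (A L : ℕ) (α : ℕ → ℚ) (u : ℕ) : PowerSeries ℚ :=
  (PowerSeries.mk fun i => if i < 2 * A then
      -(Hs (i + 1) u + (-1) ^ i * Hs (i + 1) (L - u)) else 0) + 2 * kerQ A α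

variable {d : ℕ}

/-- the local expansion of a column at the pole `-u` -/
noncomputable def tvec (A L : ℕ) (α : ℕ → ℚ) (β : Fin d → ℕ → ℚ) (u : ℕ) (c : Col d) :
    PowerSeries ℚ :=
  hser L u c.1 + kerP A L α u * hser L u c.2.1 + ∑ j, kerQ A (β j) * hser L u (c.2.2 j)

/-- the dual matrix: rows `(u, k)`, columns = tuples of polynomials -/
noncomputable def dmat {κ : Type*} (A L : ℕ) (α : ℕ → ℚ) (β : Fin d → ℕ → ℚ) (h : ℕ)
    (c : κ → Col d) : Matrix (Fin h × Fin (2 * A)) κ ℚ :=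
  Matrix.of fun r j => PowerSeries.coeff (r.2 : ℕ) (tvec A L α β r.1 (c j))

/-- the standard columns -/
noncomputable def stdc (d a b m : ℕ) : (Fin a ⊕ Fin d × Fin b) ⊕ Fin m → Col d :=
  Sum.elim (Sum.elim (fun i => (0, X ^ (i : ℕ), 0))
    (fun z => (0, 0, Pi.single z.1 (X ^ (z.2 : ℕ))))) (fun i => (X ^ (i : ℕ), 0, 0))

/-- the standard columns with the `P`-columns multiplied by `x`, the `Q_j`-columns by `y j` -/
noncomputable def scz (d a b m : ℕ) (x : ℚ) (y : Fin d → ℚ) :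
    (Fin a ⊕ Fin d × Fin b) ⊕ Fin m → Col d :=
  Sum.elim (Sum.elim (fun i => (0, C x * X ^ (i : ℕ), 0))
    (fun z => (0, 0, Pi.single z.1 (C (y z.1) * X ^ (z.2 : ℕ))))) (fun i => (X ^ (i : ℕ), 0, 0))

/-- the first `2 A` coefficients have `v_q ≥ k` -/
def SG (A q : ℕ) (k : ℤ) (f : PowerSeries ℚ) : Prop :=
  ∀ n < 2 * A, VG q k (PowerSeries.coeff n f)

/-- the numbers `α_1, …, α_{A - 1}` are `q`-integral -/
def VI (A q : ℕ) (α : ℕ → ℚ) : Prop := ∀ k ∈ Finset.Icc 1 (A - 1), VG q 0 (α k)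

/-- the matrix of a class of poles -/
noncomputable def cmat (A q L : ℕ) (α : ℕ → ℚ) (β : Fin d → ℕ → ℚ) (r K : ℕ)
    (c : Fin K × Fin (2 * A) → Col d) : Matrix (Fin K × Fin (2 * A)) (Fin K × Fin (2 * A)) ℚ :=
  Matrix.of fun x y => PowerSeries.coeff (x.2 : ℕ) (tvec A L α β (r + q * x.1) (c y))

/-- scaled column: `ε = q ζ` -/
noncomputable def sc (A q L : ℕ) (α : ℕ → ℚ) (β : Fin d → ℕ → ℚ) (r i : ℕ) (c : Col d) :
    PowerSeries ℚ :=
  PowerSeries.rescale (q : ℚ) (tvec A L α β (r + q * i) c)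

/-- the difference `ζ ^ 2 - (z + 1) ^ 2` (used for classes with three poles) -/
noncomputable def h3 (i : ℕ) : PowerSeries ℚ := PowerSeries.X ^ 2 - (zz i + 1) ^ 2

/-- polynomials in `u = q z` modulo `q ^ (2 A)`, at the `K` poles of a class -/
def RP (A q K : ℕ) (F : Fin K → PowerSeries ℚ) : Prop :=
  ∃ P : ℚ[X], PG q 0 P ∧ ∀ i : Fin K, SG A q (2 * A) (F i - aeval (uz q i) P)

/-- a class with two poles, in the variable `ζ`: `P(q z) + Q(q z) σ` plus a vector divisible by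
`q ^ (2 A - 1)`, with `P` integral and `Q` of valuation at least `k` -/
def Adm2 (A q : ℕ) (k : ℤ) (F : Fin 2 → PowerSeries ℚ) : Prop :=
  ∃ P Q : ℚ[X], PG q 0 P ∧ PG q k Q ∧ ∀ i : Fin 2,
    SG A q (2 * A - 1) (F i - (aeval (uz q i) P + aeval (uz q i) Q * sg2 i))

/-- a class with three poles, in the variable `ζ`: `P(q z) + Q(q z) gS + T(q z) h3` plus a vector
divisible by `q ^ (2 A + x)`, with `P` integral, `Q` divisible by `q ^ x`, `T` by `q ^ (x + 2)` -/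
def Adm3 (A q x : ℕ) (F : Fin 3 → PowerSeries ℚ) : Prop :=
  ∃ P Q T : ℚ[X], PG q 0 P ∧ PG q x Q ∧ PG q (x + 2) T ∧ ∀ i : Fin 3,
    SG A q (2 * A + x) (F i - (aeval (uz q i) P + aeval (uz q i) Q * gS 3 i
      + aeval (uz q i) T * h3 i))

/-! ### the instance: pole order `50`, `N = L + 1 = 4 p`, `a = b = 20 p`, two families, `m = 40 p` -/

/-- the determinant of the dual matrix -/
noncomputable def DM (p : ℕ) (α : ℕ → ℚ) (β : Fin 2 → ℕ → ℚ)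
    (eq : Fin (2 * p) × Fin (2 * 25) ≃ (Fin (20 * p) ⊕ Fin 2 × Fin (20 * p)) ⊕ Fin (40 * p)) : ℚ :=
  ((dmat 25 (4 * p - 1) α β (2 * p) (stdc 2 (20 * p) (20 * p) (40 * p))).submatrix id eq).det

/-- `∏_{a < 40 p} (2a)! (∏_{a < 20 p} (2a)!)^3` -/
def RR (p : ℕ) : ℕ := SF (40 * p) * SF (20 * p) ^ 3

/-- the lower bounds of the valuations, `N = 4 p` -/
structure PBounds (C : ℝ) (p : ℕ) (v : ℕ → ℤ) : Prop where
  /-- range 0 -/
  r0 : ∀ q : ℕ, q.Prime → 4 * p ≤ q → 0 ≤ v q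
  /-- range 1 -/
  r1 : ∀ q : ℕ, q.Prime → 2 * p < q → q < 4 * p → (-20 * p : ℝ) - C ≤ v q
  /-- range 2 -/
  r2 : ∀ q : ℕ, q.Prime → 4 * p < 3 * q → q ≤ 2 * p → (178 * p - 99 * q : ℝ) - C ≤ v q
  /-- range 3 -/
  r3 : ∀ q : ℕ, q.Prime → p < q → 3 * q ≤ 4 * p → (1278 * p - 912 * q : ℝ) - C ≤ v q
  /-- range 4 -/
  r4 : ∀ q : ℕ, q.Prime → 4 * p < q ^ 2 → q ≤ p →
    (padicValNat q (RR p) : ℝ) - 2355 * p - C * (4 * p / q + 1) ^ 2
      - (if q ^ 2 ≤ 80 * p then C * p else 0) ≤ v q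
  /-- small primes -/
  small : ∀ q : ℕ, q.Prime → q ^ 2 ≤ 4 * p →
    ((padicValNat q (RR p) : ℝ) + if q = 2 then 2800 * (p : ℝ) ^ 2 else 0) * Real.log q
      - C * p * Real.log p ≤ v q * Real.log q

end Pool.Agent.D4
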