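import Pool.Agent.D4.PDefs
import Pool.Agent.Z5.PPG

/-!
# `p`-adic part: calculus of `SG`, scaling of the class matrix

`PG` and its calculus are those of `Pool.Agent.Z5`.
-/

open Finset Polynomial

namespace Pool.Agent.D4

open Pool.Agent.Z5 (hser Hs VG PG Cls yv gS zz sg2 cl SF OD uz)

variable {A d q L r K : ℕ} {α : ℕ → ℚ} {β : Fin d → ℕ → ℚ}

theorem SG.zero (k : ℤ) : SG A q k 0 := fun n _ => by rw [map_zero]; exact VG.zero k

theorem SG.mono {k l : ℤ} {f : PowerSeries ℚ} (hf : SG A q k f) (h : l ≤ k) : SG A q l f :=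
  fun n hn => (hf n hn).mono h

theorem SG.C {k : ℤ} {a : ℚ} (ha : VG q k a) : SG A q k (PowerSeries.C a) := by
  intro n _
  rw [PowerSeries.coeff_C]
  split_ifs
  · exact ha
  · exact VG.zero k

theorem SG.X_pow_top (k : ℤ) : SG A q k (PowerSeries.X ^ (2 * A) : PowerSeries ℚ) := by
  intro n hn
  rw [PowerSeries.coeff_X_pow, if_neg (by omega)]
  exact VG.zero k

/-- only the first `2 A` coefficients matter -/
theorem SG.congr {k : ℤ} {f g : PowerSeries ℚ} (hf : SG A q k f)
    (h : ∀ n < 2 * A, PowerSeries.coeff n f = PowerSeries.coeff n g) : SG A q k g :=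
  fun n hn => by rw [← h n hn]; exact hf n hn

variable [hq : Fact q.Prime]

theorem SG.one : SG A q 0 (1 : PowerSeries ℚ) := by
  rw [← map_one (PowerSeries.C (R := ℚ))]; exact SG.C VG.one

theorem SG.X : SG A q 0 (PowerSeries.X : PowerSeries ℚ) := by
  intro n _
  rw [PowerSeries.coeff_X]
  split_ifs
  · exact VG.one
  · exact VG.zero 0

theorem SG.add {k : ℤ} {f g : PowerSeries ℚ} (hf : SG A q k f) (hg : SG A q k g) :
    SG A q k (f + g) := by
  intro n hn
  rw [map_add]
  exact (hf n hn).add (hg n hn)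

theorem SG.neg {k : ℤ} {f : PowerSeries ℚ} (hf : SG A q k f) : SG A q k (-f) := by
  intro n hn
  rw [map_neg]
  exact (hf n hn).neg

theorem SG.sub {k : ℤ} {f g : PowerSeries ℚ} (hf : SG A q k f) (hg : SG A q k g) :
    SG A q k (f - g) := by
  rw [sub_eq_add_neg]; exact hf.add hg.neg

theorem SG.mul {k l : ℤ} {f g : PowerSeries ℚ} (hf : SG A q k f) (hg : SG A q l g) :
    SG A q (k + l) (f * g) := by
  intro n hn
  rw [PowerSeries.coeff_mul]
  refine VG.sum _ _ fun x hx => ?_
  have h := Finset.HasAntidiagonal.mem_antidiagonal.mp hx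
  exact (hf x.1 (by omega)).mul (hg x.2 (by omega))

theorem SG.mul_int {k : ℤ} {f g : PowerSeries ℚ} (hf : SG A q k f) (hg : SG A q 0 g) :
    SG A q k (f * g) := by simpa using hf.mul hg

theorem SG.int_mul {k : ℤ} {f g : PowerSeries ℚ} (hf : SG A q 0 f) (hg : SG A q k g) :
    SG A q k (f * g) := by simpa using hf.mul hg

theorem SG.sum {ι : Type*} (s : Finset ι) {k : ℤ} (f : ι → PowerSeries ℚ)
    (h : ∀ i ∈ s, SG A q k (f i)) : SG A q k (∑ i ∈ s, f i) := by
  intro n hn
  rw [map_sum]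
  exact VG.sum _ _ fun i hi => h i hi n hn

theorem SG.prod {ι : Type*} (s : Finset ι) (k : ι → ℤ) (f : ι → PowerSeries ℚ)
    (h : ∀ i ∈ s, SG A q (k i) (f i)) : SG A q (∑ i ∈ s, k i) (∏ i ∈ s, f i) := by
  classical
  induction s using Finset.induction_on with
  | empty => simpa using SG.one
  | insert a s ha ih =>
    rw [prod_insert ha, sum_insert ha]
    exact (h a (mem_insert_self _ _)).mul (ih fun i hi => h i (mem_insert_of_mem hi))

theorem SG.prod_zero {ι : Type*} (s : Finset ι) (f : ι → PowerSeries ℚ)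
    (h : ∀ i ∈ s, SG A q 0 (f i)) : SG A q 0 (∏ i ∈ s, f i) := by
  simpa using SG.prod s (fun _ => 0) f h

theorem SG.pow {k : ℤ} {f : PowerSeries ℚ} (hf : SG A q k f) (n : ℕ) : SG A q (n * k) (f ^ n) := by
  induction n with
  | zero => simpa using SG.one
  | succ n ih => rw [pow_succ]; exact (ih.mul hf).mono (by push_cast; ring_nf; omega)

theorem SG.pow_zero {f : PowerSeries ℚ} (hf : SG A q 0 f) (n : ℕ) : SG A q 0 (f ^ n) := by
  simpa using hf.pow n

theorem SG.C_mul {k l : ℤ} {a : ℚ} {f : PowerSeries ℚ} (ha : VG q k a) (hf : SG A q l f) :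
    SG A q (k + l) (PowerSeries.C a * f) := (SG.C ha).mul hf

theorem SG.natCast (n : ℕ) : SG A q 0 (n : PowerSeries ℚ) := by
  rw [← map_natCast (PowerSeries.C (R := ℚ))]; exact SG.C (VG.nat n)

theorem SG.intCast (n : ℤ) : SG A q 0 (n : PowerSeries ℚ) := by
  rw [← map_intCast (PowerSeries.C (R := ℚ))]; exact SG.C (VG.int n)

theorem SG.two : SG A q 0 (2 : PowerSeries ℚ) := by
  have h := SG.natCast (A := A) (q := q) 2
  rwa [Nat.cast_ofNat] at h

theorem SG.aeval {k : ℤ} {f : PowerSeries ℚ} (hf : SG A q 0 f) (P : ℚ[X]) (hP : PG q k P) :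
    SG A q k (aeval f P) := by
  rw [Polynomial.aeval_eq_sum_range]
  refine SG.sum _ _ fun i _ => ?_
  rw [PowerSeries.smul_eq_C_mul]
  exact (SG.C (hP i)).mul_int (hf.pow_zero i)

/-- inverse of an integral series with unit constant coefficient -/
theorem SG.inv {f : PowerSeries ℚ} (hf : SG A q 0 f) (h0 : PowerSeries.constantCoeff f ≠ 0)
    (h1 : VG q 0 (PowerSeries.constantCoeff f)⁻¹) : SG A q 0 f⁻¹ := by
  intro n
  induction n using Nat.strong_induction_on with
  | _ n ih =>
    intro hn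
    rw [PowerSeries.coeff_inv]
    split_ifs with h
    · exact h1
    · rw [neg_mul]
      refine (VG.int_mul h1 (VG.sum _ _ fun x hx => ?_)).neg
      have hx' := Finset.HasAntidiagonal.mem_antidiagonal.mp hx
      split_ifs with h2
      · exact VG.int_mul (hf x.1 (by omega)) (ih x.2 h2 (by omega))
      · exact VG.zero 0

omit hq in
/-- `det cmat` in the scaled variable: the scaled matrix has determinant
`q ^ (A (2 A - 1) K) * det` -/
private theorem cmat_scale_aux (c : Fin K × Fin (2 * A) → Col d) :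
    (Matrix.of fun (x y : Fin K × Fin (2 * A)) =>
      PowerSeries.coeff (x.2 : ℕ) (sc A q L α β r x.1 (c y))).det =
      (q : ℚ) ^ (A * (2 * A - 1) * K) * (cmat A q L α β r K c).det := by
  have h1 : (Matrix.of fun (x y : Fin K × Fin (2 * A)) =>
      PowerSeries.coeff (x.2 : ℕ) (sc A q L α β r x.1 (c y))) =
      Matrix.of fun (x y : Fin K × Fin (2 * A)) =>
        (q : ℚ) ^ (x.2 : ℕ) * (cmat A q L α β r K c) x y := by
    ext x y
    simp only [Matrix.of_apply, sc, cmat, PowerSeries.coeff_rescale]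
  rw [h1, Matrix.det_mul_column]
  congr 1
  rw [Fintype.prod_prod_type]
  simp only [Finset.prod_pow_eq_pow_sum]
  congr 1
  have h2 : ∑ i : Fin (2 * A), (i : ℕ) = A * (2 * A - 1) := by
    rw [Fin.sum_univ_eq_sum_range (fun i => i) (2 * A), Finset.sum_range_id, mul_assoc,
      Nat.mul_div_cancel_left _ (by norm_num)]
  rw [h2, Finset.sum_const, Finset.card_univ, Fintype.card_fin, smul_eq_mul, mul_comm]

/-- `det cmat` in the scaled variable: the scaled matrix has determinant
`q ^ (A (2 A - 1) K) * det` -/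
theorem cmat_scale (c : Fin K × Fin (2 * A) → Col d) :
    (Matrix.of fun (x y : Fin K × Fin (2 * A)) =>
      PowerSeries.coeff (x.2 : ℕ) (sc A q L α β r x.1 (c y))).det =
      (q : ℚ) ^ (A * (2 * A - 1) * K) * (cmat A q L α β r K c).det := cmat_scale_aux c

end Pool.Agent.D4
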