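import Pool.Agent.D4.LatDet
import Pool.Agent.D4.PExp
import Pool.Agent.D4.PPG

/-!
# The general class bound

Adaptation of `Pool/Agent/Z9/PGen.lean`; use `lat_det` with the generators
`y ^ a * (kernel s)`, `y = yv K i`, `a < τ`, kernels `1`, `-q kerP(q ζ)` (weight shift `x`),
`q ^ (-n j) kerQ (β j) (q ζ)` (weight shift `y j`), and `hser_centre` (`Pool/Agent/Z5/PExp.lean`).
-/

open Finset Polynomial

namespace Pool.Agent.D4

open Pool.Agent.Z5 (hser Hs VG PG Cls yv gS zz sg2 cl SF OD uz hser_centre)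
open Pool.Agent.Z5.VG (pow_self self_prime zpow_self)

namespace Gen

variable {A d q L r K : ℕ} {α : ℕ → ℚ} {β : Fin d → ℕ → ℚ} [hq : Fact q.Prime]

/-- the kernels of the generators: `1`, `-q` times the true kernel, `q ^ (-n j) kerQ (β j)` -/
noncomputable def kk (A q L : ℕ) (α : ℕ → ℚ) (v : Fin d → PowerSeries ℚ) (r i : ℕ) :
    Fin 2 ⊕ Fin d → PowerSeries ℚ :=
  Sum.elim ![1, -(PowerSeries.C (q : ℚ) * PowerSeries.rescale (q : ℚ) (kerP A L α (r + q * i)))] v

/-- the weight shifts -/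
def sh (x : ℕ) (y : Fin d → ℕ) : Fin 2 ⊕ Fin d → ℤ :=
  Sum.elim ![0, (x : ℤ)] (fun j => (y j : ℤ))

omit hq in
theorem aeval_sum (P : ℚ[X]) {N : ℕ} (hN : P.natDegree < N) (y : PowerSeries ℚ) :
    aeval (PowerSeries.C (q : ℚ) * y) P =
      ∑ a : Fin N, PowerSeries.C (P.coeff a * (q : ℚ) ^ (a : ℕ)) * y ^ (a : ℕ) := by
  rw [Polynomial.aeval_eq_sum_range' hN, Finset.sum_range]
  refine Finset.sum_congr rfl fun a _ => ?_
  rw [PowerSeries.smul_eq_C_mul, mul_pow, ← map_pow, map_mul]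
  ring

theorem wt_sum (x τ N : ℕ) (y : Fin d → ℕ) (hx : x ≤ τ) (hy : ∀ j, y j ≤ τ) :
    ∑ z : (Fin 2 ⊕ Fin d) × Fin N, max 0 ((τ : ℤ) - (sh x y z.1 + ((z.2 : ℕ) : ℤ))) ≤
      (τ : ℤ) * (τ + 1) / 2 + ((τ : ℤ) - x) * (τ - x + 1) / 2 +
        ∑ j, ((τ : ℤ) - y j) * (τ - y j + 1) / 2 := by
  have h0 : ∀ (s : ℤ), s ≤ τ → ∑ a : Fin N, max 0 ((τ : ℤ) - (s + ((a : ℕ) : ℤ))) ≤
      ((τ : ℤ) - s) * (τ - s + 1) / 2 := by
    intro s hs
    have h1 := sum_tri N ((τ : ℤ) - s) (by linarith)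
    refine le_trans (le_of_eq ?_) h1
    refine Finset.sum_congr rfl fun a _ => ?_
    rw [sub_sub]
  rw [Fintype.sum_prod_type, Fintype.sum_sum_type, Fin.sum_univ_two]
  refine add_le_add (add_le_add ?_ ?_) (Finset.sum_le_sum fun j _ => ?_)
  · have := h0 0 (by positivity)
    simpa [sh] using this
  · exact h0 x (by exact_mod_cast hx)
  · exact h0 (y j) (by exact_mod_cast hy j)

theorem gen_aux (hc : Cls q L r K) (hL : L < q ^ 2) (hα : VI A q α) (hβ : ∀ j, VI A q (β j))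
    (n : Fin d → ℕ) (hn : ∀ j, ∀ k ∈ Finset.Icc 1 (A - 1), 2 * k < n j → β j k = 0)
    (x τ : ℕ) (y : Fin d → ℕ) (hx : x ≤ τ) (hy : ∀ j, y j ≤ τ)
    (c : Fin K × Fin (2 * A) → Col d) (hT : ∀ k, PG q 0 (c k).1)
    (hP : ∀ k, PG q (x + 1) (c k).2.1) (hQ : ∀ k j, PG q ((y j : ℤ) - n j) ((c k).2.2 j)) :
    VG q (2 * A * (K : ℤ) * τ - τ * (τ + 1) / 2 - (τ - x) * (τ - x + 1) / 2
      - ∑ j, ((τ : ℤ) - y j) * (τ - y j + 1) / 2)
      (Matrix.of fun (x y : Fin K × Fin (2 * A)) =>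
        PowerSeries.coeff (x.2 : ℕ) (sc A q L α β r x.1 (c y))).det := by
  classical
  have hK : 1 ≤ K := hc.hK
  have hq0 : (q : ℚ) ≠ 0 := by exact_mod_cast hq.out.ne_zero
  have hqpos : 0 < q := hq.out.pos
  have hKq : K ≤ q := by
    have h1 : q * (K - 1) < q * q := by
      have := hc.hL
      nlinarith [hc.hL, hL]
    have h2 : K - 1 < q := lt_of_mul_lt_mul_left h1 (Nat.zero_le _)
    omega
  choose v hv hvQ using fun j => kerQ_sing (q := q) (hβ j) (hn j)
  choose T hT1 hT2 using fun k => hser_centre (L := L) (r := r) hK (c k).1 (hT k)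
  choose B hB1 hB2 using fun k => hser_centre (L := L) (r := r) hK (c k).2.1 (hP k)
  choose D hD1 hD2 using fun k j => hser_centre (L := L) (r := r) hK ((c k).2.2 j) (hQ k j)
  obtain ⟨N, hN⟩ : ∃ N : ℕ, ∀ k, (T k).natDegree < N ∧ (B k).natDegree < N ∧
      ∀ j, (D k j).natDegree < N := by
    refine ⟨∑ k, ((T k).natDegree + (B k).natDegree + ∑ j, (D k j).natDegree) + 1, fun k => ?_⟩
    have h1 := Finset.single_le_sum
      (f := fun k => (T k).natDegree + (B k).natDegree + ∑ j, (D k j).natDegree)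
      (fun i _ => Nat.zero_le _) (mem_univ k)
    refine ⟨by omega, by omega, fun j => ?_⟩
    have h2 := Finset.single_le_sum (f := fun j => (D k j).natDegree)
      (fun i _ => Nat.zero_le _) (mem_univ j)
    omega
  -- generators and coefficients
  let g : (Fin 2 ⊕ Fin d) × Fin N → Fin K × Fin (2 * A) → ℚ := fun z i =>
    PowerSeries.coeff (i.2 : ℕ) (yv K i.1 ^ (z.2 : ℕ) * kk A q L α v r i.1 z.1)
  let co : Fin K × Fin (2 * A) → (Fin 2 ⊕ Fin d) × Fin N → ℚ := fun k z =>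
    Sum.elim ![(T k).coeff z.2 * (q : ℚ) ^ (z.2 : ℕ),
      -((B k).coeff z.2 * (q : ℚ) ^ (z.2 : ℕ) * (q : ℚ)⁻¹)]
      (fun j => (D k j).coeff z.2 * (q : ℚ) ^ (z.2 : ℕ) * (q : ℚ) ^ (n j)) z.1
  have hsc : ∀ (x y : Fin K × Fin (2 * A)),
      PowerSeries.coeff (x.2 : ℕ) (sc A q L α β r x.1 (c y)) = ∑ z, co y z * g z x := by
    intro x y
    have h1 : sc A q L α β r x.1 (c y) = ∑ z : (Fin 2 ⊕ Fin d) × Fin N,
        PowerSeries.C (co y z) * (yv K x.1 ^ (z.2 : ℕ) * kk A q L α v r x.1 z.1) := by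
      rw [Fintype.sum_prod_type, Fintype.sum_sum_type, Fin.sum_univ_two]
      simp only [sc, tvec, map_add, map_mul, map_sum]
      rw [hT2 y _ x.1.2, hB2 y _ x.1.2, aeval_sum _ (hN y).1, aeval_sum _ (hN y).2.1,
        Finset.mul_sum]
      congr 1
      · congr 1
        · refine Finset.sum_congr rfl fun a _ => ?_
          simp [co, kk]
        · refine Finset.sum_congr rfl fun a _ => ?_
          simp only [co, kk, Sum.elim_inl, Matrix.cons_val_one, Matrix.cons_val_zero]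
          have h2 : PowerSeries.C (-((B y).coeff a * (q : ℚ) ^ (a : ℕ) * (q : ℚ)⁻¹)) *
              PowerSeries.C (q : ℚ) = -PowerSeries.C ((B y).coeff a * (q : ℚ) ^ (a : ℕ)) := by
            rw [← map_mul, ← map_neg]
            congr 1
            field_simp
          linear_combination (-(yv K ↑x.1 ^ (a : ℕ) *
            PowerSeries.rescale (q : ℚ) (kerP A L α (r + q * ↑x.1)))) * (-h2)
      · refine Finset.sum_congr rfl fun j _ => ?_
        rw [hD2 y j _ x.1.2, aeval_sum _ ((hN y).2.2 j), Finset.mul_sum, hvQ j]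
        refine Finset.sum_congr rfl fun a _ => ?_
        simp only [co, kk, Sum.elim_inr]
        rw [map_mul _ _ ((q : ℚ) ^ (n j))]
        ring
    rw [h1, map_sum]
    refine Finset.sum_congr rfl fun z _ => ?_
    rw [PowerSeries.coeff_C_mul]
  -- integrality
  have hkk : ∀ (i : Fin K) (s : Fin 2 ⊕ Fin d), SG A q 0 (kk A q L α v r i s) := by
    intro i s
    rcases s with s | j
    · fin_cases s
      · simpa [kk] using SG.one (A := A) (q := q)
      · have h1 := SG.C_mul (VG.self_prime (q := q)) (kerP_sing hc hL hα i.2)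
        have h2 : kk A q L α v r i (Sum.inl 1) = gS K i - (PowerSeries.C (q : ℚ) *
            (PowerSeries.rescale (q : ℚ) (kerP A L α (r + q * i)) +
              PowerSeries.C ((q : ℚ)⁻¹) * gS K i)) := by
          have h3 : PowerSeries.C (q : ℚ) * PowerSeries.C ((q : ℚ)⁻¹) = 1 := by
            rw [← map_mul, mul_inv_cancel₀ hq0, map_one]
          simp only [kk, Sum.elim_inl, Matrix.cons_val_one, Matrix.cons_val_zero]
          linear_combination (-(gS K ↑i)) * (-h3)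
        change SG A q 0 (kk A q L α v r i (Sum.inl 1))
        rw [h2]
        refine (gS_int hKq i.2).sub (h1.mono ?_)
        norm_num
    · simpa [kk] using hv j
  have hlat := lat_det (q := q) (Matrix.of fun (x y : Fin K × Fin (2 * A)) =>
        PowerSeries.coeff (x.2 : ℕ) (sc A q L α β r x.1 (c y))) g
      (fun z => sh x y z.1 + ((z.2 : ℕ) : ℤ)) (τ : ℤ)
      (fun z i => ((yv_int (A := A) (q := q) (K := K) (i.1 : ℕ)).pow_zero (z.2 : ℕ)).int_mul
        (hkk i.1 z.1) _ i.2.2)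
      (fun k => ⟨co k, ?_, fun i => ?_⟩)
  · refine hlat.mono ?_
    have hwt := wt_sum x τ N y hx hy
    have e : (τ : ℤ) * (Fintype.card (Fin K × Fin (2 * A)) : ℤ) = 2 * A * (K : ℤ) * τ := by
      rw [Fintype.card_prod, Fintype.card_fin, Fintype.card_fin]
      push_cast
      ring
    rw [e]
    linarith
  · intro z
    obtain ⟨s, a⟩ := z
    have hqa : VG q ((a : ℕ) : ℤ) ((q : ℚ) ^ (a : ℕ)) := VG.pow_self _
    rcases s with s | j
    · fin_cases s
      · have h1 := (hT1 k a).mul hqa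
        simp only [co, sh]
        simpa using h1
      · have h1 := (((hB1 k a).mul hqa).mul (VG.zpow_self (q := q) (-1))).neg
        simp only [co, sh]
        refine VG.mono (k := (x : ℤ) + 1 + ((a : ℕ) : ℤ) + -1) ?_ ?_
        · simpa using h1
        · simp
    · have h1 := ((hD1 k j a).mul hqa).mul (VG.pow_self (q := q) (n j))
      simp only [co, sh, Sum.elim_inr]
      refine h1.mono ?_
      linarith
  · rw [Matrix.of_apply, hsc i k, sub_self]
    exact VG.zero _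

end Gen

variable {A d q L r K : ℕ} {α : ℕ → ℚ} {β : Fin d → ℕ → ℚ} [hq : Fact q.Prime]

theorem gen (hc : Cls q L r K) (hL : L < q ^ 2) (hα : VI A q α) (hβ : ∀ j, VI A q (β j))
    (n : Fin d → ℕ) (hn : ∀ j, ∀ k ∈ Finset.Icc 1 (A - 1), 2 * k < n j → β j k = 0)
    (x τ : ℕ) (y : Fin d → ℕ) (hx : x ≤ τ) (hy : ∀ j, y j ≤ τ)
    (c : Fin K × Fin (2 * A) → Col d) (hT : ∀ k, PG q 0 (c k).1)
    (hP : ∀ k, PG q (x + 1) (c k).2.1) (hQ : ∀ k j, PG q ((y j : ℤ) - n j) ((c k).2.2 j)) :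
    VG q (2 * A * (K : ℤ) * τ - τ * (τ + 1) / 2 - (τ - x) * (τ - x + 1) / 2
      - ∑ j, ((τ : ℤ) - y j) * (τ - y j + 1) / 2 - ((A * (2 * A - 1) * K : ℕ) : ℤ))
      (cmat A q L α β r K c).det := by
  have hq0 : (q : ℚ) ≠ 0 := by exact_mod_cast hq.out.ne_zero
  have h1 := Gen.gen_aux hc hL hα hβ n hn x τ y hx hy c hT hP hQ
  rw [cmat_scale] at h1
  have h2 := (VG.zpow_self (q := q) (-((A * (2 * A - 1) * K : ℕ) : ℤ))).mul h1
  have h3 : (q : ℚ) ^ (-((A * (2 * A - 1) * K : ℕ) : ℤ)) *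
      ((q : ℚ) ^ (A * (2 * A - 1) * K) * (cmat A q L α β r K c).det) =
      (cmat A q L α β r K c).det := by
    rw [zpow_neg, zpow_natCast, ← mul_assoc, inv_mul_cancel₀ (pow_ne_zero _ hq0), one_mul]
  rw [h3] at h2
  refine h2.mono ?_
  linarith

end Pool.Agent.D4
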