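import Pool.Agent.D4.PDefs

/-!
# Classes with three poles: algebraic identities

At the pole `i = 0, 1, 2`: `z = zz i = ζ - i`, `u = uz q i = q z`, `w = u + q = q (z + 1)`,
`D = w ^ 2 (w ^ 2 - q ^ 2) = aeval u (D3 q)`, `gS 3 i = 1 / (1 + ζ) + 1 / (2 + ζ)` (`i = 0`),
`1 / (1 - ζ) + 1 / (1 + ζ)` (`i = 1`), `1 / (1 - ζ) + 1 / (2 - ζ)` (`i = 2`), `ε = q ζ`.

`D * gS` is a polynomial in `ζ`: it is `q ^ 4` times `ζ (ζ + 1) (2 ζ + 3)`, `-2 ζ ^ 2`,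
`-ζ (ζ - 1) (2 ζ - 3)` for `i = 0, 1, 2` (multiply by `1 + ζ`, … and cancel).  After that every identity
below is a polynomial identity for each `i` (`fin_cases i`, `ring`).
-/

open Finset Polynomial

namespace Pool.Agent.D4

open Pool.Agent.Z5 (hser Hs VG PG Cls yv gS zz sg2 cl SF OD uz)

variable {q : ℕ}

/-- `w ^ 2` -/
noncomputable def W3 (q : ℕ) : ℚ[X] := (X + C (q : ℚ)) ^ 2

/-- `w ^ 2 (w ^ 2 - q ^ 2)` -/
noncomputable def D3 (q : ℕ) : ℚ[X] := W3 q * (W3 q - C ((q : ℚ) ^ 2))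

theorem W3_PG [Fact q.Prime] : PG q 0 (W3 q) := by
  unfold W3
  exact Pool.Agent.Z5.PG.pow_zero (Pool.Agent.Z5.PG.add Pool.Agent.Z5.PG.X
    (Pool.Agent.Z5.PG.C (Pool.Agent.Z5.VG.nat q))) 2

theorem D3_PG [Fact q.Prime] : PG q 0 (D3 q) := by
  unfold D3
  have h : PG q 0 (C ((q : ℚ) ^ 2)) := by
    rw [map_pow]
    exact Pool.Agent.Z5.PG.pow_zero (Pool.Agent.Z5.PG.C (Pool.Agent.Z5.VG.nat q)) 2
  exact Pool.Agent.Z5.PG.mul_int W3_PG (Pool.Agent.Z5.PG.sub W3_PG h)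

theorem aeval_W3 (i : ℕ) :
    aeval (uz q i) (W3 q) = (uz q i + PowerSeries.C (q : ℚ)) ^ 2 := by
  unfold W3
  rw [map_pow, map_add, aeval_X, aeval_C]
  rfl

theorem aeval_D3 (i : ℕ) : aeval (uz q i) (D3 q) = (uz q i + PowerSeries.C (q : ℚ)) ^ 2 *
    ((uz q i + PowerSeries.C (q : ℚ)) ^ 2 - PowerSeries.C (q : ℚ) ^ 2) := by
  unfold D3
  have h : aeval (uz q i) (C ((q : ℚ) ^ 2)) = PowerSeries.C (q : ℚ) ^ 2 := by
    rw [aeval_C, ← map_pow]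
    rfl
  rw [map_mul, map_sub, aeval_W3, h]

/-- `D = q ^ 4 *` a polynomial in `ζ` -/
theorem D3_eq (i : ℕ) : aeval (uz q i) (D3 q) = PowerSeries.C (q : ℚ) ^ 4 *
    ((zz i + 1) ^ 2 * ((zz i + 1) ^ 2 - 1)) := by
  rw [aeval_D3]
  simp only [uz]
  ring

/-- `ε ^ 2 = w ^ 2 + q ^ 2 h3` -/
theorem eps3_sq (i : ℕ) : (PowerSeries.C (q : ℚ) * PowerSeries.X) ^ 2 =
    aeval (uz q i) (W3 q) + PowerSeries.C (q : ℚ) ^ 2 * h3 i := by
  rw [aeval_W3]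
  simp only [uz, h3]
  ring

private lemma k3i_inv_add (c : ℚ) (hc : c ≠ 0) :
    (PowerSeries.C c + PowerSeries.X) * (PowerSeries.C c + PowerSeries.X)⁻¹ = 1 :=
  PowerSeries.mul_inv_cancel _ (by simpa using hc)

private lemma k3i_inv_sub (c : ℚ) (hc : c ≠ 0) :
    (PowerSeries.C c - PowerSeries.X) * (PowerSeries.C c - PowerSeries.X)⁻¹ = 1 :=
  PowerSeries.mul_inv_cancel _ (by simpa using hc)

private lemma k3i_c2 : (PowerSeries.C (2 : ℚ)) = (2 : PowerSeries ℚ) := map_ofNat _ 2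

/-- `D gS` at the three poles -/
theorem DG3 (i : Fin 3) : aeval (uz q i) (D3 q) * gS 3 i = PowerSeries.C (q : ℚ) ^ 4 *
    ((![PowerSeries.X * (PowerSeries.X + 1) * (2 * PowerSeries.X + 3),
      -2 * PowerSeries.X ^ 2,
      -(PowerSeries.X * (PowerSeries.X - 1) * (2 * PowerSeries.X - 3))] : Fin 3 → PowerSeries ℚ)
        i) := by
  rw [D3_eq, mul_assoc]
  congr 1
  have i1 := k3i_inv_add 1 one_ne_zero
  have i2 := k3i_inv_add 2 two_ne_zero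
  have j1 := k3i_inv_sub 1 one_ne_zero
  have j2 := k3i_inv_sub 2 two_ne_zero
  have c2 : (PowerSeries.C (2 : ℚ)) = 2 := map_ofNat _ 2
  have c1 : (PowerSeries.C (1 : ℚ)) = 1 := map_one _
  fin_cases i
  · have e : gS 3 0 = (PowerSeries.C (1 : ℚ) + PowerSeries.X)⁻¹ +
        (PowerSeries.C (2 : ℚ) + PowerSeries.X)⁻¹ := by
      simp [gS, Finset.sum_Icc_succ_top, k3i_c2]
    show (zz 0 + 1) ^ 2 * ((zz 0 + 1) ^ 2 - 1) * gS 3 0 =
      PowerSeries.X * (PowerSeries.X + 1) * (2 * PowerSeries.X + 3)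
    have z0 : zz 0 = PowerSeries.X := by simp [zz]
    rw [e, z0]
    rw [c1] at i1 ⊢
    rw [c2] at i2 ⊢
    linear_combination (PowerSeries.X * (PowerSeries.X + 1) * (PowerSeries.X + 2)) * i1 +
      (PowerSeries.X * (PowerSeries.X + 1) ^ 2) * i2
  · have e : gS 3 1 = (PowerSeries.C (1 : ℚ) - PowerSeries.X)⁻¹ +
        (PowerSeries.C (1 : ℚ) + PowerSeries.X)⁻¹ := by
      simp [gS]
    show (zz 1 + 1) ^ 2 * ((zz 1 + 1) ^ 2 - 1) * gS 3 1 = -2 * PowerSeries.X ^ 2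
    have z0 : zz 1 + 1 = PowerSeries.X := by simp [zz]
    rw [e, z0]
    rw [c1] at i1 j1 ⊢
    linear_combination (PowerSeries.X ^ 2 * (PowerSeries.X - 1)) * i1 -
      (PowerSeries.X ^ 2 * (PowerSeries.X + 1)) * j1
  · have e : gS 3 2 = (PowerSeries.C (1 : ℚ) - PowerSeries.X)⁻¹ +
        (PowerSeries.C (2 : ℚ) - PowerSeries.X)⁻¹ := by
      simp [gS, Finset.sum_Icc_succ_top, k3i_c2]
    show (zz 2 + 1) ^ 2 * ((zz 2 + 1) ^ 2 - 1) * gS 3 2 =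
      -(PowerSeries.X * (PowerSeries.X - 1) * (2 * PowerSeries.X - 3))
    have z0 : zz 2 + 1 = PowerSeries.X - 1 := by
      have : (PowerSeries.C ((2 : ℕ) : ℚ)) = 2 := by rw [Nat.cast_ofNat]; exact map_ofNat _ 2
      simp only [zz, this]
      ring
    rw [e, z0]
    rw [c1] at j1 ⊢
    rw [c2] at j2 ⊢
    linear_combination (-(PowerSeries.X * (PowerSeries.X - 1) * (PowerSeries.X - 2))) * j1 -
      (PowerSeries.X * (PowerSeries.X - 1) ^ 2) * j2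

/-- `ε ^ 4 = -3 D + 2 D gS + (4 w ^ 2 + q ^ 2) ε ^ 2` -/
theorem eps3_four (i : Fin 3) : ((PowerSeries.C (q : ℚ) * PowerSeries.X) ^ 2) ^ 2 =
    -3 * aeval (uz q i) (D3 q) + 2 * (aeval (uz q i) (D3 q) * gS 3 i) +
      (4 * aeval (uz q i) (W3 q) + PowerSeries.C (q : ℚ) ^ 2) *
        (PowerSeries.C (q : ℚ) * PowerSeries.X) ^ 2 := by
  rw [DG3, D3_eq, aeval_W3]
  fin_cases i
  · simp [uz, zz]
    ring
  · simp [uz, zz]
    ring
  · simp [uz, zz, k3i_c2]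
    ring

/-- `D gS ε ^ 2 = 2 (w ^ 2 - q ^ 2) D - (w ^ 2 - q ^ 2) D gS - 2 w ^ 4 ε ^ 2` -/
theorem DG3_eps (i : Fin 3) : aeval (uz q i) (D3 q) * gS 3 i *
      (PowerSeries.C (q : ℚ) * PowerSeries.X) ^ 2 =
    2 * (aeval (uz q i) (W3 q) - PowerSeries.C (q : ℚ) ^ 2) * aeval (uz q i) (D3 q) -
      (aeval (uz q i) (W3 q) - PowerSeries.C (q : ℚ) ^ 2) *
        (aeval (uz q i) (D3 q) * gS 3 i) -
      2 * aeval (uz q i) (W3 q) ^ 2 * (PowerSeries.C (q : ℚ) * PowerSeries.X) ^ 2 := by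
  rw [DG3, D3_eq, aeval_W3]
  fin_cases i
  · simp [uz, zz]
    ring
  · simp [uz, zz]
    ring
  · simp [uz, zz, k3i_c2]
    ring

/-- the signs of the first block -/
def chi0 (i : Fin 3) : ℚ := ![1, -1, -1] i

/-- the signs of the second block -/
def chi1 (i : Fin 3) : ℚ := ![1, 1, -1] i

/-- The combination of the two regular blocks: with `e0 = E(u)`, `e1 = E(u + q)`,
`e1 - e0 = -q w ê` one has
`χ0 (q + 2 u) e0 + χ1 (3 q + 2 u) e1 = q (e0 + e1) (1 - h3) + q w ^ 2 ê h3 + q⁻¹ D ê gS`. -/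
theorem comb3 (hq : 0 < q) (i : Fin 3) (e0 e1 ê : PowerSeries ℚ)
    (h : e1 - e0 = -(PowerSeries.C (q : ℚ) * (uz q i + PowerSeries.C (q : ℚ)) * ê)) :
    PowerSeries.C (chi0 i) * ((PowerSeries.C (q : ℚ) + 2 * uz q i) * e0) +
      PowerSeries.C (chi1 i) * ((3 * PowerSeries.C (q : ℚ) + 2 * uz q i) * e1) =
    PowerSeries.C (q : ℚ) * (e0 + e1) * (1 - h3 i) +
      PowerSeries.C (q : ℚ) * aeval (uz q i) (W3 q) * ê * h3 i +
      PowerSeries.C (q : ℚ)⁻¹ * (aeval (uz q i) (D3 q) * gS 3 i) * ê := by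
  have hc : PowerSeries.C (q : ℚ)⁻¹ * PowerSeries.C (q : ℚ) = 1 := by
    rw [← map_mul, inv_mul_cancel₀ (by exact_mod_cast hq.ne'), map_one]
  have he : e1 = e0 - PowerSeries.C (q : ℚ) * (uz q i + PowerSeries.C (q : ℚ)) * ê := by
    linear_combination h
  have hD : PowerSeries.C (q : ℚ)⁻¹ * (aeval (uz q i) (D3 q) * gS 3 i) =
      PowerSeries.C (q : ℚ) ^ 3 * ((![PowerSeries.X * (PowerSeries.X + 1) * (2 * PowerSeries.X + 3),
      -2 * PowerSeries.X ^ 2,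
      -(PowerSeries.X * (PowerSeries.X - 1) * (2 * PowerSeries.X - 3))] : Fin 3 → PowerSeries ℚ)
        i) := by
    rw [DG3]
    linear_combination (PowerSeries.C (q : ℚ) ^ 3 *
      ((![PowerSeries.X * (PowerSeries.X + 1) * (2 * PowerSeries.X + 3),
      -2 * PowerSeries.X ^ 2,
      -(PowerSeries.X * (PowerSeries.X - 1) * (2 * PowerSeries.X - 3))] : Fin 3 → PowerSeries ℚ)
        i)) * hc
  rw [hD, aeval_W3, he]
  fin_cases i
  · simp [uz, zz, h3, chi0, chi1]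
    ring
  · simp [uz, zz, h3, chi0, chi1]
    ring
  · simp [uz, zz, h3, chi0, chi1, k3i_c2]
    ring

end Pool.Agent.D4
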