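import Pool.Agent.D4.PK3I
import Pool.Agent.D4.PRing

/-!
# Classes with three poles: the kernel

Adaptation of `sums_eq` (`Pool/Agent/Z9/PK2R.lean`) and of `E_eq`, `R.Eh`.  At the pole `i` the
variable is `ε = u + q i`; the blocks of `q - 1` consecutive inverses are reflected by `m ↦ q - m`.
-/

open Finset Polynomial

namespace Pool.Agent.D4

open Pool.Agent.Z5 (hser Hs VG PG Cls yv gS zz sg2 cl SF OD uz)

variable {A q L r : ℕ} [hq : Fact q.Prime]

/-- inverses of `m + u` -/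
noncomputable def iu (q i m : ℕ) : PowerSeries ℚ :=
  (PowerSeries.C (m : ℚ) + PowerSeries.C (1 : ℚ) * uz q i)⁻¹

/-- inverses of `n + q ζ` -/
private noncomputable def k3sF (q : ℕ) (n : ℤ) : PowerSeries ℚ :=
  (PowerSeries.C (n : ℚ) + PowerSeries.C (q : ℚ) * PowerSeries.X)⁻¹

private theorem k3s_inv_neg (φ : PowerSeries ℚ) : (-φ)⁻¹ = -φ⁻¹ := by
  by_cases h : PowerSeries.constantCoeff φ = 0
  · have h' : PowerSeries.constantCoeff (-φ) = 0 := by rw [map_neg, h, neg_zero]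
    rw [PowerSeries.inv_eq_zero.mpr h, PowerSeries.inv_eq_zero.mpr h', neg_zero]
  · have h' : PowerSeries.constantCoeff (-φ) ≠ 0 := by rw [map_neg]; exact neg_ne_zero.mpr h
    symm
    rw [PowerSeries.eq_inv_iff_mul_eq_one h']
    rw [neg_mul_neg]
    exact PowerSeries.inv_mul_cancel _ h

omit hq in
private theorem k3s_neg (n : ℤ) :
    (PowerSeries.C (n : ℚ) + PowerSeries.C (-(q : ℚ)) * PowerSeries.X)⁻¹ = -k3sF q (-n) := by
  unfold k3sF
  rw [← k3s_inv_neg]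
  congr 1
  push_cast
  rw [map_neg, map_neg]
  ring

omit hq in
private theorem k3s_iu (i m : ℕ) : iu q i m = k3sF q ((m : ℤ) - q * i) := by
  unfold iu k3sF uz zz
  congr 1
  push_cast
  rw [map_one, map_sub, map_mul]
  ring

omit hq in
private theorem k3s_iu' (i m : ℕ) :
    (PowerSeries.C (m : ℚ) + PowerSeries.C (-1 : ℚ) * uz q i)⁻¹ = -k3sF q (-(m : ℤ) - q * i) := by
  rw [show (-(m : ℤ) - q * i) = -((m : ℤ) + q * i) by ring, ← k3s_neg]
  unfold uz zz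
  congr 1
  push_cast
  rw [map_add, map_mul, map_neg, map_neg, map_one]
  ring

private theorem k3s_gp (m : ℕ) (hm : 1 ≤ m) :
    PowerSeries.C (q : ℚ)⁻¹ * (PowerSeries.C (m : ℚ) + PowerSeries.X)⁻¹ = k3sF q (q * m) := by
  have hq0 : (q : ℚ) ≠ 0 := by exact_mod_cast hq.out.ne_zero
  have hm0 : (m : ℚ) ≠ 0 := by exact_mod_cast (by omega : m ≠ 0)
  unfold k3sF
  rw [PowerSeries.eq_inv_iff_mul_eq_one (by simp [hq0, hm0])]
  have h := PowerSeries.inv_mul_cancel (PowerSeries.C (m : ℚ) + PowerSeries.X) (by simpa using hm0)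
  have hqi : (PowerSeries.C (q : ℚ)⁻¹ : PowerSeries ℚ) * PowerSeries.C (q : ℚ) = 1 := by
    rw [← map_mul, inv_mul_cancel₀ hq0, map_one]
  push_cast
  rw [map_mul]
  linear_combination (PowerSeries.C (m : ℚ) + PowerSeries.X)⁻¹ *
    (PowerSeries.C (m : ℚ) + PowerSeries.X) * hqi + h

private theorem k3s_gm (m : ℕ) (hm : 1 ≤ m) :
    PowerSeries.C (q : ℚ)⁻¹ * (PowerSeries.C (m : ℚ) - PowerSeries.X)⁻¹ = -k3sF q (-(q * m)) := by
  have hq0 : (q : ℚ) ≠ 0 := by exact_mod_cast hq.out.ne_zero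
  have hm0 : (m : ℚ) ≠ 0 := by exact_mod_cast (by omega : m ≠ 0)
  unfold k3sF
  rw [← k3s_inv_neg, PowerSeries.eq_inv_iff_mul_eq_one (by simp [hq0, hm0])]
  have h := PowerSeries.inv_mul_cancel (PowerSeries.C (m : ℚ) - PowerSeries.X) (by simpa using hm0)
  have hqi : (PowerSeries.C (q : ℚ)⁻¹ : PowerSeries ℚ) * PowerSeries.C (q : ℚ) = 1 := by
    rw [← map_mul, inv_mul_cancel₀ hq0, map_one]
  push_cast
  rw [map_neg, map_mul]
  linear_combination (PowerSeries.C (m : ℚ) - PowerSeries.X)⁻¹ *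
    (PowerSeries.C (m : ℚ) - PowerSeries.X) * hqi + h

private theorem k3s_split {M : Type*} [AddCommMonoid M] {q : ℕ} (hq : 0 < q) (b : ℕ)
    (f : ℕ → M) : ∑ m ∈ Icc 1 (q + b), f m =
      ∑ m ∈ Icc 1 (q - 1), f m + f q + ∑ m ∈ Icc 1 b, f (q + m) := by
  induction b with
  | zero =>
    obtain ⟨s, rfl⟩ : ∃ s, q = s + 1 := ⟨q - 1, by omega⟩
    rw [add_zero, Finset.sum_Icc_succ_top (by omega)]
    simp
  | succ b ih =>
    rw [← add_assoc, Finset.sum_Icc_succ_top (by omega), ih,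
      Finset.sum_Icc_succ_top (by omega : 1 ≤ b + 1)]
    rw [← add_assoc, ← add_assoc]

private theorem k3s_refl {M : Type*} [AddCommMonoid M] {q : ℕ} (f g : ℕ → M)
    (h : ∀ m, 1 ≤ m → m ≤ q - 1 → f m = g (q - m)) :
    ∑ m ∈ Icc 1 (q - 1), f m = ∑ m ∈ Icc 1 (q - 1), g m := by
  refine Finset.sum_bij' (fun m _ => q - m) (fun m _ => q - m) ?_ ?_ ?_ ?_ ?_
  · intro m hm; rw [Finset.mem_Icc] at hm ⊢; omega
  · intro m hm; rw [Finset.mem_Icc] at hm ⊢; omega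
  · intro m hm; rw [Finset.mem_Icc] at hm; omega
  · intro m hm; rw [Finset.mem_Icc] at hm; omega
  · intro m hm
    rw [Finset.mem_Icc] at hm
    exact h m hm.1 hm.2

/-- the singular sums at the three poles: `χ0 T(u) + χ1 T(u + q)`, `q⁻¹ gS` and two regular sums -/
theorem sums3_eq {r' : ℕ} (hL : L = r + 2 * q + r') (i : Fin 3) :
    ∑ m ∈ Icc 1 (r + q * (i : ℕ)),
        (PowerSeries.C (m : ℚ) + PowerSeries.C (-(q : ℚ)) * PowerSeries.X)⁻¹ +
      ∑ m ∈ Icc 1 (L - (r + q * (i : ℕ))),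
        (PowerSeries.C (m : ℚ) + PowerSeries.C (q : ℚ) * PowerSeries.X)⁻¹ =
    ∑ m ∈ Icc 1 r, (PowerSeries.C (m : ℚ) + PowerSeries.C (-1 : ℚ) * uz q i)⁻¹ +
      ∑ m ∈ Icc 1 r', iu q i (2 * q + m) + PowerSeries.C (q : ℚ)⁻¹ * gS 3 i +
      PowerSeries.C (chi0 i) * ∑ m ∈ Icc 1 (q - 1), iu q i m +
      PowerSeries.C (chi1 i) * ∑ m ∈ Icc 1 (q - 1), iu q i (q + m) := by
  have hqpos : 0 < q := hq.out.pos
  have a1 : ∀ m : ℕ, (PowerSeries.C (m : ℚ) + PowerSeries.C (-(q : ℚ)) * PowerSeries.X)⁻¹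
      = -k3sF q (-(m : ℤ)) := fun m => by
    have := k3s_neg (q := q) (m : ℤ)
    push_cast at this
    exact this
  have a2 : ∀ m : ℕ, (PowerSeries.C (m : ℚ) + PowerSeries.C (q : ℚ) * PowerSeries.X)⁻¹
      = k3sF q (m : ℤ) := fun m => by
    unfold k3sF; push_cast; rfl
  simp only [a1, a2, k3s_iu, k3s_iu', Finset.sum_neg_distrib]
  have h2C : (PowerSeries.C (2 : ℚ) : PowerSeries ℚ) = 2 := map_ofNat _ 2
  have i12 : Icc 1 2 = ({1, 2} : Finset ℕ) := by decide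
  fin_cases i
  · -- i = 0
    have e2 : L - (r + q * 0) = q + (q + r') := by omega
    have hg : PowerSeries.C (q : ℚ)⁻¹ * gS 3 0 = k3sF q (q * (1:ℕ)) + k3sF q (q * (2:ℕ)) := by
      rw [← k3s_gp 1 (by norm_num), ← k3s_gp 2 (by norm_num), ← mul_add]
      congr 1
      simp [gS, i12, h2C]
    simp only [Fin.zero_eta, Fin.isValue]
    rw [e2, k3s_split hqpos, k3s_split hqpos, hg]
    simp only [chi0, chi1, Matrix.cons_val_zero, map_one, one_mul]
    push_cast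
    simp only [mul_zero, add_zero, sub_zero, mul_one]
    have c1 : ∑ m ∈ Icc 1 r', k3sF q ((q : ℤ) + ((q : ℤ) + (m : ℤ)))
        = ∑ m ∈ Icc 1 r', k3sF q (2 * (q : ℤ) + (m : ℤ)) :=
      Finset.sum_congr rfl fun m _ => by congr 1; ring
    rw [c1, show (q : ℤ) + q = q * 2 by ring]
    abel
  · -- i = 1
    have e1 : r + q * 1 = q + r := by ring
    have e2 : L - (q + r) = q + r' := by omega
    have hg : PowerSeries.C (q : ℚ)⁻¹ * gS 3 1 = -k3sF q (-(q * (1:ℕ))) + k3sF q (q * (1:ℕ)) := by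
      rw [← k3s_gp 1 (by norm_num), ← k3s_gm 1 (by norm_num), ← mul_add]
      congr 1
      simp [gS]
    simp only [Fin.mk_one, Fin.isValue]
    rw [e1, e2, k3s_split hqpos, k3s_split hqpos, hg]
    simp only [chi0, chi1, Matrix.cons_val_one, Matrix.cons_val_zero, map_one, one_mul, map_neg]
    push_cast
    simp only [mul_one]
    have c1 : ∑ m ∈ Icc 1 (q - 1), k3sF q (-(m : ℤ))
        = ∑ m ∈ Icc 1 (q - 1), k3sF q ((m : ℤ) - q) :=
      k3s_refl _ _ fun m h1 h2 => by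
        rw [Nat.cast_sub (by omega)]; congr 1; ring
    have c2 : ∑ m ∈ Icc 1 r, k3sF q (-((q : ℤ) + (m : ℤ)))
        = ∑ m ∈ Icc 1 r, k3sF q (-(m : ℤ) - (q : ℤ)) :=
      Finset.sum_congr rfl fun m _ => by congr 1; ring
    have c3 : ∑ m ∈ Icc 1 r', k3sF q ((q : ℤ) + (m : ℤ))
        = ∑ m ∈ Icc 1 r', k3sF q (2 * (q : ℤ) + (m : ℤ) - (q : ℤ)) :=
      Finset.sum_congr rfl fun m _ => by congr 1; ring
    have c4 : ∑ m ∈ Icc 1 (q - 1), k3sF q ((q : ℤ) + (m : ℤ) - (q : ℤ))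
        = ∑ m ∈ Icc 1 (q - 1), k3sF q (m : ℤ) :=
      Finset.sum_congr rfl fun m _ => by congr 1; ring
    rw [c1, c2, c3, c4]
    ring
  · -- i = 2
    have e1 : r + q * 2 = q + (q + r) := by ring
    have e2 : L - (q + (q + r)) = r' := by omega
    have hg : PowerSeries.C (q : ℚ)⁻¹ * gS 3 2
        = -k3sF q (-(q * (1:ℕ))) + -k3sF q (-(q * (2:ℕ))) := by
      rw [← k3s_gm 1 (by norm_num), ← k3s_gm 2 (by norm_num), ← mul_add]
      congr 1
      simp [gS, i12, h2C]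
    simp only [Fin.reduceFinMk, Fin.isValue]
    rw [e1, e2, k3s_split hqpos, k3s_split hqpos, hg]
    simp only [chi0, chi1, Matrix.cons_val, map_neg, map_one]
    push_cast
    simp only [mul_one]
    have c1 : ∑ m ∈ Icc 1 (q - 1), k3sF q (-(m : ℤ))
        = ∑ m ∈ Icc 1 (q - 1), k3sF q ((q : ℤ) + (m : ℤ) - (q : ℤ) * 2) :=
      k3s_refl _ _ fun m h1 h2 => by
        rw [Nat.cast_sub (by omega)]; congr 1; ring
    have c2 : ∑ m ∈ Icc 1 (q - 1), k3sF q (-((q : ℤ) + (m : ℤ)))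
        = ∑ m ∈ Icc 1 (q - 1), k3sF q ((m : ℤ) - (q : ℤ) * 2) :=
      k3s_refl _ _ fun m h1 h2 => by
        rw [Nat.cast_sub (by omega)]; congr 1; ring
    have c3 : ∑ m ∈ Icc 1 r, k3sF q (-((q : ℤ) + ((q : ℤ) + (m : ℤ))))
        = ∑ m ∈ Icc 1 r, k3sF q (-(m : ℤ) - (q : ℤ) * 2) :=
      Finset.sum_congr rfl fun m _ => by congr 1; ring
    have c4 : ∑ m ∈ Icc 1 r', k3sF q (2 * (q : ℤ) + (m : ℤ) - (q : ℤ) * 2)
        = ∑ m ∈ Icc 1 r', k3sF q (m : ℤ) :=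
      Finset.sum_congr rfl fun m _ => by congr 1; ring
    rw [c1, c2, c3, c4, show (-((q : ℤ) + q)) = -(q * 2) by ring]
    ring

/-- `E(u)` -/
noncomputable def E0 (q i : ℕ) : PowerSeries ℚ :=
  PowerSeries.C (1 / 2 : ℚ) * ∑ m ∈ Icc 1 (q - 1), iu q i m * iu q i (q - m)

/-- `E(u + q)` -/
noncomputable def E1 (q i : ℕ) : PowerSeries ℚ :=
  PowerSeries.C (1 / 2 : ℚ) * ∑ m ∈ Icc 1 (q - 1), iu q i (q + m) * iu q i (2 * q - m)

/-- `ê` -/
noncomputable def Eh3 (q i : ℕ) : PowerSeries ℚ :=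
  ∑ m ∈ Icc 1 (q - 1), iu q i m * iu q i (q - m) * (iu q i (q + m) * iu q i (2 * q - m))

omit hq in
private theorem k3s_mul {i m : ℕ} (h : ¬ q ∣ m) :
    (PowerSeries.C (m : ℚ) + uz q i) * iu q i m = 1 := by
  unfold iu
  have hcc : PowerSeries.constantCoeff (PowerSeries.C (m : ℚ) + PowerSeries.C (1 : ℚ) * uz q i)
      ≠ 0 := by
    simp only [uz, zz, map_add, map_mul, map_sub, PowerSeries.constantCoeff_C,
      PowerSeries.constantCoeff_X]
    intro h0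
    apply h
    have h1 : (m : ℚ) = q * i := by linarith
    have h2 : m = q * i := by exact_mod_cast h1
    exact ⟨i, h2⟩
  have := PowerSeries.mul_inv_cancel _ hcc
  rw [map_one, one_mul] at this ⊢
  exact this

omit hq in
private theorem k3s_nd {m : ℕ} (h1 : 1 ≤ m) (h2 : m ≤ q - 1) : ¬ q ∣ m :=
  fun h => by have := Nat.le_of_dvd (by omega) h; omega

omit hq in
private theorem k3s_pair {i a m : ℕ} (ha : q ∣ a) (h1 : 1 ≤ m) (h2 : m ≤ q - 1) :
    iu q i (a + m) + iu q i (a + (q - m)) =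
      (PowerSeries.C (2 * (a : ℚ) + q) + 2 * uz q i) * (iu q i (a + m) * iu q i (a + (q - m))) := by
  have n1 : ¬ q ∣ a + m := fun h => k3s_nd h1 h2 ((Nat.dvd_add_right ha).mp h)
  have n2 : ¬ q ∣ a + (q - m) := fun h =>
    k3s_nd (m := q - m) (by omega) (by omega) ((Nat.dvd_add_right ha).mp h)
  have m1 := k3s_mul (i := i) n1
  have m2 := k3s_mul (i := i) n2
  push_cast [Nat.cast_sub (by omega : m ≤ q)] at m1 m2
  rw [map_add] at m1
  rw [map_add, map_sub] at m2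
  have e : (PowerSeries.C (2 * (a : ℚ) + q) : PowerSeries ℚ)
      = 2 * PowerSeries.C (a : ℚ) + PowerSeries.C (q : ℚ) := by
    rw [map_add, map_mul, map_ofNat]
  rw [e]
  linear_combination (-iu q i (a + (q - m))) * m1 - iu q i (a + m) * m2

omit hq in
private theorem k3s_T {i a : ℕ} (ha : q ∣ a) : ∑ m ∈ Icc 1 (q - 1), iu q i (a + m) =
    (PowerSeries.C (2 * (a : ℚ) + q) + 2 * uz q i) *
      (PowerSeries.C (1 / 2 : ℚ) * ∑ m ∈ Icc 1 (q - 1), iu q i (a + m) * iu q i (a + (q - m))) := by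
  have hrefl : ∑ m ∈ Icc 1 (q - 1), iu q i (a + m) = ∑ m ∈ Icc 1 (q - 1), iu q i (a + (q - m)) :=
    k3s_refl _ _ fun m h1 h2 => by
      congr 2; omega
  have h2 : (PowerSeries.C (1 / 2 : ℚ) : PowerSeries ℚ) * 2 = 1 := by
    have : (2 : PowerSeries ℚ) = PowerSeries.C 2 := by
      rw [map_ofNat]
    rw [this, ← map_mul]; norm_num
  have h3 : ∑ m ∈ Icc 1 (q - 1), iu q i (a + m) + ∑ m ∈ Icc 1 (q - 1), iu q i (a + m) =
      (PowerSeries.C (2 * (a : ℚ) + q) + 2 * uz q i) *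
        ∑ m ∈ Icc 1 (q - 1), iu q i (a + m) * iu q i (a + (q - m)) := by
    conv_lhs => rw [hrefl, ← hrefl]
    nth_rewrite 2 [hrefl]
    rw [← Finset.sum_add_distrib, Finset.mul_sum]
    refine Finset.sum_congr rfl fun m hm => ?_
    rw [Finset.mem_Icc] at hm
    exact k3s_pair ha hm.1 hm.2
  linear_combination (-∑ m ∈ Icc 1 (q - 1), iu q i (a + m)) * h2 + PowerSeries.C (1 / 2 : ℚ) * h3

/-- `T(u) = (q + 2 u) E(u)` -/
theorem T0_eq (i : ℕ) : ∑ m ∈ Icc 1 (q - 1), iu q i m =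
    (PowerSeries.C (q : ℚ) + 2 * uz q i) * E0 q i := by
  have h := k3s_T (q := q) (i := i) (a := 0) (dvd_zero q)
  simp only [zero_add, Nat.cast_zero, mul_zero] at h
  exact h

/-- `T(u + q) = (3 q + 2 u) E(u + q)` -/
theorem T1_eq (i : ℕ) : ∑ m ∈ Icc 1 (q - 1), iu q i (q + m) =
    (3 * PowerSeries.C (q : ℚ) + 2 * uz q i) * E1 q i := by
  have h := k3s_T (q := q) (i := i) (a := q) (dvd_refl q)
  have e : (PowerSeries.C (2 * (q : ℚ) + q) : PowerSeries ℚ) = 3 * PowerSeries.C (q : ℚ) := by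
    rw [map_add, map_mul, map_ofNat]; ring
  rw [h, e]
  unfold E1
  congr 2
  refine Finset.sum_congr rfl fun m hm => ?_
  rw [Finset.mem_Icc] at hm
  congr 2
  omega

/-- `E(u + q) - E(u) = -q w ê` -/
theorem E1_sub_E0 (i : ℕ) : E1 q i - E0 q i =
    -(PowerSeries.C (q : ℚ) * (uz q i + PowerSeries.C (q : ℚ)) * Eh3 q i) := by
  unfold E0 E1 Eh3
  rw [← mul_sub, ← Finset.sum_sub_distrib, Finset.mul_sum, Finset.mul_sum,
    ← Finset.sum_neg_distrib]
  refine Finset.sum_congr rfl fun m hm => ?_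
  rw [Finset.mem_Icc] at hm
  have hqd : ∀ k, ¬ q ∣ k → ¬ q ∣ q + k := fun k h h' => h ((Nat.dvd_add_right (dvd_refl q)).mp h')
  have n1 : ¬ q ∣ m := k3s_nd hm.1 hm.2
  have n2 : ¬ q ∣ q - m := k3s_nd (by omega) (by omega)
  have n3 : ¬ q ∣ q + m := hqd _ n1
  have n4 : ¬ q ∣ 2 * q - m := by
    rw [show 2 * q - m = q + (q - m) by omega]
    exact hqd _ n2
  have m1 := k3s_mul (i := i) n1
  have m2 := k3s_mul (i := i) n2
  have m3 := k3s_mul (i := i) n3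
  have m4 := k3s_mul (i := i) n4
  rw [Nat.cast_sub (by omega)] at m2 m4
  push_cast at m3 m4
  rw [map_sub] at m2 m4
  rw [map_add] at m3
  rw [map_mul, map_ofNat] at m4
  have h2 : (PowerSeries.C (1 / 2 : ℚ) : PowerSeries ℚ) * 2 = 1 := by
    have : (2 : PowerSeries ℚ) = PowerSeries.C 2 := by
      rw [map_ofNat]
    rw [this, ← map_mul]; norm_num
  set a := iu q i m
  set b := iu q i (q - m)
  set c := iu q i (q + m)
  set d := iu q i (2 * q - m)
  set Q : PowerSeries ℚ := PowerSeries.C (q : ℚ)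
  set M : PowerSeries ℚ := PowerSeries.C (m : ℚ)
  set U := uz q i
  set H : PowerSeries ℚ := PowerSeries.C (1 / 2 : ℚ)
  -- `c d - a b = -2 q (q + u) a b c d`
  have key : c * d - a * b = -(2 * Q * (U + Q) * (a * b * (c * d))) := by
    have k1 : c * d = (M + U) * (Q - M + U) * (a * b * (c * d)) := by
      linear_combination (-(c * d)) * m1 - (M + U) * a * c * d * m2
    have k2 : a * b = (Q + M + U) * (2 * Q - M + U) * (a * b * (c * d)) := by
      linear_combination (-(a * b)) * m3 - (Q + M + U) * c * a * b * m4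
    linear_combination k1 - k2
  linear_combination H * key - Q * (U + Q) * (a * b * (c * d)) * h2

private theorem k3s_half (h5 : 5 ≤ q) : VG q 0 (1 / 2 : ℚ) := by
  have : ¬ q ∣ 2 := fun h => by have := Nat.le_of_dvd (by norm_num) h; omega
  have := Pool.Agent.Z5.VG_nat_inv (q := q) this
  simpa using this

private theorem k3s_RP {m : ℕ} (h : ¬ q ∣ m) : RP A q 3 (fun i => iu q i m) := RP.lin_inv h

theorem E0_RP (h5 : 5 ≤ q) : RP A q 3 (fun i => E0 q i) := by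
  unfold E0
  refine RP.mul (RP.const (k3s_half h5)) (RP.sum _ _ fun m hm => ?_)
  rw [Finset.mem_Icc] at hm
  exact RP.mul (k3s_RP (k3s_nd hm.1 hm.2)) (k3s_RP (k3s_nd (by omega) (by omega)))

private theorem k3s_nd3 {m : ℕ} (h1 : 1 ≤ m) (h2 : m ≤ q - 1) : ¬ q ∣ q + m :=
  fun h' => k3s_nd h1 h2 ((Nat.dvd_add_right (dvd_refl q)).mp h')

private theorem k3s_nd4 {m : ℕ} (h1 : 1 ≤ m) (h2 : m ≤ q - 1) : ¬ q ∣ 2 * q - m := by
  rw [show 2 * q - m = q + (q - m) by omega]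
  exact k3s_nd3 (by omega) (by omega)

theorem E1_RP (h5 : 5 ≤ q) : RP A q 3 (fun i => E1 q i) := by
  unfold E1
  refine RP.mul (RP.const (k3s_half h5)) (RP.sum _ _ fun m hm => ?_)
  rw [Finset.mem_Icc] at hm
  exact RP.mul (k3s_RP (k3s_nd3 hm.1 hm.2)) (k3s_RP (k3s_nd4 hm.1 hm.2))

theorem Eh3_RP (h5 : 5 ≤ q) : RP A q 3 (fun i => Eh3 q i) := by
  unfold Eh3
  refine RP.sum _ _ fun m hm => ?_
  rw [Finset.mem_Icc] at hm
  exact RP.mul (RP.mul (k3s_RP (k3s_nd hm.1 hm.2)) (k3s_RP (k3s_nd (by omega) (by omega))))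
    (RP.mul (k3s_RP (k3s_nd3 hm.1 hm.2)) (k3s_RP (k3s_nd4 hm.1 hm.2)))

end Pool.Agent.D4
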